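import Pool.Agent.Lib.MP_b57e3c_ag_M.Ldef

/-!
# Module AlgA : the singular point of the three variable polynomial

Put `x = q12 e1 e2`, `y = q13 e1 e3`, `z = q23 e2 e3`, `α = q12 q13 q23 e1 e2 e3`. The equations
`e_i F_i` read `e1 + x + y + α = 0`, `e2 + x + z + α = 0`, `e3 + y + z + α = 0`, and `F0` gives
`1 = x + y + z + 2 α`. The relation `x y z = α e1 e2 e3` becomes, with `β = 1 - α`,
`e1 = z - β`, `e2 = y - β`, `e3 = x - β`: `x y z = α (z - β)(y - β)(x - β)`, i.e. with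
`x + y + z = 2β - 1` and `p = xyz`, `s = xy + yz + zx`: `p = - α (α β² + β s - p)`, so
`β (p + α s + α² β) = 0`, and `p + α s + α² β = (x + α)(y + α)(z + α)`.
If `x + α = 0` then `1 + q13 q23 e3 = 0` (divide by `q12 e1 e2`), and `F1` is
`1 + q12 e2 + q13 e3 + q12 (q13 q23 e3) e2 = 1 + q13 e3 = 0`, so `q23 = 1` (`q13 e3 = -1` and
`q13 q23 e3 = -1`): contradiction. Similarly for `y`, `z`. So `β = 0`: `α = 1`, `e1 = z`, `e2 = y`,
`e3 = x`, `x + y + z = -1`, and `1 + e3 = x + α ≠ 0` etc.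
-/

open Complex

namespace AMC

theorem alg3 {q12 q13 q23 e1 e2 e3 : ℂ} (h12 : q12 ≠ 0) (h13 : q13 ≠ 0) (h23 : q23 ≠ 0)
    (k12 : q12 ≠ 1) (k13 : q13 ≠ 1) (k23 : q23 ≠ 1) (he1 : e1 ≠ 0) (he2 : e2 ≠ 0) (he3 : e3 ≠ 0)
    (F0 : 1 + e1 + e2 + e3 + q12 * e1 * e2 + q13 * e1 * e3 + q23 * e2 * e3
      + q12 * q13 * q23 * e1 * e2 * e3 = 0)
    (F1 : 1 + q12 * e2 + q13 * e3 + q12 * q13 * q23 * e2 * e3 = 0)
    (F2 : 1 + q12 * e1 + q23 * e3 + q12 * q13 * q23 * e1 * e3 = 0)
    (F3 : 1 + q13 * e1 + q23 * e2 + q12 * q13 * q23 * e1 * e2 = 0) :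
    q12 * e1 * e2 = e3 ∧ q13 * e1 * e3 = e2 ∧ q23 * e2 * e3 = e1 ∧ e1 + e2 + e3 = -1 ∧
      1 + e1 ≠ 0 ∧ 1 + e2 ≠ 0 ∧ 1 + e3 ≠ 0 := by
  obtain ⟨x, hx⟩ : ∃ x, x = q12 * e1 * e2 := ⟨_, rfl⟩
  obtain ⟨y, hy⟩ : ∃ y, y = q13 * e1 * e3 := ⟨_, rfl⟩
  obtain ⟨z, hz⟩ : ∃ z, z = q23 * e2 * e3 := ⟨_, rfl⟩
  obtain ⟨α, hα⟩ : ∃ α, α = q12 * q13 * q23 * e1 * e2 * e3 := ⟨_, rfl⟩
  have E1 : e1 + x + y + α = 0 := by
    rw [hx, hy, hα]
    linear_combination e1 * F1
  have E2 : e2 + x + z + α = 0 := by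
    rw [hx, hz, hα]
    linear_combination e2 * F2
  have E3 : e3 + y + z + α = 0 := by
    rw [hy, hz, hα]
    linear_combination e3 * F3
  have E0 : 1 = x + y + z + 2 * α := by
    have h : 1 + e1 + e2 + e3 + x + y + z + α = 0 := by
      rw [hx, hy, hz, hα]
      linear_combination F0
    linear_combination h - E1 - E2 - E3
  have hprod : x * y * z = α * (e1 * e2 * e3) := by
    rw [hx, hy, hz, hα]
    ring
  have hxa : x + α ≠ 0 := by
    intro h
    have h1 : q12 * e1 * e2 * (1 + q13 * q23 * e3) = 0 := by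
      rw [hx, hα] at h
      linear_combination h
    have h2 : 1 + q13 * q23 * e3 = 0 := by
      rcases mul_eq_zero.1 h1 with h3 | h3
      · exact absurd h3 (mul_ne_zero (mul_ne_zero h12 he1) he2)
      · exact h3
    have h3 : 1 + q13 * e3 = 0 := by linear_combination F1 - q12 * e2 * h2
    exact k23 (by linear_combination q23 * h3 - h2)
  have hya : y + α ≠ 0 := by
    intro h
    have h1 : q13 * e1 * e3 * (1 + q12 * q23 * e2) = 0 := by
      rw [hy, hα] at h
      linear_combination h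
    have h2 : 1 + q12 * q23 * e2 = 0 := by
      rcases mul_eq_zero.1 h1 with h3 | h3
      · exact absurd h3 (mul_ne_zero (mul_ne_zero h13 he1) he3)
      · exact h3
    have h3 : 1 + q12 * e2 = 0 := by linear_combination F1 - q13 * e3 * h2
    exact k23 (by linear_combination q23 * h3 - h2)
  have hza : z + α ≠ 0 := by
    intro h
    have h1 : q23 * e2 * e3 * (1 + q12 * q13 * e1) = 0 := by
      rw [hz, hα] at h
      linear_combination h
    have h2 : 1 + q12 * q13 * e1 = 0 := by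
      rcases mul_eq_zero.1 h1 with h3 | h3
      · exact absurd h3 (mul_ne_zero (mul_ne_zero h23 he2) he3)
      · exact h3
    have h3 : 1 + q12 * e1 = 0 := by linear_combination F2 - q23 * e3 * h2
    exact k13 (by linear_combination q13 * h3 - h2)
  have e1' : e1 = z - (1 - α) := by linear_combination E1 + E0
  have e2' : e2 = y - (1 - α) := by linear_combination E2 + E0
  have e3' : e3 = x - (1 - α) := by linear_combination E3 + E0
  have hfac : (1 - α) * ((x + α) * ((y + α) * (z + α))) = 0 := by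
    rw [e1', e2', e3'] at hprod
    have hz' : z = 1 - x - y - 2 * α := by linear_combination -E0
    rw [hz'] at hprod ⊢
    linear_combination hprod
  have hβ : 1 - α = 0 := by
    rcases mul_eq_zero.1 hfac with h | h
    · exact h
    · exact absurd h (mul_ne_zero hxa (mul_ne_zero hya hza))
  refine ⟨?_, ?_, ?_, ?_, ?_, ?_, ?_⟩
  · rw [← hx]
    linear_combination hβ - e3'
  · rw [← hy]
    linear_combination hβ - e2'
  · rw [← hz]
    linear_combination hβ - e1'
  · linear_combination e1' + e2' + e3' - E0 - hβ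
  · intro h
    exact hza (by linear_combination h - e1')
  · intro h
    exact hya (by linear_combination h - e2')
  · intro h
    exact hxa (by linear_combination h - e3')

end AMC
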