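import Pool.Agent.Lib.MP_b57e3c_ag_M.Ldef

/-!
# Module AlgB : parametrisation of a triple

Choose `s` (`= s12`) with `s² = e3/(e1 e2)` and put `t = -1/(e1 s)` (`= s13`), `u = 1/(e2 s)` (`= s23`).
Then `e1 = -1/(s t)`, `e2 = 1/(s u)`, `e3 = -1/(t u)` and `e1 + e2 + e3 = -1` says
`u (1 - s t) = t - s`. `s² ≠ 1`: `e3 = e1 e2` would give `(1 + e1)(1 + e2) = 1 + e1 + e2 + e1 e2 = -e3 + e1 e2 = 0`;
similarly `t² = e2/(e1 e3) ≠ 1`, `u² = e1/(e2 e3) ≠ 1`; `s t ≠ 1` since `e1 ≠ -1`.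
Put `a1 = 1`, `a2 = (1 - s)/(1 + s)`, `a3 = (1 - t)/(1 + t)`: `(a1 - a2)/(a1 + a2) = s`,
`(a1 - a3)/(a1 + a3) = t`, `(a2 - a3)/(a2 + a3) = (t - s)/(1 - s t) = u`
(`a2 + a3 = 2 (1 - s t)/((1+s)(1+t)) ≠ 0`, `a2 ≠ a3` since `s ≠ t`: `t - s = u (1 - s t) ≠ 0`).
Then all the formulas follow (`field_simp`).
-/

open Complex

namespace AMC

theorem param3 {e1 e2 e3 : ℂ} (he1 : e1 ≠ 0) (he2 : e2 ≠ 0) (he3 : e3 ≠ 0) (k1 : 1 + e1 ≠ 0)
    (k2 : 1 + e2 ≠ 0) (k3 : 1 + e3 ≠ 0) (hs : e1 + e2 + e3 = -1) :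
    ∃ a1 a2 a3 : ℂ, a1 ≠ 0 ∧ a2 ≠ 0 ∧ a3 ≠ 0 ∧ a1 ≠ a2 ∧ a1 ≠ a3 ∧ a2 ≠ a3 ∧
      a1 + a2 ≠ 0 ∧ a1 + a3 ≠ 0 ∧ a2 + a3 ≠ 0 ∧
      e1 = - ((a1 + a2) / (a1 - a2) * ((a1 + a3) / (a1 - a3))) ∧
      e2 = - ((a2 + a1) / (a2 - a1) * ((a2 + a3) / (a2 - a3))) ∧
      e3 = - ((a3 + a1) / (a3 - a1) * ((a3 + a2) / (a3 - a2))) ∧
      e3 / (e1 * e2) = ((a1 - a2) / (a1 + a2)) ^ 2 ∧
      e2 / (e1 * e3) = ((a1 - a3) / (a1 + a3)) ^ 2 ∧
      e1 / (e2 * e3) = ((a2 - a3) / (a2 + a3)) ^ 2 := by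
  obtain ⟨s, hss⟩ := IsAlgClosed.exists_pow_nat_eq (e3 / (e1 * e2)) (n := 2) two_pos
  have hs2 : s ^ 2 * (e1 * e2) = e3 := by
    rw [hss]
    field_simp
  have hs0 : s ≠ 0 := by
    rintro rfl
    exact he3 (by rw [← hs2]; ring)
  obtain ⟨t, ht⟩ : ∃ t, t = -1 / (e1 * s) := ⟨_, rfl⟩
  obtain ⟨u, hu⟩ : ∃ u, u = 1 / (e2 * s) := ⟨_, rfl⟩
  have ht' : e1 * s * t = -1 := by
    rw [ht]
    field_simp
  have hu' : e2 * s * u = 1 := by
    rw [hu]
    field_simp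
  have htu : e3 * t * u = -1 := by
    rw [← hs2]
    linear_combination (e2 * s * u) * ht' - hu'
  have ht0 : t ≠ 0 := by
    rintro rfl
    simp at ht'
  have hu0 : u ≠ 0 := by
    rintro rfl
    simp at hu'
  have c1 : e1 = -1 / (s * t) := by
    field_simp
    linear_combination ht'
  have c2 : e2 = 1 / (s * u) := by
    field_simp
    linear_combination hu'
  have c3 : e3 = -1 / (t * u) := by
    field_simp
    linear_combination htu
  have key : t - s = u * (1 - s * t) := by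
    have h1 : e1 * (s * t * u) = -u := by linear_combination u * ht'
    have h2 : e2 * (s * t * u) = t := by linear_combination t * hu'
    have h3 : e3 * (s * t * u) = -s := by linear_combination s * htu
    linear_combination -(h1 + h2 + h3) + (s * t * u) * hs
  have n1 : 1 + s ≠ 0 ∧ 1 - s ≠ 0 := by
    have h : s ^ 2 ≠ 1 := by
      intro h
      rw [h] at hs2
      have h1 : (1 + e1) * (1 + e2) = 0 := by linear_combination hs + hs2
      exact mul_ne_zero k1 k2 h1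
    constructor
    · intro h1
      exact h (by linear_combination (s - 1) * h1)
    · intro h1
      exact h (by linear_combination -(s + 1) * h1)
  have n2 : 1 + t ≠ 0 ∧ 1 - t ≠ 0 := by
    have h : t ^ 2 ≠ 1 := by
      intro h
      have h0 : e1 * e3 = e2 := by
        have h1 : e1 ^ 2 * s ^ 2 * t ^ 2 = 1 := by
          linear_combination (e1 * s * t - 1) * ht'
        rw [h, mul_one] at h1
        rw [← hs2]
        linear_combination e2 * h1
      have h1 : (1 + e1) * (1 + e3) = 0 := by linear_combination hs + h0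
      exact mul_ne_zero k1 k3 h1
    constructor
    · intro h1
      exact h (by linear_combination (t - 1) * h1)
    · intro h1
      exact h (by linear_combination -(t + 1) * h1)
  have n3 : 1 - s * t ≠ 0 := by
    intro h
    have h1 : s * t = 1 := by linear_combination -h
    apply k1
    linear_combination ht' - e1 * h1 + 0 * h
  have n4 : t - s ≠ 0 := by
    rw [key]
    exact mul_ne_zero hu0 n3
  obtain ⟨a2, ha2⟩ : ∃ a2, a2 = (1 - s) / (1 + s) := ⟨_, rfl⟩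
  obtain ⟨a3, ha3⟩ : ∃ a3, a3 = (1 - t) / (1 + t) := ⟨_, rfl⟩
  have g1 : 1 + s ≠ 0 := n1.1
  have g2 : 1 + t ≠ 0 := n2.1
  have p12 : 1 + a2 = 2 / (1 + s) := by
    rw [ha2]
    field_simp
    ring
  have m12 : 1 - a2 = 2 * s / (1 + s) := by
    rw [ha2]
    field_simp
    ring
  have p13 : 1 + a3 = 2 / (1 + t) := by
    rw [ha3]
    field_simp
    ring
  have m13 : 1 - a3 = 2 * t / (1 + t) := by
    rw [ha3]
    field_simp
    ring
  have p23 : a2 + a3 = 2 * (1 - s * t) / ((1 + s) * (1 + t)) := by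
    rw [ha2, ha3]
    field_simp
    ring
  have m23 : a2 - a3 = 2 * (t - s) / ((1 + s) * (1 + t)) := by
    rw [ha2, ha3]
    field_simp
    ring
  have z2 : a2 ≠ 0 := by
    rw [ha2]
    exact div_ne_zero n1.2 g1
  have z3 : a3 ≠ 0 := by
    rw [ha3]
    exact div_ne_zero n2.2 g2
  have P12 : 1 + a2 ≠ 0 := by
    rw [p12]
    exact div_ne_zero two_ne_zero g1
  have M12 : 1 - a2 ≠ 0 := by
    rw [m12]
    exact div_ne_zero (mul_ne_zero two_ne_zero hs0) g1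
  have P13 : 1 + a3 ≠ 0 := by
    rw [p13]
    exact div_ne_zero two_ne_zero g2
  have M13 : 1 - a3 ≠ 0 := by
    rw [m13]
    exact div_ne_zero (mul_ne_zero two_ne_zero ht0) g2
  have P23 : a2 + a3 ≠ 0 := by
    rw [p23]
    exact div_ne_zero (mul_ne_zero two_ne_zero n3) (mul_ne_zero g1 g2)
  have M23 : a2 - a3 ≠ 0 := by
    rw [m23]
    exact div_ne_zero (mul_ne_zero two_ne_zero n4) (mul_ne_zero g1 g2)
  have r12 : (1 - a2) / (1 + a2) = s := by
    rw [m12, p12]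
    field_simp
  have r13 : (1 - a3) / (1 + a3) = t := by
    rw [m13, p13]
    field_simp
  have r23 : (a2 - a3) / (a2 + a3) = u := by
    rw [m23, p23, key]
    field_simp
  have i12 : (1 + a2) / (1 - a2) = 1 / s := by rw [← r12, one_div_div]
  have i13 : (1 + a3) / (1 - a3) = 1 / t := by rw [← r13, one_div_div]
  have i23 : (a2 + a3) / (a2 - a3) = 1 / u := by rw [← r23, one_div_div]
  have i21 : (a2 + 1) / (a2 - 1) = -(1 / s) := by
    rw [← i12, ← neg_sub 1 a2, div_neg, add_comm]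
  have i31 : (a3 + 1) / (a3 - 1) = -(1 / t) := by
    rw [← i13, ← neg_sub 1 a3, div_neg, add_comm]
  have i32 : (a3 + a2) / (a3 - a2) = -(1 / u) := by
    rw [← i23, ← neg_sub a2 a3, div_neg, add_comm]
  refine ⟨1, a2, a3, one_ne_zero, z2, z3, sub_ne_zero.1 M12, sub_ne_zero.1 M13,
    sub_ne_zero.1 M23, P12, P13, P23, ?_, ?_, ?_, ?_, ?_, ?_⟩
  · rw [i12, i13, c1]
    field_simp
  · rw [i21, i23, c2]
    field_simp
  · rw [i31, i32, c3]
    field_simp
  · rw [r12, hss]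
  · rw [r13, c1, c2, c3]
    field_simp
  · rw [r23, c1, c2, c3]
    field_simp

end AMC
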