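import Pool.Agent.Lib.MP_b57e3c_ag_M.Ldef

/-!
# Module AlgC : the first two coefficients of the hyperdeterminant

Let `s x y z = tens … w x y z * e1^x e2^y e3^z`; by the relations
`s 000 = 1 + w`, `s 100 = e1 (1 + w q1)`, `s 010 = e2 (1 + w q2)`, `s 001 = e3 (1 + w q3)`,
`s 110 = e3 (1 + w q1 q2)`, `s 101 = e2 (1 + w q1 q3)`, `s 011 = e1 (1 + w q2 q3)`,
`s 111 = 1 + w q1 q2 q3` (`q12 q13 q23 e1 e2 e3 = 1` follows from the product of the three relations).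
`hdet s = (e1 e2 e3)² hdet (tens …)` (every monomial has weight 2 in each index).
Let `t = (1 1; 0 1)^{⊗3} s` : `t 000` = sum of all `s`, `t 100` = sum of the `s 1yz`, …,
`t 110 = s 110 + s 111`, …, `t 111 = s 111`; `hdet t = hdet s` (invariance; `ring`). Explicitly, with
`P = obP`, `v1 = q1 (e1 + e3 q2 + e2 q3 + q2 q3)`, …: (using `e1 + e2 + e3 = -1`)
`t 000 = w P`, `t 100 = w v1`, `t 010 = w v2`, `t 001 = w v3`, `t 110 = (1 + e3) + w q1 q2 (e3 + q3)`,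
`t 101 = (1 + e2) + w q1 q3 (e2 + q2)`, `t 011 = (1 + e1) + w q2 q3 (e1 + q1)`, `t 111 = 1 + w q1 q2 q3`.
So `hdet t = 4 w P (1+e1)(1+e2)(1+e3) + w² (…)`; it vanishes for all small `w`, so (divide by `w`,
let `w → 0`) `P = 0`; then `hdet t = w² (kal ((1+e1) v1) ((1+e2) v2) ((1+e3) v3) + w (…))`, so
`obL = 0`. (It is a polynomial in `w`: compare coefficients, or take limits.)
-/

open Complex Filter Topology

namespace AMC

/-- hyperdeterminant in coordinates -/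
private def AlgC_hd (a000 a001 a010 a011 a100 a101 a110 a111 : ℂ) : ℂ :=
  a000 ^ 2 * a111 ^ 2 + a001 ^ 2 * a110 ^ 2 + a010 ^ 2 * a101 ^ 2 + a100 ^ 2 * a011 ^ 2
  - 2 * (a000 * a001 * a110 * a111 + a000 * a010 * a101 * a111 + a000 * a100 * a011 * a111
    + a001 * a010 * a101 * a110 + a001 * a100 * a011 * a110 + a010 * a100 * a011 * a101)
  + 4 * (a000 * a011 * a101 * a110 + a001 * a010 * a100 * a111)

private theorem AlgC_scale (a000 a001 a010 a011 a100 a101 a110 a111 e1 e2 e3 : ℂ) :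
    AlgC_hd a000 (e3 * a001) (e2 * a010) (e2 * e3 * a011) (e1 * a100) (e1 * e3 * a101)
      (e1 * e2 * a110) (e1 * e2 * e3 * a111) =
      (e1 * e2 * e3) ^ 2 * AlgC_hd a000 a001 a010 a011 a100 a101 a110 a111 := by
  unfold AlgC_hd
  ring

private theorem AlgC_inv (a000 a001 a010 a011 a100 a101 a110 a111 : ℂ) :
    AlgC_hd (a000 + a001 + a010 + a011 + a100 + a101 + a110 + a111)
      (a001 + a011 + a101 + a111) (a010 + a011 + a110 + a111) (a011 + a111)
      (a100 + a101 + a110 + a111) (a101 + a111) (a110 + a111) a111 =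
      AlgC_hd a000 a001 a010 a011 a100 a101 a110 a111 := by
  unfold AlgC_hd
  ring

theorem hdet_coeff {q12 q13 q23 e1 e2 e3 q1 q2 q3 : ℂ} (he1 : e1 ≠ 0) (he2 : e2 ≠ 0)
    (he3 : e3 ≠ 0) (k1 : 1 + e1 ≠ 0) (k2 : 1 + e2 ≠ 0) (k3 : 1 + e3 ≠ 0)
    (hs : e1 + e2 + e3 = -1) (r12 : q12 * e1 * e2 = e3) (r13 : q13 * e1 * e3 = e2)
    (r23 : q23 * e2 * e3 = e1)
    (h : ∀ᶠ w in 𝓝 (0 : ℂ), AM.hdet (tens q12 q13 q23 q1 q2 q3 w) = 0) :
    obP e1 e2 e3 q1 q2 q3 = 0 ∧ obL e1 e2 e3 q1 q2 q3 = 0 := by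
  have he : e1 * e2 * e3 ≠ 0 := mul_ne_zero (mul_ne_zero he1 he2) he3
  have hq : e1 * e2 * e3 * (q12 * q13 * q23) = 1 := by
    have h1 : (e1 * e2 * e3) * (e1 * e2 * e3 * (q12 * q13 * q23)) = (e1 * e2 * e3) * 1 := by
      calc (e1 * e2 * e3) * (e1 * e2 * e3 * (q12 * q13 * q23))
          = (q12 * e1 * e2) * (q13 * e1 * e3) * (q23 * e2 * e3) := by ring
        _ = (e1 * e2 * e3) * 1 := by rw [r12, r13, r23]; ring
    exact mul_left_cancel₀ he h1
  obtain ⟨P, hP⟩ : ∃ P, P = obP e1 e2 e3 q1 q2 q3 := ⟨_, rfl⟩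
  obtain ⟨v1, hv1⟩ : ∃ v, v = q1 * (e1 + e3 * q2 + e2 * q3 + q2 * q3) := ⟨_, rfl⟩
  obtain ⟨v2, hv2⟩ : ∃ v, v = q2 * (e2 + e3 * q1 + e1 * q3 + q1 * q3) := ⟨_, rfl⟩
  obtain ⟨v3, hv3⟩ : ∃ v, v = q3 * (e3 + e2 * q1 + e1 * q2 + q1 * q2) := ⟨_, rfl⟩
  obtain ⟨d1, hd1⟩ : ∃ d, d = q2 * q3 * (e1 + q1) := ⟨_, rfl⟩
  obtain ⟨d2, hd2⟩ : ∃ d, d = q1 * q3 * (e2 + q2) := ⟨_, rfl⟩
  obtain ⟨d3, hd3⟩ : ∃ d, d = q1 * q2 * (e3 + q3) := ⟨_, rfl⟩
  have hmain : ∀ w : ℂ, (e1 * e2 * e3) ^ 2 * AM.hdet (tens q12 q13 q23 q1 q2 q3 w) =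
      AlgC_hd (w * P) (w * v3) (w * v2) ((1 + e1) + w * d1) (w * v1) ((1 + e2) + w * d2)
        ((1 + e3) + w * d3) (1 + w * (q1 * q2 * q3)) := by
    intro w
    have h1 : AM.hdet (tens q12 q13 q23 q1 q2 q3 w) =
        AlgC_hd (1 + w) (1 + w * q3) (1 + w * q2) (q23 * (1 + w * (q2 * q3)))
          (1 + w * q1) (q13 * (1 + w * (q1 * q3))) (q12 * (1 + w * (q1 * q2)))
          (q12 * q13 * q23 * (1 + w * (q1 * q2 * q3))) := by
      unfold AM.hdet AlgC_hd tens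
      simp only [Bool.and_true, Bool.and_false, Bool.false_eq_true, if_true, if_false, one_mul,
        mul_one, Bool.and_self]
    rw [h1, ← AlgC_scale, ← AlgC_inv]
    have s011 : e2 * e3 * (q23 * (1 + w * (q2 * q3))) = e1 * (1 + w * (q2 * q3)) := by
      rw [← r23]
      ring
    have s101 : e1 * e3 * (q13 * (1 + w * (q1 * q3))) = e2 * (1 + w * (q1 * q3)) := by
      rw [← r13]
      ring
    have s110 : e1 * e2 * (q12 * (1 + w * (q1 * q2))) = e3 * (1 + w * (q1 * q2)) := by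
      rw [← r12]
      ring
    have s111 : e1 * e2 * e3 * (q12 * q13 * q23 * (1 + w * (q1 * q2 * q3))) =
        1 + w * (q1 * q2 * q3) := by
      linear_combination (1 + w * (q1 * q2 * q3)) * hq
    rw [s011, s101, s110, s111]
    have t000 : 1 + w + e3 * (1 + w * q3) + e2 * (1 + w * q2) + e1 * (1 + w * (q2 * q3)) +
        e1 * (1 + w * q1) + e2 * (1 + w * (q1 * q3)) + e3 * (1 + w * (q1 * q2)) +
        (1 + w * (q1 * q2 * q3)) = w * P := by
      rw [hP]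
      unfold obP
      linear_combination 2 * hs
    have t001 : e3 * (1 + w * q3) + e1 * (1 + w * (q2 * q3)) + e2 * (1 + w * (q1 * q3)) +
        (1 + w * (q1 * q2 * q3)) = w * v3 := by
      rw [hv3]
      linear_combination hs
    have t010 : e2 * (1 + w * q2) + e1 * (1 + w * (q2 * q3)) + e3 * (1 + w * (q1 * q2)) +
        (1 + w * (q1 * q2 * q3)) = w * v2 := by
      rw [hv2]
      linear_combination hs
    have t100 : e1 * (1 + w * q1) + e2 * (1 + w * (q1 * q3)) + e3 * (1 + w * (q1 * q2)) +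
        (1 + w * (q1 * q2 * q3)) = w * v1 := by
      rw [hv1]
      linear_combination hs
    have t011 : e1 * (1 + w * (q2 * q3)) + (1 + w * (q1 * q2 * q3)) = (1 + e1) + w * d1 := by
      rw [hd1]
      ring
    have t101 : e2 * (1 + w * (q1 * q3)) + (1 + w * (q1 * q2 * q3)) = (1 + e2) + w * d2 := by
      rw [hd2]
      ring
    have t110 : e3 * (1 + w * (q1 * q2)) + (1 + w * (q1 * q2 * q3)) = (1 + e3) + w * d3 := by
      rw [hd3]
      ring
    rw [t000, t001, t010, t100, t011, t101, t110]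
  -- first order
  obtain ⟨G, hG⟩ : ∃ G : ℂ → ℂ, G = fun w => P ^ 2 * (1 + w * (q1 * q2 * q3)) ^ 2
      + v3 ^ 2 * ((1 + e3) + w * d3) ^ 2 + v2 ^ 2 * ((1 + e2) + w * d2) ^ 2
      + v1 ^ 2 * ((1 + e1) + w * d1) ^ 2
      - 2 * (P * v3 * ((1 + e3) + w * d3) * (1 + w * (q1 * q2 * q3))
        + P * v2 * ((1 + e2) + w * d2) * (1 + w * (q1 * q2 * q3))
        + P * v1 * ((1 + e1) + w * d1) * (1 + w * (q1 * q2 * q3))
        + v3 * v2 * ((1 + e2) + w * d2) * ((1 + e3) + w * d3)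
        + v3 * v1 * ((1 + e1) + w * d1) * ((1 + e3) + w * d3)
        + v2 * v1 * ((1 + e1) + w * d1) * ((1 + e2) + w * d2))
      + 4 * w * (v3 * v2 * v1 * (1 + w * (q1 * q2 * q3))) := ⟨_, rfl⟩
  have hGc : Continuous G := by
    rw [hG]
    fun_prop
  have hfac : ∀ w : ℂ, AlgC_hd (w * P) (w * v3) (w * v2) ((1 + e1) + w * d1) (w * v1)
        ((1 + e2) + w * d2) ((1 + e3) + w * d3) (1 + w * (q1 * q2 * q3)) =
      w * (4 * P * (((1 + e1) + w * d1) * ((1 + e2) + w * d2) * ((1 + e3) + w * d3))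
        + w * G w) := by
    intro w
    rw [hG]
    unfold AlgC_hd
    ring
  have hev : ∀ᶠ w in 𝓝[≠] (0 : ℂ), w ≠ 0 ∧ AM.hdet (tens q12 q13 q23 q1 q2 q3 w) = 0 :=
    (eventually_mem_nhdsWithin.and (h.filter_mono nhdsWithin_le_nhds))
  have hP0 : P = 0 := by
    have hc : Continuous fun w : ℂ => 4 * P * (((1 + e1) + w * d1) * ((1 + e2) + w * d2) *
        ((1 + e3) + w * d3)) + w * G w := by
      fun_prop
    have h1 : ∀ᶠ w in 𝓝[≠] (0 : ℂ), 4 * P * (((1 + e1) + w * d1) * ((1 + e2) + w * d2) *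
        ((1 + e3) + w * d3)) + w * G w = 0 := by
      filter_upwards [hev] with w hw
      have h2 := hmain w
      rw [hw.2, mul_zero, hfac] at h2
      rcases mul_eq_zero.1 h2.symm with h3 | h3
      · exact absurd h3 hw.1
      · exact h3
    have h2 := tendsto_nhds_unique
      ((hc.tendsto 0).mono_left (nhdsWithin_le_nhds (s := {0}ᶜ)))
      (tendsto_const_nhds.congr' (h1.mono fun w hw => hw.symm))
    have h3 : 4 * P * ((1 + e1) * (1 + e2) * (1 + e3)) = 0 := by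
      rw [← h2]
      ring
    rcases mul_eq_zero.1 h3 with h4 | h4
    · rcases mul_eq_zero.1 h4 with h5 | h5
      · norm_num at h5
      · exact h5
    · exact absurd h4 (mul_ne_zero (mul_ne_zero k1 k2) k3)
  refine ⟨hP ▸ hP0, ?_⟩
  have h1 : ∀ᶠ w in 𝓝[≠] (0 : ℂ), G w = 0 := by
    filter_upwards [hev] with w hw
    have h2 := hmain w
    rw [hw.2, mul_zero, hfac, hP0] at h2
    have h3 : w * (w * G w) = 0 := by
      rw [h2]
      ring
    rcases mul_eq_zero.1 h3 with h4 | h4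
    · exact absurd h4 hw.1
    · rcases mul_eq_zero.1 h4 with h5 | h5
      · exact absurd h5 hw.1
      · exact h5
  have h2 := tendsto_nhds_unique
    ((hGc.tendsto 0).mono_left (nhdsWithin_le_nhds (s := {0}ᶜ)))
    (tendsto_const_nhds.congr' (h1.mono fun w hw => hw.symm))
  rw [hG] at h2
  simp only [hP0] at h2
  unfold obL kal
  rw [← hv1, ← hv2, ← hv3, ← h2]
  ring

end AMC
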