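import Pool.Agent.Lib.MP_b57e3c_ag_M.Ldef

/-!
# Module AlgD : the two obstructions imply that the triple `(1, 2, 4)` is of hyperelliptic type

Put `A = 1 + e1 q1 + e2 q2 + e3 q1 q2`, `B = e3 + e1 q2 + e2 q1 + q1 q2`, so `obP = A + B q3`. Identity
(with `e1 + e2 + e3 = -1`): `(e1 + e3 q2) B - (e2 + q2) A = (1 + e1)(1 + e3)(1 - q2)²`. So `B ≠ 0` (else
`A = 0` too). Write `v1, v2, v3` for the arguments in `obL` without the factors `1 + e_i`: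
`v3 = q3 B = -A`, `v1 B = q1 ((e1 + e3 q2) B + (e2 + q2) q3 B) = q1 (1+e1)(1+e3)(1-q2)²`,
`v2 B = q2 (1+e2)(1+e3)(1-q1)²`. Hence
`B² obL = (1+e3)² kal ((1+e1)² q1 (1-q2)²) ((1+e2)² q2 (1-q1)²) (-A B)` and, with `q12 = e3/(e1 e2)`,
`kal ((1+e1)² q1 (1-q2)²) ((1+e2)² q2 (1-q1)²) (-A B) = e1² e2² (1-q1)² (1-q2)² trp q12 q1 q2`
(polynomial identity after multiplication by powers of `e1 e2`, `e3 = -1 - e1 - e2`; checked by
computer). So `trp q12 q1 q2 = 0`.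
-/

open Complex

namespace AMC

theorem cofactor {e1 e2 e3 q1 q2 q3 : ℂ} (he1 : e1 ≠ 0) (he2 : e2 ≠ 0) (he3 : e3 ≠ 0)
    (k1 : 1 + e1 ≠ 0) (k2 : 1 + e2 ≠ 0) (k3 : 1 + e3 ≠ 0) (hs : e1 + e2 + e3 = -1)
    (m1 : q1 ≠ 1) (m2 : q2 ≠ 1) (hP : obP e1 e2 e3 q1 q2 q3 = 0)
    (hL : obL e1 e2 e3 q1 q2 q3 = 0) :
    trp (e3 / (e1 * e2)) q1 q2 = 0 ∧ e3 + e1 * q2 + e2 * q1 + q1 * q2 ≠ 0 := by
  obtain ⟨A, hA⟩ : ∃ A, A = 1 + e1 * q1 + e2 * q2 + e3 * q1 * q2 := ⟨_, rfl⟩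
  obtain ⟨B, hB⟩ : ∃ B, B = e3 + e1 * q2 + e2 * q1 + q1 * q2 := ⟨_, rfl⟩
  have hAB : A + B * q3 = 0 := by
    rw [hA, hB, ← hP]
    unfold obP
    ring
  have he : e3 = -1 - e1 - e2 := by linear_combination hs
  have id1 : (e1 + e3 * q2) * B - (e2 + q2) * A = (1 + e1) * (1 + e3) * (1 - q2) ^ 2 := by
    rw [hA, hB, he]
    ring
  have id2 : (e2 + e3 * q1) * B - (e1 + q1) * A = (1 + e2) * (1 + e3) * (1 - q1) ^ 2 := by
    rw [hA, hB, he]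
    ring
  have n1 : 1 - q1 ≠ 0 := sub_ne_zero.2 (Ne.symm m1)
  have n2 : 1 - q2 ≠ 0 := sub_ne_zero.2 (Ne.symm m2)
  have hB0 : B ≠ 0 := by
    intro h
    have hA0 : A = 0 := by rw [h] at hAB; linear_combination hAB
    rw [h, hA0] at id1
    have : (1 + e1) * (1 + e3) * (1 - q2) ^ 2 = 0 := by rw [← id1]; ring
    exact mul_ne_zero (mul_ne_zero k1 k3) (pow_ne_zero 2 n2) this
  refine ⟨?_, hB ▸ hB0⟩
  have v1 : q1 * (e1 + e3 * q2 + e2 * q3 + q2 * q3) * B =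
      q1 * ((1 + e1) * (1 + e3) * (1 - q2) ^ 2) := by
    rw [← id1]
    linear_combination q1 * (e2 + q2) * hAB
  have v2 : q2 * (e2 + e3 * q1 + e1 * q3 + q1 * q3) * B =
      q2 * ((1 + e2) * (1 + e3) * (1 - q1) ^ 2) := by
    rw [← id2]
    linear_combination q2 * (e1 + q1) * hAB
  have v3 : q3 * (e3 + e2 * q1 + e1 * q2 + q1 * q2) = -A := by
    have : q3 * (e3 + e2 * q1 + e1 * q2 + q1 * q2) = B * q3 := by
      rw [hB]
      ring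
    rw [this]
    linear_combination hAB
  have hkal : ∀ x y z w : ℂ, kal (x * w) (y * w) (z * w) = w ^ 2 * kal x y z := by
    intro x y z w
    unfold kal
    ring
  have h1 : kal ((1 + e1) ^ 2 * q1 * (1 - q2) ^ 2) ((1 + e2) ^ 2 * q2 * (1 - q1) ^ 2)
      (-(A * B)) = 0 := by
    have h2 : (1 + e3) ^ 2 * kal ((1 + e1) ^ 2 * q1 * (1 - q2) ^ 2)
        ((1 + e2) ^ 2 * q2 * (1 - q1) ^ 2) (-(A * B)) = 0 := by
      rw [← hkal]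
      have e1' : (1 + e1) ^ 2 * q1 * (1 - q2) ^ 2 * (1 + e3) =
          (1 + e1) * (q1 * (e1 + e3 * q2 + e2 * q3 + q2 * q3)) * B := by
        linear_combination -(1 + e1) * v1
      have e2' : (1 + e2) ^ 2 * q2 * (1 - q1) ^ 2 * (1 + e3) =
          (1 + e2) * (q2 * (e2 + e3 * q1 + e1 * q3 + q1 * q3)) * B := by
        linear_combination -(1 + e2) * v2
      have e3' : -(A * B) * (1 + e3) =
          (1 + e3) * (q3 * (e3 + e2 * q1 + e1 * q2 + q1 * q2)) * B := by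
        rw [v3]
        ring
      rw [e1', e2', e3', hkal]
      have := hL
      unfold obL at this
      rw [this, mul_zero]
    rcases mul_eq_zero.1 h2 with h3 | h3
    · exact absurd h3 (pow_ne_zero 2 k3)
    · exact h3
  have hT : e1 ^ 2 * e2 ^ 2 * trp (e3 / (e1 * e2)) q1 q2 =
      e3 ^ 2 * q1 ^ 2 * q2 ^ 2 + e3 ^ 2 + (e1 * e2) ^ 2 * (q1 ^ 2 + q2 ^ 2)
        - 2 * e3 * q1 * q2 * (e3 + e1 * e2 * (q1 + q2))
        - 2 * (e3 * (e1 * e2) * (q1 + q2) + (e1 * e2) ^ 2 * (q1 * q2))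
        + 8 * e3 * (e1 * e2) * q1 * q2 := by
    unfold trp
    field_simp
    ring
  have hid : kal ((1 + e1) ^ 2 * q1 * (1 - q2) ^ 2) ((1 + e2) ^ 2 * q2 * (1 - q1) ^ 2)
      (-(A * B)) = (1 - q1) ^ 2 * (1 - q2) ^ 2 *
      (e3 ^ 2 * q1 ^ 2 * q2 ^ 2 + e3 ^ 2 + (e1 * e2) ^ 2 * (q1 ^ 2 + q2 ^ 2)
        - 2 * e3 * q1 * q2 * (e3 + e1 * e2 * (q1 + q2))
        - 2 * (e3 * (e1 * e2) * (q1 + q2) + (e1 * e2) ^ 2 * (q1 * q2))
        + 8 * e3 * (e1 * e2) * q1 * q2) := by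
    rw [hA, hB, he]
    unfold kal
    ring
  rw [h1, ← hT] at hid
  have h4 : (1 - q1) ^ 2 * (1 - q2) ^ 2 * (e1 ^ 2 * e2 ^ 2) * trp (e3 / (e1 * e2)) q1 q2 = 0 := by
    rw [mul_assoc, ← hid]
  rcases mul_eq_zero.1 h4 with h5 | h5
  · exact absurd h5 (mul_ne_zero (mul_ne_zero (pow_ne_zero 2 n1) (pow_ne_zero 2 n2))
      (mul_ne_zero (pow_ne_zero 2 he1) (pow_ne_zero 2 he2)))
  · exact h5

end AMC
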