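import Pool.Agent.Lib.MP_b57e3c_ag_M.Ldef

/-!
# Module AlgE : parametrisation of the fourth index

Let `s = (a1 - a2)/(a1 + a2)` and choose `t`, `u` with `t² = q1`, `u² = q2`. `trp (s²) (t²) (u²)` is the
product of the four factors `s t u + σ1 u + σ2 t + σ3 s` (`σ1 σ2 σ3 = 1`, signs), so one of
them vanishes; changing the signs of `t` and `u` we may assume `t = s + u - s t u`·, precisely
`s + u - t - s t u = 0`, i.e. `t (1 + s u) = s + u`. Put `b = a2 (1 - u)/(1 + u)` (`u ≠ ±1` since `q2 ≠ 1`):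
`(a2 - b)/(a2 + b) = u`, `b ≠ 0`, `b ≠ a2` (`u ≠ 0`), `a2 + b = 2 a2/(1 + u) ≠ 0`. And
`(a1 - b)/(a1 + b) = (s + u)/(1 + s u)` where `a1 = a2 (1 + s)/(1 - s)`:
`a1 + b = 2 a2 (1 + s u)/((1 - s)(1 + u))`, `a1 - b = 2 a2 (s + u)/((1-s)(1+u))`. If `1 + s u = 0` then
`s + u = 0` too, so `u² = 1`, contradiction. So `a1 + b ≠ 0`, `t = (a1 - b)/(a1 + b)`, nonzero.
-/

open Complex

namespace AMC

theorem param_four {a1 a2 q1 q2 : ℂ} (h1 : a1 ≠ 0) (h2 : a2 ≠ 0) (h12 : a1 ≠ a2)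
    (k12 : a1 + a2 ≠ 0) (hq1 : q1 ≠ 0) (hq2 : q2 ≠ 0) (m1 : q1 ≠ 1) (m2 : q2 ≠ 1)
    (hT : trp (((a1 - a2) / (a1 + a2)) ^ 2) q1 q2 = 0) :
    ∃ b : ℂ, b ≠ 0 ∧ a1 ≠ b ∧ a2 ≠ b ∧ a1 + b ≠ 0 ∧ a2 + b ≠ 0 ∧
      q1 = ((a1 - b) / (a1 + b)) ^ 2 ∧ q2 = ((a2 - b) / (a2 + b)) ^ 2 := by
  obtain ⟨s, hs⟩ : ∃ s : ℂ, s = (a1 - a2) / (a1 + a2) := ⟨_, rfl⟩
  rw [← hs] at hT
  have hs' : s * (a1 + a2) = a1 - a2 := by
    rw [hs]
    field_simp
  obtain ⟨t, u, ht, hu, htu⟩ : ∃ t u : ℂ, t ^ 2 = q1 ∧ u ^ 2 = q2 ∧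
      s + u - t - s * t * u = 0 := by
    obtain ⟨t, ht⟩ := IsAlgClosed.exists_pow_nat_eq q1 (n := 2) two_pos
    obtain ⟨u, hu⟩ := IsAlgClosed.exists_pow_nat_eq q2 (n := 2) two_pos
    have hprod : (s + t + u + s * t * u) * ((s + t - u - s * t * u) *
        ((s - t + u - s * t * u) * (s - t - u + s * t * u))) = 0 := by
      rw [← hT, ← ht, ← hu]
      unfold trp
      ring
    rcases mul_eq_zero.1 hprod with h | h
    · exact ⟨-t, u, by rw [← ht]; ring, hu, by rw [← h]; ring⟩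
    rcases mul_eq_zero.1 h with h | h
    · exact ⟨-t, -u, by rw [← ht]; ring, by rw [← hu]; ring, by rw [← h]; ring⟩
    rcases mul_eq_zero.1 h with h | h
    · exact ⟨t, u, ht, hu, by rw [← h]; ring⟩
    · exact ⟨t, -u, ht, by rw [← hu]; ring, by rw [← h]; ring⟩
  have ht0 : t ≠ 0 := by
    rintro rfl
    exact hq1 (by rw [← ht]; ring)
  have hu0 : u ≠ 0 := by
    rintro rfl
    exact hq2 (by rw [← hu]; ring)
  have hu1 : 1 - u ≠ 0 := by
    intro h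
    have : u = 1 := by linear_combination -h
    exact m2 (by rw [← hu, this]; ring)
  have hu2 : 1 + u ≠ 0 := by
    intro h
    have : u = -1 := by linear_combination h
    exact m2 (by rw [← hu, this]; ring)
  have hsu : 1 + s * u ≠ 0 := by
    intro h
    have h3 : s + u = 0 := by linear_combination htu + t * h
    apply m2
    rw [← hu]
    linear_combination u * h3 - h
  have e1 : (a1 + a2 * (1 - u) / (1 + u)) = (a1 + a2) * (1 + s * u) / (1 + u) := by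
    field_simp
    linear_combination -u * hs'
  have e2 : (a1 - a2 * (1 - u) / (1 + u)) = (a1 + a2) * (s + u) / (1 + u) := by
    field_simp
    linear_combination -hs'
  have e3 : (a2 + a2 * (1 - u) / (1 + u)) = 2 * a2 / (1 + u) := by
    field_simp
    ring
  have e4 : (a2 - a2 * (1 - u) / (1 + u)) = 2 * a2 * u / (1 + u) := by
    field_simp
    ring
  have hst : s + u = t * (1 + s * u) := by linear_combination htu
  have hsu' : s + u ≠ 0 := by
    rw [hst]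
    exact mul_ne_zero ht0 hsu
  have n1 : a1 + a2 * (1 - u) / (1 + u) ≠ 0 := by
    rw [e1]
    exact div_ne_zero (mul_ne_zero k12 hsu) hu2
  have n2 : a1 - a2 * (1 - u) / (1 + u) ≠ 0 := by
    rw [e2]
    exact div_ne_zero (mul_ne_zero k12 hsu') hu2
  have n3 : a2 + a2 * (1 - u) / (1 + u) ≠ 0 := by
    rw [e3]
    exact div_ne_zero (mul_ne_zero two_ne_zero h2) hu2
  have n4 : a2 - a2 * (1 - u) / (1 + u) ≠ 0 := by
    rw [e4]
    exact div_ne_zero (mul_ne_zero (mul_ne_zero two_ne_zero h2) hu0) hu2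
  refine ⟨a2 * (1 - u) / (1 + u), div_ne_zero (mul_ne_zero h2 hu1) hu2, sub_ne_zero.1 n2,
    sub_ne_zero.1 n4, n1, n3, ?_, ?_⟩
  · rw [← ht, e1, e2, hst]
    congr 1
    field_simp
  · rw [← hu, e3, e4]
    congr 1
    field_simp

end AMC
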