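import Pool.Agent.Lib.MP_b57e3c_ag_M.AlgD
import Pool.Agent.Lib.MP_b57e3c_ag_M.AlgE

/-!
# Module AlgF : the fourth index, complete

* `hyp_identity`: for `e_i` given by the formulas and `q1 = ((a1-b)/(a1+b))²`, `q2 = ((a2-b)/(a2+b))²`:
`A (a3 + b)² + B (a3 - b)² = 0`, `A = 1 + e1 q1 + e2 q2 + e3 q1 q2`, `B = e3 + e1 q2 + e2 q1 + q1 q2`
(`field_simp; ring`).
* `four`: by `cofactor` (with `e3/(e1 e2) = ((a1-a2)/(a1+a2))²`, `field_simp`) and `param_four` we get `b`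
with the formulas for `q1`, `q2`; `B ≠ 0`. If `a3 + b = 0` the identity gives `B (2 a3)² = 0`,
contradiction. `obP = A + B q3 = 0` and the identity give `q3 = -A/B = ((a3-b)/(a3+b))²`, nonzero, so
`a3 ≠ b`. The conditions `1 + e_i ≠ 0`, `∑ e_i = -1` are consequences of the formulas:
`1 + e1 = -2 a1 (a2 + a3)/((a1 - a2)(a1 - a3))` etc.
-/

open Complex

namespace AMC

theorem hyp_identity {a1 a2 a3 b : ℂ} (h12 : a1 - a2 ≠ 0) (h13 : a1 - a3 ≠ 0)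
    (h23 : a2 - a3 ≠ 0) (k1 : a1 + b ≠ 0) (k2 : a2 + b ≠ 0) {e1 e2 e3 q1 q2 : ℂ}
    (E1 : e1 = - ((a1 + a2) / (a1 - a2) * ((a1 + a3) / (a1 - a3))))
    (E2 : e2 = - ((a2 + a1) / (a2 - a1) * ((a2 + a3) / (a2 - a3))))
    (E3 : e3 = - ((a3 + a1) / (a3 - a1) * ((a3 + a2) / (a3 - a2))))
    (Q1 : q1 = ((a1 - b) / (a1 + b)) ^ 2) (Q2 : q2 = ((a2 - b) / (a2 + b)) ^ 2) :
    (1 + e1 * q1 + e2 * q2 + e3 * q1 * q2) * (a3 + b) ^ 2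
      + (e3 + e1 * q2 + e2 * q1 + q1 * q2) * (a3 - b) ^ 2 = 0 := by
  have h21 : a2 - a1 ≠ 0 := by
    rw [← neg_sub]
    exact neg_ne_zero.2 h12
  have h31 : a3 - a1 ≠ 0 := by
    rw [← neg_sub]
    exact neg_ne_zero.2 h13
  have h32 : a3 - a2 ≠ 0 := by
    rw [← neg_sub]
    exact neg_ne_zero.2 h23
  have F1 : e1 * ((a1 - a2) * (a1 - a3)) = -((a1 + a2) * (a1 + a3)) := by
    rw [E1]
    field_simp
  have F2 : e2 * ((a1 - a2) * (a2 - a3)) = (a1 + a2) * (a2 + a3) := by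
    rw [E2]
    field_simp
    ring
  have F3 : e3 * ((a1 - a3) * (a2 - a3)) = -((a1 + a3) * (a2 + a3)) := by
    rw [E3]
    field_simp
    ring
  have G1 : q1 * (a1 + b) ^ 2 = (a1 - b) ^ 2 := by
    rw [Q1]
    field_simp
  have G2 : q2 * (a2 + b) ^ 2 = (a2 - b) ^ 2 := by
    rw [Q2]
    field_simp
  have hne : ((a1 - a2) * (a1 - a3) * (a2 - a3)) * ((a1 + b) ^ 2 * (a2 + b) ^ 2) ≠ 0 :=
    mul_ne_zero (mul_ne_zero (mul_ne_zero h12 h13) h23)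
      (mul_ne_zero (pow_ne_zero 2 k1) (pow_ne_zero 2 k2))
  refine (mul_eq_zero.1 ?_).resolve_left hne
  -- the products cleared of denominators
  have T0 : ((a1 - a2) * (a1 - a3) * (a2 - a3)) * ((a1 + b) ^ 2 * (a2 + b) ^ 2) *
      (1 + e1 * q1 + e2 * q2 + e3 * q1 * q2) =
      ((a1 - a2) * (a1 - a3) * (a2 - a3)) * ((a1 + b) ^ 2 * (a2 + b) ^ 2)
      + (a2 - a3) * (e1 * ((a1 - a2) * (a1 - a3))) * (q1 * (a1 + b) ^ 2) * (a2 + b) ^ 2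
      + (a1 - a3) * (e2 * ((a1 - a2) * (a2 - a3))) * (q2 * (a2 + b) ^ 2) * (a1 + b) ^ 2
      + (a1 - a2) * (e3 * ((a1 - a3) * (a2 - a3))) * (q1 * (a1 + b) ^ 2) *
        (q2 * (a2 + b) ^ 2) := by ring
  have T1 : ((a1 - a2) * (a1 - a3) * (a2 - a3)) * ((a1 + b) ^ 2 * (a2 + b) ^ 2) *
      (e3 + e1 * q2 + e2 * q1 + q1 * q2) =
      (a1 - a2) * (e3 * ((a1 - a3) * (a2 - a3))) * ((a1 + b) ^ 2 * (a2 + b) ^ 2)
      + (a2 - a3) * (e1 * ((a1 - a2) * (a1 - a3))) * (q2 * (a2 + b) ^ 2) * (a1 + b) ^ 2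
      + (a1 - a3) * (e2 * ((a1 - a2) * (a2 - a3))) * (q1 * (a1 + b) ^ 2) * (a2 + b) ^ 2
      + ((a1 - a2) * (a1 - a3) * (a2 - a3)) * (q1 * (a1 + b) ^ 2) *
        (q2 * (a2 + b) ^ 2) := by ring
  rw [F1, F2, F3, G1, G2] at T0 T1
  calc ((a1 - a2) * (a1 - a3) * (a2 - a3)) * ((a1 + b) ^ 2 * (a2 + b) ^ 2) *
      ((1 + e1 * q1 + e2 * q2 + e3 * q1 * q2) * (a3 + b) ^ 2
      + (e3 + e1 * q2 + e2 * q1 + q1 * q2) * (a3 - b) ^ 2)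
      = ((a1 - a2) * (a1 - a3) * (a2 - a3)) * ((a1 + b) ^ 2 * (a2 + b) ^ 2) *
        (1 + e1 * q1 + e2 * q2 + e3 * q1 * q2) * (a3 + b) ^ 2 +
        ((a1 - a2) * (a1 - a3) * (a2 - a3)) * ((a1 + b) ^ 2 * (a2 + b) ^ 2) *
        (e3 + e1 * q2 + e2 * q1 + q1 * q2) * (a3 - b) ^ 2 := by ring
    _ = 0 := by
      rw [T0, T1]
      ring

theorem four {a1 a2 a3 : ℂ} (h1 : a1 ≠ 0) (h2 : a2 ≠ 0) (h3 : a3 ≠ 0) (h12 : a1 ≠ a2)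
    (h13 : a1 ≠ a3) (h23 : a2 ≠ a3) (k12 : a1 + a2 ≠ 0) (k13 : a1 + a3 ≠ 0) (k23 : a2 + a3 ≠ 0)
    {e1 e2 e3 q1 q2 q3 : ℂ}
    (E1 : e1 = - ((a1 + a2) / (a1 - a2) * ((a1 + a3) / (a1 - a3))))
    (E2 : e2 = - ((a2 + a1) / (a2 - a1) * ((a2 + a3) / (a2 - a3))))
    (E3 : e3 = - ((a3 + a1) / (a3 - a1) * ((a3 + a2) / (a3 - a2))))
    (n1 : q1 ≠ 0) (n2 : q2 ≠ 0) (n3 : q3 ≠ 0) (m1 : q1 ≠ 1) (m2 : q2 ≠ 1)
    (hP : obP e1 e2 e3 q1 q2 q3 = 0) (hL : obL e1 e2 e3 q1 q2 q3 = 0) :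
    ∃ b : ℂ, b ≠ 0 ∧ a1 ≠ b ∧ a2 ≠ b ∧ a3 ≠ b ∧ a1 + b ≠ 0 ∧ a2 + b ≠ 0 ∧ a3 + b ≠ 0 ∧
      q1 = ((a1 - b) / (a1 + b)) ^ 2 ∧ q2 = ((a2 - b) / (a2 + b)) ^ 2 ∧
      q3 = ((a3 - b) / (a3 + b)) ^ 2 := by
  have d12 : a1 - a2 ≠ 0 := sub_ne_zero.2 h12
  have d13 : a1 - a3 ≠ 0 := sub_ne_zero.2 h13
  have d23 : a2 - a3 ≠ 0 := sub_ne_zero.2 h23
  have d21 : a2 - a1 ≠ 0 := sub_ne_zero.2 (Ne.symm h12)
  have d31 : a3 - a1 ≠ 0 := sub_ne_zero.2 (Ne.symm h13)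
  have d32 : a3 - a2 ≠ 0 := sub_ne_zero.2 (Ne.symm h23)
  have k21 : a2 + a1 ≠ 0 := by rwa [add_comm]
  have k31 : a3 + a1 ≠ 0 := by rwa [add_comm]
  have k32 : a3 + a2 ≠ 0 := by rwa [add_comm]
  have s1 : 1 + e1 = -(2 * a1 * (a2 + a3)) / ((a1 - a2) * (a1 - a3)) := by
    rw [E1]
    field_simp
    ring
  have s2 : 1 + e2 = -(2 * a2 * (a1 + a3)) / ((a2 - a1) * (a2 - a3)) := by
    rw [E2]
    field_simp
    ring
  have s3 : 1 + e3 = -(2 * a3 * (a1 + a2)) / ((a3 - a1) * (a3 - a2)) := by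
    rw [E3]
    field_simp
    ring
  have he1 : e1 ≠ 0 := by
    rw [E1]
    exact neg_ne_zero.2 (mul_ne_zero (div_ne_zero k12 d12) (div_ne_zero k13 d13))
  have he2 : e2 ≠ 0 := by
    rw [E2]
    exact neg_ne_zero.2 (mul_ne_zero (div_ne_zero k21 d21) (div_ne_zero k23 d23))
  have he3 : e3 ≠ 0 := by
    rw [E3]
    exact neg_ne_zero.2 (mul_ne_zero (div_ne_zero k31 d31) (div_ne_zero k32 d32))
  have t1 : 1 + e1 ≠ 0 := by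
    rw [s1]
    exact div_ne_zero (neg_ne_zero.2 (mul_ne_zero (mul_ne_zero two_ne_zero h1) k23))
      (mul_ne_zero d12 d13)
  have t2 : 1 + e2 ≠ 0 := by
    rw [s2]
    exact div_ne_zero (neg_ne_zero.2 (mul_ne_zero (mul_ne_zero two_ne_zero h2) k13))
      (mul_ne_zero d21 d23)
  have t3 : 1 + e3 ≠ 0 := by
    rw [s3]
    exact div_ne_zero (neg_ne_zero.2 (mul_ne_zero (mul_ne_zero two_ne_zero h3) k12))
      (mul_ne_zero d31 d32)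
  have F1 : e1 * ((a1 - a2) * (a1 - a3)) = -((a1 + a2) * (a1 + a3)) := by
    rw [E1]
    field_simp
  have F2 : e2 * ((a1 - a2) * (a2 - a3)) = (a1 + a2) * (a2 + a3) := by
    rw [E2]
    field_simp
    ring
  have F3 : e3 * ((a1 - a3) * (a2 - a3)) = -((a1 + a3) * (a2 + a3)) := by
    rw [E3]
    field_simp
    ring
  have hs : e1 + e2 + e3 = -1 := by
    have hne : (a1 - a2) * (a1 - a3) * (a2 - a3) ≠ 0 :=
      mul_ne_zero (mul_ne_zero d12 d13) d23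
    apply mul_left_cancel₀ hne
    linear_combination (a2 - a3) * F1 + (a1 - a3) * F2 + (a1 - a2) * F3
  have hr : e3 / (e1 * e2) = ((a1 - a2) / (a1 + a2)) ^ 2 := by
    rw [div_pow, div_eq_div_iff (mul_ne_zero he1 he2) (pow_ne_zero 2 k12)]
    have hne : (a1 - a3) * (a2 - a3) ≠ 0 := mul_ne_zero d13 d23
    apply mul_left_cancel₀ hne
    linear_combination (a1 + a2) ^ 2 * F3 - (e2 * ((a1 - a2) * (a2 - a3))) * F1 +
      (a1 + a2) * (a1 + a3) * F2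
  obtain ⟨hT, hB⟩ := cofactor he1 he2 he3 t1 t2 t3 hs m1 m2 hP hL
  rw [hr] at hT
  obtain ⟨b, hb, b1, b2, c1, c2, Q1, Q2⟩ := param_four h1 h2 h12 k12 n1 n2 m1 m2 hT
  have hid := hyp_identity d12 d13 d23 c1 c2 E1 E2 E3 Q1 Q2
  unfold obP at hP
  have hAB : (e3 + e1 * q2 + e2 * q1 + q1 * q2) * ((a3 - b) ^ 2 - q3 * (a3 + b) ^ 2) = 0 := by
    linear_combination hid - (a3 + b) ^ 2 * hP
  have hq : (a3 - b) ^ 2 - q3 * (a3 + b) ^ 2 = 0 := (mul_eq_zero.1 hAB).resolve_left hB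
  have c3 : a3 + b ≠ 0 := by
    intro h
    have h4 : b = -a3 := by linear_combination h
    rw [h, h4] at hq
    have h5 : (2 * a3) ^ 2 = 0 := by linear_combination hq
    exact pow_ne_zero 2 (mul_ne_zero two_ne_zero h3) h5
  have Q3 : q3 = ((a3 - b) / (a3 + b)) ^ 2 := by
    rw [div_pow, eq_div_iff (pow_ne_zero 2 c3)]
    linear_combination -hq
  refine ⟨b, hb, b1, b2, ?_, c1, c2, c3, Q1, Q2, Q3⟩
  rintro rfl
  apply n3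
  rw [Q3, sub_self, zero_div]
  ring

end AMC
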