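import Pool.Agent.Lib.MP_b57e3c_ag_M.Tst

/-!
# Module Cls : formal properties of the maximum principle

* `mono`: `TestFn m' ⊆ TestFn m` for `m' ≤ m` (`TestFn.mono`).
* `add`: `φ` has a local maximum on the translate iff a translate of `φ` has one on `M`
  (`TestFn.comp_add`).
* `of_open`: a local maximum on `M ∩ O` (`O` open) at `p ∈ M ∩ O` is one on `M`.
* `closure_iUnion`: suppose `φ` has a local maximum on `S = closure (⋃ M α)` at `p`; with `δ` from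
  `TestFn.strict` put `ψ z = φ z - δ nsq (z - p)`. For some `r > 0`:
  `ψ z ≤ φ p - δ nsq (z - p)` on `S ∩ closedBall p r`, so `ψ ≤ ψ p - δ r²` for
  `z ∈ S`, `‖z - p‖ = r` (sup norm: `nsq ≥ ‖·‖²`). By continuity of `ψ` choose `z₀ ∈ M α` near `p`
  with `‖z₀ - p‖ < r` and `ψ z₀ > ψ p - δ r²`. Let `z₁` be a maximum point of `ψ` on the compact set
  `M α ∩ closedBall p r` (`M α` closed). Then `ψ z₁ ≥ ψ z₀`, so `‖z₁ - p‖ < r` and `ψ` has a local
  maximum on `M α` at `z₁`, contradiction.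
-/

open Complex Filter Topology

namespace AMC

variable {g m : ℕ} {M : Set (Fin g → ℂ)}

theorem MP.mono (h : MP m M) {n : ℕ} (hn : n ≤ m) : MP n M :=
  fun φ hφ p hp hmax => h φ (hφ.mono hn) p hp hmax

theorem MP.add (h : MP m M) (a : Fin g → ℂ) : MP m ((fun z => z + a) ⁻¹' M) := by
  intro φ hφ p hp hmax
  refine h (fun z => φ (z + -a)) (hφ.comp_add (-a)) (p + a) hp ?_
  have h1 : Tendsto (fun z : Fin g → ℂ => z + -a) (𝓝[M] (p + a))
      (𝓝[(fun z => z + a) ⁻¹' M] p) := by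
    refine tendsto_nhdsWithin_iff.2 ⟨?_, ?_⟩
    · have h2 : Continuous (fun z : Fin g → ℂ => z + -a) := by fun_prop
      have h3 := h2.tendsto (p + a)
      rw [add_neg_cancel_right] at h3
      exact h3.mono_left nhdsWithin_le_nhds
    · filter_upwards [self_mem_nhdsWithin] with z hz
      show z + -a + a ∈ M
      rw [neg_add_cancel_right]
      exact hz
  have h4 := h1.eventually hmax
  show ∀ᶠ z in 𝓝[M] (p + a), φ (z + -a) ≤ φ (p + a + -a)
  rw [add_neg_cancel_right]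
  exact h4

theorem MP.of_open (h : MP m M) {O : Set (Fin g → ℂ)} (hO : IsOpen O) : MP m (M ∩ O) := by
  intro φ hφ p hp hmax
  refine h φ hφ p hp.1 ?_
  have h1 : 𝓝[M ∩ O] p = 𝓝[M] p :=
    nhdsWithin_inter_of_mem' (mem_nhdsWithin_of_mem_nhds (hO.mem_nhds hp.2))
  unfold IsLocalMaxOn at hmax ⊢
  rw [h1] at hmax
  exact hmax

private theorem Cls_nsq (w : Fin g → ℂ) : ‖w‖ ^ 2 ≤ nsq w := by
  have h0 : 0 ≤ nsq w := Finset.sum_nonneg fun i _ => by positivity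
  have h1 : ‖w‖ ≤ Real.sqrt (nsq w) := by
    rw [pi_norm_le_iff_of_nonneg (Real.sqrt_nonneg _)]
    intro i
    refine Real.le_sqrt_of_sq_le ?_
    exact Finset.single_le_sum (f := fun i => ‖w i‖ ^ 2) (fun i _ => by positivity)
      (Finset.mem_univ i)
  calc ‖w‖ ^ 2 ≤ Real.sqrt (nsq w) ^ 2 := by gcongr
    _ = nsq w := Real.sq_sqrt h0

theorem MP.closure_iUnion {ι : Type*} {N : ι → Set (Fin g → ℂ)} (hc : ∀ i, IsClosed (N i))
    (h : ∀ i, MP m (N i)) : MP m (closure (⋃ i, N i)) := by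
  intro φ hφ p hp hmax
  obtain ⟨δ, hδ, hst⟩ := hφ.strict
  have hψ := hst p
  set ψ : (Fin g → ℂ) → ℝ := fun z => φ z - δ * nsq (z - p) with hψd
  have hψc : Continuous ψ := hψ.continuous
  have hψp : ψ p = φ p := by
    simp [hψd, nsq]
  obtain ⟨r₀, hr₀, hr⟩ := Metric.mem_nhdsWithin_iff.1 hmax
  have hr1 : 0 < r₀ / 2 := by positivity
  have hle : ∀ z ∈ closure (⋃ i, N i), dist z p ≤ r₀ / 2 → φ z ≤ φ p := by
    intro z hz hzp
    exact hr ⟨Metric.mem_ball.2 (by linarith), hz⟩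
  have hev : ∀ᶠ z in 𝓝 p, ψ p - δ * (r₀ / 2) ^ 2 < ψ z ∧ dist z p < r₀ / 2 := by
    refine Filter.Eventually.and ?_ ?_
    · refine hψc.continuousAt.eventually (lt_mem_nhds ?_)
      have : 0 < δ * (r₀ / 2) ^ 2 := by positivity
      linarith
    · exact Metric.ball_mem_nhds p hr1
  obtain ⟨z₀, ⟨hz1, hz2⟩, hz3⟩ := mem_closure_iff_nhds.1 hp _ hev
  obtain ⟨i, hi⟩ := Set.mem_iUnion.1 hz3
  have hK : IsCompact (N i ∩ Metric.closedBall p (r₀ / 2)) :=
    (isCompact_closedBall p (r₀ / 2)).inter_left (hc i)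
  obtain ⟨z₁, hz₁, hmx⟩ := hK.exists_isMaxOn ⟨z₀, hi, Metric.mem_closedBall.2 hz2.le⟩
    hψc.continuousOn
  have h1 : ψ z₀ ≤ ψ z₁ := hmx ⟨hi, Metric.mem_closedBall.2 hz2.le⟩
  have hd : dist z₁ p ≤ r₀ / 2 := Metric.mem_closedBall.1 hz₁.2
  have h2 : dist z₁ p < r₀ / 2 := by
    by_contra hcon
    have h3 : dist z₁ p = r₀ / 2 := le_antisymm hd (not_lt.1 hcon)
    have h4 : φ z₁ ≤ φ p :=
      hle z₁ (subset_closure (Set.mem_iUnion.2 ⟨i, hz₁.1⟩)) hd
    have h5 : (r₀ / 2) ^ 2 ≤ nsq (z₁ - p) := by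
      rw [← h3, dist_eq_norm]
      exact Cls_nsq _
    have h6 : ψ z₁ = φ z₁ - δ * nsq (z₁ - p) := rfl
    have h7 : δ * (r₀ / 2) ^ 2 ≤ δ * nsq (z₁ - p) := mul_le_mul_of_nonneg_left h5 hδ.le
    linarith
  refine h i ψ hψ z₁ hz₁.1 ?_
  have h8 : Metric.closedBall p (r₀ / 2) ∈ 𝓝 z₁ :=
    Filter.mem_of_superset (Metric.isOpen_ball.mem_nhds (Metric.mem_ball.2 h2))
      Metric.ball_subset_closedBall
  have h9 : ∀ᶠ z in 𝓝[N i] z₁, z ∈ N i ∩ Metric.closedBall p (r₀ / 2) :=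
    Filter.inter_mem self_mem_nhdsWithin (mem_nhdsWithin_of_mem_nhds h8)
  exact h9.mono fun z hz => hmx hz

end AMC
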