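import Pool.Agent.Lib.MP_b57e3c_ag_M.Defs

/-!
# Module Crv : holomorphic curves in a regular level set

Implicit function theorem for `Φ : (Fin ρ → ℂ) × ℂ → (Fin ρ → ℂ)`,
`Φ (c, t) i = G i (p + t v + ∑ j, c j w j)`: `Φ (0, 0) = 0`, `∂_c Φ (0,0)` is the matrix
`dG_i (w_j)` at `p`, invertible since `Jac G w p ≠ 0`. `Φ` is `C¹` near `0`, so there is a
differentiable solution `c(t)` on a small disc, `c 0 = 0`
(e.g. apply the inverse function theorem to `(c, t) ↦ (Φ (c, t), t)`; `G i` is `ContDiff`, so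
strictly differentiable everywhere, and the local inverse is differentiable at all nearby points).
Differentiating at `t = 0`: `dG_i(v) + ∑_j c_j'(0) dG_i(w_j) = 0` and `dG_i (v) = 0` give
`c'(0) = 0`.
-/

open Complex Filter Topology Metric

namespace AMC

namespace Crv

variable {g ρ : ℕ}

/-- the linear part `(t, c) ↦ t v + ∑ c j w j` -/
noncomputable def A (v : Fin g → ℂ) (w : Fin ρ → Fin g → ℂ) :
    (ℂ × (Fin ρ → ℂ)) →L[ℂ] (Fin g → ℂ) :=
  (ContinuousLinearMap.fst ℂ ℂ (Fin ρ → ℂ)).smulRight v +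
    ∑ j, ((ContinuousLinearMap.proj j).comp
      (ContinuousLinearMap.snd ℂ ℂ (Fin ρ → ℂ))).smulRight (w j)

theorem A_apply (v : Fin g → ℂ) (w : Fin ρ → Fin g → ℂ) (x : ℂ × (Fin ρ → ℂ)) :
    A v w x = x.1 • v + ∑ j, x.2 j • w j := by
  unfold A
  rw [ContinuousLinearMap.add_apply, ContinuousLinearMap.sum_apply]
  rfl

/-- the map `(t, c) ↦ (t, G (p + t v + ∑ c j w j))` -/
noncomputable def Ψ (G : Fin ρ → (Fin g → ℂ) → ℂ) (p v : Fin g → ℂ) (w : Fin ρ → Fin g → ℂ)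
    (x : ℂ × (Fin ρ → ℂ)) : ℂ × (Fin ρ → ℂ) :=
  (x.1, fun i => G i (p + A v w x))

/-- an invertible matrix as a continuous linear equivalence -/
theorem exists_equiv (N : Matrix (Fin ρ) (Fin ρ) ℂ) (hN : N.det ≠ 0) :
    ∃ e : (Fin ρ → ℂ) ≃L[ℂ] (Fin ρ → ℂ), ∀ x, e x = N.mulVec x := by
  have hu : IsUnit N := (Matrix.isUnit_iff_isUnit_det N).2 (isUnit_iff_ne_zero.2 hN)
  have hinj : Function.Injective N.mulVecLin := by
    intro x y hxy
    exact Matrix.mulVec_injective_iff_isUnit.2 hu hxy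
  refine ⟨(LinearEquiv.ofInjectiveEndo N.mulVecLin hinj).toContinuousLinearEquiv, fun x => ?_⟩
  rfl

theorem hasFDerivAt {G : Fin ρ → (Fin g → ℂ) → ℂ} (hG : ∀ i, Ent (G i)) (p v : Fin g → ℂ)
    (w : Fin ρ → Fin g → ℂ) :
    HasFDerivAt (Ψ G p v w) ((ContinuousLinearMap.fst ℂ ℂ (Fin ρ → ℂ)).prod
      (ContinuousLinearMap.pi fun i => (fderiv ℂ (G i) p).comp (A v w))) 0 := by
  unfold Ψ
  refine hasFDerivAt_fst.prodMk (hasFDerivAt_pi.2 fun i => ?_)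
  have h1 : DifferentiableAt ℂ (G i) (p + A v w 0) :=
    ((hG i).differentiable (by simp)).differentiableAt
  have h2 : HasFDerivAt (fun x => p + A v w x) (A v w) 0 := (A v w).hasFDerivAt.const_add p
  have h3 := HasFDerivAt.comp (0 : ℂ × (Fin ρ → ℂ)) h1.hasFDerivAt h2
  rw [map_zero, add_zero] at h3
  exact h3

end Crv

theorem exists_curve {g ρ : ℕ} {G : Fin ρ → (Fin g → ℂ) → ℂ} (hG : ∀ i, Ent (G i))
    {w : Fin ρ → Fin g → ℂ} {p v : Fin g → ℂ} (hp : ∀ i, G i p = 0)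
    (hv : ∀ i, fderiv ℂ (G i) p v = 0) (hJ : Jac G w p ≠ 0) :
    ∃ (r : ℝ) (c : ℂ → Fin ρ → ℂ), 0 < r ∧ DifferentiableOn ℂ c (ball 0 r) ∧ c 0 = 0 ∧
      deriv c 0 = 0 ∧ ∀ t ∈ ball (0 : ℂ) r, ∀ i, G i (p + t • v + ∑ j, c t j • w j) = 0 := by
  obtain ⟨e0, he0⟩ := Crv.exists_equiv _ hJ
  set e : (ℂ × (Fin ρ → ℂ)) ≃L[ℂ] (ℂ × (Fin ρ → ℂ)) :=
    (ContinuousLinearEquiv.refl ℂ ℂ).prodCongr e0 with he
  have hD : (ContinuousLinearMap.fst ℂ ℂ (Fin ρ → ℂ)).prod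
      (ContinuousLinearMap.pi fun i => (fderiv ℂ (G i) p).comp (Crv.A v w)) =
      (e : (ℂ × (Fin ρ → ℂ)) →L[ℂ] (ℂ × (Fin ρ → ℂ))) := by
    refine ContinuousLinearMap.ext fun x => Prod.ext rfl (funext fun i => ?_)
    show fderiv ℂ (G i) p (Crv.A v w x) = e0 x.2 i
    rw [he0, Crv.A_apply, map_add, map_smul, hv, smul_zero, zero_add, map_sum]
    show _ = ∑ j, fderiv ℂ (G i) p (w j) * x.2 j
    refine Finset.sum_congr rfl fun j _ => ?_
    rw [map_smul, smul_eq_mul, mul_comm]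
  have hf' : HasFDerivAt (Crv.Ψ G p v w) (e : (ℂ × (Fin ρ → ℂ)) →L[ℂ] (ℂ × (Fin ρ → ℂ))) 0 := by
    rw [← hD]
    exact Crv.hasFDerivAt hG p v w
  have hf : ContDiffAt ℂ 1 (Crv.Ψ G p v w) 0 := by
    unfold Crv.Ψ
    refine (contDiff_fst.prodMk (contDiff_pi.2 fun i => ?_)).contDiffAt
    exact ((hG i).of_le (by exact_mod_cast le_top)).comp
      (contDiff_const.add (Crv.A v w).contDiff)
  have h0 : Crv.Ψ G p v w 0 = 0 := by
    unfold Crv.Ψ
    refine Prod.ext rfl (funext fun i => ?_)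
    show G i (p + Crv.A v w 0) = 0
    rw [map_zero, add_zero, hp]
  have hs := hf.hasStrictFDerivAt' hf' one_ne_zero
  set h := hf.localInverse hf' one_ne_zero with hh
  have hh0 : h 0 = 0 := by
    have h1 := hf.localInverse_apply_image hf' one_ne_zero
    rwa [h0] at h1
  have hC : ContDiffAt ℂ 1 h 0 := by
    have h1 := hf.to_localInverse hf' one_ne_zero
    rwa [h0] at h1
  have hr : ∀ᶠ y in 𝓝 (0 : ℂ × (Fin ρ → ℂ)), Crv.Ψ G p v w (h y) = y := by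
    have h1 := hs.eventually_right_inverse
    rwa [h0] at h1
  have hd : HasFDerivAt h (e.symm : (ℂ × (Fin ρ → ℂ)) →L[ℂ] (ℂ × (Fin ρ → ℂ))) 0 := by
    have h1 := hs.to_localInverse
    rw [h0] at h1
    exact h1.hasFDerivAt
  have hι : Tendsto (fun t : ℂ => ((t, 0) : ℂ × (Fin ρ → ℂ))) (𝓝 0) (𝓝 0) := by
    have h1 : Continuous fun t : ℂ => ((t, 0) : ℂ × (Fin ρ → ℂ)) := by fun_prop
    exact h1.tendsto 0
  have hev : ∀ᶠ t in 𝓝 (0 : ℂ), DifferentiableAt ℂ h (t, 0) ∧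
      Crv.Ψ G p v w (h (t, 0)) = (t, 0) := by
    have h1 : ∀ᶠ y in 𝓝 (0 : ℂ × (Fin ρ → ℂ)), ContDiffAt ℂ 1 h y := hC.eventually (by simp)
    filter_upwards [hι.eventually h1, hι.eventually hr] with t h2 h3
    exact ⟨h2.differentiableAt one_ne_zero, h3⟩
  obtain ⟨r, hr0, hball⟩ := Metric.eventually_nhds_iff_ball.1 hev
  have hid : ∀ t : ℂ, HasDerivAt (fun t : ℂ => ((t, 0) : ℂ × (Fin ρ → ℂ))) (1, 0) t := fun t =>
    (hasDerivAt_id t).prodMk (hasDerivAt_const t _)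
  refine ⟨r, fun t => (h (t, 0)).2, hr0, ?_, ?_, ?_, ?_⟩
  · intro t ht
    have h1 := (hball t ht).1
    exact ((h1.comp t (hid t).differentiableAt).snd).differentiableWithinAt
  · show (h (0, 0)).2 = 0
    have h1 : ((0, 0) : ℂ × (Fin ρ → ℂ)) = 0 := rfl
    rw [h1, hh0]
    rfl
  · have h1 := HasFDerivAt.comp_hasDerivAt (0 : ℂ) (f := fun t : ℂ => ((t, 0) : ℂ × (Fin ρ → ℂ)))
      (l := h) hd (hid 0)
    have h3 : (e.symm (1, 0)).2 = 0 := by
      show e0.symm 0 = 0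
      exact map_zero _
    have h2 : HasDerivAt (fun t : ℂ => (h (t, 0)).2)
        (((ContinuousLinearMap.snd ℂ ℂ (Fin ρ → ℂ)).comp
          (ContinuousLinearMap.toSpanSingleton ℂ (e.symm (1, 0)))) 1) 0 :=
      h1.hasFDerivAt.snd.hasDerivAt
    have h5 : ((ContinuousLinearMap.snd ℂ ℂ (Fin ρ → ℂ)).comp
          (ContinuousLinearMap.toSpanSingleton ℂ (e.symm (1, 0)))) 1 = 0 := by
      show ((1 : ℂ) • e.symm (1, 0)).2 = 0
      rw [one_smul, h3]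
    rw [h5] at h2
    have h4 : HasDerivAt (fun t : ℂ => (h (t, 0)).2) 0 0 := h2
    exact h4.deriv
  · intro t ht i
    have h1 := (hball t ht).2
    have h2 : (h (t, 0)).1 = t := congrArg Prod.fst h1
    have h3 : G i (p + Crv.A v w (h (t, 0))) = 0 := congrFun (congrArg Prod.snd h1) i
    rw [Crv.A_apply, h2, ← add_assoc] at h3
    exact h3

end AMC
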