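import Pool.Agent.Lib.MP_b57e3c_ag_M.Tst

/-!
# Module Cst : a nonempty set on which a full set of imaginary parts is constant

Let `p ∈ M`. Suppose `m ≥ 1`. For `C` real let
`φ z = C ∑_i ((ℓ i z).im - s i)² - nsq (z - p)`.
As in module Tst, `(Im w)² = (|w|² - Re w²)/2`, so `φ = Re P + HForm h` with
`HForm h z = (C/2) ∑_i |ℓ i z|² - nsq z`. The function `∑_i |ℓ i z|²` is positive on `z ≠ 0` by
`hinj`, hence `≥ c ‖z‖²` with `c > 0` (compactness of the unit sphere), and `nsq z ≤ g ‖z‖²`. So for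
`C` large `HForm h z > 0` for `z ≠ 0`: `φ` is a test function for dimension `1` with `V = ⊤`
(`finrank = g`), hence for `m` (`TestFn.mono`). On `M` we have `φ z = - nsq (z - p) ≤ 0 = φ p`: a
local maximum on `M` at `p`, contradiction.
-/

open Complex Filter Topology

namespace AMC

private theorem Cst_quad (a : ℂ) (s : ℝ) :
    (a.im - s) ^ 2 = ‖a‖ ^ 2 / 2 + (-(a ^ 2) / 2 + 2 * s * I * a + s ^ 2 : ℂ).re := by
  have h1 : (-(a ^ 2) / 2 + 2 * s * I * a + s ^ 2 : ℂ).re =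
      -(a.re * a.re - a.im * a.im) / 2 - 2 * s * a.im + s ^ 2 := by
    have h2 : (-(a ^ 2) / 2 : ℂ) = ((-1 / 2 : ℝ) : ℂ) * (a * a) := by
      push_cast
      ring
    have h3 : (2 * s * I * a : ℂ) = ((2 * s : ℝ) : ℂ) * (I * a) := by
      push_cast
      ring
    have h4 : ((s : ℂ) ^ 2) = ((s ^ 2 : ℝ) : ℂ) := by
      push_cast
      ring
    rw [h2, h3, h4, Complex.add_re, Complex.add_re, Complex.re_ofReal_mul,
      Complex.re_ofReal_mul, Complex.ofReal_re, Complex.mul_re, Complex.mul_re, Complex.I_re,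
      Complex.I_im]
    ring
  rw [h1, ← Complex.normSq_eq_norm_sq, Complex.normSq_apply]
  ring

private theorem Cst_sub (z p : ℂ) :
    ‖z - p‖ ^ 2 = ‖z‖ ^ 2 - (2 * (starRingEnd ℂ) p * z - ((‖p‖ ^ 2 : ℝ) : ℂ)).re := by
  have h2 : (2 * (starRingEnd ℂ) p * z : ℂ) = ((2 : ℝ) : ℂ) * ((starRingEnd ℂ) p * z) := by
    push_cast
    ring
  rw [h2, Complex.sub_re, Complex.re_ofReal_mul, Complex.ofReal_re, Complex.mul_re,
    Complex.conj_re, Complex.conj_im, ← Complex.normSq_eq_norm_sq, ← Complex.normSq_eq_norm_sq,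
    ← Complex.normSq_eq_norm_sq, Complex.normSq_apply, Complex.normSq_apply,
    Complex.normSq_apply, Complex.sub_re, Complex.sub_im]
  ring

private theorem Cst_nsq {g : ℕ} (z p : Fin g → ℂ) :
    nsq (z - p) = nsq z -
      (∑ i, (2 * (starRingEnd ℂ) (p i) * z i - ((‖p i‖ ^ 2 : ℝ) : ℂ))).re := by
  unfold nsq
  rw [Complex.re_sum, ← Finset.sum_sub_distrib]
  refine Finset.sum_congr rfl fun i _ => ?_
  rw [Pi.sub_apply]
  exact Cst_sub (z i) (p i)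

/-- the matrix of the Hermitian form -/
private noncomputable def Cst_mat {g : ℕ} (C : ℝ) (ℓ : Fin g → ((Fin g → ℂ) →ₗ[ℂ] ℂ)) :
    Matrix (Fin g) (Fin g) ℂ :=
  fun a b => (C : ℂ) * (∑ l, (starRingEnd ℂ) (ℓ l fun j => if a = j then 1 else 0) *
    ℓ l fun j => if b = j then 1 else 0) - if a = b then 1 else 0

private theorem Cst_one {g : ℕ} (ℓ : (Fin g → ℂ) →ₗ[ℂ] ℂ) (z : Fin g → ℂ) :
    ((‖ℓ z‖ ^ 2 : ℝ) : ℂ) = ∑ i, ∑ j, (starRingEnd ℂ) (z i) *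
      ((starRingEnd ℂ) (ℓ fun k => if i = k then 1 else 0) *
        ℓ fun k => if j = k then 1 else 0) * z j := by
  have h1 : ((‖ℓ z‖ ^ 2 : ℝ) : ℂ) = (starRingEnd ℂ) (ℓ z) * ℓ z := by
    rw [Complex.conj_mul']
    push_cast
    ring
  rw [h1, LinearMap.pi_apply_eq_sum_univ ℓ z, map_sum, Finset.sum_mul_sum]
  refine Finset.sum_congr rfl fun i _ => Finset.sum_congr rfl fun j _ => ?_
  rw [smul_eq_mul, smul_eq_mul, map_mul]
  ring

private theorem Cst_form {g : ℕ} (C : ℝ) (ℓ : Fin g → ((Fin g → ℂ) →ₗ[ℂ] ℂ))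
    (z : Fin g → ℂ) : HForm (Cst_mat C ℓ) z = C * (∑ l, ‖ℓ l z‖ ^ 2) - nsq z := by
  have h1 : (∑ i, ∑ j, (starRingEnd ℂ) (z i) * Cst_mat C ℓ i j * z j) =
      ((C * (∑ l, ‖ℓ l z‖ ^ 2) - nsq z : ℝ) : ℂ) := by
    have h2 : (((C * (∑ l, ‖ℓ l z‖ ^ 2) - nsq z : ℝ)) : ℂ) =
        (C : ℂ) * (∑ l, ((‖ℓ l z‖ ^ 2 : ℝ) : ℂ)) - ∑ i, (starRingEnd ℂ) (z i) * z i := by
      unfold nsq
      rw [Complex.ofReal_sub, Complex.ofReal_mul, Complex.ofReal_sum, Complex.ofReal_sum]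
      congr 1
      refine Finset.sum_congr rfl fun i _ => ?_
      rw [Complex.conj_mul']
      push_cast
      ring
    have h3 : (∑ i, (starRingEnd ℂ) (z i) * z i) =
        ∑ i, ∑ j, (starRingEnd ℂ) (z i) * (if i = j then 1 else 0) * z j := by
      refine Finset.sum_congr rfl fun i _ => ?_
      rw [Finset.sum_eq_single i]
      · rw [if_pos rfl, mul_one]
      · intro j _ hj
        rw [if_neg (fun h => hj h.symm), mul_zero, zero_mul]
      · intro h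
        exact absurd (Finset.mem_univ i) h
    have h4 : (C : ℂ) * (∑ l, ((‖ℓ l z‖ ^ 2 : ℝ) : ℂ)) = ∑ i, ∑ j, (starRingEnd ℂ) (z i) *
        ((C : ℂ) * (∑ l, (starRingEnd ℂ) (ℓ l fun k => if i = k then 1 else 0) *
          ℓ l fun k => if j = k then 1 else 0)) * z j := by
      have h5 : ∀ l, ((‖ℓ l z‖ ^ 2 : ℝ) : ℂ) = ∑ i, ∑ j, (starRingEnd ℂ) (z i) *
          ((starRingEnd ℂ) (ℓ l fun k => if i = k then 1 else 0) *
            ℓ l fun k => if j = k then 1 else 0) * z j := fun l => Cst_one (ℓ l) z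
      rw [Finset.sum_congr rfl fun l _ => h5 l, Finset.sum_comm, Finset.mul_sum]
      refine Finset.sum_congr rfl fun i _ => ?_
      rw [Finset.sum_comm, Finset.mul_sum]
      refine Finset.sum_congr rfl fun j _ => ?_
      rw [Finset.mul_sum, Finset.mul_sum, Finset.mul_sum, Finset.sum_mul]
      refine Finset.sum_congr rfl fun l _ => ?_
      ring
    rw [h2, h3, h4, ← Finset.sum_sub_distrib]
    refine Finset.sum_congr rfl fun i _ => ?_
    rw [← Finset.sum_sub_distrib]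
    refine Finset.sum_congr rfl fun j _ => ?_
    unfold Cst_mat
    ring
  unfold HForm
  rw [h1, Complex.ofReal_re]

private theorem Cst_const {g : ℕ} (ℓ : Fin g → ((Fin g → ℂ) →ₗ[ℂ] ℂ))
    (hinj : ∀ z, (∀ i, ℓ i z = 0) → z = 0) :
    ∃ C : ℝ, ∀ z : Fin g → ℂ, z ≠ 0 → nsq z < C * ∑ l, ‖ℓ l z‖ ^ 2 := by
  obtain ⟨K, -, hK⟩ := LinearMap.exists_antilipschitzWith (LinearMap.pi ℓ)
    (LinearMap.ker_eq_bot'.2 fun z hz => hinj z fun i => congrFun hz i)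
  refine ⟨g * (K : ℝ) ^ 2 + 1, fun z hz => ?_⟩
  have h1 : ‖z‖ ≤ K * ‖LinearMap.pi ℓ z‖ := by
    have h2 := hK.le_mul_dist z 0
    rwa [dist_zero_right, map_zero, dist_zero_right] at h2
  have h3 : ‖LinearMap.pi ℓ z‖ ^ 2 ≤ ∑ l, ‖ℓ l z‖ ^ 2 := by
    have hs : 0 ≤ ∑ l, ‖ℓ l z‖ ^ 2 := Finset.sum_nonneg fun l _ => by positivity
    have h4 : ‖LinearMap.pi ℓ z‖ ≤ Real.sqrt (∑ l, ‖ℓ l z‖ ^ 2) := by
      rw [pi_norm_le_iff_of_nonneg (Real.sqrt_nonneg _)]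
      intro l
      refine Real.le_sqrt_of_sq_le ?_
      exact Finset.single_le_sum (f := fun l => ‖ℓ l z‖ ^ 2) (fun l _ => by positivity)
        (Finset.mem_univ l)
    calc ‖LinearMap.pi ℓ z‖ ^ 2 ≤ Real.sqrt (∑ l, ‖ℓ l z‖ ^ 2) ^ 2 :=
          pow_le_pow_left₀ (norm_nonneg _) h4 2
      _ = ∑ l, ‖ℓ l z‖ ^ 2 := Real.sq_sqrt hs
  have h5 : nsq z ≤ g * ‖z‖ ^ 2 := by
    unfold nsq
    calc (∑ i, ‖z i‖ ^ 2) ≤ ∑ _i : Fin g, ‖z‖ ^ 2 :=
          Finset.sum_le_sum fun i _ => pow_le_pow_left₀ (norm_nonneg _) (norm_le_pi_norm z i) 2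
      _ = g * ‖z‖ ^ 2 := by
          rw [Finset.sum_const, Finset.card_univ, Fintype.card_fin, nsmul_eq_mul]
  have h6 : 0 < ∑ l, ‖ℓ l z‖ ^ 2 := by
    obtain ⟨i, hi⟩ : ∃ i, ℓ i z ≠ 0 := by
      by_contra h7
      push Not at h7
      exact hz (hinj z h7)
    refine Finset.sum_pos' (fun l _ => by positivity) ⟨i, Finset.mem_univ i, ?_⟩
    have := norm_pos_iff.2 hi
    positivity
  have h7 : ‖z‖ ^ 2 ≤ (K : ℝ) ^ 2 * ∑ l, ‖ℓ l z‖ ^ 2 := by
    calc ‖z‖ ^ 2 ≤ (K * ‖LinearMap.pi ℓ z‖) ^ 2 := pow_le_pow_left₀ (norm_nonneg _) h1 2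
      _ = (K : ℝ) ^ 2 * ‖LinearMap.pi ℓ z‖ ^ 2 := by ring
      _ ≤ (K : ℝ) ^ 2 * ∑ l, ‖ℓ l z‖ ^ 2 := mul_le_mul_of_nonneg_left h3 (by positivity)
  calc nsq z ≤ g * ‖z‖ ^ 2 := h5
    _ ≤ g * ((K : ℝ) ^ 2 * ∑ l, ‖ℓ l z‖ ^ 2) :=
        mul_le_mul_of_nonneg_left h7 (Nat.cast_nonneg g)
    _ < (g * (K : ℝ) ^ 2 + 1) * ∑ l, ‖ℓ l z‖ ^ 2 := by nlinarith

theorem MP.const {g m : ℕ} {M : Set (Fin g → ℂ)} (h : MP m M) (hne : M.Nonempty)
    (ℓ : Fin g → ((Fin g → ℂ) →ₗ[ℂ] ℂ)) (hinj : ∀ z, (∀ i, ℓ i z = 0) → z = 0) (s : Fin g → ℝ)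
    (hs : ∀ z ∈ M, ∀ i, (ℓ i z).im = s i) : m = 0 := by
  by_contra hm
  obtain ⟨p, hp⟩ := hne
  obtain ⟨C, hC⟩ := Cst_const ℓ hinj
  refine h (fun z => 2 * C * (∑ i, ((ℓ i z).im - s i) ^ 2) - nsq (z - p)) ?_ p hp ?_
  · refine ⟨fun z => ((2 * C : ℝ) : ℂ) * (∑ i, (-(ℓ i z ^ 2) / 2 + 2 * s i * I * ℓ i z +
      (s i : ℂ) ^ 2)) + ∑ i, (2 * (starRingEnd ℂ) (p i) * z i - ((‖p i‖ ^ 2 : ℝ) : ℂ)),
      Cst_mat C ℓ, ⊤, ?_, ?_, ?_, ?_⟩
    · have hd : ∀ i, Differentiable ℂ fun z => ℓ i z := fun i =>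
        (LinearMap.toContinuousLinearMap (ℓ i)).differentiable
      have hz : ∀ i : Fin g, Differentiable ℂ fun z : Fin g → ℂ => z i := fun i =>
        (ContinuousLinearMap.proj (R := ℂ) (φ := fun _ : Fin g => ℂ) i).differentiable
      refine Differentiable.add (Differentiable.const_mul ?_ _) ?_
      · refine Differentiable.fun_sum fun i _ => ?_
        refine Differentiable.add (Differentiable.add ?_ ((hd i).const_mul _))
          (differentiable_const _)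
        have h1 : (fun z => -(ℓ i z ^ 2) / 2) = fun z => (-1 / 2 : ℂ) * (ℓ i z * ℓ i z) := by
          funext z
          ring
        rw [h1]
        exact ((hd i).mul (hd i)).const_mul _
      · refine Differentiable.fun_sum fun i _ => ?_
        exact ((hz i).const_mul _).sub (differentiable_const _)
    · intro z
      beta_reduce
      rw [Cst_form, Cst_nsq, Complex.add_re, Complex.re_ofReal_mul, Complex.re_sum,
        Complex.re_sum]
      have h1 : (∑ i, ((ℓ i z).im - s i) ^ 2) = (∑ i, ‖ℓ i z‖ ^ 2) / 2 +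
          ∑ i, (-(ℓ i z ^ 2) / 2 + 2 * s i * I * ℓ i z + (s i : ℂ) ^ 2).re := by
        rw [Finset.sum_div, ← Finset.sum_add_distrib]
        exact Finset.sum_congr rfl fun i _ => Cst_quad (ℓ i z) (s i)
      rw [h1]
      ring
    · rw [finrank_top, Module.finrank_fin_fun]
      omega
    · intro v _ hv
      rw [Cst_form]
      have := hC v hv
      linarith
  · refine Filter.eventually_of_mem self_mem_nhdsWithin fun z hz => ?_
    have h1 : ∀ y ∈ M, (∑ i, ((ℓ i y).im - s i) ^ 2) = 0 := by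
      intro y hy
      refine Finset.sum_eq_zero fun i _ => ?_
      rw [hs y hy i, sub_self]
      norm_num
    show 2 * C * (∑ i, ((ℓ i z).im - s i) ^ 2) - nsq (z - p) ≤
      2 * C * (∑ i, ((ℓ i p).im - s i) ^ 2) - nsq (p - p)
    rw [h1 z hz, h1 p hp, sub_self]
    have h2 : nsq (0 : Fin g → ℂ) = 0 := by
      unfold nsq
      exact Finset.sum_eq_zero fun i _ => by simp
    have h3 : 0 ≤ nsq (z - p) := Finset.sum_nonneg fun i _ => by positivity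
    rw [h2]
    linarith

end AMC
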