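import Pool.Agent.Lib.MP_b57e3c_ag_M.Defs

/-!
# Module Jc : elementary facts on `Ent` and `Jac`

* `ent_fderiv`: the directional derivative of a smooth function is smooth
  (`ContDiff.fderiv_right`, then `ContDiff.clm_apply` with a constant vector).
* `ent_jac`: `Jac` is a polynomial in the functions `z ↦ fderiv ℂ (G i) z (w j)`
  (`Matrix.det_apply`).
* `jac_snoc`: Schur complement. Let `A i j = dG_i (w_j)` (`ρ × ρ`, at the point `z`, `det A ≠ 0`) and let
  `x = v + ∑_j c_j w_j` be a vector with `dG_i (x) = 0` for all `i`. Then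
  `Jac (snoc G H) (snoc w v) z = Jac G w z * dH (x)`: in the bordered matrix
  (last column: `dG_i(v)`, `dH(v)`; other columns `dG_i(w_j)`, `dH(w_j)`) add
  `∑_j c_j (column j)` to the last column: it becomes `(0, …, 0, dH(x))`; expand along the last column
  (`Matrix.det_succ_column` with `Fin.last`, or `Matrix.det_updateCol_add_smul…`; or use
  `Matrix.fromBlocks` and `Matrix.det_fromBlocks…`). (`det A ≠ 0` is not needed.)
-/

open Complex Filter Topology Metric

namespace AMC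

variable {g ρ : ℕ}

theorem Ent.differentiable {H : (Fin g → ℂ) → ℂ} (h : Ent H) : Differentiable ℂ H :=
  ContDiff.differentiable h (by simp)

theorem ent_fderiv {H : (Fin g → ℂ) → ℂ} (h : Ent H) (v : Fin g → ℂ) :
    Ent (fun z => fderiv ℂ H z v) := by
  unfold Ent at *
  exact (h.fderiv_right (m := ((⊤ : ℕ∞) : WithTop ℕ∞)) (by simp)).clm_apply contDiff_const

theorem ent_jac {G : Fin ρ → (Fin g → ℂ) → ℂ} (hG : ∀ i, Ent (G i)) (w : Fin ρ → Fin g → ℂ) :
    Ent (Jac G w) := by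
  have h1 : Jac G w = fun z => ∑ σ : Equiv.Perm (Fin ρ), Equiv.Perm.sign σ •
      ∏ i, fderiv ℂ (G (σ i)) z (w i) := by
    funext z
    unfold Jac
    rw [Matrix.det_apply]
    rfl
  rw [h1]
  unfold Ent
  refine ContDiff.sum fun σ _ => ContDiff.const_smul _ ?_
  exact contDiff_prod fun i _ => ent_fderiv (hG (σ i)) (w i)

theorem jac_snoc (G : Fin ρ → (Fin g → ℂ) → ℂ) (w : Fin ρ → Fin g → ℂ) (H : (Fin g → ℂ) → ℂ)
    (v z : Fin g → ℂ) (c : Fin ρ → ℂ)
    (h : ∀ i, fderiv ℂ (G i) z (v + ∑ j, c j • w j) = 0) :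
    Jac (Fin.snoc (α := fun _ => (Fin g → ℂ) → ℂ) G H)
      (Fin.snoc (α := fun _ => Fin g → ℂ) w v) z
      = Jac G w z * fderiv ℂ H z (v + ∑ j, c j • w j) := by
  set x := v + ∑ j, c j • w j with hx
  set GH : Fin (ρ + 1) → (Fin g → ℂ) → ℂ :=
    Fin.snoc (α := fun _ => (Fin g → ℂ) → ℂ) G H with hGH
  set wv : Fin (ρ + 1) → Fin g → ℂ := Fin.snoc (α := fun _ => Fin g → ℂ) w v with hwv
  set M : Matrix (Fin (ρ + 1)) (Fin (ρ + 1)) ℂ :=
    Matrix.of fun i j => fderiv ℂ (GH i) z (wv j) with hM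
  have e1 : ∀ k, ∑ i, (Fin.snoc (α := fun _ => ℂ) c 1 : Fin (ρ + 1) → ℂ) i • M k i =
      fderiv ℂ (GH k) z x := by
    intro k
    rw [Fin.sum_univ_castSucc]
    simp only [Fin.snoc_castSucc, Fin.snoc_last, one_smul, hM, Matrix.of_apply, hwv, hx, map_add,
      map_sum, map_smul]
    rw [add_comm]
  have e2 := Matrix.det_updateCol_sum M (Fin.last ρ)
    (Fin.snoc (α := fun _ => ℂ) c 1 : Fin (ρ + 1) → ℂ)
  simp only [e1, Fin.snoc_last, one_smul] at e2
  show M.det = _
  rw [← e2, Matrix.det_succ_column _ (Fin.last ρ), Fin.sum_univ_castSucc]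
  have e3 : ∀ i : Fin ρ, (M.updateCol (Fin.last ρ) fun k => fderiv ℂ (GH k) z x)
      (Fin.castSucc i) (Fin.last ρ) = 0 := by
    intro i
    rw [Matrix.updateCol_self, hGH, Fin.snoc_castSucc]
    exact h i
  have e4 : (M.updateCol (Fin.last ρ) fun k => fderiv ℂ (GH k) z x)
      (Fin.last ρ) (Fin.last ρ) = fderiv ℂ H z x := by
    rw [Matrix.updateCol_self, hGH, Fin.snoc_last]
  have e5 : (M.updateCol (Fin.last ρ) fun k => fderiv ℂ (GH k) z x).submatrix
      (Fin.last ρ).succAbove (Fin.last ρ).succAbove =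
      Matrix.of fun i j => fderiv ℂ (G i) z (w j) := by
    ext i j
    rw [Matrix.submatrix_apply, Fin.succAbove_last, Matrix.updateCol_ne (Fin.castSucc_lt_last j).ne]
    simp only [hM, Matrix.of_apply, hGH, hwv, Fin.snoc_castSucc]
  rw [Finset.sum_eq_zero fun i _ => by rw [e3, mul_zero, zero_mul], zero_add, e4, e5]
  have e6 : (-1 : ℂ) ^ ((Fin.last ρ : ℕ) + (Fin.last ρ : ℕ)) = 1 :=
    Even.neg_one_pow ⟨_, rfl⟩
  rw [e6, one_mul, mul_comm]
  rfl

end AMC
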