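import Pool.Agent.Lib.MP_b57e3c_ag_M.Jc

/-!
# Module Rnk : maximal rank of the differentials of the ideal along an immersed piece

Let `P(ρ)` be: there are `G : Fin ρ → Ideal f U`, `w : Fin ρ → ℂ^g`, `u ∈ U` with
`Jac G w (f u) ≠ 0`. `P(0)` holds (the determinant of the empty matrix is `1`, `U` nonempty). If
`P(ρ)` then `ρ + d ≤ g`: the `ρ` functionals `dG_i (f u)` are linearly independent (the matrix
`dG_i(w_j)` is invertible) and vanish on the range of `df_u`, of dimension `d` (`f` is differentiable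
at `u`, `G_i ∘ f = 0` on the open set `U`, chain rule). So the common kernel of the `dG_i`, of
dimension `g - ρ`, contains a space of dimension `d`. Take `ρ` maximal with `P(ρ)`
(`Nat.findGreatest` or `exists maximal`, bounded by `g`). For `H ∈ Ideal f U`, `v`, `u ∈ U`:
`Jac (snoc G H) (snoc w v) (f u) ≠ 0` would give `P(ρ + 1)`. So it is `0`; together with `ent_jac`
this says that `Jac (snoc G H) (snoc w v) ∈ Ideal f U`.
-/

open Complex Filter Topology Metric

namespace AMC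

private theorem Rnk_bound {g d ρ : ℕ} {U : Set (Fin d → ℂ)} {f : (Fin d → ℂ) → (Fin g → ℂ)}
    (hU : IsOpen U) (hf : DifferentiableOn ℂ f U)
    (hinj : ∀ u ∈ U, Function.Injective (fderiv ℂ f u))
    {G : Fin ρ → (Fin g → ℂ) → ℂ} {w : Fin ρ → Fin g → ℂ} (hG : ∀ i, G i ∈ Ideal f U)
    {u : Fin d → ℂ} (hu : u ∈ U) (hJ : Jac G w (f u) ≠ 0) : ρ + d ≤ g := by
  set A : Matrix (Fin ρ) (Fin ρ) ℂ := Matrix.of fun i j => fderiv ℂ (G i) (f u) (w j) with hA
  have hdet : IsUnit A.det := isUnit_iff_ne_zero.2 hJ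
  let L : (Fin g → ℂ) →ₗ[ℂ] (Fin ρ → ℂ) :=
    LinearMap.pi fun i => (fderiv ℂ (G i) (f u) : (Fin g → ℂ) →ₗ[ℂ] ℂ)
  have hL : ∀ x i, L x i = fderiv ℂ (G i) (f u) x := fun x i => rfl
  have hsurj : Function.Surjective L := by
    intro y
    refine ⟨∑ j, (A⁻¹.mulVec y) j • w j, ?_⟩
    have h1 : L (∑ j, (A⁻¹.mulVec y) j • w j) = A.mulVec (A⁻¹.mulVec y) := by
      funext i
      rw [hL, map_sum]
      simp only [map_smul, smul_eq_mul]
      rw [Matrix.mulVec, dotProduct]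
      refine Finset.sum_congr rfl fun j _ => ?_
      rw [hA, Matrix.of_apply, mul_comm]
    rw [h1, Matrix.mulVec_mulVec, Matrix.mul_nonsing_inv _ hdet, Matrix.one_mulVec]
  have hfd : HasFDerivAt f (fderiv ℂ f u) u :=
    (hf.differentiableAt (hU.mem_nhds hu)).hasFDerivAt
  have hker : LinearMap.range (fderiv ℂ f u : (Fin d → ℂ) →ₗ[ℂ] (Fin g → ℂ)) ≤
      LinearMap.ker L := by
    rintro _ ⟨x, rfl⟩
    rw [LinearMap.mem_ker]
    funext i
    rw [hL]
    have h2 : HasFDerivAt (G i) (fderiv ℂ (G i) (f u)) (f u) :=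
      (Ent.differentiable (hG i).1 (f u)).hasFDerivAt
    have h3 := h2.comp u hfd
    have h4 : HasFDerivAt (G i ∘ f) (0 : (Fin d → ℂ) →L[ℂ] ℂ) u := by
      refine (hasFDerivAt_const (0 : ℂ) u).congr_of_eventuallyEq ?_
      filter_upwards [hU.mem_nhds hu] with y hy
      exact (hG i).2 y hy
    have h5 := h3.unique h4
    exact DFunLike.congr_fun h5 x
  have h6 : Module.finrank ℂ
      (LinearMap.range (fderiv ℂ f u : (Fin d → ℂ) →ₗ[ℂ] (Fin g → ℂ))) = d := by
    rw [LinearMap.finrank_range_of_inj (hinj u hu), Module.finrank_fin_fun]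
  have h7 := Submodule.finrank_mono hker
  have h8 := LinearMap.finrank_range_add_finrank_ker L
  rw [LinearMap.range_eq_top.2 hsurj, finrank_top, Module.finrank_fin_fun,
    Module.finrank_fin_fun] at h8
  omega

theorem exists_rank {g d : ℕ} {U : Set (Fin d → ℂ)} {f : (Fin d → ℂ) → (Fin g → ℂ)}
    (hU : IsOpen U) (hne : U.Nonempty) (hf : DifferentiableOn ℂ f U)
    (hinj : ∀ u ∈ U, Function.Injective (fderiv ℂ f u)) :
    ∃ (ρ : ℕ) (G : Fin ρ → (Fin g → ℂ) → ℂ) (w : Fin ρ → Fin g → ℂ), ρ + d ≤ g ∧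
      (∀ i, G i ∈ Ideal f U) ∧ (∃ u ∈ U, Jac G w (f u) ≠ 0) ∧
      ∀ H ∈ Ideal f U, ∀ v, Jac (Fin.snoc (α := fun _ => (Fin g → ℂ) → ℂ) G H)
        (Fin.snoc (α := fun _ => Fin g → ℂ) w v) ∈ Ideal f U := by
  classical
  let Q : ℕ → Prop := fun ρ => ∃ (G : Fin ρ → (Fin g → ℂ) → ℂ) (w : Fin ρ → Fin g → ℂ),
    (∀ i, G i ∈ Ideal f U) ∧ ∃ u ∈ U, Jac G w (f u) ≠ 0
  have hQ0 : Q 0 := by
    obtain ⟨u, hu⟩ := hne
    refine ⟨fun i => i.elim0, fun i => i.elim0, fun i => i.elim0, u, hu, ?_⟩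
    unfold Jac
    rw [Matrix.det_isEmpty]
    exact one_ne_zero
  have hQg : ∀ ρ, Q ρ → ρ + d ≤ g := by
    rintro ρ ⟨G, w, hG, u, hu, hJ⟩
    exact Rnk_bound hU hf hinj hG hu hJ
  have h1 : Q (Nat.findGreatest Q g) := Nat.findGreatest_spec (Nat.zero_le g) hQ0
  have h2 : ¬ Q (Nat.findGreatest Q g + 1) := by
    intro h3
    have h4 := hQg _ h3
    exact Nat.findGreatest_is_greatest (Nat.lt_succ_self _) (by omega) h3
  have h5 := hQg _ h1
  generalize Nat.findGreatest Q g = ρ at h1 h2 h5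
  obtain ⟨G, w, hG, hu⟩ := h1
  refine ⟨ρ, G, w, h5, hG, hu, fun H hH v => ⟨?_, fun u hu' => ?_⟩⟩
  · refine ent_jac (fun i => ?_) _
    induction i using Fin.lastCases with
    | last => rw [Fin.snoc_last]; exact hH.1
    | cast i => rw [Fin.snoc_castSucc]; exact (hG i).1
  · by_contra h6
    refine h2 ⟨_, _, fun i => ?_, u, hu', h6⟩
    induction i using Fin.lastCases with
    | last => rw [Fin.snoc_last]; exact hH
    | cast i => rw [Fin.snoc_castSucc]; exact hG i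

end AMC
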