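import Pool.Agent.Lib.MP_b57e3c_ag_M.Defs

/-!
# Module Tst : closure properties of the class of test functions

Elementary. `φ z = Re (P z) + HForm h z` with `P` entire, `HForm h` positive on `V ∖ 0`,
`dim V + m ≥ g + 1`.

* `continuous`: clear (`Differentiable.continuous`, `HForm` is a polynomial in `z`, `z̄`).
* `add_re`: replace `P` by `P + Q`.
* `mono`: clear.
* `comp_add` : `HForm h (z + a) = HForm h z + Re (linear form of z) + const`:
  `(z+a)* h (z+a) = z* h z + z* h a + a* h z + a* h a` and `Re (z* h a) = Re (a* h* z)`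
  (take conjugates), which is the real part of a ℂ-linear form in `z`.
* `strict`: on the compact unit sphere of `V` (finite dimensional) the continuous function `HForm h`
  has a positive minimum `c`; `HForm h v ≥ c ‖v‖²` on `V` by homogeneity
  (`HForm h (t v) = |t|² HForm h v`), and `nsq v ≤ g ‖v‖²` (sup norm). Take `δ > 0` with `δ g < c`
  (any `δ` if `g = 0`). `nsq (z - p) = HForm 1 z + Re (-2 ∑ conj (p i) z i) + const`, so
  `φ - δ nsq (· - p)` has the data `P' = P + δ (2 ∑ conj (p i) z i) - δ nsq p`, `h' = h - δ • 1`, `V`.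
* `slice`: with `w = ℓ z - i s` one has `((ℓ z).im - s)² = (|w|² - Re w²)/2` and
  `|w|² = |ℓ z|² - 2 Re (conj (i s) ℓ z) + s²`; `|ℓ z|² = HForm k z` for
  `k i j = conj (ℓ e_i) (ℓ e_j)`. So `φ - N ((ℓ z).im - s)²` has `h' = h - (N/2) k`; on
  `V' = V ⊓ ker ℓ`, `HForm h' = HForm h` is positive, and `dim V' ≥ dim V - 1`.
* `add_im`: `N * ((ℓ z).im - s) = Re (N * (- i ℓ z - s))`.
-/

open Complex Filter Topology

namespace AMC

variable {g m : ℕ} {φ : (Fin g → ℂ) → ℝ}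

theorem Tst_HForm_eq (h : Matrix (Fin g) (Fin g) ℂ) (z : Fin g → ℂ) :
    HForm h z = ∑ i, ∑ j, ((starRingEnd ℂ) (z i) * h i j * z j).re := by
  unfold HForm
  rw [Complex.re_sum]
  exact Finset.sum_congr rfl fun i _ => Complex.re_sum _ _

theorem Tst_HForm_cont (h : Matrix (Fin g) (Fin g) ℂ) : Continuous (HForm h) := by
  unfold HForm
  refine Complex.continuous_re.comp ?_
  refine continuous_finsetSum _ fun i _ => continuous_finsetSum _ fun j _ => ?_
  exact ((Complex.continuous_conj.comp (continuous_apply i)).mul continuous_const).mul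
    (continuous_apply j)

theorem Tst_lin_diff (ℓ : (Fin g → ℂ) →ₗ[ℂ] ℂ) : Differentiable ℂ fun z => ℓ z :=
  (LinearMap.toContinuousLinearMap ℓ).differentiable

theorem TestFn.continuous (hφ : TestFn m φ) : Continuous φ := by
  obtain ⟨P, h, V, hP, hφ, -, -⟩ := hφ
  have e : φ = fun z => (P z).re + HForm h z := funext hφ
  rw [e]
  exact (Complex.continuous_re.comp hP.continuous).add (Tst_HForm_cont h)

theorem TestFn.add_re (hφ : TestFn m φ) {Q : (Fin g → ℂ) → ℂ} (hQ : Differentiable ℂ Q) :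
    TestFn m (fun z => φ z + (Q z).re) := by
  obtain ⟨P, h, V, hP, hφ, hV, hpos⟩ := hφ
  refine ⟨fun z => P z + Q z, h, V, hP.add hQ, fun z => ?_, hV, hpos⟩
  beta_reduce
  rw [hφ, Complex.add_re]
  ring

theorem TestFn.mono (hφ : TestFn m φ) {n : ℕ} (h : m ≤ n) : TestFn n φ := by
  obtain ⟨P, h', V, hP, hφ, hV, hpos⟩ := hφ
  exact ⟨P, h', V, hP, hφ, by omega, hpos⟩

theorem Tst_comp (h : Matrix (Fin g) (Fin g) ℂ) (z a : Fin g → ℂ) :
    HForm h (z + a) = HForm h z + (∑ i, ∑ j, (z i * (starRingEnd ℂ) (h i j * a j) +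
      (starRingEnd ℂ) (a i) * h i j * z j + (starRingEnd ℂ) (a i) * h i j * a j)).re := by
  rw [Tst_HForm_eq, Tst_HForm_eq, Complex.re_sum]
  simp only [Complex.re_sum]
  rw [← Finset.sum_add_distrib]
  refine Finset.sum_congr rfl fun i _ => ?_
  rw [← Finset.sum_add_distrib]
  refine Finset.sum_congr rfl fun j _ => ?_
  rw [Pi.add_apply, Pi.add_apply]
  simp only [Complex.add_re, Complex.add_im, Complex.mul_re, Complex.mul_im, Complex.conj_re,
    Complex.conj_im]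
  ring

theorem TestFn.comp_add (hφ : TestFn m φ) (a : Fin g → ℂ) : TestFn m (fun z => φ (z + a)) := by
  obtain ⟨P, h, V, hP, hφ, hV, hpos⟩ := hφ
  refine ⟨fun z => P (z + a) + ∑ i, ∑ j, (z i * (starRingEnd ℂ) (h i j * a j) +
      (starRingEnd ℂ) (a i) * h i j * z j + (starRingEnd ℂ) (a i) * h i j * a j), h, V, ?_,
      fun z => ?_, hV, hpos⟩
  · refine (hP.comp (differentiable_id.add_const a)).add ?_
    fun_prop
  · beta_reduce
    rw [hφ, Tst_comp, Complex.add_re]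
    ring

theorem Tst_HForm_smul (h : Matrix (Fin g) (Fin g) ℂ) (t : ℝ) (z : Fin g → ℂ) :
    HForm h ((t : ℂ) • z) = t ^ 2 * HForm h z := by
  rw [Tst_HForm_eq, Tst_HForm_eq, Finset.mul_sum]
  refine Finset.sum_congr rfl fun i _ => ?_
  rw [Finset.mul_sum]
  refine Finset.sum_congr rfl fun j _ => ?_
  rw [Pi.smul_apply, Pi.smul_apply, smul_eq_mul, smul_eq_mul]
  simp only [Complex.mul_re, Complex.mul_im, Complex.conj_re, Complex.conj_im,
    Complex.ofReal_re, Complex.ofReal_im]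
  ring

theorem Tst_nsq_le (v : Fin g → ℂ) : nsq v ≤ g * ‖v‖ ^ 2 := by
  unfold nsq
  have h1 : ∀ i ∈ Finset.univ, ‖v i‖ ^ 2 ≤ ‖v‖ ^ 2 := fun i _ =>
    pow_le_pow_left₀ (norm_nonneg _) (norm_le_pi_norm v i) 2
  have h2 := Finset.sum_le_card_nsmul _ _ _ h1
  simpa using h2

theorem Tst_nsq_nonneg (v : Fin g → ℂ) : 0 ≤ nsq v :=
  Finset.sum_nonneg fun i _ => by positivity

theorem Tst_pos {h : Matrix (Fin g) (Fin g) ℂ} {V : Submodule ℂ (Fin g → ℂ)}
    (hpos : ∀ v ∈ V, v ≠ 0 → 0 < HForm h v) :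
    ∃ δ > 0, ∀ v ∈ V, v ≠ 0 → δ * nsq v < HForm h v := by
  have hcomp : IsCompact ((V : Set (Fin g → ℂ)) ∩ Metric.sphere 0 1) :=
    (isCompact_sphere 0 1).inter_left (Submodule.closed_of_finiteDimensional V)
  by_cases hne : ((V : Set (Fin g → ℂ)) ∩ Metric.sphere 0 1).Nonempty
  · obtain ⟨v₀, hv₀, hmin⟩ := hcomp.exists_isMinOn hne (Tst_HForm_cont h).continuousOn
    have hv1 : ‖v₀‖ = 1 := by simpa using hv₀.2
    have hv0 : v₀ ≠ 0 := by
      rintro rfl
      simp at hv1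
    have hc := hpos v₀ hv₀.1 hv0
    refine ⟨HForm h v₀ / (g + 1), by positivity, fun v hv hv' => ?_⟩
    have hn : 0 < ‖v‖ := norm_pos_iff.2 hv'
    have h1 : ((‖v‖⁻¹ : ℝ) : ℂ) • v ∈ (V : Set (Fin g → ℂ)) ∩ Metric.sphere 0 1 := by
      refine ⟨V.smul_mem _ hv, ?_⟩
      rw [mem_sphere_zero_iff_norm, norm_smul, Complex.norm_real, norm_inv, norm_norm,
        inv_mul_cancel₀ hn.ne']
    have h2 : HForm h v₀ ≤ HForm h (((‖v‖⁻¹ : ℝ) : ℂ) • v) := hmin h1
    rw [Tst_HForm_smul] at h2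
    have h3 : HForm h v₀ * ‖v‖ ^ 2 ≤ HForm h v := by
      have h4 := mul_le_mul_of_nonneg_right h2 (sq_nonneg ‖v‖)
      have h5 : ‖v‖⁻¹ ^ 2 * HForm h v * ‖v‖ ^ 2 = HForm h v := by
        field_simp
      rwa [h5] at h4
    have h4 := Tst_nsq_le v
    have h5 : HForm h v₀ / (g + 1) * nsq v ≤ HForm h v₀ / (g + 1) * (g * ‖v‖ ^ 2) :=
      mul_le_mul_of_nonneg_left h4 (by positivity)
    have h6 : HForm h v₀ / (g + 1) * (g * ‖v‖ ^ 2) < HForm h v₀ * ‖v‖ ^ 2 := by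
      rw [div_mul_eq_mul_div, div_lt_iff₀ (by positivity)]
      nlinarith [mul_pos hc (pow_pos hn 2)]
    linarith
  · refine ⟨1, one_pos, fun v hv hv' => ?_⟩
    exfalso
    apply hne
    have hn : 0 < ‖v‖ := norm_pos_iff.2 hv'
    refine ⟨((‖v‖⁻¹ : ℝ) : ℂ) • v, V.smul_mem _ hv, ?_⟩
    rw [mem_sphere_zero_iff_norm, norm_smul, Complex.norm_real, norm_inv, norm_norm,
      inv_mul_cancel₀ hn.ne']

theorem Tst_HForm_sub (h k : Matrix (Fin g) (Fin g) ℂ) (z : Fin g → ℂ) :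
    HForm (h - k) z = HForm h z - HForm k z := by
  rw [Tst_HForm_eq, Tst_HForm_eq, Tst_HForm_eq, ← Finset.sum_sub_distrib]
  refine Finset.sum_congr rfl fun i _ => ?_
  rw [← Finset.sum_sub_distrib]
  refine Finset.sum_congr rfl fun j _ => ?_
  rw [Matrix.sub_apply, mul_sub, sub_mul, Complex.sub_re]

theorem Tst_HForm_rsmul (k : Matrix (Fin g) (Fin g) ℂ) (t : ℝ) (z : Fin g → ℂ) :
    HForm ((t : ℂ) • k) z = t * HForm k z := by
  rw [Tst_HForm_eq, Tst_HForm_eq, Finset.mul_sum]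
  refine Finset.sum_congr rfl fun i _ => ?_
  rw [Finset.mul_sum]
  refine Finset.sum_congr rfl fun j _ => ?_
  rw [Matrix.smul_apply, smul_eq_mul, ← Complex.re_ofReal_mul]
  congr 1
  ring

theorem Tst_HForm_one (z : Fin g → ℂ) : HForm 1 z = nsq z := by
  rw [Tst_HForm_eq]
  unfold nsq
  refine Finset.sum_congr rfl fun i _ => ?_
  rw [Finset.sum_eq_single i]
  · rw [Matrix.one_apply_eq, mul_one, ← Complex.normSq_eq_conj_mul_self, Complex.ofReal_re,
      Complex.normSq_eq_norm_sq]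
  · intro j _ hj
    rw [Matrix.one_apply_ne hj.symm, mul_zero, zero_mul, Complex.zero_re]
  · intro hi
    exact absurd (Finset.mem_univ i) hi

theorem Tst_nsq_sub (z p : Fin g → ℂ) :
    nsq (z - p) = nsq z - (∑ i, (2 * ((starRingEnd ℂ) (p i) * z i) -
      (((‖p i‖ ^ 2 : ℝ)) : ℂ))).re := by
  unfold nsq
  rw [Complex.re_sum, ← Finset.sum_sub_distrib]
  refine Finset.sum_congr rfl fun i _ => ?_
  rw [Pi.sub_apply, ← Complex.normSq_eq_norm_sq, ← Complex.normSq_eq_norm_sq,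
    ← Complex.normSq_eq_norm_sq, Complex.normSq_sub, Complex.sub_re, Complex.ofReal_re]
  simp only [Complex.mul_re, Complex.mul_im, Complex.conj_re, Complex.conj_im, Complex.re_ofNat,
    Complex.im_ofNat]
  ring

theorem TestFn.strict (hφ : TestFn m φ) :
    ∃ δ > 0, ∀ p, TestFn m (fun z => φ z - δ * nsq (z - p)) := by
  obtain ⟨P, h, V, hP, hφ, hV, hpos⟩ := hφ
  obtain ⟨δ, hδ, hδ'⟩ := Tst_pos hpos
  refine ⟨δ, hδ, fun p => ⟨fun z => P z + (δ : ℂ) * ∑ i, (2 * ((starRingEnd ℂ) (p i) * z i) -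
    (((‖p i‖ ^ 2 : ℝ)) : ℂ)), h - (δ : ℂ) • (1 : Matrix (Fin g) (Fin g) ℂ), V, ?_, fun z => ?_,
    hV, fun v hv hv' => ?_⟩⟩
  · refine hP.add ?_
    fun_prop
  · beta_reduce
    rw [hφ, Tst_nsq_sub, Tst_HForm_sub, Tst_HForm_rsmul, Tst_HForm_one, Complex.add_re,
      Complex.re_ofReal_mul]
    ring
  · rw [Tst_HForm_sub, Tst_HForm_rsmul, Tst_HForm_one]
    linarith [hδ' v hv hv']

theorem Tst_lin (ℓ : (Fin g → ℂ) →ₗ[ℂ] ℂ) (z : Fin g → ℂ) :
    ℓ z = ∑ i, z i * ℓ (Pi.single i 1) := by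
  conv_lhs => rw [pi_eq_sum_univ' z]
  rw [map_sum]
  refine Finset.sum_congr rfl fun i _ => ?_
  rw [map_smul, smul_eq_mul]

theorem Tst_HForm_k (ℓ : (Fin g → ℂ) →ₗ[ℂ] ℂ) (z : Fin g → ℂ) :
    HForm (Matrix.of fun i j => (starRingEnd ℂ) (ℓ (Pi.single i 1)) * ℓ (Pi.single j 1)) z =
      Complex.normSq (ℓ z) := by
  unfold HForm
  have e1 : ((Complex.normSq (ℓ z) : ℝ) : ℂ) = (starRingEnd ℂ) (ℓ z) * ℓ z :=
    Complex.normSq_eq_conj_mul_self
  rw [← Complex.ofReal_re (Complex.normSq (ℓ z)), e1, Tst_lin ℓ z, map_sum,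
    Finset.sum_mul_sum]
  congr 1
  refine Finset.sum_congr rfl fun i _ => Finset.sum_congr rfl fun j _ => ?_
  rw [Matrix.of_apply, map_mul]
  ring

theorem Tst_finrank (ℓ : (Fin g → ℂ) →ₗ[ℂ] ℂ) (V : Submodule ℂ (Fin g → ℂ)) :
    Module.finrank ℂ V ≤ Module.finrank ℂ ↥(V ⊓ LinearMap.ker ℓ) + 1 := by
  have h1 := Submodule.finrank_sup_add_finrank_inf_eq V (LinearMap.ker ℓ)
  have h2 := LinearMap.finrank_range_add_finrank_ker ℓ
  have h3 : Module.finrank ℂ ↥(LinearMap.range ℓ) ≤ 1 := by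
    have := Submodule.finrank_le (LinearMap.range ℓ)
    rwa [Module.finrank_self] at this
  have h4 := Submodule.finrank_le (V ⊔ LinearMap.ker ℓ)
  omega

theorem TestFn.slice (hφ : TestFn m φ) (ℓ : (Fin g → ℂ) →ₗ[ℂ] ℂ) (N s : ℝ) :
    TestFn (m + 1) (fun z => φ z - N * ((ℓ z).im - s) ^ 2) := by
  obtain ⟨P, h, V, hP, hφ, hV, hpos⟩ := hφ
  have hℓ := Tst_lin_diff ℓ
  refine ⟨fun z => P z + ((N : ℂ) * ((starRingEnd ℂ) (I * s) * ℓ z) - ((N * s ^ 2 / 2 : ℝ) : ℂ) +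
      ((N / 2 : ℝ) : ℂ) * (ℓ z - I * s) ^ 2),
    h - ((N / 2 : ℝ) : ℂ) •
      (Matrix.of fun i j => (starRingEnd ℂ) (ℓ (Pi.single i 1)) * ℓ (Pi.single j 1)),
    V ⊓ LinearMap.ker ℓ, ?_, fun z => ?_, ?_, fun v hv hv' => ?_⟩
  · refine hP.add ?_
    fun_prop
  · beta_reduce
    rw [hφ, Tst_HForm_sub, Tst_HForm_rsmul, Tst_HForm_k, Complex.normSq_apply]
    simp only [Complex.add_re, Complex.sub_re, Complex.mul_re, Complex.mul_im, Complex.conj_re,
      Complex.conj_im, Complex.ofReal_re, Complex.ofReal_im, Complex.I_re, Complex.I_im, pow_two,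
      Complex.sub_im]
    ring
  · have := Tst_finrank ℓ V
    omega
  · rw [Tst_HForm_sub, Tst_HForm_rsmul, Tst_HForm_k]
    have h1 : ℓ v = 0 := LinearMap.mem_ker.1 (Submodule.mem_inf.1 hv).2
    rw [h1, map_zero, mul_zero, sub_zero]
    exact hpos v (Submodule.mem_inf.1 hv).1 hv'

theorem TestFn.add_im (hφ : TestFn m φ) (ℓ : (Fin g → ℂ) →ₗ[ℂ] ℂ) (N s : ℝ) :
    TestFn m (fun z => φ z + N * ((ℓ z).im - s)) := by
  have hℓ := Tst_lin_diff ℓ
  have h1 : Differentiable ℂ fun z => (N : ℂ) * (-I * ℓ z - s) := by fun_prop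
  have h2 := hφ.add_re h1
  convert h2 using 2 with z
  simp only [Complex.sub_re, Complex.mul_re, Complex.neg_re, Complex.neg_im, Complex.I_re,
    Complex.I_im, Complex.ofReal_re, Complex.ofReal_im, Complex.sub_im, Complex.mul_im]
  ring

end AMC
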