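import Pool.Agent.Lib.MP_b57e3c_ag_M.Jc

/-!
# Module Van : the ideal vanishes along the curve

Put `γ t = p + t v + ∑ j, c t j w j`, holomorphic on `ball 0 r`, `γ 0 = p`,
`γ' t = v + ∑ j, (c' t) j w j`, and `G i (γ t) = 0` gives `dG_i (γ t) (γ' t) = 0`. By `jac_snoc` (at
`z = γ t`, coefficients `c' t`), for every `H`:
`Jac (snoc G H) (snoc w v) (γ t) = Jac G w (γ t) * (H ∘ γ)' (t)`.
Let `r' ≤ r` be such that `Jac G w (γ t) ≠ 0` on `ball 0 r'`. So for `H ∈ I`, with
`H' = Jac (snoc G H) (snoc w v) ∈ I`: `(H ∘ γ)' = (H' ∘ γ) / (Jac G w ∘ γ)` on `ball 0 r'`.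

Claim: for every `n`, every `H ∈ I` and every `u` holomorphic on `ball 0 r'`, the `n`-th derivative
of `(H ∘ γ) * u` at `0` is `0`. Induction on `n`: `n = 0` since `H p = 0`. For `n + 1`:
`((H ∘ γ) u)' = (H' ∘ γ) (u / (Jac G w ∘ γ)) + (H ∘ γ) u'` near `0` and the induction hypothesis
applies to both terms (`iteratedDeriv_succ'`; derivative of holomorphic is holomorphic).
Hence `H ∘ γ` (holomorphic on `ball 0 r`) has all derivatives zero at `0`, so it is `0` near `0`
(power series), and on the whole ball by the identity theorem.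
-/

open Complex Filter Topology Metric

namespace AMC

theorem vanish {g ρ : ℕ} (I : Set ((Fin g → ℂ) → ℂ)) (hI : ∀ H ∈ I, Ent H)
    {G : Fin ρ → (Fin g → ℂ) → ℂ} {w : Fin ρ → Fin g → ℂ} (hG : ∀ i, G i ∈ I) (v : Fin g → ℂ)
    (hbr : ∀ H ∈ I, Jac (Fin.snoc (α := fun _ => (Fin g → ℂ) → ℂ) G H)
      (Fin.snoc (α := fun _ => Fin g → ℂ) w v) ∈ I)
    {p : Fin g → ℂ} (hp : ∀ H ∈ I, H p = 0) (hJ : Jac G w p ≠ 0) {c : ℂ → Fin ρ → ℂ} {r : ℝ}
    (hr : 0 < r) (hc : DifferentiableOn ℂ c (ball 0 r)) (hc0 : c 0 = 0)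
    (hγ : ∀ t ∈ ball (0 : ℂ) r, ∀ i, G i (p + t • v + ∑ j, c t j • w j) = 0) :
    ∀ H ∈ I, ∀ t ∈ ball (0 : ℂ) r, H (p + t • v + ∑ j, c t j • w j) = 0 := by
  set γ : ℂ → Fin g → ℂ := fun t => p + t • v + ∑ j, c t j • w j with hγd
  have hγ0 : γ 0 = p := by
    simp [hγd, hc0]
  have hγ' : ∀ t ∈ ball (0 : ℂ) r, HasDerivAt γ (v + ∑ j, deriv c t j • w j) t := by
    intro t ht
    have h1 : HasDerivAt c (deriv c t) t :=
      (hc.differentiableAt (isOpen_ball.mem_nhds ht)).hasDerivAt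
    have h2 : HasDerivAt (fun t => ∑ j, c t j • w j) (∑ j, deriv c t j • w j) t := by
      refine HasDerivAt.fun_sum fun j _ => ?_
      exact ((hasDerivAt_pi.1 h1) j).smul_const (w j)
    have h3 : HasDerivAt (fun t : ℂ => p + t • v) v t := by
      have h4 := ((hasDerivAt_id t).smul_const v).const_add p
      rw [one_smul] at h4
      exact h4
    exact h3.add h2
  have hcomp : ∀ H : (Fin g → ℂ) → ℂ, Ent H → ∀ t ∈ ball (0 : ℂ) r,
      HasDerivAt (fun t => H (γ t)) (fderiv ℂ H (γ t) (v + ∑ j, deriv c t j • w j)) t := by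
    intro H hH t ht
    exact ((hH.differentiable (γ t)).hasFDerivAt).comp_hasDerivAt t (hγ' t ht)
  have han : ∀ H : (Fin g → ℂ) → ℂ, Ent H →
      AnalyticOnNhd ℂ (fun t => H (γ t)) (ball (0 : ℂ) r) := by
    intro H hH
    refine DifferentiableOn.analyticOnNhd (fun t ht => ?_) isOpen_ball
    exact (hcomp H hH t ht).differentiableAt.differentiableWithinAt
  have h0 : (0 : ℂ) ∈ ball (0 : ℂ) r := mem_ball_self hr
  have hGz : ∀ t ∈ ball (0 : ℂ) r, ∀ i,
      fderiv ℂ (G i) (γ t) (v + ∑ j, deriv c t j • w j) = 0 := by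
    intro t ht i
    have h1 := hcomp (G i) (hI _ (hG i)) t ht
    have h2 : HasDerivAt (fun t => G i (γ t)) 0 t := by
      refine (hasDerivAt_const t (0 : ℂ)).congr_of_eventuallyEq ?_
      filter_upwards [isOpen_ball.mem_nhds ht] with s hs
      exact hγ s hs i
    exact h1.unique h2
  have hJE : Ent (Jac G w) := ent_jac (fun i => hI _ (hG i)) w
  have hkey : ∀ n : ℕ, ∀ H ∈ I, analyticOrderAt (fun t => H (γ t)) 0 ≠ n := by
    intro n
    induction n with
    | zero =>
      intro H hH h1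
      have h2 := (han H (hI H hH) 0 h0).analyticOrderAt_eq_zero.1 (by simpa using h1)
      apply h2
      show H (γ 0) = 0
      rw [hγ0]
      exact hp H hH
    | succ n ih =>
      intro H hH h1
      set H' := Jac (Fin.snoc (α := fun _ => (Fin g → ℂ) → ℂ) G H)
        (Fin.snoc (α := fun _ => Fin g → ℂ) w v) with hH'
      have hH'I : H' ∈ I := hbr H hH
      apply ih H' hH'I
      have hHan := han H (hI H hH) 0 h0
      have e1 : (fun t => H' (γ t)) =ᶠ[𝓝 0]
          (fun t => Jac G w (γ t)) * deriv (fun t => H (γ t)) := by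
        filter_upwards [isOpen_ball.mem_nhds h0] with t ht
        rw [Pi.mul_apply, (hcomp H (hI H hH) t ht).deriv]
        exact jac_snoc G w H v (γ t) (deriv c t) (hGz t ht)
      have e2 : analyticOrderAt (fun t => Jac G w (γ t)) 0 = 0 := by
        refine (han _ hJE 0 h0).analyticOrderAt_eq_zero.2 ?_
        show Jac G w (γ 0) ≠ 0
        rw [hγ0]
        exact hJ
      have e3 : analyticOrderAt (deriv (fun t => H (γ t))) 0 + 1 =
          analyticOrderAt (fun t => H (γ t)) 0 := by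
        have e4 := hHan.analyticOrderAt_deriv_add_one
        have e5 : (fun t => H (γ t) - H (γ 0)) = fun t => H (γ t) := by
          funext t
          rw [hγ0, hp H hH, sub_zero]
        rw [e5] at e4
        exact e4
      rw [analyticOrderAt_congr e1, analyticOrderAt_mul (han _ hJE 0 h0) hHan.deriv, e2, zero_add]
      rw [h1] at e3
      push_cast at e3
      exact (ENat.add_left_injective_of_ne_top ENat.one_ne_top) e3
  intro H hH t ht
  have h1 : analyticOrderAt (fun t => H (γ t)) 0 = ⊤ := by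
    by_contra hcon
    obtain ⟨n, hn⟩ := ENat.ne_top_iff_exists.1 hcon
    exact hkey n H hH hn.symm
  have h2 := (han H (hI H hH)).eqOn_zero_of_preconnected_of_eventuallyEq_zero
    (convex_ball 0 r).isPreconnected h0 (analyticOrderAt_eq_top.1 h1)
  exact h2 ht

end AMC
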