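import Pool.Agent.Lib.MP_b57e3c_ag_M.Shm
import Pool.Agent.Lib.MP_b57e3c_ag_M.Crv
import Pool.Agent.Lib.MP_b57e3c_ag_M.Van
import Pool.Agent.Lib.MP_b57e3c_ag_M.Rnk
import Pool.Agent.Lib.MP_b57e3c_ag_M.Tst

/-!
# Module Reg : a closed set with the maximum principle of dimension `d` inside the zero set

Let `ρ, G, w` be as in `exists_rank`, `J = Jac G w`, `I = Ideal f U`,
`R = {z | (∀ H ∈ I, H z = 0) ∧ J z ≠ 0}` and `M = closure R`. `R` is nonempty: `f u ∈ R` for the `u` of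
`exists_rank`. `M ⊆ {z | ∀ H ∈ I, H z = 0}` (closed). In particular `M ∩ {J ≠ 0} ⊆ R`.

Maximum principle. Let `φ = Re P + HForm h` (positive on `V ∖ 0`, `dim V + d ≥ g + 1`) have a local
maximum on `M` at `p ∈ M`. By `TestFn.strict` we may replace `φ` by `ψ z = φ z - δ nsq (z - p)`, again
a test function, and there is `r > 0` with `ψ z ≤ ψ p - δ nsq (z-p)` on `M ∩ closedBall p r`; so
`ψ ≤ ψ p - δ r²` for `‖z - p‖ = r` in `M` (sup norm, `nsq ≥ ‖·‖²`). Choose `z₀ ∈ R` with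
`‖z₀ - p‖ < r`, `ψ z₀ > ψ p - δ r² / 2` (continuity, `p ∈ closure R`). `J z₀ ≠ 0`. For large `N`
(`N : ℝ`, `N > 0`): `exp (N ψ z₀) |J z₀| > exp (N (ψ p - δ r²)) sup_{closedBall p r} |J|`. So the maximum of
`exp (N ψ) |J|` on the compact set `M ∩ closedBall p r` is attained at a point `z₁` with
`‖z₁ - p‖ < r`, and the value is positive, so `J z₁ ≠ 0`, `z₁ ∈ R`.
Let `T = {x | ∀ i, dG_i(z₁) x = 0}`: `dim T ≥ g - ρ ≥ d`, so `T ⊓ V ≠ 0` (dimensions: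
`dim T + dim V ≥ d + g + 1 - d > g`); pick `v ≠ 0` in it. `exists_curve` and `vanish` give
`γ t = z₁ + t v + ∑ c_j(t) w_j` with `γ' 0 = v`, `H (γ t) = 0` for all `H ∈ I`, `|t| < r'`; for small
`t`, `J (γ t) ≠ 0`, so `γ t ∈ R ⊆ M`, and `‖γ t - p‖ < r`. So `t ↦ exp (N ψ (γ t)) |J (γ t)|` has a
local maximum at `0`, contradicting `no_max` (for `N P`, `N h`: `HForm (N h) v > 0`).
-/

open Complex Filter Topology Metric

namespace AMC

private theorem Reg_nsq {g : ℕ} (x : Fin g → ℂ) : ‖x‖ ^ 2 ≤ nsq x := by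
  have h0 : 0 ≤ nsq x := Finset.sum_nonneg fun i _ => sq_nonneg _
  have h1 : ‖x‖ ≤ Real.sqrt (nsq x) := by
    rw [pi_norm_le_iff_of_nonneg (Real.sqrt_nonneg _)]
    intro i
    refine Real.le_sqrt_of_sq_le ?_
    exact Finset.single_le_sum (f := fun i => ‖x i‖ ^ 2) (fun i _ => sq_nonneg _)
      (Finset.mem_univ i)
  calc ‖x‖ ^ 2 ≤ Real.sqrt (nsq x) ^ 2 := pow_le_pow_left₀ (norm_nonneg x) h1 2
    _ = nsq x := Real.sq_sqrt h0

private theorem Reg_hform {g : ℕ} (h : Matrix (Fin g) (Fin g) ℂ) (N : ℝ) (z : Fin g → ℂ) :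
    HForm ((N : ℂ) • h) z = N * HForm h z := by
  unfold HForm
  have h1 : ∑ i, ∑ j, (starRingEnd ℂ) (z i) * ((N : ℂ) • h) i j * z j =
      (N : ℂ) * ∑ i, ∑ j, (starRingEnd ℂ) (z i) * h i j * z j := by
    simp only [Finset.mul_sum]
    refine Finset.sum_congr rfl fun i _ => Finset.sum_congr rfl fun j _ => ?_
    rw [Matrix.smul_apply, smul_eq_mul]
    ring
  rw [h1, Complex.re_ofReal_mul]

/-- a common nonzero vector -/
private theorem Reg_vec {g ρ d : ℕ} (L : (Fin g → ℂ) →ₗ[ℂ] (Fin ρ → ℂ))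
    (V : Submodule ℂ (Fin g → ℂ)) (hρ : ρ + d ≤ g) (hV : g + 1 ≤ Module.finrank ℂ V + d) :
    ∃ v ∈ V, v ≠ 0 ∧ L v = 0 := by
  have h1 := LinearMap.finrank_range_add_finrank_ker L
  have h2 : Module.finrank ℂ (LinearMap.range L) ≤ ρ := by
    have := Submodule.finrank_le (LinearMap.range L)
    rwa [Module.finrank_fin_fun] at this
  rw [Module.finrank_fin_fun] at h1
  have h3 := Submodule.finrank_sup_add_finrank_inf_eq V (LinearMap.ker L)
  have h4 : Module.finrank ℂ (V ⊔ LinearMap.ker L : Submodule ℂ (Fin g → ℂ)) ≤ g := by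
    have := Submodule.finrank_le (V ⊔ LinearMap.ker L)
    rwa [Module.finrank_fin_fun] at this
  have h5 : V ⊓ LinearMap.ker L ≠ ⊥ := by
    intro h6
    rw [h6, finrank_bot] at h3
    omega
  obtain ⟨v, hv, hv0⟩ := Submodule.exists_mem_ne_zero_of_ne_bot h5
  exact ⟨v, hv.1, hv0, hv.2⟩

/-- the maximum point of the weighted function -/
private theorem Reg_max {g : ℕ} {R : Set (Fin g → ℂ)} {ψ : (Fin g → ℂ) → ℝ}
    {J : (Fin g → ℂ) → ℂ} (hψ : Continuous ψ) (hJ : Continuous J) (hR : ∀ z ∈ R, J z ≠ 0)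
    {p : Fin g → ℂ} (hp : p ∈ closure R) {r η : ℝ} (hr : 0 < r) (hη : 0 < η)
    (hlt : ∀ z ∈ closure R, dist z p = r → ψ z ≤ ψ p - η) :
    ∃ N : ℝ, 0 < N ∧ ∃ z ∈ closure R, J z ≠ 0 ∧ dist z p < r ∧
      ∀ y ∈ closure R, dist y p < r →
        Real.exp (N * ψ y) * ‖J y‖ ≤ Real.exp (N * ψ z) * ‖J z‖ := by
  have hK : IsCompact (closure R ∩ closedBall p r) :=
    (isCompact_closedBall p r).inter_left isClosed_closure
  obtain ⟨z₀, hz₀R, hz₀r, hz₀ψ⟩ : ∃ z ∈ R, dist z p < r ∧ ψ p - η / 2 < ψ z := by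
    have h1 : ∀ᶠ z in 𝓝 p, dist z p < r := isOpen_ball.mem_nhds (mem_ball_self hr)
    have h2 : ∀ᶠ z in 𝓝 p, ψ p - η / 2 < ψ z :=
      (hψ.tendsto p).eventually (lt_mem_nhds (by linarith))
    obtain ⟨z, hz, h3⟩ := ((mem_closure_iff_frequently.1 hp).and_eventually (h1.and h2)).exists
    exact ⟨z, hz, h3.1, h3.2⟩
  obtain ⟨B, hB⟩ := (isCompact_closedBall p r).exists_bound_of_continuousOn hJ.continuousOn
  have hJ₀ : 0 < ‖J z₀‖ := norm_pos_iff.2 (hR z₀ hz₀R)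
  have hB0 : 0 < B := lt_of_lt_of_le hJ₀ (hB z₀ (le_of_lt hz₀r))
  obtain ⟨κ, hκ⟩ : ∃ κ, κ = ψ z₀ - ψ p + η := ⟨_, rfl⟩
  have hκ0 : 0 < κ := by rw [hκ]; linarith
  obtain ⟨N, hN⟩ : ∃ N, N = B / ‖J z₀‖ / κ := ⟨_, rfl⟩
  have hN0 : 0 < N := by rw [hN]; positivity
  have hbig : Real.exp (N * (ψ p - η)) * B < Real.exp (N * ψ z₀) * ‖J z₀‖ := by
    have h1 : B / ‖J z₀‖ < Real.exp (N * κ) := by
      have h2 := Real.add_one_le_exp (N * κ)
      have h3 : N * κ = B / ‖J z₀‖ := by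
        rw [hN, div_mul_cancel₀ _ hκ0.ne']
      linarith
    rw [div_lt_iff₀ hJ₀] at h1
    have h4 : Real.exp (N * ψ z₀) = Real.exp (N * (ψ p - η)) * Real.exp (N * κ) := by
      rw [← Real.exp_add, hκ]
      congr 1
      ring
    rw [h4, mul_assoc]
    exact mul_lt_mul_of_pos_left h1 (Real.exp_pos _)
  have hcont : Continuous fun z => Real.exp (N * ψ z) * ‖J z‖ :=
    (Real.continuous_exp.comp (continuous_const.mul hψ)).mul hJ.norm
  have hz₀K : z₀ ∈ closure R ∩ closedBall p r := ⟨subset_closure hz₀R, le_of_lt hz₀r⟩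
  obtain ⟨z, hz, hmax⟩ := hK.exists_isMaxOn ⟨z₀, hz₀K⟩ hcont.continuousOn
  have h5 : Real.exp (N * ψ z₀) * ‖J z₀‖ ≤ Real.exp (N * ψ z) * ‖J z‖ := hmax hz₀K
  refine ⟨N, hN0, z, hz.1, ?_, ?_, fun y hy hyr => hmax ⟨hy, le_of_lt hyr⟩⟩
  · intro h6
    rw [h6, norm_zero, mul_zero] at h5
    exact absurd h5 (not_le.2 (mul_pos (Real.exp_pos _) hJ₀))
  · refine lt_of_le_of_ne hz.2 fun h6 => ?_
    have h7 := hlt z hz.1 h6
    have h8 : Real.exp (N * ψ z) * ‖J z‖ ≤ Real.exp (N * (ψ p - η)) * B := by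
      refine mul_le_mul (Real.exp_le_exp.2 (mul_le_mul_of_nonneg_left h7 hN0.le)) (hB z hz.2)
        (norm_nonneg _) (Real.exp_pos _).le
    linarith

theorem exists_mp {g d : ℕ} {U : Set (Fin d → ℂ)} {f : (Fin d → ℂ) → (Fin g → ℂ)}
    (hU : IsOpen U) (hne : U.Nonempty) (hf : DifferentiableOn ℂ f U)
    (hinj : ∀ u ∈ U, Function.Injective (fderiv ℂ f u)) :
    ∃ M : Set (Fin g → ℂ), IsClosed M ∧ M.Nonempty ∧ MP d M ∧
      ∀ z ∈ M, ∀ H : (Fin g → ℂ) → ℂ, Ent H → (∀ u ∈ U, H (f u) = 0) → H z = 0 := by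
  obtain ⟨ρ, G, w, hρ, hG, ⟨u₀, hu₀, hJu₀⟩, hbr⟩ := exists_rank hU hne hf hinj
  obtain ⟨J, hJdef⟩ : ∃ J, J = Jac G w := ⟨_, rfl⟩
  rw [← hJdef] at hJu₀
  have hJe : Ent J := by
    rw [hJdef]
    exact ent_jac (fun i => (hG i).1) w
  have hJd : Differentiable ℂ J := ContDiff.differentiable hJe (by simp)
  obtain ⟨R, hR⟩ : ∃ R : Set (Fin g → ℂ), R = {z | (∀ H ∈ Ideal f U, H z = 0) ∧ J z ≠ 0} :=
    ⟨_, rfl⟩
  have hRm : ∀ z, z ∈ R ↔ (∀ H ∈ Ideal f U, H z = 0) ∧ J z ≠ 0 := by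
    intro z
    rw [hR]
    rfl
  have hcl : ∀ z ∈ closure R, ∀ H ∈ Ideal f U, H z = 0 := by
    intro z hz H hH
    have h1 : IsClosed {z | H z = 0} := isClosed_eq (ContDiff.continuous hH.1) continuous_const
    exact closure_minimal (fun y hy => ((hRm y).1 hy).1 H hH) h1 hz
  refine ⟨closure R, isClosed_closure, ?_, ?_, fun z hz H hH hHU => hcl z hz H ⟨hH, hHU⟩⟩
  · exact ⟨f u₀, subset_closure ((hRm _).2 ⟨fun H hH => hH.2 u₀ hu₀, hJu₀⟩)⟩
  intro φ hφ p hp hmax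
  obtain ⟨δ, hδ, hst⟩ := hφ.strict
  have hψc := (hst p).continuous
  obtain ⟨ε, hε, hb⟩ := Metric.mem_nhdsWithin_iff.1 hmax
  obtain ⟨P, h, V, hP, hψe, hdim, hpos⟩ := hst p
  obtain ⟨ψ, hψ⟩ : ∃ ψ : (Fin g → ℂ) → ℝ, ψ = fun z => φ z - δ * nsq (z - p) := ⟨_, rfl⟩
  rw [← hψ] at hψc
  have hψe' : ∀ z, ψ z = (P z).re + HForm h z := by
    intro z
    rw [hψ]
    exact hψe z
  have hr : 0 < ε / 2 := half_pos hε
  have hlt : ∀ z ∈ closure R, dist z p = ε / 2 → ψ z ≤ ψ p - δ * (ε / 2) ^ 2 := by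
    intro z hz hzr
    have h1 : φ z ≤ φ p := hb ⟨by rw [mem_ball, hzr]; exact half_lt_self hε, hz⟩
    have h2 := Reg_nsq (z - p)
    rw [← dist_eq_norm, hzr] at h2
    have h3 := mul_le_mul_of_nonneg_left h2 hδ.le
    have h4 : nsq (p - p) = 0 := by
      unfold nsq
      simp
    rw [hψ]
    change φ z - δ * nsq (z - p) ≤ φ p - δ * nsq (p - p) - δ * (ε / 2) ^ 2
    rw [h4]
    linarith
  obtain ⟨N, hN, z₁, hz₁, hJ₁, hz₁r, hz₁max⟩ := Reg_max hψc hJd.continuous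
    (fun z hz => ((hRm z).1 hz).2) hp hr (by positivity) hlt
  have hI₁ := hcl z₁ hz₁
  -- the direction
  obtain ⟨v, hvV, hv0, hLv⟩ := Reg_vec
    (LinearMap.pi fun i => (fderiv ℂ (G i) z₁ : (Fin g → ℂ) →ₗ[ℂ] ℂ)) V hρ hdim
  have hv : ∀ i, fderiv ℂ (G i) z₁ v = 0 := fun i => congrFun hLv i
  rw [hJdef] at hJ₁
  obtain ⟨r', c, hr', hc, hc0, hc0', hγ⟩ := exists_curve (fun i => (hG i).1)
    (fun i => hI₁ (G i) (hG i)) hv hJ₁
  have hvan := vanish (Ideal f U) (fun H hH => hH.1) hG v (fun H hH => hbr H hH v) hI₁ hJ₁ hr' hc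
    hc0 hγ
  rw [← hJdef] at hJ₁
  obtain ⟨γ, hγd⟩ : ∃ γ : ℂ → Fin g → ℂ, γ = fun t => z₁ + t • v + ∑ j, c t j • w j := ⟨_, rfl⟩
  have hγ0 : γ 0 = z₁ := by
    rw [hγd]
    simp [hc0]
  have hγdiff : DifferentiableOn ℂ γ (ball 0 r') := by
    rw [hγd]
    refine ((differentiableOn_const _).add (differentiableOn_id.smul_const v)).add ?_
    refine DifferentiableOn.fun_sum fun j _ => ?_
    exact (differentiableOn_pi.1 hc j).smul_const (w j)
  have hball : ball (0 : ℂ) r' ∈ 𝓝 (0 : ℂ) := ball_mem_nhds _ hr'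
  have hγderiv : deriv γ 0 = v := by
    have h1 : HasDerivAt c 0 0 := by
      have := ((hc 0 (mem_ball_self hr')).differentiableAt hball).hasDerivAt
      rwa [hc0'] at this
    have h2 : ∀ j, HasDerivAt (fun t => c t j • w j) ((0 : ℂ) • w j) 0 := fun j =>
      ((hasDerivAt_pi.1 h1) j).smul_const (w j)
    have h3 : HasDerivAt γ (0 + (1 : ℂ) • v + ∑ j, (0 : ℂ) • w j) 0 := by
      rw [hγd]
      exact ((hasDerivAt_const (0 : ℂ) z₁).add ((hasDerivAt_id (0 : ℂ)).smul_const v)).add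
        (HasDerivAt.fun_sum fun j _ => h2 j)
    rw [h3.deriv]
    simp
  refine no_max (P := fun z => (N : ℂ) * P z) (J := J) (hP.const_mul _) hJd ((N : ℂ) • h) hr'
    hγdiff ?_ ?_ ?_
  · rw [hγderiv, Reg_hform]
    exact mul_pos hN (hpos v hvV hv0)
  · rw [hγ0]
    exact hJ₁
  · have hF : ∀ z, Real.exp (((N : ℂ) * P z).re + HForm ((N : ℂ) • h) z) * ‖J z‖ =
        Real.exp (N * ψ z) * ‖J z‖ := by
      intro z
      rw [Reg_hform, Complex.re_ofReal_mul, hψe', mul_add]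
    have hγc : ContinuousAt γ 0 :=
      ((hγdiff 0 (mem_ball_self hr')).differentiableAt hball).continuousAt
    have e1 : ∀ᶠ t in 𝓝 (0 : ℂ), dist (γ t) p < ε / 2 := by
      refine hγc.eventually (p := fun z => dist z p < ε / 2) ?_
      rw [hγ0]
      exact isOpen_ball.mem_nhds hz₁r
    have e2 : ∀ᶠ t in 𝓝 (0 : ℂ), J (γ t) ≠ 0 := by
      refine (hJd.continuous.continuousAt.comp hγc).eventually_ne ?_
      change J (γ 0) ≠ 0
      rw [hγ0]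
      exact hJ₁
    filter_upwards [e1, e2, hball] with t h1 h2 h3
    rw [hF, hF, hγ0]
    refine hz₁max (γ t) (subset_closure ((hRm _).2 ⟨fun H hH => ?_, h2⟩)) h1
    have h4 := hvan H hH t h3
    rw [hγd]
    exact h4

end AMC
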