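import Pool.Agent.Lib.MP_b57e3c_ag_M.Defs

/-!
# Module Shm : no local maximum along a holomorphic curve

Let `p = γ 0`, `v = γ' 0`, `c = HForm h v > 0`. Write `γ t = p + w t`, `w t = t v + o(t)`.
`HForm h (p + w) = HForm h p + Re (A w) + HForm h w` with a ℂ-linear form `A`
(`Re (w* h p) = Re (p* h* w)`), and `HForm h (w t) = |t|² c + o(|t|²)` (it is a real quadratic form:
`HForm h (t v) = |t|² HForm h v`). Hence, with the holomorphic function
`E t = exp (P (γ t) + HForm h p + A (w t)) * J (γ t)`, the function in question is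
`‖E t‖ * exp (HForm h (w t))`, and for small `t`: `HForm h (w t) ≥ c |t|² / 2`. If there were a local
maximum at `0` then for small `t`: `‖E t‖ exp (c |t|²/2) ≤ ‖E 0‖`, so on a small circle `|t| = r`:
`‖E t‖ ≤ ‖E 0‖ exp (- c r²/2) < ‖E 0‖` (`E 0 ≠ 0`), contradicting the maximum modulus principle
(`Complex.norm_le_of_forall_mem_frontier_norm_le` on the ball of radius `r`).
-/

open Complex Filter Topology Metric

namespace AMC

/-- the coefficients of the linear part of the form -/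
private noncomputable def Shm_a {g : ℕ} (h : Matrix (Fin g) (Fin g) ℂ) (p : Fin g → ℂ)
    (j : Fin g) : ℂ :=
  ∑ i, (starRingEnd ℂ) (p i) * h i j + ∑ i, (starRingEnd ℂ) (h j i) * (starRingEnd ℂ) (p i)

private theorem Shm_add {g : ℕ} (h : Matrix (Fin g) (Fin g) ℂ) (p w : Fin g → ℂ) :
    HForm h (p + w) = HForm h p + (∑ j, Shm_a h p j * w j).re + HForm h w := by
  unfold HForm
  have h1 : ∑ i, ∑ j, (starRingEnd ℂ) ((p + w) i) * h i j * (p + w) j =
      (∑ i, ∑ j, (starRingEnd ℂ) (p i) * h i j * p j) +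
      (∑ i, ∑ j, (starRingEnd ℂ) (p i) * h i j * w j) +
      (∑ i, ∑ j, (starRingEnd ℂ) (w i) * h i j * p j) +
      (∑ i, ∑ j, (starRingEnd ℂ) (w i) * h i j * w j) := by
    simp only [← Finset.sum_add_distrib]
    refine Finset.sum_congr rfl fun i _ => Finset.sum_congr rfl fun j _ => ?_
    rw [Pi.add_apply, Pi.add_apply, map_add]
    ring
  have h2 : ∑ i, ∑ j, (starRingEnd ℂ) (p i) * h i j * w j =
      ∑ j, (∑ i, (starRingEnd ℂ) (p i) * h i j) * w j := by
    rw [Finset.sum_comm]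
    exact Finset.sum_congr rfl fun j _ => by rw [Finset.sum_mul]
  have h3 : (∑ i, ∑ j, (starRingEnd ℂ) (w i) * h i j * p j).re =
      (∑ j, (∑ i, (starRingEnd ℂ) (h j i) * (starRingEnd ℂ) (p i)) * w j).re := by
    rw [← Complex.conj_re]
    congr 1
    rw [map_sum]
    refine Finset.sum_congr rfl fun i _ => ?_
    rw [map_sum, Finset.sum_mul]
    refine Finset.sum_congr rfl fun j _ => ?_
    rw [map_mul, map_mul, Complex.conj_conj]
    ring
  have h4 : ∑ j, Shm_a h p j * w j = ∑ j, (∑ i, (starRingEnd ℂ) (p i) * h i j) * w j +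
      ∑ j, (∑ i, (starRingEnd ℂ) (h j i) * (starRingEnd ℂ) (p i)) * w j := by
    rw [← Finset.sum_add_distrib]
    refine Finset.sum_congr rfl fun j _ => ?_
    unfold Shm_a
    ring
  rw [h1, h4, Complex.add_re, Complex.add_re, Complex.add_re, Complex.add_re, h2, h3]
  ring

private theorem Shm_smul {g : ℕ} (h : Matrix (Fin g) (Fin g) ℂ) (t : ℂ) (u : Fin g → ℂ) :
    HForm h (t • u) = ‖t‖ ^ 2 * HForm h u := by
  unfold HForm
  have h1 : ∑ i, ∑ j, (starRingEnd ℂ) ((t • u) i) * h i j * (t • u) j =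
      ((‖t‖ ^ 2 : ℝ) : ℂ) * ∑ i, ∑ j, (starRingEnd ℂ) (u i) * h i j * u j := by
    simp only [Finset.mul_sum]
    refine Finset.sum_congr rfl fun i _ => Finset.sum_congr rfl fun j _ => ?_
    rw [Pi.smul_apply, Pi.smul_apply, smul_eq_mul, smul_eq_mul, map_mul]
    have h2 : (starRingEnd ℂ) t * t = ((‖t‖ ^ 2 : ℝ) : ℂ) := by
      rw [← Complex.normSq_eq_conj_mul_self, Complex.normSq_eq_norm_sq]
    rw [← h2]
    ring
  rw [h1, Complex.re_ofReal_mul]

private theorem Shm_cont {g : ℕ} (h : Matrix (Fin g) (Fin g) ℂ) : Continuous (HForm h) := by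
  unfold HForm
  refine Complex.continuous_re.comp (continuous_finsetSum _ fun i _ =>
    continuous_finsetSum _ fun j _ => ?_)
  exact ((Complex.continuous_conj.comp (continuous_apply i)).mul continuous_const).mul
    (continuous_apply j)

theorem no_max {g : ℕ} {P J : (Fin g → ℂ) → ℂ} (hP : Differentiable ℂ P)
    (hJ : Differentiable ℂ J) (h : Matrix (Fin g) (Fin g) ℂ) {γ : ℂ → (Fin g → ℂ)} {r : ℝ}
    (hr : 0 < r) (hγ : DifferentiableOn ℂ γ (ball 0 r)) (hv : 0 < HForm h (deriv γ 0))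
    (hJ0 : J (γ 0) ≠ 0) :
    ¬ IsLocalMax (fun t => Real.exp ((P (γ t)).re + HForm h (γ t)) * ‖J (γ t)‖) 0 := by
  intro hmax
  have h0 : (0 : ℂ) ∈ ball (0 : ℂ) r := mem_ball_self hr
  have hball : ball (0 : ℂ) r ∈ 𝓝 (0 : ℂ) := ball_mem_nhds _ hr
  have hγ0 : DifferentiableAt ℂ γ 0 := (hγ 0 h0).differentiableAt hball
  obtain ⟨A, hA⟩ : ∃ A : (Fin g → ℂ) → ℂ, A = fun w => ∑ j, Shm_a h (γ 0) j * w j := ⟨_, rfl⟩
  obtain ⟨E, hE⟩ : ∃ E : ℂ → ℂ, E = fun t =>
      cexp (P (γ t) + (HForm h (γ 0) : ℝ) + A (γ t - γ 0)) * J (γ t) := ⟨_, rfl⟩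
  -- the function
  have hf : ∀ t, Real.exp ((P (γ t)).re + HForm h (γ t)) * ‖J (γ t)‖ =
      ‖E t‖ * Real.exp (HForm h (γ t - γ 0)) := by
    intro t
    have h1 := Shm_add h (γ 0) (γ t - γ 0)
    rw [add_sub_cancel] at h1
    rw [hE, hA]
    show _ = ‖cexp (P (γ t) + (HForm h (γ 0) : ℝ) + ∑ j, Shm_a h (γ 0) j * (γ t - γ 0) j) *
      J (γ t)‖ * _
    rw [norm_mul, Complex.norm_exp, Complex.add_re, Complex.add_re, Complex.ofReal_re, h1,
      mul_right_comm, ← Real.exp_add]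
    congr 2
    ring
  -- the quadratic term
  have hslope : Tendsto (fun t => HForm h (slope γ 0 t)) (𝓝[≠] 0) (𝓝 (HForm h (deriv γ 0))) :=
    ((Shm_cont h).tendsto _).comp (hasDerivAt_iff_tendsto_slope.1 hγ0.hasDerivAt)
  have hpos : ∀ᶠ t in 𝓝[≠] (0 : ℂ), 0 < HForm h (γ t - γ 0) := by
    filter_upwards [hslope.eventually (lt_mem_nhds hv), self_mem_nhdsWithin] with t h1 h2
    have h2' : t ≠ 0 := h2
    have h3 : γ t - γ 0 = t • slope γ 0 t := by
      rw [slope_def_module, sub_zero, smul_smul, mul_inv_cancel₀ h2', one_smul]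
    rw [h3, Shm_smul]
    have h4 : 0 < ‖t‖ := norm_pos_iff.2 h2'
    positivity
  have hH0 : HForm h (0 : Fin g → ℂ) = 0 := by
    have := Shm_smul h 0 (0 : Fin g → ℂ)
    rw [zero_smul, norm_zero] at this
    rw [this]
    ring
  have hE0 : 0 < ‖E 0‖ := by
    rw [hE]
    exact norm_pos_iff.2 (mul_ne_zero (Complex.exp_ne_zero _) hJ0)
  have hlt : ∀ᶠ t in 𝓝[≠] (0 : ℂ), ‖E t‖ < ‖E 0‖ := by
    filter_upwards [hpos, hmax.filter_mono nhdsWithin_le_nhds] with t h1 h2
    simp only [hf] at h2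
    rw [sub_self, hH0, Real.exp_zero, mul_one] at h2
    have h3 : 1 < Real.exp (HForm h (γ t - γ 0)) := Real.one_lt_exp_iff.2 h1
    rcases (norm_nonneg (E t)).eq_or_lt with h4 | h4
    · rw [← h4]
      exact hE0
    · nlinarith
  have hloc : IsLocalMax (norm ∘ E) 0 := by
    have h1 := eventually_nhdsWithin_iff.1 hlt
    filter_upwards [h1] with t h2
    by_cases h3 : t = 0
    · rw [h3]
    · exact (h2 h3).le
  have hdiff : ∀ᶠ t in 𝓝 (0 : ℂ), DifferentiableAt ℂ E t := by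
    filter_upwards [isOpen_ball.mem_nhds h0] with t ht
    have h1 : DifferentiableAt ℂ γ t := (hγ t ht).differentiableAt (isOpen_ball.mem_nhds ht)
    have h2 : DifferentiableAt ℂ (fun t => A (γ t - γ 0)) t := by
      rw [hA]
      refine DifferentiableAt.fun_sum fun j _ => ?_
      exact ((differentiableAt_pi.1 (h1.sub_const (γ 0))) j).const_mul _
    rw [hE]
    refine DifferentiableAt.mul (DifferentiableAt.cexp ?_) ((hJ (γ t)).comp t h1)
    exact (((hP (γ t)).comp t h1).add (differentiableAt_const _)).add h2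
  have hconst := Complex.eventually_eq_of_isLocalMax_norm hdiff hloc
  obtain ⟨t, h1, h2⟩ := (hlt.and (hconst.filter_mono nhdsWithin_le_nhds)).exists
  rw [h2] at h1
  exact lt_irrefl _ h1

end AMC
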