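import Pool.Agent.Lib.MP_b57e3c_ag_M.Cls

/-!
# Module Slc : slices and faces

* `slice`: Let `φ` be a test function for `m` with a local maximum at `p` on
  `S = M ∩ {Im ℓ = s}`. `ψ z = φ z - δ nsq (z - p)` (`TestFn.strict`), `r > 0` with
  `φ ≤ φ p` on `S ∩ closedBall p r`. For `N : ℕ` the function `ψ_N z = ψ z - N ((ℓ z).im - s)²` is a
  test function for `m + 1` (`TestFn.slice`); let `z_N` be a maximum point on the compact set
  `M ∩ closedBall p r`; `ψ_N z_N ≥ ψ_N p = φ p`. If `‖z_N - p‖ < r` then `ψ_N` has a local maximum on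
  `M` at `z_N`: contradiction with `MP (m + 1) M`. So `‖z_N - p‖ = r` for all `N`; a subsequence
  converges to `z ∈ M`, `‖z - p‖ = r`. From `N ((ℓ z_N).im - s)² ≤ ψ z_N - φ p ≤ C` we get
  `(ℓ z).im = s`, so `z ∈ S ∩ closedBall p r` and `ψ z ≤ φ p - δ r²`; but
  `ψ z_N ≥ ψ_N z_N ≥ φ p` gives `ψ z ≥ φ p`. Contradiction.
* `face`: the same with `ψ_N z = ψ z + N ((ℓ z).im - s)`, a test function for `m`
  (`TestFn.add_im`), where `(ℓ z).im - s ≤ 0` on `M`.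
-/

open Complex Filter Topology

namespace AMC

variable {g m : ℕ} {M : Set (Fin g → ℂ)}

/-- the penalty method -/
private theorem Slc_pen (hM : IsClosed M) {ψ χ : (Fin g → ℂ) → ℝ} (hψ : Continuous ψ)
    (hχ : Continuous χ) (hχ0 : ∀ z ∈ M, 0 ≤ χ z) {p : Fin g → ℂ} (hp : p ∈ M) (hχp : χ p = 0)
    {r : ℝ} (hr : 0 < r) (hlt : ∀ z ∈ M, χ z = 0 → dist z p = r → ψ z < ψ p) :
    ∃ N : ℕ, ∃ z ∈ M, IsLocalMaxOn (fun z => ψ z - N * χ z) M z := by
  by_contra hcon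
  push Not at hcon
  have hK : IsCompact (M ∩ Metric.closedBall p r) :=
    (isCompact_closedBall p r).inter_left hM
  have hcN : ∀ N : ℕ, Continuous (fun z => ψ z - N * χ z) := fun N =>
    hψ.sub (continuous_const.mul hχ)
  have hpK : p ∈ M ∩ Metric.closedBall p r := ⟨hp, Metric.mem_closedBall_self hr.le⟩
  have key : ∀ N : ℕ, ∃ z ∈ M, dist z p = r ∧ ψ p ≤ ψ z - N * χ z := by
    intro N
    obtain ⟨z, hz, hmax⟩ := hK.exists_isMaxOn ⟨p, hpK⟩ (hcN N).continuousOn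
    have h1 : ψ p ≤ ψ z - N * χ z := by
      have h2 : ψ p - N * χ p ≤ ψ z - N * χ z := hmax hpK
      rw [hχp, mul_zero, sub_zero] at h2
      exact h2
    refine ⟨z, hz.1, ?_, h1⟩
    refine le_antisymm hz.2 (not_lt.1 fun hlt' => hcon N z hz.1 ?_)
    have h3 : Metric.closedBall p r ∈ 𝓝 z :=
      mem_of_superset (Metric.isOpen_ball.mem_nhds hlt') Metric.ball_subset_closedBall
    have h4 : M ∩ Metric.closedBall p r ∈ 𝓝[M] z :=
      inter_mem self_mem_nhdsWithin (mem_nhdsWithin_of_mem_nhds h3)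
    exact mem_of_superset h4 fun w hw => hmax hw
  have hne : (⋂ N : ℕ, (M ∩ Metric.sphere p r) ∩ {z | ψ p ≤ ψ z - N * χ z}).Nonempty := by
    refine IsCompact.nonempty_iInter_of_sequence_nonempty_isCompact_isClosed _ ?_ ?_ ?_ ?_
    · rintro N z ⟨hz, hz'⟩
      refine ⟨hz, ?_⟩
      have h1 : ψ p ≤ ψ z - ((N + 1 : ℕ) : ℝ) * χ z := hz'
      have h2 := hχ0 z hz.1
      push_cast at h1
      change ψ p ≤ ψ z - N * χ z
      linarith
    · intro N
      obtain ⟨z, hz, hzr, h1⟩ := key N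
      exact ⟨z, ⟨hz, hzr⟩, h1⟩
    · exact ((isCompact_sphere p r).inter_left hM).inter_right
        (isClosed_le continuous_const (hcN 0))
    · intro N
      exact (hM.inter Metric.isClosed_sphere).inter (isClosed_le continuous_const (hcN N))
  obtain ⟨z, hz⟩ := hne
  rw [Set.mem_iInter] at hz
  have hzM : z ∈ M := (hz 0).1.1
  have hzr : dist z p = r := (hz 0).1.2
  have hall : ∀ N : ℕ, ψ p ≤ ψ z - N * χ z := fun N => (hz N).2
  have hz0 : χ z = 0 := by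
    refine le_antisymm (not_lt.1 fun hpos => ?_) (hχ0 z hzM)
    obtain ⟨N, hN⟩ := exists_nat_gt ((ψ z - ψ p) / χ z)
    have h1 := hall N
    rw [div_lt_iff₀ hpos] at hN
    linarith
  have h1 := hall 0
  rw [hz0, mul_zero, sub_zero] at h1
  exact absurd (hlt z hzM hz0 hzr) (not_lt.2 h1)

private theorem Slc_nsq_zero : nsq (0 : Fin g → ℂ) = 0 := by
  unfold nsq
  simp

private theorem Slc_nsq_pos {z : Fin g → ℂ} (hz : z ≠ 0) : 0 < nsq z := by
  unfold nsq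
  obtain ⟨i, hi⟩ := Function.ne_iff.1 hz
  refine Finset.sum_pos' (fun j _ => sq_nonneg _) ⟨i, Finset.mem_univ i, ?_⟩
  exact pow_pos (norm_pos_iff.2 hi) 2

/-- the common part of the two proofs -/
private theorem Slc_main (hM : IsClosed M) {φ χ : (Fin g → ℂ) → ℝ} (hφ : TestFn m φ)
    (hχ : Continuous χ) (hχ0 : ∀ z ∈ M, 0 ≤ χ z) {S : Set (Fin g → ℂ)}
    (hS : ∀ z, z ∈ S ↔ z ∈ M ∧ χ z = 0) {p : Fin g → ℂ} (hp : p ∈ S)
    (hmax : IsLocalMaxOn φ S p) : ∃ δ : ℝ, TestFn m (fun z => φ z - δ * nsq (z - p)) ∧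
    ∃ N : ℕ, ∃ z ∈ M, IsLocalMaxOn (fun z => φ z - δ * nsq (z - p) - N * χ z) M z := by
  obtain ⟨δ, hδ, hst⟩ := hφ.strict
  refine ⟨δ, hst p, ?_⟩
  obtain ⟨ε, hε, hb⟩ := Metric.mem_nhdsWithin_iff.1 hmax
  have hpS := (hS p).1 hp
  refine Slc_pen hM (hst p).continuous hχ hχ0 hpS.1 hpS.2 (half_pos hε) ?_
  intro z hz hz0 hzr
  have h1 : φ z ≤ φ p := hb ⟨by rw [Metric.mem_ball, hzr]; exact half_lt_self hε,
    (hS z).2 ⟨hz, hz0⟩⟩
  have hne : z - p ≠ 0 := by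
    intro h2
    rw [sub_eq_zero.1 h2, dist_self] at hzr
    linarith
  have h3 := Slc_nsq_pos hne
  have h4 := mul_pos hδ h3
  rw [sub_self, Slc_nsq_zero, mul_zero, sub_zero]
  linarith

theorem MP.slice (hM : IsClosed M) (h : MP (m + 1) M) (ℓ : (Fin g → ℂ) →ₗ[ℂ] ℂ) (s : ℝ) :
    MP m (M ∩ {z | (ℓ z).im = s}) := by
  intro φ hφ p hp hmax
  have hℓ : Continuous fun z => (ℓ z).im :=
    Complex.continuous_im.comp ℓ.continuous_of_finiteDimensional
  obtain ⟨δ, hT, N, z, hz, hloc⟩ := Slc_main (χ := fun z => ((ℓ z).im - s) ^ 2) hM hφ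
    ((hℓ.sub continuous_const).pow 2) (fun z _ => sq_nonneg _) (fun z => by
      rw [sq_eq_zero_iff, sub_eq_zero]
      rfl) hp hmax
  exact h _ (hT.slice ℓ N s) z hz hloc

theorem MP.face (hM : IsClosed M) (h : MP m M) (ℓ : (Fin g → ℂ) →ₗ[ℂ] ℂ) (s : ℝ)
    (hs : ∀ z ∈ M, (ℓ z).im ≤ s) : MP m (M ∩ {z | (ℓ z).im = s}) := by
  intro φ hφ p hp hmax
  have hℓ : Continuous fun z => (ℓ z).im :=
    Complex.continuous_im.comp ℓ.continuous_of_finiteDimensional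
  obtain ⟨δ, hT, N, z, hz, hloc⟩ := Slc_main (χ := fun z => s - (ℓ z).im) hM hφ
    (continuous_const.sub hℓ) (fun z hz => sub_nonneg.2 (hs z hz)) (fun z => by
      rw [sub_eq_zero, eq_comm (a := s)]
      rfl) hp hmax
  refine h _ (hT.add_im ℓ N s) z hz ?_
  have e : (fun z => φ z - δ * nsq (z - p) + (N : ℝ) * ((ℓ z).im - s)) =
      fun z => φ z - δ * nsq (z - p) - N * (s - (ℓ z).im) := by
    funext w
    ring
  rw [e]
  exact hloc

end AMC
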