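import Pool.Agent.Lib.MP_b57e3c_ag_M.Tst
import Pool.Agent.Lib.MP_b57e3c_ag_M.Cls
import Pool.Agent.Lib.MP_b57e3c_ag_M.Slc
import Pool.Agent.Lib.MP_b57e3c_ag_M.Cst
import Pool.Agent.Lib.MP_b57e3c_ag_M.Shm
import Pool.Agent.Lib.MP_b57e3c_ag_M.Crv
import Pool.Agent.Lib.MP_b57e3c_ag_M.Jc
import Pool.Agent.Lib.MP_b57e3c_ag_M.Van
import Pool.Agent.Lib.MP_b57e3c_ag_M.Rnk
import Pool.Agent.Lib.MP_b57e3c_ag_M.Reg
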