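import Pool.Agent.Lib.MP_b57e3c_ag_M.Defs

/-!
# Module Crd : the real coordinates `y` of `z = x + τ y`

`Y = Im τ` is symmetric positive definite, hence invertible; `lf τ i z = ∑_j (Y⁻¹)_ij z_j`, so
`yc τ i z = ∑_j (Y⁻¹)_ij Im z_j` and `Im z_i = ∑_j Y_ij (yc τ j z)`.
* `lf_inj`: `Y⁻¹ z = 0` implies `z = 0`.
* `yc_add_int`: `Im` of an integer vector is `0`.
* `yc_add_tau`: `Im ∑_j τ_ij k_j = ∑_j Y_ij k_j`, so `Y⁻¹` of it is `k`.
* `im_eq`: `Y (Y⁻¹ Im z) = Im z`.
* `compact`: the set is closed (continuity), bounded (`|Re z_i| ≤ R`, `|Im z_i| ≤ ∑_j |Y_ij| R`).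
-/

open Complex Filter Topology Metric

namespace AMC

variable {g : ℕ} {τ : Matrix (Fin g) (Fin g) ℂ}

private theorem Crd_det (hτ : AM.Siegel τ) : IsUnit (τ.map Complex.im).det :=
  (Matrix.isUnit_iff_isUnit_det _).1 hτ.2.isUnit

private theorem Crd_lf (i : Fin g) (z : Fin g → ℂ) :
    lf τ i z = ∑ j, (((τ.map Complex.im)⁻¹ i j : ℝ) : ℂ) * z j := by
  unfold lf
  rw [LinearMap.sum_apply]
  rfl

private theorem Crd_yc (i : Fin g) (z : Fin g → ℂ) :
    yc τ i z = ((τ.map Complex.im)⁻¹.mulVec fun j => (z j).im) i := by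
  unfold yc
  rw [Crd_lf, Complex.im_sum]
  simp only [Complex.im_ofReal_mul]
  rfl

private theorem Crd_inv (hτ : AM.Siegel τ) (v : Fin g → ℝ) :
    (τ.map Complex.im).mulVec ((τ.map Complex.im)⁻¹.mulVec v) = v := by
  rw [Matrix.mulVec_mulVec, Matrix.mul_nonsing_inv _ (Crd_det hτ), Matrix.one_mulVec]

private theorem Crd_inv' (hτ : AM.Siegel τ) (v : Fin g → ℝ) :
    (τ.map Complex.im)⁻¹.mulVec ((τ.map Complex.im).mulVec v) = v := by
  rw [Matrix.mulVec_mulVec, Matrix.nonsing_inv_mul _ (Crd_det hτ), Matrix.one_mulVec]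

theorem lf_inj (hτ : AM.Siegel τ) (z : Fin g → ℂ) (h : ∀ i, lf τ i z = 0) : z = 0 := by
  have him : (fun j => (z j).im) = 0 := by
    rw [← Crd_inv hτ fun j => (z j).im]
    have h1 : ((τ.map Complex.im)⁻¹.mulVec fun j => (z j).im) = 0 := by
      funext i
      rw [← Crd_yc]
      unfold yc
      rw [h i]
      rfl
    rw [h1, Matrix.mulVec_zero]
  have hre : (fun j => (z j).re) = 0 := by
    rw [← Crd_inv hτ fun j => (z j).re]
    have h1 : ((τ.map Complex.im)⁻¹.mulVec fun j => (z j).re) = 0 := by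
      funext i
      have h2 := congrArg Complex.re (h i)
      rw [Crd_lf, Complex.re_sum] at h2
      simp only [Complex.re_ofReal_mul] at h2
      exact h2
    rw [h1, Matrix.mulVec_zero]
  funext i
  exact Complex.ext (congrFun hre i) (congrFun him i)

theorem yc_add_int (hτ : AM.Siegel τ) (i : Fin g) (z : Fin g → ℂ) (k : Fin g → ℤ) :
    yc τ i (fun j => z j + (k j : ℂ)) = yc τ i z := by
  have _ := hτ
  rw [Crd_yc, Crd_yc]
  congr 2
  funext j
  rw [Complex.add_im, Complex.intCast_im, add_zero]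

theorem yc_add_tau (hτ : AM.Siegel τ) (i : Fin g) (z : Fin g → ℂ) (k : Fin g → ℤ) :
    yc τ i (fun j => z j + ∑ l, τ j l * (k l : ℂ)) = yc τ i z + k i := by
  rw [Crd_yc, Crd_yc]
  have h1 : (fun j => (z j + ∑ l, τ j l * (k l : ℂ)).im) = (fun j => (z j).im) +
      (τ.map Complex.im).mulVec fun l => (k l : ℝ) := by
    funext j
    rw [Complex.add_im, Complex.im_sum, Pi.add_apply]
    congr 1
    refine Finset.sum_congr rfl fun l _ => ?_
    rw [Complex.mul_im, Complex.intCast_im, Complex.intCast_re, mul_zero, zero_add]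
    rfl
  rw [h1, Matrix.mulVec_add, Crd_inv' hτ]
  rfl

theorem im_eq (hτ : AM.Siegel τ) (i : Fin g) (z : Fin g → ℂ) :
    (z i).im = ∑ j, (τ i j).im * yc τ j z := by
  have h1 := congrFun (Crd_inv hτ fun j => (z j).im) i
  simp only [Crd_yc]
  exact h1.symm

theorem continuous_yc (τ : Matrix (Fin g) (Fin g) ℂ) (i : Fin g) : Continuous (yc τ i) :=
  Complex.continuous_im.comp (lf τ i).continuous_of_finiteDimensional

theorem compact_box (hτ : AM.Siegel τ) (R : ℝ) :
    IsCompact {z : Fin g → ℂ | ∀ i, |(z i).re| ≤ R ∧ |yc τ i z| ≤ R} := by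
  refine Metric.isCompact_of_isClosed_isBounded ?_ ?_
  · have e : {z : Fin g → ℂ | ∀ i, |(z i).re| ≤ R ∧ |yc τ i z| ≤ R} =
        ⋂ i, ({z : Fin g → ℂ | |(z i).re| ≤ R} ∩ {z : Fin g → ℂ | |yc τ i z| ≤ R}) := by
      ext z
      simp only [Set.mem_iInter, Set.mem_inter_iff]
      exact Iff.rfl
    rw [e]
    refine isClosed_iInter fun i => IsClosed.inter ?_ ?_
    · exact isClosed_le (Complex.continuous_re.comp (continuous_apply i)).abs continuous_const
    · exact isClosed_le (continuous_yc τ i).abs continuous_const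
  · rw [isBounded_iff_forall_norm_le]
    refine ⟨|R| + ∑ i, ∑ j, |(τ i j).im| * |R|, fun z hz => ?_⟩
    have h0 : 0 ≤ |R| + ∑ i, ∑ j, |(τ i j).im| * |R| := by positivity
    rw [pi_norm_le_iff_of_nonneg h0]
    intro i
    refine (Complex.norm_le_abs_re_add_abs_im (z i)).trans (add_le_add ?_ ?_)
    · exact ((hz i).1).trans (le_abs_self R)
    · rw [im_eq hτ i z]
      refine (Finset.abs_sum_le_sum_abs _ _).trans ?_
      refine le_trans (Finset.sum_le_sum fun j _ => ?_)
        (Finset.single_le_sum (f := fun i => ∑ j, |(τ i j).im| * |R|)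
          (fun i _ => Finset.sum_nonneg fun j _ => by positivity) (Finset.mem_univ i))
      rw [abs_mul]
      exact mul_le_mul_of_nonneg_left (((hz j).2).trans (le_abs_self R)) (abs_nonneg _)

end AMC
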