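import Pool.Agent.Lib.MP_b57e3c_ag_M.Defs

/-!
# Module Grf : quantitative implicit function theorem

`X`, `Y` finite dimensional. For `s ∈ D` and `x, x' ∈ ball 0 δ`, the function `x ↦ Ψ (x, s) - A x` has
derivative of norm `≤ c/2` on the (convex) ball, so
`‖Ψ (x,s) - Ψ (x',s) - A (x - x')‖ ≤ (c/2) ‖x - x'‖` and `‖Ψ (x,s) - Ψ (x',s)‖ ≥ (c/2) ‖x - x'‖`: (iii).
Existence: `T x = x - A⁻¹ Ψ (x, s)` is `1/2`-Lipschitz on the ball (`‖A⁻¹‖ ≤ 1/c`) and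
`‖T 0‖ ≤ ‖Ψ (0,s)‖ / c < δ / 8`, so it maps `closedBall 0 (δ/4)` to itself; Banach fixed point. The
fixed point is the only zero of `Ψ (·, s)` in the ball, by (iii). So `v s` with `‖v s‖ ≤ δ/4 < δ/2`.
Differentiability of `v` at `s₀ ∈ D`: put `x₀ = v s₀`. By (iii),
`(c/2) ‖v s - x₀‖ ≤ ‖Ψ (v s, s) - Ψ (x₀, s)‖ = ‖Ψ (x₀, s) - Ψ (x₀, s₀)‖ = O(‖s - s₀‖)`. `Ψ` is
differentiable at `(x₀, s₀)` with partial derivatives `B` (in `x`) and `E` (in `s`):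
`0 = Ψ (v s, s) - Ψ (x₀, s₀) = B (v s - x₀) + E (s - s₀) + o(‖s - s₀‖)`. `B` is invertible
(`‖B x‖ ≥ (c/2) ‖x‖`, finite dimension), so `v s = x₀ - B⁻¹ E (s - s₀) + o(‖s - s₀‖)`.
-/

open Complex Filter Topology Metric

namespace AMC

private theorem Grf_equiv {X : Type*} [NormedAddCommGroup X] [NormedSpace ℂ X]
    [FiniteDimensional ℂ X] (B : X →L[ℂ] X) {c : ℝ} (hc : 0 < c)
    (hB : ∀ x, c * ‖x‖ ≤ ‖B x‖) :
    ∃ B' : X ≃L[ℂ] X, ∀ x, B' x = B x := by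
  have hinj : Function.Injective (B : X →ₗ[ℂ] X) := by
    rw [← LinearMap.ker_eq_bot, LinearMap.ker_eq_bot']
    intro x hx
    have h1 := hB x
    rw [show B x = 0 from hx, norm_zero] at h1
    have h2 : ‖x‖ ≤ 0 := by
      by_contra h
      push Not at h
      have := mul_pos hc h
      linarith
    exact norm_le_zero_iff.1 h2
  exact ⟨(LinearEquiv.ofInjectiveEndo (B : X →ₗ[ℂ] X) hinj).toContinuousLinearEquiv,
    fun x => rfl⟩

private theorem Grf_symm {X : Type*} [NormedAddCommGroup X] [NormedSpace ℂ X]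
    {B : X →L[ℂ] X} {c : ℝ} (hc : 0 < c) (hB : ∀ x, c * ‖x‖ ≤ ‖B x‖)
    {B' : X ≃L[ℂ] X} (h : ∀ x, B' x = B x) (y : X) : ‖B'.symm y‖ ≤ c⁻¹ * ‖y‖ := by
  have h1 := hB (B'.symm y)
  rw [← h, ContinuousLinearEquiv.apply_symm_apply] at h1
  rw [inv_mul_eq_div, le_div_iff₀ hc, mul_comm]
  exact h1

private theorem Grf_deriv {X Y : Type*} [NormedAddCommGroup X] [NormedSpace ℂ X]
    [FiniteDimensional ℂ X] [NormedAddCommGroup Y] [NormedSpace ℂ Y]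
    {Ψ : X × Y → X} {D : Set Y} (hD : IsOpen D) {c : ℝ} (hc : 0 < c) {v : Y → X}
    (hv : ∀ s ∈ D, Ψ (v s, s) = 0) {s₀ : Y} (hs₀ : s₀ ∈ D)
    (hl : ∀ s ∈ D, c * ‖v s - v s₀‖ ≤ ‖Ψ (v s, s) - Ψ (v s₀, s)‖)
    (hd : DifferentiableAt ℂ Ψ (v s₀, s₀))
    (hB : ∀ x : X, c * ‖x‖ ≤ ‖fderiv ℂ Ψ (v s₀, s₀) (x, 0)‖) :
    DifferentiableAt ℂ v s₀ := by
  set L := fderiv ℂ Ψ (v s₀, s₀) with hL
  have hΨ : HasFDerivAt Ψ L (v s₀, s₀) := hd.hasFDerivAt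
  obtain ⟨B', hB'⟩ := Grf_equiv (L.comp (ContinuousLinearMap.inl ℂ X Y)) hc (fun x => hB x)
  have hDn : D ∈ 𝓝 s₀ := hD.mem_nhds hs₀
  have hz : HasFDerivAt (fun s => Ψ (v s₀, s)) (L.comp (ContinuousLinearMap.inr ℂ X Y)) s₀ :=
    hΨ.comp s₀ (hasFDerivAt_prodMk_right (v s₀) s₀)
  have ha : (fun s => v s - v s₀) =O[𝓝 s₀] fun s => s - s₀ := by
    refine Asymptotics.IsBigO.trans ?_ hz.isBigO_sub
    refine Asymptotics.IsBigO.of_bound c⁻¹ ?_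
    filter_upwards [hDn] with s hs
    rw [inv_mul_eq_div, le_div_iff₀ hc, mul_comm]
    refine (hl s hs).trans (le_of_eq ?_)
    rw [hv s hs, zero_sub, norm_neg, hv s₀ hs₀, sub_zero]
  have hb : (fun s => ((v s, s) : X × Y) - (v s₀, s₀)) =O[𝓝 s₀] fun s => s - s₀ := by
    exact ha.prod_left (Asymptotics.isBigO_refl _ _)
  have ht : Tendsto (fun s => ((v s, s) : X × Y)) (𝓝 s₀) (𝓝 (v s₀, s₀)) := by
    rw [tendsto_iff_norm_sub_tendsto_zero]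
    have h1 : Tendsto (fun s => s - s₀) (𝓝 s₀) (𝓝 0) :=
      tendsto_sub_nhds_zero_iff.2 tendsto_id
    exact (hb.trans_tendsto h1).norm.trans (by simp)
  have hc' := (hasFDerivAt_iff_isLittleO.1 hΨ).comp_tendsto ht
  have hd' : (fun s => L (v s - v s₀, s - s₀)) =o[𝓝 s₀] fun s => s - s₀ := by
    refine Asymptotics.IsLittleO.congr' ((hc'.trans_isBigO hb).neg_left) ?_ EventuallyEq.rfl
    filter_upwards [hDn] with s hs
    simp only [Function.comp]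
    rw [hv s hs, hv s₀ hs₀, sub_zero, zero_sub, neg_neg]
    rfl
  refine HasFDerivAt.differentiableAt
    (f' := -((B'.symm : X →L[ℂ] X).comp (L.comp (ContinuousLinearMap.inr ℂ X Y)))) ?_
  rw [hasFDerivAt_iff_isLittleO]
  have he : ∀ s, v s - v s₀ - (-((B'.symm : X →L[ℂ] X).comp
      (L.comp (ContinuousLinearMap.inr ℂ X Y)))) (s - s₀) =
      B'.symm (L (v s - v s₀, s - s₀)) := by
    intro s
    have e1 : ((v s - v s₀, s - s₀) : X × Y) = (v s - v s₀, 0) + (0, s - s₀) := by simp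
    have e2 : B'.symm (L (v s - v s₀, 0)) = v s - v s₀ := by
      rw [ContinuousLinearEquiv.symm_apply_eq, hB']
      rfl
    rw [e1, map_add, map_add, e2, neg_apply, sub_neg_eq_add]
    rfl
  simp only [he]
  exact ((B'.symm : X →L[ℂ] X).isBigO_comp _ _).trans_isLittleO hd'

theorem exists_graph {X Y : Type*} [NormedAddCommGroup X] [NormedSpace ℂ X]
    [FiniteDimensional ℂ X] [NormedAddCommGroup Y] [NormedSpace ℂ Y]
    {Ψ : X × Y → X} {D : Set Y} (hD : IsOpen D) {δ c : ℝ} (hδ : 0 < δ) (hc : 0 < c)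
    (A : X →L[ℂ] X) (hA : ∀ x, c * ‖x‖ ≤ ‖A x‖)
    (hd : ∀ x ∈ ball (0 : X) δ, ∀ s ∈ D, DifferentiableAt ℂ Ψ (x, s))
    (h1 : ∀ x ∈ ball (0 : X) δ, ∀ s ∈ D, ∀ v : X,
      ‖fderiv ℂ Ψ (x, s) (v, 0) - A v‖ ≤ c / 2 * ‖v‖)
    (h2 : ∀ s ∈ D, ‖Ψ (0, s)‖ < c * δ / 8) :
    ∃ v : Y → X, DifferentiableOn ℂ v D ∧ (∀ s ∈ D, ‖v s‖ < δ / 2) ∧
      (∀ s ∈ D, Ψ (v s, s) = 0) ∧
      ∀ s ∈ D, ∀ x ∈ ball (0 : X) δ, ∀ x' ∈ ball (0 : X) δ,
        c / 2 * ‖x - x'‖ ≤ ‖Ψ (x, s) - Ψ (x', s)‖ := by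
  have hcomp : CompleteSpace X := FiniteDimensional.complete ℂ X
  have key : ∀ s ∈ D, ∀ x ∈ ball (0 : X) δ, ∀ x' ∈ ball (0 : X) δ,
      ‖Ψ (x, s) - Ψ (x', s) - A (x - x')‖ ≤ c / 2 * ‖x - x'‖ := by
    intro s hs x hx x' hx'
    have h := Convex.norm_image_sub_le_of_norm_hasFDerivWithin_le (𝕜 := ℂ)
      (f := fun y => Ψ (y, s) - A y)
      (f' := fun y => (fderiv ℂ Ψ (y, s)).comp (ContinuousLinearMap.inl ℂ X Y) - A)
      (C := c / 2) (s := ball (0 : X) δ) (x := x') (y := x) ?_ ?_ (convex_ball 0 δ) hx' hx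
    · have e1 : Ψ (x, s) - Ψ (x', s) - A (x - x') = Ψ (x, s) - A x - (Ψ (x', s) - A x') := by
        rw [map_sub]
        abel
      rw [e1]
      exact h
    · intro y hy
      have h3 : HasFDerivAt (fun y => Ψ (y, s))
          ((fderiv ℂ Ψ (y, s)).comp (ContinuousLinearMap.inl ℂ X Y)) y :=
        (hd y hy s hs).hasFDerivAt.comp y (hasFDerivAt_prodMk_left y s)
      exact (h3.sub A.hasFDerivAt).hasFDerivWithinAt
    · intro y hy
      exact ContinuousLinearMap.opNorm_le_bound _ (by positivity) (fun v => h1 y hy s hs v)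
  have low : ∀ s ∈ D, ∀ x ∈ ball (0 : X) δ, ∀ x' ∈ ball (0 : X) δ,
      c / 2 * ‖x - x'‖ ≤ ‖Ψ (x, s) - Ψ (x', s)‖ := by
    intro s hs x hx x' hx'
    have h3 := key s hs x hx x' hx'
    have h4 := hA (x - x')
    have h5 : ‖A (x - x')‖ ≤ ‖Ψ (x, s) - Ψ (x', s)‖ +
        ‖Ψ (x, s) - Ψ (x', s) - A (x - x')‖ := by
      have := norm_sub_le (Ψ (x, s) - Ψ (x', s)) (Ψ (x, s) - Ψ (x', s) - A (x - x'))
      rwa [sub_sub_cancel] at this
    linarith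
  obtain ⟨A', hA'⟩ := Grf_equiv A hc hA
  have hex : ∀ s ∈ D, ∃ x : X, ‖x‖ < δ / 2 ∧ Ψ (x, s) = 0 := by
    intro s hs
    have hap : ApproximatesLinearOn (fun x => Ψ (x, s)) A (ball (0 : X) δ)
        (⟨c / 2, by positivity⟩ : NNReal) := by
      intro x hx x' hx'
      exact key s hs x hx x' hx'
    let R : A.NonlinearRightInverse :=
      { toFun := fun y => A'.symm y
        nnnorm := ⟨c⁻¹, by positivity⟩
        bound' := fun y => Grf_symm hc hA hA' y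
        right_inv' := fun y => by rw [← hA', ContinuousLinearEquiv.apply_symm_apply] }
    have hsub : closedBall (0 : X) (δ / 4) ⊆ ball (0 : X) δ :=
      closedBall_subset_ball (by linarith)
    have hs2 := hap.surjOn_closedBall_of_nonlinearRightInverse R (ε := δ / 4) (b := 0)
      (by positivity) hsub
    obtain ⟨x, hx, hx0⟩ := hs2 (a := 0) (by
      rw [mem_closedBall, dist_comm, dist_zero_right]
      refine (h2 s hs).le.trans (le_of_eq ?_)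
      show c * δ / 8 = ((c⁻¹)⁻¹ - c / 2) * (δ / 4)
      rw [inv_inv]
      ring)
    refine ⟨x, ?_, hx0⟩
    rw [mem_closedBall, dist_zero_right] at hx
    linarith
  choose! v hv1 hv2 using hex
  have hvb : ∀ s ∈ D, v s ∈ ball (0 : X) δ := by
    intro s hs
    rw [mem_ball, dist_zero_right]
    have := hv1 s hs
    linarith
  refine ⟨v, fun s₀ hs₀ => ?_, hv1, hv2, low⟩
  refine (Grf_deriv hD (show 0 < c / 2 by positivity) hv2 hs₀
    (fun s hs => low s hs _ (hvb s hs) _ (hvb s₀ hs₀)) (hd _ (hvb s₀ hs₀) s₀ hs₀)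
    (fun x => ?_)).differentiableWithinAt
  have h3 := h1 _ (hvb s₀ hs₀) s₀ hs₀ x
  have h4 := hA x
  have h5 := norm_sub_le (fderiv ℂ Ψ (v s₀, s₀) (x, 0))
    (fderiv ℂ Ψ (v s₀, s₀) (x, 0) - A x)
  rw [sub_sub_cancel] at h5
  linarith

end AMC
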