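import Pool.Agent.Lib.MP_b57e3c_ag_M.Defs

/-!
# Module OpA : touching a relatively closed set by a euclidean ball

Use the euclidean distance `|s|² = ∑ ‖s k‖²` (continuous, `‖s‖² ≤ |s|² ≤ card κ ‖s‖²`; or transfer to
`EuclideanSpace ℂ κ`). `closedBall s₁ R ⊆ Ω` for some `R > 0` (sup norm). Since `E` is not a neighbourhood of `s₁`
there is `a ∉ E` with `|a - s₁| < R/4`. The set `E ∩ {s | |s - s₁| ≤ R}` is compact (closed by `hE`:
its closure is contained in `closedBall s₁ R ⊆ Ω`) and contains `s₁`; let `s₀` be a point of it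
minimising `|s - a|`, `r = |s₀ - a| ≤ |s₁ - a| < R/4`, `r > 0` since `a ∉ E`. All `s ∈ E` close to `s₀` satisfy
`|s - s₁| ≤ R` (`|s₀ - s₁| < R/2`), hence `|s - a| ≥ r`. With `ν = (a - s₀)/r`, `∑ ‖ν k‖² = 1` and
`|s - a|² = |s - s₀|² - 2 r Re ⟨ν, s - s₀⟩ + r² ≥ r²`.
-/

open Complex Filter Topology Metric

namespace AMC

private noncomputable def OpA_N {κ : Type*} [Fintype κ] (s : κ → ℂ) : ℝ := ∑ k, ‖s k‖ ^ 2

private theorem OpA_cont {κ : Type*} [Fintype κ] (a : κ → ℂ) :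
    Continuous (fun s : κ → ℂ => OpA_N (s - a)) := by
  unfold OpA_N
  refine continuous_finsetSum _ fun k _ => ?_
  simp only [Pi.sub_apply]
  fun_prop

private theorem OpA_nonneg {κ : Type*} [Fintype κ] (s : κ → ℂ) : 0 ≤ OpA_N s :=
  Finset.sum_nonneg fun i _ => by positivity

private theorem OpA_norm {κ : Type*} [Fintype κ] {s : κ → ℂ} {R : ℝ} (hR : 0 ≤ R)
    (h : OpA_N s ≤ R ^ 2) : ‖s‖ ≤ R := by
  rw [pi_norm_le_iff_of_nonneg hR]
  intro i
  have h1 : ‖s i‖ ^ 2 ≤ OpA_N s :=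
    Finset.single_le_sum (f := fun i => ‖s i‖ ^ 2) (fun i _ => by positivity)
      (Finset.mem_univ i)
  exact abs_le_of_sq_le_sq' (h1.trans h) hR |>.2

private theorem OpA_zero {κ : Type*} [Fintype κ] {s : κ → ℂ} (h : OpA_N s ≤ 0) : s = 0 := by
  have h1 := OpA_norm (R := 0) le_rfl (by simpa using h)
  exact norm_le_zero_iff.1 h1

private theorem OpA_tri {κ : Type*} [Fintype κ] (s t a : κ → ℂ) :
    OpA_N (s - t) ≤ 2 * OpA_N (s - a) + 2 * OpA_N (t - a) := by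
  unfold OpA_N
  rw [Finset.mul_sum, Finset.mul_sum, ← Finset.sum_add_distrib]
  refine Finset.sum_le_sum fun k _ => ?_
  simp only [Pi.sub_apply]
  have h1 : ‖s k - t k‖ ≤ ‖s k - a k‖ + ‖t k - a k‖ := by
    have h2 : s k - t k = (s k - a k) - (t k - a k) := by ring
    rw [h2]
    exact norm_sub_le _ _
  nlinarith [norm_nonneg (s k - t k), norm_nonneg (s k - a k), norm_nonneg (t k - a k),
    sq_nonneg (‖s k - a k‖ - ‖t k - a k‖)]

private theorem OpA_exp {κ : Type*} [Fintype κ] (s t a : κ → ℂ) :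
    OpA_N (s - a) = OpA_N (s - t) - 2 * (∑ k, (starRingEnd ℂ) (a k - t k) * (s k - t k)).re +
      OpA_N (t - a) := by
  unfold OpA_N
  rw [Complex.re_sum, Finset.mul_sum, ← Finset.sum_sub_distrib, ← Finset.sum_add_distrib]
  refine Finset.sum_congr rfl fun k _ => ?_
  simp only [Pi.sub_apply, Complex.sq_norm, Complex.normSq_apply, Complex.sub_re, Complex.sub_im,
    Complex.mul_re, Complex.conj_re, Complex.conj_im]
  ring

theorem exists_touch {κ : Type*} [Fintype κ] {E Ω : Set (κ → ℂ)} (hΩ : IsOpen Ω) (hEΩ : E ⊆ Ω)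
    (hE : ∀ s ∈ Ω, s ∈ closure E → s ∈ E) {s₁ : κ → ℂ} (h1 : s₁ ∈ E) (hn : E ∉ 𝓝 s₁) :
    ∃ s₀ ∈ E, ∃ (ν : κ → ℂ) (r : ℝ), 0 < r ∧ ∑ k, ‖ν k‖ ^ 2 = 1 ∧
      ∀ᶠ s in 𝓝 s₀, s ∈ E →
        2 * r * (∑ k, (starRingEnd ℂ) (ν k) * (s k - s₀ k)).re ≤ ∑ k, ‖s k - s₀ k‖ ^ 2 := by
  obtain ⟨R, hR, hRΩ⟩ := Metric.nhds_basis_closedBall.mem_iff.1 (hΩ.mem_nhds (hEΩ h1))
  set K : Set (κ → ℂ) := E ∩ {s | OpA_N (s - s₁) ≤ R ^ 2} with hK
  have hKb : K ⊆ closedBall s₁ R := by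
    intro s hs
    rw [mem_closedBall, dist_eq_norm]
    exact OpA_norm hR.le hs.2
  have hcl : IsClosed {s | OpA_N (s - s₁) ≤ R ^ 2} :=
    isClosed_le (OpA_cont s₁) continuous_const
  have hKc : IsClosed K := by
    refine isClosed_of_closure_subset fun s hs => ?_
    have h2 : s ∈ {s | OpA_N (s - s₁) ≤ R ^ 2} := by
      have h3 := closure_mono Set.inter_subset_right hs
      rwa [hcl.closure_eq] at h3
    have h4 : s ∈ Ω := hRΩ (by
      rw [mem_closedBall, dist_eq_norm]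
      exact OpA_norm hR.le h2)
    exact ⟨hE s h4 (closure_mono Set.inter_subset_left hs), h2⟩
  have hKK : IsCompact K :=
    Metric.isCompact_of_isClosed_isBounded hKc (isBounded_closedBall.subset hKb)
  have hR2 : 0 < R ^ 2 := by positivity
  have hz : OpA_N (s₁ - s₁) = 0 := by
    simp [OpA_N]
  obtain ⟨a, ha, haE⟩ : ∃ a, OpA_N (a - s₁) < R ^ 2 / 16 ∧ a ∉ E := by
    by_contra hcon
    push Not at hcon
    apply hn
    have h2 : {s | OpA_N (s - s₁) < R ^ 2 / 16} ∈ 𝓝 s₁ := by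
      refine (isOpen_lt (OpA_cont s₁) continuous_const).mem_nhds ?_
      show OpA_N (s₁ - s₁) < R ^ 2 / 16
      rw [hz]
      positivity
    exact Filter.mem_of_superset h2 fun s hs => hcon s hs
  have hs1K : s₁ ∈ K := ⟨h1, by
    show OpA_N (s₁ - s₁) ≤ R ^ 2
    rw [hz]
    exact hR2.le⟩
  obtain ⟨s₀, hs₀, hmin⟩ := hKK.exists_isMinOn ⟨s₁, hs1K⟩ (OpA_cont a).continuousOn
  have hsym : OpA_N (s₁ - a) = OpA_N (a - s₁) := by
    unfold OpA_N
    refine Finset.sum_congr rfl fun k _ => ?_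
    simp only [Pi.sub_apply]
    rw [norm_sub_rev]
  have h3 : OpA_N (s₀ - a) ≤ OpA_N (s₁ - a) := hmin hs1K
  have h4 : OpA_N (s₀ - s₁) < R ^ 2 := by
    have h5 := OpA_tri s₀ s₁ a
    linarith
  have hpos : 0 < OpA_N (s₀ - a) := by
    rcases lt_or_ge 0 (OpA_N (s₀ - a)) with h5 | h5
    · exact h5
    · have h6 := OpA_zero h5
      rw [sub_eq_zero] at h6
      rw [h6] at hs₀
      exact absurd hs₀.1 haE
  set r : ℝ := Real.sqrt (OpA_N (s₀ - a)) with hr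
  have hr0 : 0 < r := Real.sqrt_pos.2 hpos
  have hrr : r ^ 2 = OpA_N (s₀ - a) := Real.sq_sqrt hpos.le
  refine ⟨s₀, hs₀.1, fun k => (a k - s₀ k) / r, r, hr0, ?_, ?_⟩
  · have h5 : ∀ k, ‖(a k - s₀ k) / (r : ℂ)‖ ^ 2 = ‖s₀ k - a k‖ ^ 2 / r ^ 2 := by
      intro k
      rw [norm_div, div_pow, norm_sub_rev, Complex.norm_real, Real.norm_eq_abs, sq_abs]
    simp only [h5]
    rw [← Finset.sum_div, div_eq_one_iff_eq (by positivity), hrr]
    rfl
  · have h5 : {s | OpA_N (s - s₁) < R ^ 2} ∈ 𝓝 s₀ :=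
      (isOpen_lt (OpA_cont s₁) continuous_const).mem_nhds h4
    filter_upwards [h5] with s hs hsE
    have h6 : OpA_N (s₀ - a) ≤ OpA_N (s - a) := hmin (show s ∈ K from ⟨hsE, le_of_lt hs⟩)
    have h7 := OpA_exp s s₀ a
    have h8 : 2 * r * (∑ k, (starRingEnd ℂ) ((a k - s₀ k) / (r : ℂ)) * (s k - s₀ k)).re =
        2 * (∑ k, (starRingEnd ℂ) (a k - s₀ k) * (s k - s₀ k)).re := by
      have h9 : ∑ k, (starRingEnd ℂ) (a k - s₀ k) * (s k - s₀ k) =
          (r : ℂ) * ∑ k, (starRingEnd ℂ) ((a k - s₀ k) / (r : ℂ)) * (s k - s₀ k) := by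
        rw [Finset.mul_sum]
        refine Finset.sum_congr rfl fun k _ => ?_
        rw [map_div₀, Complex.conj_ofReal]
        have h10 : (r : ℂ) ≠ 0 := by exact_mod_cast hr0.ne'
        field_simp
      rw [h9, Complex.re_ofReal_mul]
      ring
    rw [h8]
    have h11 : OpA_N (s - s₀) = ∑ k, ‖s k - s₀ k‖ ^ 2 := rfl
    linarith

end AMC
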