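import Mathlib

/-!
# Module OpB : a real inequality

Let `β = 1/r` and `Q = ξ² + y`, `y ≥ 0` (`y = η² + t²`), `2 r ξ ≤ Q`. Claim: for `|ξ|` small,
`ξ + 3 β ξ² - β Q ≤ - κ₀ Q`. Note `ξ + 3 β ξ² - β Q = ξ + 2 β ξ² - β y`.
If `ξ ≤ 0`, `|ξ| ≤ 1/(4β)`, `|ξ| ≤ 1`: `ξ + 2 β ξ² ≤ ξ / 2 ≤ - ξ²/2`. If `0 < ξ ≤ r/2`:
`ξ (2r - ξ) ≤ y`, so `ξ ≤ (2/3) β y`, and `ξ + 2 β ξ² - β y ≤ -(1/3) β y + 2 β ξ²` with
`2 β ξ² ≤ (4/3) β² ξ y ≤ (1/12) β y` for `ξ ≤ 1/(16 β)`; so it is `≤ -(1/4) β y`; and `ξ² ≤ ξ (2/3) β y ≤ y` for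
`ξ ≤ r`, so `Q ≤ 2 y`. Take `κ₀ = min (1/2) (β/8)` (and `≤ β`).
-/

namespace AMC

theorem touch_ineq {r : ℝ} (hr : 0 < r) : ∃ ρ > 0, ∃ κ₀ > 0, ∀ ξ Q : ℝ, |ξ| < ρ → ξ ^ 2 ≤ Q →
    2 * r * ξ ≤ Q → ξ + 3 / r * ξ ^ 2 - Q / r ≤ - κ₀ * Q := by
  obtain ⟨β, hβ⟩ : ∃ β, β = 1 / r := ⟨_, rfl⟩
  have hβ0 : 0 < β := by
    rw [hβ]
    positivity
  have hβr : β * r = 1 := by
    rw [hβ]
    field_simp
  refine ⟨min 1 (r / 16), lt_min one_pos (by positivity), min (1 / 2) (β / 8),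
    lt_min (by norm_num) (by positivity), fun ξ Q hξ hQ hrQ => ?_⟩
  obtain ⟨κ, hκ⟩ : ∃ κ, κ = min (1 / 2 : ℝ) (β / 8) := ⟨_, rfl⟩
  rw [← hκ]
  have k0 : 0 < κ := by
    rw [hκ]
    exact lt_min (by norm_num) (by positivity)
  have k1 : κ ≤ 1 / 2 := by
    rw [hκ]
    exact min_le_left _ _
  have k2 : κ ≤ β / 8 := by
    rw [hκ]
    exact min_le_right _ _
  have x1 : |ξ| < 1 := lt_of_lt_of_le hξ (min_le_left _ _)
  have x2 : |ξ| < r / 16 := lt_of_lt_of_le hξ (min_le_right _ _)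
  have x3 : β * |ξ| ≤ 1 / 16 := by
    have h := mul_le_mul_of_nonneg_left x2.le hβ0.le
    have h' : β * (r / 16) = 1 / 16 := by linear_combination hβr / 16
    rwa [h'] at h
  obtain ⟨y, hy⟩ : ∃ y, y = Q - ξ ^ 2 := ⟨_, rfl⟩
  have hy0 : 0 ≤ y := by
    rw [hy]
    linarith
  have hQ' : Q = ξ ^ 2 + y := by
    rw [hy]
    ring
  have e1 : 3 / r * ξ ^ 2 = 3 * β * ξ ^ 2 := by
    rw [hβ]
    ring
  have e2 : Q / r = β * Q := by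
    rw [hβ]
    ring
  rw [e1, e2, hQ']
  rcases le_or_gt ξ 0 with hs | hs
  · have ha : |ξ| = -ξ := abs_of_nonpos hs
    rw [ha] at x1 x3
    have h1 : 2 * β * ξ ^ 2 ≤ 1 / 8 * (-ξ) := by
      have h := mul_le_mul_of_nonneg_right x3 (by linarith : 0 ≤ 2 * (-ξ))
      have h' : β * -ξ * (2 * -ξ) = 2 * β * ξ ^ 2 := by ring
      rw [h'] at h
      linarith
    have h2 : ξ ^ 2 ≤ -ξ := by
      have h := mul_le_mul_of_nonneg_right x1.le (by linarith : 0 ≤ -ξ)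
      have h' : -ξ * -ξ = ξ ^ 2 := by ring
      rw [h'] at h
      linarith
    have h3 : κ * ξ ^ 2 ≤ 1 / 2 * ξ ^ 2 := mul_le_mul_of_nonneg_right k1 (sq_nonneg ξ)
    have h4 : κ * y ≤ β / 8 * y := mul_le_mul_of_nonneg_right k2 hy0
    have h5 : 0 ≤ β * y := mul_nonneg hβ0.le hy0
    nlinarith
  · have ha : |ξ| = ξ := abs_of_pos hs
    rw [ha] at x2 x3
    have h1 : 3 / 2 * r * ξ ≤ y := by
      have h : ξ ^ 2 ≤ r / 16 * ξ := by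
        have h' := mul_le_mul_of_nonneg_right x2.le hs.le
        nlinarith
      have h' : 0 ≤ r * ξ := by positivity
      rw [hy]
      nlinarith
    have h2 : 3 / 2 * ξ ≤ β * y := by
      have h := mul_le_mul_of_nonneg_left h1 hβ0.le
      have h' : β * (3 / 2 * r * ξ) = 3 / 2 * ξ := by linear_combination 3 / 2 * ξ * hβr
      rwa [h'] at h
    have h3 : 2 * β * ξ ^ 2 ≤ 1 / 12 * (β * y) := by
      have h := mul_le_mul_of_nonneg_right x3 (by linarith : 0 ≤ 2 * ξ)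
      have h' : β * ξ * (2 * ξ) = 2 * β * ξ ^ 2 := by ring
      rw [h'] at h
      linarith
    have h4 : ξ ^ 2 ≤ y := by
      have h : ξ ^ 2 ≤ r / 16 * ξ := by
        have h' := mul_le_mul_of_nonneg_right x2.le hs.le
        nlinarith
      have h' : 0 ≤ r * ξ := by positivity
      linarith
    have h5 : κ * (ξ ^ 2 + y) ≤ β / 8 * (2 * y) :=
      mul_le_mul k2 (by linarith) (by positivity) (by positivity)
    linarith

end AMC
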