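import Pool.Agent.Lib.MP_b57e3c_ag_M.Defs

/-!
# Module OpC : the touching function is a test function

Write `s = π z - s₀`, `ζ = ∑ conj (ν k) s_k`, `ξ = Re ζ`. `ξ² = (|ζ|² + Re ζ²)/2`. The function is
`Re ζ + (3β/2) Re ζ² + (3β/2) |ζ|² - β ∑ ‖s_k‖² + nsq (z - z₀ - L s)`. `|affine form|²` is a Hermitian form plus
the real part of an affine-linear function: `|ℓ z + c|² = |ℓ z|² + 2 Re (conj c ℓ z) + |c|²`; so the function is
`Re P + HForm h` with `P` a polynomial and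
`HForm h z = (3β/2) |ζ(π z)|² - β ∑ ‖(π z)_k‖² + nsq (z - L (π z))`.
Let `V = π⁻¹ (ℂ ν)`, i.e. `{z | ∃ c, π z = c • ν}` (`Submodule.comap` of the span of `ν`). `π` is
surjective (`π ∘ L = id`), so `dim V = dim ker π + 1 = g - m + 1` (`ν ≠ 0`), `dim V + m = g + 1`.
On `V`, `π z = c ν`: `ζ = c ∑ ‖ν k‖² = c`, `∑ ‖(π z)_k‖² = ‖c‖²`, `HForm h z = (β/2) ‖c‖² + nsq (z - c L ν)`,
which is `0` only for `c = 0`, `z = 0`.
-/

open Complex Filter Topology Metric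

namespace AMC

namespace OpC

variable {g : ℕ}

/-- `φ` is the real part of an entire function plus a Hermitian form with the values `Q` -/
def Rep (φ Q : (Fin g → ℂ) → ℝ) : Prop :=
  ∃ (h : Matrix (Fin g) (Fin g) ℂ) (P : (Fin g → ℂ) → ℂ), Differentiable ℂ P ∧
    (∀ z, φ z = (P z).re + HForm h z) ∧ ∀ z, HForm h z = Q z

theorem HForm_add (h k : Matrix (Fin g) (Fin g) ℂ) (z : Fin g → ℂ) :
    HForm (h + k) z = HForm h z + HForm k z := by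
  unfold HForm
  rw [← Complex.add_re, ← Finset.sum_add_distrib]
  congr 1
  refine Finset.sum_congr rfl fun i _ => ?_
  rw [← Finset.sum_add_distrib]
  refine Finset.sum_congr rfl fun j _ => ?_
  rw [Matrix.add_apply]
  ring

theorem HForm_smul (c : ℝ) (h : Matrix (Fin g) (Fin g) ℂ) (z : Fin g → ℂ) :
    HForm ((c : ℂ) • h) z = c * HForm h z := by
  unfold HForm
  rw [← Complex.re_ofReal_mul, Finset.mul_sum]
  congr 1
  refine Finset.sum_congr rfl fun i _ => ?_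
  rw [Finset.mul_sum]
  refine Finset.sum_congr rfl fun j _ => ?_
  rw [Matrix.smul_apply, smul_eq_mul]
  ring

theorem HForm_zero (z : Fin g → ℂ) : HForm (0 : Matrix (Fin g) (Fin g) ℂ) z = 0 := by
  unfold HForm
  simp

theorem Rep.congr {φ ψ Q R : (Fin g → ℂ) → ℝ} (h : Rep φ Q) (h1 : ∀ z, ψ z = φ z)
    (h2 : ∀ z, R z = Q z) : Rep ψ R := by
  obtain ⟨k, P, hP, h3, h4⟩ := h
  exact ⟨k, P, hP, fun z => (h1 z).trans (h3 z), fun z => (h4 z).trans (h2 z).symm⟩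

theorem Rep.add {φ ψ Q R : (Fin g → ℂ) → ℝ} (h1 : Rep φ Q) (h2 : Rep ψ R) :
    Rep (fun z => φ z + ψ z) (fun z => Q z + R z) := by
  obtain ⟨k, P, hP, h3, h4⟩ := h1
  obtain ⟨k', P', hP', h3', h4'⟩ := h2
  refine ⟨k + k', fun z => P z + P' z, hP.add hP', fun z => ?_, fun z => ?_⟩
  · show φ z + ψ z = (P z + P' z).re + _
    rw [HForm_add, Complex.add_re, h3, h3']
    ring
  · rw [HForm_add, h4, h4']

theorem Rep.mul (c : ℝ) {φ Q : (Fin g → ℂ) → ℝ} (h1 : Rep φ Q) :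
    Rep (fun z => c * φ z) (fun z => c * Q z) := by
  obtain ⟨k, P, hP, h3, h4⟩ := h1
  refine ⟨(c : ℂ) • k, fun z => (c : ℂ) * P z, hP.const_mul _, fun z => ?_, fun z => ?_⟩
  · show c * φ z = ((c : ℂ) * P z).re + _
    rw [HForm_smul, Complex.re_ofReal_mul, h3]
    ring
  · rw [HForm_smul, h4]

theorem Rep.re {P : (Fin g → ℂ) → ℂ} (hP : Differentiable ℂ P) :
    Rep (fun z => (P z).re) (fun _ => 0) := by
  refine ⟨0, P, hP, fun z => ?_, fun z => HForm_zero z⟩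
  rw [HForm_zero, add_zero]

theorem Rep.sum {ι : Type*} (s : Finset ι) {φ Q : ι → (Fin g → ℂ) → ℝ}
    (h : ∀ i, Rep (φ i) (Q i)) :
    Rep (fun z => ∑ i ∈ s, φ i z) (fun z => ∑ i ∈ s, Q i z) := by
  classical
  induction s using Finset.induction_on with
  | empty =>
    refine (Rep.re (P := fun _ => 0) (differentiable_const _)).congr (fun z => ?_) (fun z => ?_)
    · simp
    · simp
  | insert a s ha ih =>
    refine ((h a).add ih).congr (fun z => ?_) (fun z => ?_)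
    · rw [Finset.sum_insert ha]
    · rw [Finset.sum_insert ha]

theorem Rep.sq (ℓ : (Fin g → ℂ) →ₗ[ℂ] ℂ) (c : ℂ) :
    Rep (fun z => ‖ℓ z + c‖ ^ 2) (fun z => ‖ℓ z‖ ^ 2) := by
  obtain ⟨a, ha⟩ : ∃ a : Fin g → ℂ, ∀ z, ℓ z = ∑ i, z i * a i :=
    ⟨fun i => ℓ (fun j => if i = j then 1 else 0), fun z => by
      rw [LinearMap.pi_apply_eq_sum_univ ℓ z]
      rfl⟩
  have hQ : ∀ z, HForm (fun i j => (starRingEnd ℂ) (a i) * a j) z = ‖ℓ z‖ ^ 2 := by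
    intro z
    unfold HForm
    have h1 : (∑ i, ∑ j, (starRingEnd ℂ) (z i) * ((starRingEnd ℂ) (a i) * a j) * z j) =
        (starRingEnd ℂ) (ℓ z) * ℓ z := by
      rw [ha, map_sum, Finset.sum_mul_sum]
      refine Finset.sum_congr rfl fun i _ => Finset.sum_congr rfl fun j _ => ?_
      rw [map_mul]
      ring
    rw [h1, mul_comm, Complex.mul_conj, Complex.ofReal_re, Complex.normSq_eq_norm_sq]
  refine ⟨fun i j => (starRingEnd ℂ) (a i) * a j,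
    fun z => 2 * (starRingEnd ℂ) c * ℓ z + ((‖c‖ ^ 2 : ℝ) : ℂ), ?_, fun z => ?_, hQ⟩
  · have h1 : Differentiable ℂ (fun z : Fin g → ℂ => ℓ z) := by
      have h2 := (LinearMap.toContinuousLinearMap ℓ).differentiable
      exact h2
    exact (h1.const_mul _).add_const _
  · rw [hQ]
    show ‖ℓ z + c‖ ^ 2 = (2 * (starRingEnd ℂ) c * ℓ z + ((‖c‖ ^ 2 : ℝ) : ℂ)).re + ‖ℓ z‖ ^ 2
    rw [← Complex.normSq_eq_norm_sq, ← Complex.normSq_eq_norm_sq, ← Complex.normSq_eq_norm_sq]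
    simp only [Complex.normSq_apply, Complex.add_re, Complex.add_im, Complex.mul_re,
      Complex.mul_im, Complex.ofReal_re, Complex.conj_re, Complex.conj_im, Complex.re_ofNat,
      Complex.im_ofNat]
    ring

theorem testFn_of_rep {m : ℕ} {φ Q : (Fin g → ℂ) → ℝ} (h : Rep φ Q)
    (V : Submodule ℂ (Fin g → ℂ)) (hV : g + 1 ≤ Module.finrank ℂ V + m)
    (hQ : ∀ v ∈ V, v ≠ 0 → 0 < Q v) : TestFn m φ := by
  obtain ⟨k, P, hP, h3, h4⟩ := h
  refine ⟨P, k, V, hP, h3, hV, fun v hv hv0 => ?_⟩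
  rw [h4]
  exact hQ v hv hv0

theorem finrank_comap {κ : Type*} [Fintype κ] (π : (Fin g → ℂ) →ₗ[ℂ] (κ → ℂ)) {ν : κ → ℂ}
    (hν : ν ≠ 0) : g + 1 ≤ Module.finrank ℂ ((Submodule.span ℂ {ν}).comap π) +
      Fintype.card κ := by
  set f : (Fin g → ℂ) →ₗ[ℂ] ((κ → ℂ) ⧸ Submodule.span ℂ {ν}) :=
    (Submodule.span ℂ {ν}).mkQ.comp π with hf
  have h1 := LinearMap.finrank_range_add_finrank_ker f
  have h2 : LinearMap.ker f = (Submodule.span ℂ {ν}).comap π := by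
    rw [hf, LinearMap.ker_comp, Submodule.ker_mkQ]
  have h3 := Submodule.finrank_quotient_add_finrank (Submodule.span ℂ {ν})
  have h4 : Module.finrank ℂ (Submodule.span ℂ {ν}) = 1 := finrank_span_singleton hν
  have h5 := Submodule.finrank_le (LinearMap.range f)
  rw [h2, Module.finrank_fintype_fun_eq_card, Fintype.card_fin] at h1
  rw [h4, Module.finrank_fintype_fun_eq_card] at h3
  omega

end OpC

theorem testFn_touch {g m : ℕ} {κ : Type*} [Fintype κ] (hcard : Fintype.card κ = m)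
    (π : (Fin g → ℂ) →L[ℂ] (κ → ℂ)) (L : (κ → ℂ) →L[ℂ] (Fin g → ℂ)) (hπL : ∀ x, π (L x) = x)
    (s₀ ν : κ → ℂ) (hν : ∑ k, ‖ν k‖ ^ 2 = 1) (z₀ : Fin g → ℂ) {β : ℝ} (hβ : 0 < β) :
    TestFn m (fun z : Fin g → ℂ =>
      (∑ k, (starRingEnd ℂ) (ν k) * (π z k - s₀ k)).re
      + 3 * β * (∑ k, (starRingEnd ℂ) (ν k) * (π z k - s₀ k)).re ^ 2
      - β * ∑ k, ‖π z k - s₀ k‖ ^ 2 + nsq (z - z₀ - L (π z - s₀))) := by
  classical
  -- the linear forms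
  obtain ⟨ℓ, hℓ⟩ : ∃ ℓ : (Fin g → ℂ) →ₗ[ℂ] ℂ, ∀ z, ℓ z = ∑ k, (starRingEnd ℂ) (ν k) * π z k :=
    ⟨∑ k, (starRingEnd ℂ) (ν k) • (LinearMap.proj k ∘ₗ π.toLinearMap), fun z => by
      simp [LinearMap.sum_apply]⟩
  have hπk : ∀ k, ∃ ℓ : (Fin g → ℂ) →ₗ[ℂ] ℂ, ∀ z, ℓ z = π z k := fun k =>
    ⟨LinearMap.proj k ∘ₗ π.toLinearMap, fun z => rfl⟩
  choose p hp using hπk
  have hri : ∀ i, ∃ ℓ : (Fin g → ℂ) →ₗ[ℂ] ℂ, ∀ z, ℓ z = z i - L (π z) i := fun i =>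
    ⟨LinearMap.proj i - LinearMap.proj i ∘ₗ L.toLinearMap ∘ₗ π.toLinearMap, fun z => rfl⟩
  choose r hr using hri
  set c₀ : ℂ := -∑ k, (starRingEnd ℂ) (ν k) * s₀ k with hc₀
  have hζ : ∀ z, (∑ k, (starRingEnd ℂ) (ν k) * (π z k - s₀ k)) = ℓ z + c₀ := by
    intro z
    rw [hℓ, hc₀, ← sub_eq_add_neg, ← Finset.sum_sub_distrib]
    exact Finset.sum_congr rfl fun k _ => by ring
  have hd : Differentiable ℂ (fun z : Fin g → ℂ => ℓ z + c₀) := by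
    have h2 := (LinearMap.toContinuousLinearMap ℓ).differentiable
    exact Differentiable.add_const _ h2
  have hd2 : Differentiable ℂ (fun z : Fin g → ℂ =>
      (ℓ z + c₀) + ((3 * β / 2 : ℝ) : ℂ) * (ℓ z + c₀) ^ 2) :=
    hd.add ((hd.pow 2).const_mul _)
  have hrep := (((OpC.Rep.re hd2).add ((OpC.Rep.sq ℓ c₀).mul (3 * β / 2))).add
    ((OpC.Rep.sum Finset.univ fun k => OpC.Rep.sq (p k) (-s₀ k)).mul (-β))).add
    (OpC.Rep.sum Finset.univ fun i => OpC.Rep.sq (r i) (-z₀ i + L s₀ i))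
  have hrep2 := hrep.congr (ψ := fun z : Fin g → ℂ =>
      (∑ k, (starRingEnd ℂ) (ν k) * (π z k - s₀ k)).re
      + 3 * β * (∑ k, (starRingEnd ℂ) (ν k) * (π z k - s₀ k)).re ^ 2
      - β * ∑ k, ‖π z k - s₀ k‖ ^ 2 + nsq (z - z₀ - L (π z - s₀))) (R := fun z =>
      (3 * β / 2) * ‖ℓ z‖ ^ 2 + (-β) * ∑ k, ‖π z k‖ ^ 2 + ∑ i, ‖z i - L (π z) i‖ ^ 2)
    (fun z => by
      have e1 : nsq (z - z₀ - L (π z - s₀)) = ∑ i, ‖r i z + (-z₀ i + L s₀ i)‖ ^ 2 := by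
        unfold nsq
        refine Finset.sum_congr rfl fun i _ => ?_
        rw [hr, map_sub]
        congr 2
        simp only [Pi.sub_apply]
        ring
      have e2 : ∑ k, ‖π z k - s₀ k‖ ^ 2 = ∑ k, ‖p k z + -s₀ k‖ ^ 2 := by
        refine Finset.sum_congr rfl fun k _ => ?_
        rw [hp, sub_eq_add_neg]
      have e3 : (ℓ z + c₀).re ^ 2 = (‖ℓ z + c₀‖ ^ 2 + ((ℓ z + c₀) ^ 2).re) / 2 := by
        rw [← Complex.normSq_eq_norm_sq, Complex.normSq_apply, pow_two (ℓ z + c₀),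
          Complex.mul_re]
        ring
      show (∑ k, (starRingEnd ℂ) (ν k) * (π z k - s₀ k)).re
        + 3 * β * (∑ k, (starRingEnd ℂ) (ν k) * (π z k - s₀ k)).re ^ 2
        - β * ∑ k, ‖π z k - s₀ k‖ ^ 2 + nsq (z - z₀ - L (π z - s₀)) =
        ((ℓ z + c₀) + ((3 * β / 2 : ℝ) : ℂ) * (ℓ z + c₀) ^ 2).re +
        (3 * β / 2) * ‖ℓ z + c₀‖ ^ 2 + (-β) * (∑ k, ‖p k z + -s₀ k‖ ^ 2) +
        ∑ i, ‖r i z + (-z₀ i + L s₀ i)‖ ^ 2
      rw [hζ, e1, e2, e3, Complex.add_re (ℓ z + c₀), Complex.re_ofReal_mul]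
      ring)
    (fun z => by
      show (3 * β / 2) * ‖ℓ z‖ ^ 2 + (-β) * ∑ k, ‖π z k‖ ^ 2 + ∑ i, ‖z i - L (π z) i‖ ^ 2 =
        0 + (3 * β / 2) * ‖ℓ z‖ ^ 2 + (-β) * (∑ k, ‖p k z‖ ^ 2) + ∑ i, ‖r i z‖ ^ 2
      simp only [hp, hr]
      ring)
  have hν0 : ν ≠ 0 := by
    rintro rfl
    simp at hν
  refine OpC.testFn_of_rep hrep2 ((Submodule.span ℂ {ν}).comap π.toLinearMap) ?_ ?_
  · rw [← hcard]
    exact OpC.finrank_comap π.toLinearMap hν0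
  · intro v hv hv0
    rw [Submodule.mem_comap, Submodule.mem_span_singleton] at hv
    obtain ⟨c, hc⟩ := hv
    have hπv : π v = c • ν := hc.symm
    have h1 : ℓ v = c := by
      rw [hℓ, hπv]
      have h2 : ∀ k, (starRingEnd ℂ) (ν k) * (c • ν) k = c * ((‖ν k‖ ^ 2 : ℝ) : ℂ) := by
        intro k
        rw [Pi.smul_apply, smul_eq_mul, ← Complex.normSq_eq_norm_sq, ← Complex.mul_conj]
        ring
      simp only [h2]
      rw [← Finset.mul_sum, ← Complex.ofReal_sum, hν]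
      simp
    have h3 : ∑ k, ‖π v k‖ ^ 2 = ‖c‖ ^ 2 := by
      rw [hπv]
      simp only [Pi.smul_apply, smul_eq_mul, norm_mul, mul_pow]
      rw [← Finset.mul_sum, hν, mul_one]
    show 0 < (3 * β / 2) * ‖ℓ v‖ ^ 2 + (-β) * ∑ k, ‖π v k‖ ^ 2 + ∑ i, ‖v i - L (π v) i‖ ^ 2
    rw [h1, h3]
    have h4 : 0 ≤ ∑ i, ‖v i - L (π v) i‖ ^ 2 := Finset.sum_nonneg fun i _ => by positivity
    by_cases hc0 : c = 0
    · have h5 : π v = 0 := by rw [hπv, hc0, zero_smul]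
      obtain ⟨i, hi⟩ := Function.ne_iff.1 hv0
      have h6 : 0 < ∑ i, ‖v i - L (π v) i‖ ^ 2 := by
        refine Finset.sum_pos' (fun i _ => by positivity) ⟨i, Finset.mem_univ i, ?_⟩
        rw [h5, map_zero, Pi.zero_apply, sub_zero]
        have : 0 < ‖v i‖ := norm_pos_iff.2 hi
        positivity
      rw [hc0, norm_zero]
      linarith
    · have : 0 < ‖c‖ := norm_pos_iff.2 hc0
      have h7 : 0 < β * ‖c‖ ^ 2 := by positivity
      linarith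

end AMC
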