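import Pool.Agent.Lib.MP_b57e3c_ag_M.OpA
import Pool.Agent.Lib.MP_b57e3c_ag_M.OpB
import Pool.Agent.Lib.MP_b57e3c_ag_M.OpC

/-!
# Module Opn : a set with the maximum principle contained in a graph is open in the graph

Let `E = {s ∈ Ω | σ s ∈ M}`, relatively closed in `Ω` (`σ` continuous on `Ω`, `M` closed). Suppose `E` is
not a neighbourhood of some `s₁ ∈ E`. `exists_touch` gives `s₀ ∈ E`, `ν`, `r`. Let `β = 1/r`,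
`L = fderiv ℂ σ s₀` (`π (L x) = x`: differentiate `π (σ s) = s`), `z₀ = σ s₀ ∈ M`. Let `φ` be the test function of
`testFn_touch`, `φ z₀ = 0`. For `z ∈ M` near `z₀`: `z ∈ O` (open, `z₀ ∈ O`), `s = π z` is near `s₀`, in `Ω`, so
`z = σ s` by `hgr`, `s ∈ E`, and with `ξ = Re ∑ conj (ν k) (s k - s₀ k)`, `Q = ∑ ‖s k - s₀ k‖²`: `ξ² ≤ Q`
(Cauchy-Schwarz), `2 r ξ ≤ Q`, `|ξ|` small, so by `touch_ineq`
`φ z ≤ - κ₀ Q + nsq (σ s - σ s₀ - L (s - s₀)) ≤ - κ₀ Q + (small) Q ≤ 0` (`σ` is differentiable at `s₀`: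
`σ s - σ s₀ - L (s - s₀) = o(s - s₀)`, `nsq ≤ g ‖·‖²`, `‖s - s₀‖² ≤ Q`). So `φ` has a local maximum on `M` at `z₀`,
contradiction with `hMP`.
-/

open Complex Filter Topology Metric

namespace AMC

private theorem Opn_norm {κ : Type*} [Fintype κ] (s : κ → ℂ) : ‖s‖ ^ 2 ≤ ∑ k, ‖s k‖ ^ 2 := by
  have hs : 0 ≤ ∑ k, ‖s k‖ ^ 2 := Finset.sum_nonneg fun k _ => by positivity
  have h4 : ‖s‖ ≤ Real.sqrt (∑ k, ‖s k‖ ^ 2) := by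
    rw [pi_norm_le_iff_of_nonneg (Real.sqrt_nonneg _)]
    intro k
    refine Real.le_sqrt_of_sq_le ?_
    exact Finset.single_le_sum (f := fun k => ‖s k‖ ^ 2) (fun k _ => by positivity)
      (Finset.mem_univ k)
  calc ‖s‖ ^ 2 ≤ Real.sqrt (∑ k, ‖s k‖ ^ 2) ^ 2 := pow_le_pow_left₀ (norm_nonneg _) h4 2
    _ = ∑ k, ‖s k‖ ^ 2 := Real.sq_sqrt hs

private theorem Opn_nsq {g : ℕ} (z : Fin g → ℂ) : nsq z ≤ g * ‖z‖ ^ 2 := by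
  unfold nsq
  calc (∑ i, ‖z i‖ ^ 2) ≤ ∑ _i : Fin g, ‖z‖ ^ 2 :=
        Finset.sum_le_sum fun i _ => pow_le_pow_left₀ (norm_nonneg _) (norm_le_pi_norm z i) 2
    _ = g * ‖z‖ ^ 2 := by
        rw [Finset.sum_const, Finset.card_univ, Fintype.card_fin, nsmul_eq_mul]

private theorem Opn_cs {κ : Type*} [Fintype κ] (ν s : κ → ℂ) (hν : ∑ k, ‖ν k‖ ^ 2 = 1) :
    (∑ k, (starRingEnd ℂ) (ν k) * s k).re ^ 2 ≤ ∑ k, ‖s k‖ ^ 2 := by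
  have h1 : |(∑ k, (starRingEnd ℂ) (ν k) * s k).re| ≤ ∑ k, ‖ν k‖ * ‖s k‖ := by
    refine (Complex.abs_re_le_norm _).trans ((norm_sum_le _ _).trans ?_)
    refine Finset.sum_le_sum fun k _ => ?_
    rw [norm_mul, Complex.norm_conj]
  calc (∑ k, (starRingEnd ℂ) (ν k) * s k).re ^ 2
      = |(∑ k, (starRingEnd ℂ) (ν k) * s k).re| ^ 2 := (sq_abs _).symm
    _ ≤ (∑ k, ‖ν k‖ * ‖s k‖) ^ 2 := pow_le_pow_left₀ (abs_nonneg _) h1 2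
    _ ≤ (∑ k, ‖ν k‖ ^ 2) * ∑ k, ‖s k‖ ^ 2 := Finset.sum_mul_sq_le_sq_mul_sq _ _ _
    _ = ∑ k, ‖s k‖ ^ 2 := by rw [hν, one_mul]

/-- the remainder of the first order expansion is small -/
private theorem Opn_small {g : ℕ} {κ : Type*} [Fintype κ] {σ : (κ → ℂ) → (Fin g → ℂ)}
    {s₀ : κ → ℂ} {L : (κ → ℂ) →L[ℂ] (Fin g → ℂ)} (hL : HasFDerivAt σ L s₀) {κ₀ : ℝ}
    (hκ : 0 < κ₀) :
    ∀ᶠ s in 𝓝 s₀, nsq (σ s - σ s₀ - L (s - s₀)) ≤ κ₀ * ∑ k, ‖s k - s₀ k‖ ^ 2 := by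
  have hg : (0 : ℝ) < (g : ℝ) + 1 := by positivity
  set c : ℝ := min 1 (κ₀ / (g + 1)) with hc
  have hc0 : 0 < c := lt_min one_pos (div_pos hκ hg)
  have hc1 : c ≤ 1 := min_le_left _ _
  have hc2 : g * c ^ 2 ≤ κ₀ := by
    have h1 : c ≤ κ₀ / (g + 1) := min_le_right _ _
    have h2 : c * (g + 1) ≤ κ₀ := (le_div_iff₀ hg).1 h1
    have h3 : c ^ 2 ≤ c := by nlinarith
    have h4 : (0 : ℝ) ≤ (g : ℝ) := Nat.cast_nonneg g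
    nlinarith
  filter_upwards [hL.isLittleO.def hc0] with s hs
  have h1 : ‖s - s₀‖ ^ 2 ≤ ∑ k, ‖s k - s₀ k‖ ^ 2 := Opn_norm (s - s₀)
  calc nsq (σ s - σ s₀ - L (s - s₀)) ≤ g * ‖σ s - σ s₀ - L (s - s₀)‖ ^ 2 := Opn_nsq _
    _ ≤ g * (c * ‖s - s₀‖) ^ 2 :=
        mul_le_mul_of_nonneg_left (pow_le_pow_left₀ (norm_nonneg _) hs 2) (Nat.cast_nonneg g)
    _ = (g * c ^ 2) * ‖s - s₀‖ ^ 2 := by ring
    _ ≤ κ₀ * ‖s - s₀‖ ^ 2 := mul_le_mul_of_nonneg_right hc2 (by positivity)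
    _ ≤ κ₀ * ∑ k, ‖s k - s₀ k‖ ^ 2 := mul_le_mul_of_nonneg_left h1 hκ.le

theorem graph_open {g m : ℕ} {κ : Type*} [Fintype κ] (hcard : Fintype.card κ = m)
    {M : Set (Fin g → ℂ)} (hM : IsClosed M) (hMP : MP m M)
    (π : (Fin g → ℂ) →L[ℂ] (κ → ℂ)) {Ω : Set (κ → ℂ)} (hΩ : IsOpen Ω)
    {σ : (κ → ℂ) → (Fin g → ℂ)} (hσ : DifferentiableOn ℂ σ Ω) (hπσ : ∀ s ∈ Ω, π (σ s) = s)
    {O : Set (Fin g → ℂ)} (hO : IsOpen O) (hσO : ∀ s ∈ Ω, σ s ∈ O)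
    (hgr : ∀ z ∈ M, z ∈ O → π z ∈ Ω → z = σ (π z)) :
    IsOpen {s | s ∈ Ω ∧ σ s ∈ M} := by
  rw [isOpen_iff_mem_nhds]
  intro s₁ hs₁
  by_contra hn
  have hcont : ∀ s ∈ Ω, ContinuousAt σ s := fun s hs =>
    (hσ.differentiableAt (hΩ.mem_nhds hs)).continuousAt
  obtain ⟨s₀, hs₀, ν, r, hr, hν, htouch⟩ := exists_touch (E := {s | s ∈ Ω ∧ σ s ∈ M}) hΩ
    (fun s hs => hs.1) (fun s hs hcl => by
      refine ⟨hs, ?_⟩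
      have h1 := mem_closure_image (hcont s hs) hcl
      have h2 : σ '' {s | s ∈ Ω ∧ σ s ∈ M} ⊆ M := by
        rintro _ ⟨t, ht, rfl⟩
        exact ht.2
      have h3 := closure_mono h2 h1
      rwa [hM.closure_eq] at h3) hs₁ hn
  obtain ⟨ρ, hρ, κ₀, hκ₀, hineq⟩ := touch_ineq hr
  have hd : HasFDerivAt σ (fderiv ℂ σ s₀) s₀ :=
    (hσ.differentiableAt (hΩ.mem_nhds hs₀.1)).hasFDerivAt
  set L := fderiv ℂ σ s₀ with hL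
  have hπL : ∀ x, π (L x) = x := by
    have h1 : HasFDerivAt (fun s => π (σ s)) (π.comp L) s₀ := π.hasFDerivAt.comp s₀ hd
    have h2 : HasFDerivAt (fun s => π (σ s)) (ContinuousLinearMap.id ℂ (κ → ℂ)) s₀ := by
      refine (hasFDerivAt_id s₀).congr_of_eventuallyEq ?_
      filter_upwards [hΩ.mem_nhds hs₀.1] with s hs
      exact hπσ s hs
    have h3 := h1.unique h2
    intro x
    have h4 := congrArg (fun T : (κ → ℂ) →L[ℂ] (κ → ℂ) => T x) h3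
    exact h4
  have hφ := testFn_touch hcard π L hπL s₀ ν hν (σ s₀) (β := 1 / r) (by positivity)
  refine hMP _ hφ (σ s₀) hs₀.2 ?_
  have hπ0 : π (σ s₀) = s₀ := hπσ s₀ hs₀.1
  have hπc : Tendsto π (𝓝[M] σ s₀) (𝓝 s₀) := by
    have h1 := (π.continuous.tendsto (σ s₀)).mono_left
      (nhdsWithin_le_nhds : 𝓝[M] σ s₀ ≤ 𝓝 (σ s₀))
    rwa [hπ0] at h1
  have hξ : ∀ᶠ s in 𝓝 s₀, |(∑ k, (starRingEnd ℂ) (ν k) * (s k - s₀ k)).re| < ρ := by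
    have h1 : Continuous fun s : κ → ℂ =>
        |(∑ k, (starRingEnd ℂ) (ν k) * (s k - s₀ k)).re| := by fun_prop
    have h2 := h1.tendsto s₀
    refine h2.eventually_lt_const ?_
    simpa using hρ
  have hO' : ∀ᶠ z in 𝓝[M] σ s₀, z ∈ O :=
    nhdsWithin_le_nhds (hO.mem_nhds (hσO s₀ hs₀.1))
  filter_upwards [hO', self_mem_nhdsWithin, hπc.eventually (hΩ.mem_nhds hs₀.1),
    hπc.eventually htouch, hπc.eventually hξ, hπc.eventually (Opn_small hd hκ₀)] with z h1 h2 h3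
    h4 h5 h6
  have hz : z = σ (π z) := hgr z h2 h1 h3
  have hE : π z ∈ {s | s ∈ Ω ∧ σ s ∈ M} := ⟨h3, by rw [← hz]; exact h2⟩
  have h7 := h4 hE
  have h8 := hineq _ _ h5 (Opn_cs ν (fun k => π z k - s₀ k) hν) h7
  rw [← hz] at h6
  have h9 : (∑ k, (starRingEnd ℂ) (ν k) * (π (σ s₀) k - s₀ k)).re
      + 3 * (1 / r) * (∑ k, (starRingEnd ℂ) (ν k) * (π (σ s₀) k - s₀ k)).re ^ 2
      - 1 / r * ∑ k, ‖π (σ s₀) k - s₀ k‖ ^ 2 + nsq (σ s₀ - σ s₀ - L (π (σ s₀) - s₀)) = 0 := by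
    rw [hπ0]
    simp [nsq]
  rw [h9]
  set ξ := (∑ k, (starRingEnd ℂ) (ν k) * (π z k - s₀ k)).re with hξd
  set Q := ∑ k, ‖π z k - s₀ k‖ ^ 2 with hQd
  have h10 : ξ + 3 * (1 / r) * ξ ^ 2 - 1 / r * Q = ξ + 3 / r * ξ ^ 2 - Q / r := by ring
  rw [h10]
  linarith

end AMC
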