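import Pool.Agent.Lib.MP_b57e3c_ag_M.Slm
import Pool.Agent.Lib.MP_b57e3c_ag_M.Slc
import Pool.Agent.Lib.MP_b57e3c_ag_M.Cst

/-!
# Module Sel : a point with many integral coordinates `y`

By induction on the finset `A` of indices we show: there are a closed nonempty set `N ⊆ M`, real
numbers `s i`, and a set `Z ⊆ A` (the `i ∈ A` with `s i ∈ ℤ`) such that `yc τ i z = s i` for `z ∈ N`,
`i ∈ A`; `MP (d - Z.card) N`; and `N` is invariant under all integer translations and under the
translations by `τ k` for the integer vectors `k` with `k i = 0` for `i ∈ A`.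
`A = ∅`: `N = M`. Step `A → insert i A` (`i ∉ A`):
(a) if some `z ∈ N` has `yc τ i z = n ∈ ℤ`: `N' = N ∩ {yc τ i = n}`, `s i = n`. If
`d - Z.card = 0` then `MP 0` is trivial (no test functions: `finrank V ≤ g`), otherwise
`MP.slice`.
(b) otherwise no `z ∈ N` has integral `yc τ i z`. `N₁ = N ∩ {0 < yc τ i < 1} = N ∩ {0 ≤ yc τ i ≤ 1}` is
closed, satisfies `MP (d - Z.card)` (`MP.of_open`). `exists_max` gives `t`; `yc τ i ≤ t` on `N₁`.
`N' = N₁ ∩ {yc τ i = t} = N ∩ {yc τ i = t}`, nonempty, closed, `MP (d - Z.card)` by `MP.face`; `s i = t`; the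
invariance is clear.
For `A = univ`: all `yc τ i` are constant on `N`, so `d - Z.card = 0` by `MP.const` (`lf_inj`), i.e.
`d ≤ Z.card`. Take any `z ∈ N ⊆ M` and translate by `-τ ⌊y⌋`: the result is in `M` by `inv2`, all its `y`
coordinates are in `[0,1)` and those in `Z` are `0`.
-/

open Complex Filter Topology Metric

namespace AMC

private theorem Sel_zero {g : ℕ} (M : Set (Fin g → ℂ)) : MP 0 M := by
  rintro φ ⟨P, h, V, hP, hφ, hV, hpos⟩
  have h1 := Submodule.finrank_le V
  rw [Module.finrank_fin_fun] at h1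
  omega

private theorem Sel_ind {g d : ℕ} {τ : Matrix (Fin g) (Fin g) ℂ} (hτ : AM.Siegel τ)
    {M : Set (Fin g → ℂ)} (hM : IsClosed M) (hne : M.Nonempty) (hMP : MP d M)
    (inv1 : ∀ z ∈ M, ∀ k : Fin g → ℤ, (fun i => z i + (k i : ℂ)) ∈ M)
    (inv2 : ∀ z ∈ M, ∀ k : Fin g → ℤ, (fun i => z i + ∑ j, τ i j * (k j : ℂ)) ∈ M)
    (A : Finset (Fin g)) :
    ∃ (N : Set (Fin g → ℂ)) (s : Fin g → ℝ) (Z : Finset (Fin g)), IsClosed N ∧ N.Nonempty ∧
      N ⊆ M ∧ Z ⊆ A ∧ (∀ i ∈ Z, ∃ n : ℤ, s i = n) ∧ (∀ z ∈ N, ∀ i ∈ A, yc τ i z = s i) ∧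
      MP (d - Z.card) N ∧ (∀ z ∈ N, ∀ k : Fin g → ℤ, (fun i => z i + (k i : ℂ)) ∈ N) ∧
      (∀ z ∈ N, ∀ k : Fin g → ℤ, (∀ j ∈ A, k j = 0) →
        (fun i => z i + ∑ j, τ i j * (k j : ℂ)) ∈ N) := by
  classical
  induction A using Finset.induction_on with
  | empty =>
    refine ⟨M, 0, ∅, hM, hne, subset_rfl, subset_rfl, fun i hi => ?_, fun z _ i hi => ?_, ?_,
      inv1, fun z hz k _ => inv2 z hz k⟩
    · exact absurd hi (Finset.notMem_empty i)
    · exact absurd hi (Finset.notMem_empty i)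
    · rw [Finset.card_empty, Nat.sub_zero]
      exact hMP
  | insert i A hi ih =>
    obtain ⟨N, s, Z, hN, hNne, hNM, hZA, hZ, hs, hm, h1, h2⟩ := ih
    have key : ∀ t : ℝ, (∃ z ∈ N, yc τ i z = t) →
        IsClosed (N ∩ {z | (lf τ i z).im = t}) ∧ (N ∩ {z | (lf τ i z).im = t}).Nonempty ∧
        (N ∩ {z | (lf τ i z).im = t}) ⊆ M ∧
        (∀ z ∈ N ∩ {z | (lf τ i z).im = t}, ∀ j ∈ insert i A,
          yc τ j z = Function.update s i t j) ∧
        (∀ z ∈ N ∩ {z | (lf τ i z).im = t}, ∀ k : Fin g → ℤ,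
          (fun i => z i + (k i : ℂ)) ∈ N ∩ {z | (lf τ i z).im = t}) ∧
        (∀ z ∈ N ∩ {z | (lf τ i z).im = t}, ∀ k : Fin g → ℤ, (∀ j ∈ insert i A, k j = 0) →
          (fun i => z i + ∑ j, τ i j * (k j : ℂ)) ∈ N ∩ {z | (lf τ i z).im = t}) := by
      rintro t ⟨z0, hz0, hz0t⟩
      refine ⟨hN.inter ((isClosed_singleton (x := t)).preimage (continuous_yc τ i)),
        ⟨z0, hz0, hz0t⟩, fun z hz => hNM hz.1, ?_, ?_, ?_⟩
      · intro z hz j hj
        rcases Finset.mem_insert.1 hj with h3 | h3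
        · subst h3
          rw [Function.update_self]
          exact hz.2
        · have h4 : j ≠ i := fun h5 => hi (h5 ▸ h3)
          rw [Function.update_of_ne h4]
          exact hs z hz.1 j h3
      · intro z hz k
        refine ⟨h1 z hz.1 k, ?_⟩
        exact (yc_add_int hτ i z k).trans hz.2
      · intro z hz k hk
        refine ⟨h2 z hz.1 k fun j hj => hk j (Finset.mem_insert_of_mem hj), ?_⟩
        have h3 := yc_add_tau hτ i z k
        rw [hk i (Finset.mem_insert_self i A), Int.cast_zero, add_zero] at h3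
        exact h3.trans hz.2
    by_cases hex : ∃ z ∈ N, ∃ n : ℤ, yc τ i z = n
    · obtain ⟨z0, hz0, n, hn⟩ := hex
      obtain ⟨k1, k2, k3, k4, k5, k6⟩ := key n ⟨z0, hz0, hn⟩
      have hiZ : i ∉ Z := fun h => hi (hZA h)
      refine ⟨_, _, insert i Z, k1, k2, k3, Finset.insert_subset_insert i hZA, ?_, k4, ?_, k5, k6⟩
      · intro j hj
        rcases Finset.mem_insert.1 hj with h3 | h3
        · subst h3
          exact ⟨n, by rw [Function.update_self]⟩
        · have h4 : j ≠ i := fun h5 => hiZ (h5 ▸ h3)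
          rw [Function.update_of_ne h4]
          exact hZ j h3
      · rw [Finset.card_insert_of_notMem hiZ]
        rcases Nat.eq_zero_or_pos (d - Z.card) with h3 | h3
        · have h4 : d - (Z.card + 1) = 0 := by omega
          rw [h4]
          exact Sel_zero _
        · have h4 : d - Z.card = d - (Z.card + 1) + 1 := by omega
          rw [h4] at hm
          exact MP.slice hN hm (lf τ i) n
    · have hint : ∀ z ∈ N, ∀ n : ℤ, yc τ i z ≠ n := fun z hz n h => hex ⟨z, hz, n, h⟩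
      obtain ⟨t, ht0, ht1, hzt, hmax⟩ := exists_max hτ hN hNne hs hi h1 h2 hint
      obtain ⟨k1, k2, k3, k4, k5, k6⟩ := key t hzt
      refine ⟨_, _, Z, k1, k2, k3, fun j hj => Finset.mem_insert_of_mem (hZA hj), ?_, k4, ?_,
        k5, k6⟩
      · intro j hj
        have h4 : j ≠ i := fun h5 => hi (h5 ▸ hZA hj)
        rw [Function.update_of_ne h4]
        exact hZ j hj
      · have hO : IsOpen {z : Fin g → ℂ | 0 < yc τ i z ∧ yc τ i z < 1} :=
          (isOpen_lt continuous_const (continuous_yc τ i)).inter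
            (isOpen_lt (continuous_yc τ i) continuous_const)
        have hcl : IsClosed (N ∩ {z : Fin g → ℂ | 0 < yc τ i z ∧ yc τ i z < 1}) := by
          have e : N ∩ {z : Fin g → ℂ | 0 < yc τ i z ∧ yc τ i z < 1} =
              N ∩ {z : Fin g → ℂ | 0 ≤ yc τ i z ∧ yc τ i z ≤ 1} := by
            ext z
            constructor
            · rintro ⟨a, b, c⟩
              exact ⟨a, b.le, c.le⟩
            · rintro ⟨a, b, c⟩
              refine ⟨a, lt_of_le_of_ne b fun h => hint z a 0 ?_,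
                lt_of_le_of_ne c fun h => hint z a 1 ?_⟩
              · rw [← h, Int.cast_zero]
              · rw [h, Int.cast_one]
          rw [e]
          exact hN.inter ((isClosed_le continuous_const (continuous_yc τ i)).inter
            (isClosed_le (continuous_yc τ i) continuous_const))
        have h3 := MP.face hcl (hm.of_open hO) (lf τ i) t fun z hz => hmax z hz.1 hz.2.1 hz.2.2
        have e : N ∩ {z : Fin g → ℂ | 0 < yc τ i z ∧ yc τ i z < 1} ∩ {z | (lf τ i z).im = t} =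
            N ∩ {z | (lf τ i z).im = t} := by
          ext z
          constructor
          · rintro ⟨⟨a, _⟩, b⟩
            exact ⟨a, b⟩
          · rintro ⟨a, b⟩
            have b' : yc τ i z = t := b
            refine ⟨⟨a, ?_, ?_⟩, b⟩
            · show 0 < yc τ i z
              rw [b']
              exact ht0
            · show yc τ i z < 1
              rw [b']
              exact ht1
        rw [e] at h3
        exact h3

theorem exists_point {g d : ℕ} {τ : Matrix (Fin g) (Fin g) ℂ} (hτ : AM.Siegel τ)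
    {M : Set (Fin g → ℂ)} (hM : IsClosed M) (hne : M.Nonempty) (hMP : MP d M)
    (inv1 : ∀ z ∈ M, ∀ k : Fin g → ℤ, (fun i => z i + (k i : ℂ)) ∈ M)
    (inv2 : ∀ z ∈ M, ∀ k : Fin g → ℤ, (fun i => z i + ∑ j, τ i j * (k j : ℂ)) ∈ M) :
    ∃ p ∈ M, (∀ i, 0 ≤ yc τ i p ∧ yc τ i p < 1) ∧
      d ≤ (Finset.univ.filter (fun i => yc τ i p = 0)).card := by
  obtain ⟨N, s, Z, hN, ⟨z, hz⟩, hNM, -, hZ, hs, hm, -, -⟩ :=
    Sel_ind hτ hM hne hMP inv1 inv2 Finset.univ
  have h0 : d - Z.card = 0 := hm.const ⟨z, hz⟩ (lf τ) (lf_inj hτ) s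
    fun w hw i => hs w hw i (Finset.mem_univ i)
  have hy : ∀ i, yc τ i (fun j => z j + ∑ l, τ j l * (((-⌊s l⌋ : ℤ)) : ℂ)) = Int.fract (s i) := by
    intro i
    rw [yc_add_tau hτ i z (fun l => -⌊s l⌋), hs z hz i (Finset.mem_univ i)]
    push_cast
    rw [← sub_eq_add_neg]
    exact Int.self_sub_floor (s i)
  refine ⟨_, inv2 z (hNM hz) (fun l => -⌊s l⌋), fun i => ?_, ?_⟩
  · rw [hy i]
    exact ⟨Int.fract_nonneg _, Int.fract_lt_one _⟩
  · refine le_trans (Nat.sub_eq_zero_iff_le.1 h0) (Finset.card_le_card fun i hi => ?_)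
    refine Finset.mem_filter.2 ⟨Finset.mem_univ i, ?_⟩
    obtain ⟨n, hn⟩ := hZ i hi
    rw [hy i, hn, Int.fract_intCast]

end AMC
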