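import Pool.Agent.Lib.MP_b57e3c_ag_M.Slm
import Pool.Agent.Lib.MP_b57e3c_ag_M.Grf
import Pool.Agent.Lib.MP_b57e3c_ag_M.OpA
import Pool.Agent.Lib.MP_b57e3c_ag_M.OpB
import Pool.Agent.Lib.MP_b57e3c_ag_M.OpC
import Pool.Agent.Lib.MP_b57e3c_ag_M.Opn
import Pool.Agent.Lib.MP_b57e3c_ag_M.Tub
import Pool.Agent.Lib.MP_b57e3c_ag_M.Crd
import Pool.Agent.Lib.MP_b57e3c_ag_M.Sel
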