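import Pool.Agent.Lib.MP_b57e3c_ag_M.Sum

/-!
# Module Der : the weighted theta series are smooth; derivatives

* `hasFDerivAt_th`: termwise differentiation (`hasFDerivAt_tsum_of_isPreconnected` on the open convex
  set `{z | ∀ i, |Im z_i| < R}`, majorant from `summable_majorant` for the lists `i :: L`): the term
  for `m` has derivative `∑_i (- 2 π i m_i) (term) dz_i` and `m_i * (weight of L) = weight of (i :: L)`.
* `ent_th`: `ContDiff ℂ n` for all `n` and all `L` by induction on `n`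
  (`contDiff_succ_iff_hasFDerivAt` or `contDiff_succ_iff_fderiv`), since the derivative is a finite sum of
  `th τ (i :: L)` times constants.
* `theta_eq`: reindex by `m ↦ -m` (`Equiv.neg`): `mᵗ τ m` is unchanged.
* `mem_sing`: `HasFDerivAt (theta τ) 0 z` iff all the partial derivatives
  `- 2 π i th τ [i] z` vanish (uniqueness of the derivative, evaluate at `Pi.single i 1`).
-/

open Complex Filter Topology

namespace AMC

variable {g : ℕ} {τ : Matrix (Fin g) (Fin g) ℂ}

/-- the terms of the weighted series -/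
private noncomputable def Der_T (τ : Matrix (Fin g) (Fin g) ℂ) (L : List (Fin g))
    (m : Fin g → ℤ) (z : Fin g → ℂ) : ℂ :=
  (L.map (fun i => (m i : ℂ))).prod *
    cexp (Real.pi * I * (∑ i, ∑ j, (m i : ℂ) * τ i j * (m j : ℂ))
      - 2 * Real.pi * I * ∑ i, (m i : ℂ) * z i)

private theorem Der_T_deriv (L : List (Fin g)) (m : Fin g → ℤ) (z : Fin g → ℂ) :
    HasFDerivAt (Der_T τ L m) (∑ i, (- 2 * Real.pi * I * Der_T τ (i :: L) m z) •
      (ContinuousLinearMap.proj i : (Fin g → ℂ) →L[ℂ] ℂ)) z := by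
  have h1 : HasFDerivAt (fun z : Fin g → ℂ => ∑ i, (m i : ℂ) * z i)
      (∑ i, (m i : ℂ) • (ContinuousLinearMap.proj i : (Fin g → ℂ) →L[ℂ] ℂ)) z := by
    refine HasFDerivAt.fun_sum fun i _ => ?_
    exact (hasFDerivAt_apply i z).const_mul (m i : ℂ)
  have h2 := ((h1.const_mul (2 * Real.pi * I)).const_sub
    (Real.pi * I * (∑ i, ∑ j, (m i : ℂ) * τ i j * (m j : ℂ)))).cexp.const_mul
      ((L.map (fun i => (m i : ℂ))).prod)
  refine h2.congr_fderiv ?_
  ext x
  simp only [ContinuousLinearMap.smul_apply, ContinuousLinearMap.neg_apply,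
    ContinuousLinearMap.sum_apply, ContinuousLinearMap.proj_apply, smul_eq_mul, Der_T,
    List.map_cons, List.prod_cons, Finset.mul_sum, mul_neg]
  rw [← Finset.sum_neg_distrib]
  refine Finset.sum_congr rfl fun i _ => ?_
  ring

private theorem Der_proj (i : Fin g) :
    ‖(ContinuousLinearMap.proj i : (Fin g → ℂ) →L[ℂ] ℂ)‖ ≤ 1 := by
  refine ContinuousLinearMap.opNorm_le_bound _ zero_le_one fun x => ?_
  rw [one_mul]
  exact norm_le_pi_norm x i

theorem hasFDerivAt_th (hτ : AM.Siegel τ) (L : List (Fin g)) (z : Fin g → ℂ) :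
    HasFDerivAt (th τ L) (∑ i, (- 2 * Real.pi * I * th τ (i :: L) z) •
      (ContinuousLinearMap.proj i : (Fin g → ℂ) →L[ℂ] ℂ)) z := by
  set R : ℝ := ‖z‖ + 1 with hR
  have hb : ∀ L' : List (Fin g), ∃ b : (Fin g → ℤ) → ℝ, Summable b ∧
      ∀ (m : Fin g → ℤ) (x : Fin g → ℂ), x ∈ Metric.ball (0 : Fin g → ℂ) R →
        ‖Der_T τ L' m x‖ ≤ b m := by
    intro L'
    obtain ⟨b, hb1, hb2⟩ := summable_majorant hτ L' R
    refine ⟨b, hb1, fun m x hx => hb2 m x fun i => ?_⟩
    have h1 := mem_ball_zero_iff.1 hx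
    exact (Complex.abs_im_le_norm _).trans ((norm_le_pi_norm x i).trans h1.le)
  choose b hb1 hb2 using hb
  have hz : z ∈ Metric.ball (0 : Fin g → ℂ) R := by
    rw [mem_ball_zero_iff]
    linarith
  have hsum : ∀ L' : List (Fin g), Summable fun m => Der_T τ L' m z := fun L' =>
    Summable.of_norm_bounded (hb1 L') fun m => hb2 L' m z hz
  have hu : Summable fun m : Fin g → ℤ => ∑ i : Fin g, 2 * Real.pi * b (i :: L) m :=
    summable_sum fun i _ => (hb1 (i :: L)).mul_left _
  have key := hasFDerivAt_tsum_of_isPreconnected (𝕜 := ℂ) (f := fun m x => Der_T τ L m x)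
    (f' := fun m x => ∑ i, (- 2 * Real.pi * I * Der_T τ (i :: L) m x) •
      (ContinuousLinearMap.proj i : (Fin g → ℂ) →L[ℂ] ℂ)) hu
    (Metric.isOpen_ball (x := (0 : Fin g → ℂ)) (ε := R))
    (convex_ball (0 : Fin g → ℂ) R).isPreconnected
    (fun m x _ => Der_T_deriv L m x) (fun m x hx => ?_) hz (hsum L) hz
  · refine HasFDerivAt.congr_fderiv key ?_
    have h1 : ∀ i, Summable fun m => (- 2 * Real.pi * I * Der_T τ (i :: L) m z) •
        (ContinuousLinearMap.proj i : (Fin g → ℂ) →L[ℂ] ℂ) := fun i =>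
      ((hsum (i :: L)).mul_left _).smul_const _
    rw [Summable.tsum_finsetSum fun i _ => h1 i]
    refine Finset.sum_congr rfl fun i _ => ?_
    rw [((hsum (i :: L)).mul_left _).tsum_smul_const, tsum_mul_left]
    rfl
  · refine (norm_sum_le _ _).trans (Finset.sum_le_sum fun i _ => ?_)
    rw [norm_smul]
    have h2 : ‖(- 2 * Real.pi * I * Der_T τ (i :: L) m x)‖ ≤ 2 * Real.pi * b (i :: L) m := by
      rw [norm_mul]
      have h3 : ‖(- 2 * Real.pi * I : ℂ)‖ = 2 * Real.pi := by
        simp [abs_of_pos Real.pi_pos]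
      rw [h3]
      exact mul_le_mul_of_nonneg_left (hb2 _ m x hx) (by positivity)
    calc ‖(- 2 * Real.pi * I * Der_T τ (i :: L) m x)‖ *
          ‖(ContinuousLinearMap.proj i : (Fin g → ℂ) →L[ℂ] ℂ)‖
        ≤ ‖(- 2 * Real.pi * I * Der_T τ (i :: L) m x)‖ * 1 :=
          mul_le_mul_of_nonneg_left (Der_proj i) (norm_nonneg _)
      _ ≤ _ := by rw [mul_one]; exact h2

theorem ent_th (hτ : AM.Siegel τ) (L : List (Fin g)) : Ent (th τ L) := by
  have hkey : ∀ n : ℕ, ∀ L : List (Fin g), ContDiff ℂ n (th τ L) := by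
    intro n
    induction n with
    | zero =>
      intro L
      have h1 : Differentiable ℂ (th τ L) := fun z => (hasFDerivAt_th hτ L z).differentiableAt
      exact_mod_cast contDiff_zero.2 h1.continuous
    | succ n ih =>
      intro L
      have h1 : Differentiable ℂ (th τ L) := fun z => (hasFDerivAt_th hτ L z).differentiableAt
      have h2 : ((n + 1 : ℕ) : WithTop ℕ∞) = (n : WithTop ℕ∞) + 1 := by push_cast; rfl
      rw [h2, contDiff_succ_iff_fderiv]
      refine ⟨h1, fun h => absurd h (by simp), ?_⟩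
      have h3 : fderiv ℂ (th τ L) = fun z => ∑ i, (- 2 * Real.pi * I * th τ (i :: L) z) •
          (ContinuousLinearMap.proj i : (Fin g → ℂ) →L[ℂ] ℂ) := by
        funext z
        exact (hasFDerivAt_th hτ L z).fderiv
      rw [h3]
      exact ContDiff.sum fun i _ => (contDiff_const.mul (ih (i :: L))).smul contDiff_const
  exact contDiff_infty.2 fun n => hkey n L

theorem theta_eq (hτ : AM.Siegel τ) (z : Fin g → ℂ) : AM.theta τ z = th τ [] z := by
  have _ := hτ
  unfold AM.theta th
  rw [← (Equiv.neg (Fin g → ℤ)).tsum_eq]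
  refine tsum_congr fun m => ?_
  simp only [List.map_nil, List.prod_nil, one_mul, Equiv.neg_apply, Pi.neg_apply]
  congr 1
  have h1 : ∑ i, ∑ j, ((-m i : ℤ) : ℂ) * τ i j * ((-m j : ℤ) : ℂ) =
      ∑ i, ∑ j, (m i : ℂ) * τ i j * (m j : ℂ) := by
    refine Finset.sum_congr rfl fun i _ => Finset.sum_congr rfl fun j _ => ?_
    push_cast
    ring
  have h2 : ∑ i, ((-m i : ℤ) : ℂ) * z i = - ∑ i, (m i : ℂ) * z i := by
    rw [← Finset.sum_neg_distrib]
    refine Finset.sum_congr rfl fun i _ => ?_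
    push_cast
    ring
  rw [h1, h2]
  ring

theorem mem_sing (hτ : AM.Siegel τ) (z : Fin g → ℂ) :
    z ∈ AM.singTheta τ ↔ th τ [] z = 0 ∧ ∀ i, th τ [i] z = 0 := by
  have h1 : AM.theta τ = th τ [] := funext fun z => theta_eq hτ z
  show AM.theta τ z = 0 ∧ HasFDerivAt (AM.theta τ) (0 : (Fin g → ℂ) →L[ℂ] ℂ) z ↔ _
  rw [h1]
  refine and_congr_right fun _ => ?_
  have h2 := hasFDerivAt_th hτ [] z
  constructor
  · intro h3 i
    have h4 := h3.unique h2
    have h5 := congrArg (fun f : (Fin g → ℂ) →L[ℂ] ℂ => f (Pi.single i 1)) h4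
    simp only [ContinuousLinearMap.zero_apply, ContinuousLinearMap.sum_apply,
      ContinuousLinearMap.smul_apply, ContinuousLinearMap.proj_apply, smul_eq_mul] at h5
    rw [Finset.sum_eq_single i (fun j _ hj => by rw [Pi.single_eq_of_ne hj, mul_zero])
      (fun h => absurd (Finset.mem_univ i) h), Pi.single_eq_same, mul_one] at h5
    rcases mul_eq_zero.1 h5.symm with h6 | h6
    · exfalso
      have h7 : (Real.pi : ℂ) ≠ 0 := by exact_mod_cast Real.pi_ne_zero
      simp [h7] at h6
    · exact h6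
  · intro h3
    refine h2.congr_fderiv ?_
    refine Finset.sum_eq_zero fun i _ => ?_
    rw [h3 i, mul_zero]
    ext x
    simp

end AMC
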