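import Pool.Agent.Lib.MP_b57e3c_ag_M.Defs

/-!
# Module Trm : the terms of the theta series in multiplicative form

`tri m = m (m-1)/2` (a natural number for every integer `m`, `0` iff `m ∈ {0, 1}`).
`norm_term_le`: write `w_k = ‖W_k‖`, `Q_k = ‖W_k‖ ‖W⁻_k‖ = ‖exp (2 π i τ_kk)‖`. Since `τ` is symmetric,
`‖exp (π i mᵗ τ m - 2 π i m·z)‖ = ∏_k (w_k^{m_k} Q_k^{m_k (m_k - 1)/2}) ∏_{k < l} ‖q_kl‖^{m_k m_l}`
(take real parts of exponents: `π i τ_kk m² - 2 π i z_k m = m (π i τ_kk - 2 π i z_k) + (m² - m) π i τ_kk`).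
For `m_k ≥ 1`: `w^m Q^{m(m-1)/2} = w (w Q)^{m-1} Q^{(m-1)(m-2)/2} ≤ w ε^{(m-1) + (m-1)(m-2)/2}
= w ε^{tri m}`; for `m_k = -s ≤ 0`: `= (Q/w)^s Q^{s(s-1)/2} ≤ ε^{s + s(s-1)/2} = ε^{tri m}`, `Q/w = ‖W⁻‖`.
So each factor is at most `(1 + w_k) ε^{tri (m_k)}`. Finally `‖q_kl‖^{m_k m_l} ≤ B^{|m_k| |m_l|}`,
`∑_{k<l} |m_k| |m_l| ≤ g ∑_k m_k²/2 ≤ g ∑_k m_k² ` and
`m² ≤ 4 tri m + 1`; hence the product over `k < l` is at most
`∏_k B^{g (4 tri (m_k) + 1)}`.
Suggestion: work with real exponents (`Real.exp` of everything, `Complex.norm_exp`), or with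
logarithms `a_k = log w_k`, `b_k = log Q_k ≤ log ε`.
-/

open Complex Filter Topology

namespace AMC

/-- `m (m - 1) / 2` as a natural number -/
def tri (m : ℤ) : ℕ := (m * (m - 1) / 2).toNat

theorem tri_spec (m : ℤ) : 2 * (tri m : ℤ) = m * (m - 1) := by
  have h1 : 0 ≤ m * (m - 1) := by
    rcases le_or_gt m 0 with h | h
    · nlinarith
    · have h2 : 1 ≤ m := h
      nlinarith
  have h2 : Even (m * (m - 1)) := Int.even_mul_pred_self m
  unfold tri
  rw [Int.toNat_of_nonneg (Int.ediv_nonneg h1 (by norm_num))]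
  exact Int.mul_ediv_cancel' h2.two_dvd

private theorem Trm_tri_real (m : ℤ) : 2 * (tri m : ℝ) = (m : ℝ) * (m - 1) := by
  exact_mod_cast tri_spec m

/-- the factor of one index -/
private theorem Trm_fac {α β L ε w : ℝ} (hL : L = Real.log ε) (hε : 0 < ε) (hw : Real.exp α = w)
    (h1 : 2 * α + β ≤ L) (h2 : β ≤ L) (h3 : α + β ≤ L) (m : ℤ) :
    Real.exp (m * α + tri m * (α + β)) ≤ (1 + w) * ε ^ tri m := by
  have hT := Trm_tri_real m
  have hεT : Real.exp (tri m * L) = ε ^ tri m := by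
    rw [Real.exp_nat_mul, hL, Real.exp_log hε]
  have hw0 : 0 < w := by
    rw [← hw]
    exact Real.exp_pos α
  have hpos : 0 < ε ^ tri m := pow_pos hε _
  rcases le_or_gt m 0 with hm | hm
  · have hm' : (m : ℝ) ≤ 0 := by exact_mod_cast hm
    have hTs : 0 ≤ (tri m : ℝ) + m := by
      rcases hm.eq_or_lt with h | h
      · rw [h]
        simp [tri]
      · have h' : m ≤ -1 := by omega
        have h'' : (m : ℝ) ≤ -1 := by exact_mod_cast h'
        nlinarith
    have key : m * α + tri m * (α + β) ≤ tri m * L := by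
      have e : m * α + tri m * (α + β) = (-m) * β + ((tri m : ℝ) + m) * (α + β) := by ring
      rw [e]
      have a1 : (-(m : ℝ)) * β ≤ (-(m : ℝ)) * L := mul_le_mul_of_nonneg_left h2 (by linarith)
      have a2 := mul_le_mul_of_nonneg_left h3 hTs
      linarith
    calc Real.exp (m * α + tri m * (α + β)) ≤ Real.exp (tri m * L) := Real.exp_le_exp.2 key
      _ = 1 * ε ^ tri m := by rw [hεT, one_mul]
      _ ≤ (1 + w) * ε ^ tri m := mul_le_mul_of_nonneg_right (by linarith) hpos.le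
  · have hm1 : 1 ≤ m := hm
    have hm' : (1 : ℝ) ≤ m := by exact_mod_cast hm1
    have hTs : 0 ≤ (tri m : ℝ) - (m - 1) := by
      rcases hm1.eq_or_lt with h | h
      · rw [← h]
        simp [tri]
      · have h' : 2 ≤ m := by omega
        have h'' : (2 : ℝ) ≤ m := by exact_mod_cast h'
        nlinarith
    have key : m * α + tri m * (α + β) ≤ α + tri m * L := by
      have e : m * α + tri m * (α + β) = α + (m - 1) * (2 * α + β) +
          ((tri m : ℝ) - (m - 1)) * (α + β) := by ring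
      rw [e]
      have a1 : ((m : ℝ) - 1) * (2 * α + β) ≤ ((m : ℝ) - 1) * L :=
        mul_le_mul_of_nonneg_left h1 (by linarith)
      have a2 := mul_le_mul_of_nonneg_left h3 hTs
      linarith
    calc Real.exp (m * α + tri m * (α + β)) ≤ Real.exp (α + tri m * L) :=
          Real.exp_le_exp.2 key
      _ = w * ε ^ tri m := by rw [Real.exp_add, hw, hεT]
      _ ≤ (1 + w) * ε ^ tri m := mul_le_mul_of_nonneg_right (by linarith) hpos.le

private theorem Trm_re (x : ℂ) : (Real.pi * I * x).re = -(Real.pi * x.im) := by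
  simp [Complex.mul_re, Complex.mul_im]

theorem norm_term_le {g : ℕ} {τ : Matrix (Fin g) (Fin g) ℂ} (hτ : AM.Siegel τ) {B ε : ℝ}
    (hB : 1 ≤ B) (hε : 0 < ε) (hε1 : ε ≤ 1)
    (hq : ∀ i j, i ≠ j → ‖qq τ i j‖ ≤ B ∧ ‖qq τ i j‖⁻¹ ≤ B) (z : Fin g → ℂ)
    (h1 : ∀ k, ‖Wv τ k z‖ * (‖Wv τ k z‖ * ‖Wm τ k z‖) ≤ ε) (h2 : ∀ k, ‖Wm τ k z‖ ≤ ε)
    (h3 : ∀ k, ‖Wv τ k z‖ * ‖Wm τ k z‖ ≤ ε) (m : Fin g → ℤ) :
    ‖cexp (Real.pi * I * (∑ i, ∑ j, (m i : ℂ) * τ i j * (m j : ℂ))
      - 2 * Real.pi * I * ∑ i, (m i : ℂ) * z i)‖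
    ≤ (∏ k, (1 + ‖Wv τ k z‖)) * ∏ k, (B ^ (g * (4 * tri (m k) + 1)) * ε ^ (tri (m k))) := by
  have _ := hτ
  have _ := hε1
  obtain ⟨y, hy⟩ : ∃ y : Fin g → Fin g → ℝ, y = fun i j => (τ i j).im := ⟨_, rfl⟩
  obtain ⟨v, hv⟩ : ∃ v : Fin g → ℝ, v = fun i => (z i).im := ⟨_, rfl⟩
  obtain ⟨α, hα⟩ : ∃ α : Fin g → ℝ, α = fun k => -(Real.pi * y k k) + 2 * (Real.pi * v k) :=
    ⟨_, rfl⟩
  obtain ⟨β, hβ⟩ : ∃ β : Fin g → ℝ, β = fun k => -(Real.pi * y k k) - 2 * (Real.pi * v k) :=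
    ⟨_, rfl⟩
  have hB0 : 0 < B := by linarith
  have hlB : 0 ≤ Real.log B := Real.log_nonneg hB
  have hW : ∀ k, Real.exp (α k) = ‖Wv τ k z‖ := by
    intro k
    unfold Wv
    rw [Complex.norm_exp]
    congr 1
    have e : Real.pi * I * τ k k - 2 * Real.pi * I * z k =
        Real.pi * I * (τ k k - 2 * z k) := by ring
    rw [e, Trm_re, hα, hy, hv]
    simp only [Complex.sub_im, Complex.mul_im]
    norm_num
    ring
  have hM : ∀ k, Real.exp (β k) = ‖Wm τ k z‖ := by
    intro k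
    unfold Wm
    rw [Complex.norm_exp]
    congr 1
    have e : Real.pi * I * τ k k + 2 * Real.pi * I * z k =
        Real.pi * I * (τ k k + 2 * z k) := by ring
    rw [e, Trm_re, hβ, hy, hv]
    simp only [Complex.add_im, Complex.mul_im]
    norm_num
    ring
  have hQ : ∀ i j, ‖qq τ i j‖ = Real.exp (-(2 * Real.pi * y i j)) := by
    intro i j
    unfold qq
    rw [Complex.norm_exp]
    congr 1
    have e : 2 * Real.pi * I * τ i j = Real.pi * I * (2 * τ i j) := by ring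
    rw [e, Trm_re, hy]
    simp only [Complex.mul_im]
    norm_num
    ring
  have hyB : ∀ i j, i ≠ j → 2 * Real.pi * |y i j| ≤ Real.log B := by
    intro i j hij
    obtain ⟨a, b⟩ := hq i j hij
    rw [hQ] at a b
    rw [← Real.exp_neg] at b
    have a' := (Real.le_log_iff_exp_le hB0).2 a
    have b' := (Real.le_log_iff_exp_le hB0).2 b
    rcases abs_cases (y i j) with ⟨h, -⟩ | ⟨h, -⟩ <;> rw [h] <;> linarith
  -- the exponent
  have hE : (Real.pi * I * (∑ i, ∑ j, (m i : ℂ) * τ i j * (m j : ℂ))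
      - 2 * Real.pi * I * ∑ i, (m i : ℂ) * z i : ℂ).re =
      ∑ k, (m k * α k + tri (m k) * (α k + β k)) -
        Real.pi * ∑ i, ∑ j, (if i = j then 0 else (m i : ℝ) * y i j * m j) := by
    have e1 : (Real.pi * I * (∑ i, ∑ j, (m i : ℂ) * τ i j * (m j : ℂ))
      - 2 * Real.pi * I * ∑ i, (m i : ℂ) * z i : ℂ) =
      Real.pi * I * ((∑ i, ∑ j, (m i : ℂ) * τ i j * (m j : ℂ)) - 2 * ∑ i, (m i : ℂ) * z i) := by
      ring
    have e2 : (∑ i, ∑ j, (m i : ℂ) * τ i j * (m j : ℂ)).im =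
        ∑ i, ∑ j, (m i : ℝ) * y i j * m j := by
      rw [Complex.im_sum]
      refine Finset.sum_congr rfl fun i _ => ?_
      rw [Complex.im_sum]
      refine Finset.sum_congr rfl fun j _ => ?_
      rw [hy]
      simp [Complex.mul_im]
    have e3 : (∑ i, (m i : ℂ) * z i).im = ∑ i, (m i : ℝ) * v i := by
      rw [Complex.im_sum]
      refine Finset.sum_congr rfl fun i _ => ?_
      rw [hv]
      simp [Complex.mul_im]
    have e4 : (2 * ∑ i, (m i : ℂ) * z i).im = 2 * ∑ i, (m i : ℝ) * v i := by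
      rw [← e3]
      simp only [Complex.mul_im]
      norm_num
    have e5 : ∑ i, ∑ j, (m i : ℝ) * y i j * m j = ∑ i, (m i : ℝ) * y i i * m i +
        ∑ i, ∑ j, (if i = j then 0 else (m i : ℝ) * y i j * m j) := by
      rw [← Finset.sum_add_distrib]
      refine Finset.sum_congr rfl fun i _ => ?_
      have e6 : (m i : ℝ) * y i i * m i = ∑ j, if i = j then (m i : ℝ) * y i j * m j else 0 := by
        rw [Finset.sum_ite_eq]
        simp
      rw [e6, ← Finset.sum_add_distrib]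
      refine Finset.sum_congr rfl fun j _ => ?_
      split_ifs <;> simp
    rw [e1, Trm_re, Complex.sub_im, e2, e4, e5]
    have e7 : ∑ k, (m k * α k + tri (m k) * (α k + β k)) =
        ∑ k, (2 * Real.pi * (m k * v k) - Real.pi * (m k * y k k * m k)) := by
      refine Finset.sum_congr rfl fun k _ => ?_
      have hT := Trm_tri_real (m k)
      rw [hα, hβ]
      have e8 : (m k : ℝ) * (-(Real.pi * y k k) + 2 * (Real.pi * v k)) + tri (m k) *
          ((-(Real.pi * y k k) + 2 * (Real.pi * v k)) +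
            (-(Real.pi * y k k) - 2 * (Real.pi * v k))) =
          (m k : ℝ) * (-(Real.pi * y k k) + 2 * (Real.pi * v k)) -
            (2 * (tri (m k) : ℝ)) * (Real.pi * y k k) := by ring
      simp only
      rw [e8, hT]
      ring
    rw [e7, Finset.sum_sub_distrib, ← Finset.mul_sum, ← Finset.mul_sum]
    ring
  -- the off-diagonal part
  have hoff : -(Real.pi * ∑ i, ∑ j, (if i = j then 0 else (m i : ℝ) * y i j * m j)) ≤
      ∑ k, ((g * (4 * tri (m k) + 1) : ℕ) : ℝ) * Real.log B := by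
    have e1 : ∀ i j, -(Real.pi * (if i = j then 0 else (m i : ℝ) * y i j * m j)) ≤
        Real.log B / 4 * ((m i : ℝ) ^ 2 + (m j : ℝ) ^ 2) := by
      intro i j
      by_cases hij : i = j
      · rw [if_pos hij, mul_zero, neg_zero]
        positivity
      · rw [if_neg hij]
        have a1 := hyB i j hij
        have a2 : -(Real.pi * ((m i : ℝ) * y i j * m j)) ≤
            |(m i : ℝ) * m j| * (Real.pi * |y i j|) := by
          have a3 := neg_abs_le (Real.pi * ((m i : ℝ) * y i j * m j))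
          have a4 : |Real.pi * ((m i : ℝ) * y i j * m j)| =
              |(m i : ℝ) * m j| * (Real.pi * |y i j|) := by
            rw [abs_mul, abs_mul, abs_mul, abs_mul, abs_of_pos Real.pi_pos]
            ring
          rw [a4] at a3
          linarith
        have a5 : |(m i : ℝ) * m j| ≤ ((m i : ℝ) ^ 2 + (m j : ℝ) ^ 2) / 2 := by
          rw [abs_le]
          constructor <;> nlinarith [sq_nonneg ((m i : ℝ) - m j), sq_nonneg ((m i : ℝ) + m j)]
        have a6 : Real.pi * |y i j| ≤ Real.log B / 2 := by linarith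
        have a7 : 0 ≤ Real.pi * |y i j| := mul_nonneg Real.pi_pos.le (abs_nonneg _)
        have a8 := mul_le_mul a5 a6 a7 (by positivity)
        linarith
    have e2 : -(Real.pi * ∑ i, ∑ j, (if i = j then 0 else (m i : ℝ) * y i j * m j)) =
        ∑ i, ∑ j, -(Real.pi * (if i = j then 0 else (m i : ℝ) * y i j * m j)) := by
      simp only [Finset.mul_sum, Finset.sum_neg_distrib]
    have e3 : ∑ i : Fin g, ∑ j : Fin g, Real.log B / 4 * ((m i : ℝ) ^ 2 + (m j : ℝ) ^ 2) =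
        ∑ k, (g : ℝ) * (m k : ℝ) ^ 2 * (Real.log B / 2) := by
      have f1 : ∀ i : Fin g, ∑ j : Fin g, Real.log B / 4 * ((m i : ℝ) ^ 2 + (m j : ℝ) ^ 2) =
          (g : ℝ) * (Real.log B / 4 * (m i : ℝ) ^ 2) +
            Real.log B / 4 * ∑ j, (m j : ℝ) ^ 2 := by
        intro i
        rw [← Finset.mul_sum, Finset.sum_add_distrib, Finset.sum_const, Finset.card_univ,
          Fintype.card_fin, nsmul_eq_mul]
        ring
      rw [Finset.sum_congr rfl fun i _ => f1 i, Finset.sum_add_distrib, Finset.sum_const,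
        Finset.card_univ, Fintype.card_fin, nsmul_eq_mul, ← Finset.mul_sum, ← Finset.mul_sum,
        ← Finset.sum_mul, ← Finset.mul_sum]
      ring
    rw [e2]
    refine (Finset.sum_le_sum fun i _ => Finset.sum_le_sum fun j _ => e1 i j).trans ?_
    rw [e3]
    refine Finset.sum_le_sum fun k _ => ?_
    have hT := Trm_tri_real (m k)
    have f1 : (m k : ℝ) ^ 2 ≤ 4 * tri (m k) + 1 := by nlinarith [sq_nonneg ((m k : ℝ) - 1)]
    have f2 : (g : ℝ) * (m k : ℝ) ^ 2 ≤ g * (4 * tri (m k) + 1) :=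
      mul_le_mul_of_nonneg_left f1 (Nat.cast_nonneg g)
    have f3 : (0 : ℝ) ≤ g * (4 * tri (m k) + 1) := by positivity
    push_cast
    nlinarith
  rw [Complex.norm_exp, hE, ← Finset.prod_mul_distrib]
  have hfin : ∑ k, (m k * α k + tri (m k) * (α k + β k)) -
        Real.pi * ∑ i, ∑ j, (if i = j then 0 else (m i : ℝ) * y i j * m j) ≤
      ∑ k, ((m k * α k + tri (m k) * (α k + β k)) +
        ((g * (4 * tri (m k) + 1) : ℕ) : ℝ) * Real.log B) := by
    have e : ∑ k, ((m k * α k + tri (m k) * (α k + β k)) +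
        ((g * (4 * tri (m k) + 1) : ℕ) : ℝ) * Real.log B) =
        ∑ k, (m k * α k + tri (m k) * (α k + β k)) +
        ∑ k, ((g * (4 * tri (m k) + 1) : ℕ) : ℝ) * Real.log B := Finset.sum_add_distrib
    rw [e]
    linarith
  refine (Real.exp_le_exp.2 hfin).trans ?_
  rw [Real.exp_sum]
  refine Finset.prod_le_prod (fun k _ => (Real.exp_pos _).le) fun k _ => ?_
  rw [Real.exp_add, Real.exp_nat_mul (Real.log B), Real.exp_log hB0]
  have hk1 : 2 * α k + β k ≤ Real.log ε := by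
    rw [Real.le_log_iff_exp_le hε]
    have e : 2 * α k + β k = α k + (α k + β k) := by ring
    rw [e, Real.exp_add, Real.exp_add, hW, hM]
    exact h1 k
  have hk2 : β k ≤ Real.log ε := by
    rw [Real.le_log_iff_exp_le hε, hM]
    exact h2 k
  have hk3 : α k + β k ≤ Real.log ε := by
    rw [Real.le_log_iff_exp_le hε, Real.exp_add, hW, hM]
    exact h3 k
  have h4 := Trm_fac rfl hε (hW k) hk1 hk2 hk3 (m k)
  calc Real.exp (m k * α k + tri (m k) * (α k + β k)) * B ^ (g * (4 * tri (m k) + 1))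
      ≤ ((1 + ‖Wv τ k z‖) * ε ^ tri (m k)) * B ^ (g * (4 * tri (m k) + 1)) :=
        mul_le_mul_of_nonneg_right h4 (pow_nonneg hB0.le _)
    _ = _ := by ring

/-- the terms with all `m_k ∈ {0, 1}` are the terms of the limit polynomial -/
theorem term_zero_one {g : ℕ} {τ : Matrix (Fin g) (Fin g) ℂ} (hτ : AM.Siegel τ)
    (z : Fin g → ℂ) (S : Finset (Fin g)) :
    cexp (Real.pi * I * (∑ i, ∑ j, ((if i ∈ S then (1 : ℤ) else 0 : ℤ) : ℂ) * τ i j *
        ((if j ∈ S then (1 : ℤ) else 0 : ℤ) : ℂ))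
      - 2 * Real.pi * I * ∑ i, ((if i ∈ S then (1 : ℤ) else 0 : ℤ) : ℂ) * z i)
    = qS (qq τ) S * ∏ k ∈ S, Wv τ k z := by
  have hsym : ∀ i j, τ i j = τ j i := fun i j => hτ.1.apply j i
  have e1 : (∑ i, ∑ j, ((if i ∈ S then (1 : ℤ) else 0 : ℤ) : ℂ) * τ i j *
        ((if j ∈ S then (1 : ℤ) else 0 : ℤ) : ℂ)) = ∑ i ∈ S, ∑ j ∈ S, τ i j := by
    rw [← Finset.sum_filter_add_sum_filter_not Finset.univ (fun i => i ∈ S)]
    have h0 : ∑ i ∈ Finset.univ.filter (fun i => ¬ i ∈ S),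
        ∑ j, ((if i ∈ S then (1 : ℤ) else 0 : ℤ) : ℂ) * τ i j *
        ((if j ∈ S then (1 : ℤ) else 0 : ℤ) : ℂ) = 0 := by
      refine Finset.sum_eq_zero fun i hi => Finset.sum_eq_zero fun j _ => ?_
      rw [if_neg (Finset.mem_filter.1 hi).2]
      simp
    rw [h0, add_zero, Finset.filter_mem_eq_inter, Finset.univ_inter]
    refine Finset.sum_congr rfl fun i hi => ?_
    rw [← Finset.sum_filter_add_sum_filter_not Finset.univ (fun j => j ∈ S)]
    have h1 : ∑ j ∈ Finset.univ.filter (fun j => ¬ j ∈ S),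
        ((if i ∈ S then (1 : ℤ) else 0 : ℤ) : ℂ) * τ i j *
        ((if j ∈ S then (1 : ℤ) else 0 : ℤ) : ℂ) = 0 := by
      refine Finset.sum_eq_zero fun j hj => ?_
      rw [if_neg (Finset.mem_filter.1 hj).2]
      simp
    rw [h1, add_zero, Finset.filter_mem_eq_inter, Finset.univ_inter]
    refine Finset.sum_congr rfl fun j hj => ?_
    rw [if_pos hi, if_pos hj]
    simp
  have e2 : (∑ i, ((if i ∈ S then (1 : ℤ) else 0 : ℤ) : ℂ) * z i) = ∑ i ∈ S, z i := by
    rw [← Finset.sum_filter_add_sum_filter_not Finset.univ (fun i => i ∈ S)]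
    have h0 : ∑ i ∈ Finset.univ.filter (fun i => ¬ i ∈ S),
        ((if i ∈ S then (1 : ℤ) else 0 : ℤ) : ℂ) * z i = 0 := by
      refine Finset.sum_eq_zero fun i hi => ?_
      rw [if_neg (Finset.mem_filter.1 hi).2]
      simp
    rw [h0, add_zero, Finset.filter_mem_eq_inter, Finset.univ_inter]
    refine Finset.sum_congr rfl fun i hi => ?_
    rw [if_pos hi]
    simp
  have e3 : ∑ i ∈ S, ∑ j ∈ S, τ i j = 2 * (∑ i ∈ S, ∑ j ∈ S, if i < j then τ i j else 0) +
      ∑ k ∈ S, τ k k := by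
    have f1 : ∑ i ∈ S, ∑ j ∈ S, τ i j = (∑ i ∈ S, ∑ j ∈ S, if i < j then τ i j else 0) +
        (∑ i ∈ S, ∑ j ∈ S, if j < i then τ i j else 0) +
        ∑ i ∈ S, ∑ j ∈ S, if i = j then τ i j else 0 := by
      rw [← Finset.sum_add_distrib, ← Finset.sum_add_distrib]
      refine Finset.sum_congr rfl fun i _ => ?_
      rw [← Finset.sum_add_distrib, ← Finset.sum_add_distrib]
      refine Finset.sum_congr rfl fun j _ => ?_
      rcases lt_trichotomy i j with h | h | h
      · rw [if_pos h, if_neg h.not_gt, if_neg h.ne]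
        ring
      · rw [if_neg h.not_lt, if_neg h.not_gt, if_pos h]
        ring
      · rw [if_neg h.not_gt, if_pos h, if_neg h.ne']
        ring
    have f2 : (∑ i ∈ S, ∑ j ∈ S, if j < i then τ i j else 0) =
        ∑ i ∈ S, ∑ j ∈ S, if i < j then τ i j else 0 := by
      rw [Finset.sum_comm]
      refine Finset.sum_congr rfl fun i _ => Finset.sum_congr rfl fun j _ => ?_
      rw [hsym j i]
    have f3 : (∑ i ∈ S, ∑ j ∈ S, if i = j then τ i j else 0) = ∑ k ∈ S, τ k k := by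
      refine Finset.sum_congr rfl fun i hi => ?_
      rw [Finset.sum_ite_eq, if_pos hi]
    rw [f1, f2, f3]
    ring
  have e4 : qS (qq τ) S = cexp (∑ i ∈ S, ∑ j ∈ S,
      if i < j then 2 * Real.pi * I * τ i j else 0) := by
    unfold qS
    rw [Complex.exp_sum]
    refine Finset.prod_congr rfl fun i _ => ?_
    rw [Complex.exp_sum]
    refine Finset.prod_congr rfl fun j _ => ?_
    split_ifs
    · rfl
    · rw [Complex.exp_zero]
  have e5 : ∏ k ∈ S, Wv τ k z = cexp (∑ k ∈ S, (Real.pi * I * τ k k - 2 * Real.pi * I * z k)) := by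
    rw [Complex.exp_sum]
    rfl
  have e6 : (∑ i ∈ S, ∑ j ∈ S, if i < j then 2 * Real.pi * I * τ i j else 0) =
      2 * Real.pi * I * ∑ i ∈ S, ∑ j ∈ S, if i < j then τ i j else 0 := by
    rw [Finset.mul_sum]
    refine Finset.sum_congr rfl fun i _ => ?_
    rw [Finset.mul_sum]
    refine Finset.sum_congr rfl fun j _ => ?_
    rw [mul_ite, mul_zero]
  rw [e1, e2, e3, e4, e5, ← Complex.exp_add, e6, Finset.sum_sub_distrib, ← Finset.mul_sum,
    ← Finset.mul_sum]
  congr 1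
  ring

end AMC
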