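import Pool.Agent.Lib.MP_b57e3c_ag_M.Sum
import Pool.Agent.Lib.MP_b57e3c_ag_M.Trm

/-!
# Module Dom : the theta series is dominated by the terms with `m ∈ {0,1}^g`

`th τ L z` is the sum over `m ∈ {0,1}^g` (which is exactly `Dq (qq τ) L.toFinset (W)`, by
`term_zero_one`: the weight `∏_{i ∈ L} m_i` of `m = 1_S` is `1` if `L.toFinset ⊆ S`, else `0`) plus the sum over
the other `m` (the series is summable by `summable_majorant`). By `norm_term_le` and
`|weight| ≤ ∏_k (1 + |m_k|)²` (`length L ≤ 2`), the second sum is at most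
`N * ∑_{m ∉ {0,1}^g} ∏_k a(m_k)`, `N = ∏ (1 + ‖W_k‖)`,
`a(n) = (1 + |n|)² B^g (B^{4g} ε)^{tri n}`. With `E(ε) = ∑_{n ∉ {0,1}} a(n)` and `A = ∑_n a(n) ≤ A₀`
(for `ε ≤ ε₀`, `B^{4g} ε₀ ≤ 1/2`) the sum over `m ∉ {0,1}^g` is at most `g A₀^{g-1} E(ε)` (some `k` has
`m_k ∉ {0,1}`). For `n ∉ {0,1}`, `tri n ≥ 1` and `tri n ≥ |n|/2`..., so
`a(n) ≤ (B^{4g} ε)^{1/2}·(1+|n|)² B^g (1/2)^{(tri n)/2}`, or simply `a(n) ≤ (ε / ε₀) a_{ε₀}(n)`
since `tri n ≥ 1`: `E(ε) ≤ (ε/ε₀) E(ε₀)`. So `κ` is reached for small `ε`.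
-/

open Complex Filter Topology

namespace AMC

private theorem Dom_tri_pos {n : ℤ} (h0 : n ≠ 0) (h1 : n ≠ 1) : 1 ≤ tri n := by
  have h := tri_spec n
  have h2 : 0 < n * (n - 1) := by
    rcases lt_or_gt_of_ne h0 with h3 | h3
    · exact mul_pos_of_neg_of_neg h3 (by omega)
    · exact mul_pos h3 (by omega)
  omega

private theorem Dom_tri_low (n : ℤ) : n.natAbs ≤ tri n + 1 := by
  have h := tri_spec n
  rcases le_or_gt 1 n with h1 | h1
  · have h2 : 0 ≤ (n - 1) * (n - 2) := by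
      rcases eq_or_lt_of_le h1 with h3 | h3
      · rw [← h3]
        norm_num
      · exact mul_nonneg (by omega) (by omega)
    have h3 : 2 * n ≤ n * (n - 1) + 2 := by linarith
    omega
  · have h2 : 0 ≤ n * (n + 1) := by
      rcases eq_or_lt_of_le (show n ≤ 0 by omega) with h3 | h3
      · rw [h3]
        norm_num
      · exact mul_nonneg_of_nonpos_of_nonpos (by omega) (by omega)
    have h3 : -(2 * n) ≤ n * (n - 1) := by linarith
    omega

private noncomputable def Dom_a (g : ℕ) (B ε : ℝ) (n : ℤ) : ℝ :=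
  (1 + |(n : ℝ)|) ^ 2 * (B ^ (g * (4 * tri n + 1)) * ε ^ tri n)

private theorem Dom_half : Summable fun n : ℤ => (1 + |(n : ℝ)|) ^ 2 * (1 / 2 : ℝ) ^ n.natAbs := by
  have h1 : Summable fun n : ℕ => (1 + (n : ℝ)) ^ 2 * (1 / 2 : ℝ) ^ n := by
    have hr : ‖(1 / 2 : ℝ)‖ < 1 := by norm_num
    have h0 := summable_pow_mul_geometric_of_norm_lt_one 0 hr
    have h1 := summable_pow_mul_geometric_of_norm_lt_one 1 hr
    have h2 := summable_pow_mul_geometric_of_norm_lt_one 2 hr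
    refine ((h0.add (h1.mul_left 2)).add h2).congr fun n => ?_
    ring
  refine Summable.of_nat_of_neg ?_ ?_
  · refine h1.congr fun n => ?_
    simp
  · refine h1.congr fun n => ?_
    simp

private theorem Dom_summable (g : ℕ) {B : ℝ} (hB : 1 ≤ B) :
    Summable (Dom_a g B (1 / (2 * B ^ (4 * g)))) := by
  have hB0 : 0 < B := lt_of_lt_of_le one_pos hB
  refine Summable.of_nonneg_of_le (fun n => ?_) (fun n => ?_) (Dom_half.mul_left (B ^ g * 2))
  · unfold Dom_a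
    positivity
  · have e1 : B ^ (g * (4 * tri n + 1)) * (1 / (2 * B ^ (4 * g))) ^ tri n =
        B ^ g * (1 / 2 : ℝ) ^ tri n := by
      have e2 : (1 / (2 * B ^ (4 * g))) = (1 / 2) * (B ^ (4 * g))⁻¹ := by
        rw [one_div, mul_inv, one_div]
      have e3 : B ^ (g * (4 * tri n + 1)) = B ^ g * (B ^ (4 * g)) ^ tri n := by
        rw [← pow_mul, ← pow_add]
        congr 1
        ring
      rw [e2, e3, mul_pow, inv_pow]
      have e4 : ((B ^ (4 * g)) ^ tri n) ≠ 0 := by positivity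
      field_simp
    have e5 : (1 / 2 : ℝ) ^ tri n ≤ 2 * (1 / 2 : ℝ) ^ n.natAbs := by
      have h1 : (1 / 2 : ℝ) ^ (tri n + 1) ≤ (1 / 2 : ℝ) ^ n.natAbs :=
        pow_le_pow_of_le_one (by norm_num) (by norm_num) (Dom_tri_low n)
      rw [pow_succ] at h1
      linarith
    unfold Dom_a
    rw [e1]
    have h2 : (0 : ℝ) ≤ (1 + |(n : ℝ)|) ^ 2 * B ^ g := by positivity
    calc (1 + |(n : ℝ)|) ^ 2 * (B ^ g * (1 / 2 : ℝ) ^ tri n)
        = (1 + |(n : ℝ)|) ^ 2 * B ^ g * (1 / 2 : ℝ) ^ tri n := by ring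
      _ ≤ (1 + |(n : ℝ)|) ^ 2 * B ^ g * (2 * (1 / 2 : ℝ) ^ n.natAbs) :=
          mul_le_mul_of_nonneg_left e5 h2
      _ = B ^ g * 2 * ((1 + |(n : ℝ)|) ^ 2 * (1 / 2 : ℝ) ^ n.natAbs) := by ring

private theorem Dom_weight {g : ℕ} (L : List (Fin g)) (hL : L.length ≤ 2) (m : Fin g → ℤ) :
    ‖(L.map (fun i => (m i : ℂ))).prod‖ ≤ ∏ i, (1 + |(m i : ℝ)|) ^ 2 := by
  have hone : (1 : ℝ) ≤ ∏ j, (1 + |(m j : ℝ)|) := by
    calc (1 : ℝ) = ∏ _j : Fin g, (1 : ℝ) := Finset.prod_const_one.symm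
      _ ≤ _ := by
        refine Finset.prod_le_prod (fun j _ => zero_le_one) fun j _ => ?_
        have := abs_nonneg (m j : ℝ)
        linarith
  have hP : ∀ i, |(m i : ℝ)| ≤ ∏ j, (1 + |(m j : ℝ)|) := by
    intro i
    have h2 : (1 : ℝ) ≤ ∏ j ∈ Finset.univ.erase i, (1 + |(m j : ℝ)|) := by
      calc (1 : ℝ) = ∏ _j ∈ Finset.univ.erase i, (1 : ℝ) := Finset.prod_const_one.symm
        _ ≤ _ := by
          refine Finset.prod_le_prod (fun j _ => zero_le_one) fun j _ => ?_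
          have := abs_nonneg (m j : ℝ)
          linarith
    rw [← Finset.mul_prod_erase Finset.univ _ (Finset.mem_univ i)]
    have h3 : (1 + |(m i : ℝ)|) * 1 ≤
        (1 + |(m i : ℝ)|) * ∏ j ∈ Finset.univ.erase i, (1 + |(m j : ℝ)|) :=
      mul_le_mul_of_nonneg_left h2 (by positivity)
    linarith
  rw [Finset.prod_pow]
  have h4 : ‖(L.map (fun i => (m i : ℂ))).prod‖ ≤ (∏ j, (1 + |(m j : ℝ)|)) ^ L.length := by
    clear hL
    induction L with
    | nil => simp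
    | cons i L ih =>
      rw [List.map_cons, List.prod_cons, norm_mul, List.length_cons, pow_succ, mul_comm]
      refine mul_le_mul ih ?_ (norm_nonneg _) (by positivity)
      rw [Complex.norm_intCast]
      exact hP i
  exact h4.trans (pow_le_pow_right₀ hone hL)

private theorem Dom_ind {g : ℕ} (L : List (Fin g)) (S : Finset (Fin g)) :
    (L.map (fun i => ((if i ∈ S then (1 : ℤ) else 0 : ℤ) : ℂ))).prod =
      if L.toFinset ⊆ S then 1 else 0 := by
  split_ifs with h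
  · refine List.prod_eq_one fun x hx => ?_
    obtain ⟨i, hi, rfl⟩ := List.mem_map.1 hx
    have h1 : i ∈ S := h (List.mem_toFinset.2 hi)
    simp [h1]
  · obtain ⟨i, hi, h1⟩ := Finset.not_subset.1 h
    refine List.prod_eq_zero (List.mem_map.2 ⟨i, List.mem_toFinset.1 hi, ?_⟩)
    simp [h1]

private theorem Dom_prod {g : ℕ} {B ε₀ ε : ℝ} (hB : 1 ≤ B) (hε : 0 < ε) (h : ε ≤ ε₀)
    (m : Fin g → ℤ) (hm : ∃ k, m k ≠ 0 ∧ m k ≠ 1) :
    ∏ k, Dom_a g B ε (m k) ≤ (ε / ε₀) * ∏ k, Dom_a g B ε₀ (m k) := by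
  have hB0 : 0 < B := lt_of_lt_of_le one_pos hB
  have hε₀ : 0 < ε₀ := lt_of_lt_of_le hε h
  obtain ⟨k, hk0, hk1⟩ := hm
  have hmono : ∀ n, Dom_a g B ε n ≤ Dom_a g B ε₀ n := by
    intro n
    unfold Dom_a
    have := pow_le_pow_left₀ hε.le h (tri n)
    gcongr
  have hnn : ∀ n, 0 ≤ Dom_a g B ε n := fun n => by unfold Dom_a; positivity
  have hnn₀ : ∀ n, 0 ≤ Dom_a g B ε₀ n := fun n => by unfold Dom_a; positivity
  have hk : Dom_a g B ε (m k) ≤ (ε / ε₀) * Dom_a g B ε₀ (m k) := by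
    obtain ⟨t, ht⟩ : ∃ t, tri (m k) = t + 1 :=
      ⟨tri (m k) - 1, by have := Dom_tri_pos hk0 hk1; omega⟩
    unfold Dom_a
    rw [ht]
    have h1 : ε ^ (t + 1) ≤ (ε / ε₀) * ε₀ ^ (t + 1) := by
      have h2 := pow_le_pow_left₀ hε.le h t
      calc ε ^ (t + 1) = ε * ε ^ t := by ring
        _ ≤ ε * ε₀ ^ t := mul_le_mul_of_nonneg_left h2 hε.le
        _ = (ε / ε₀) * ε₀ ^ (t + 1) := by
          rw [pow_succ]
          field_simp
    have h3 : (0 : ℝ) ≤ (1 + |(m k : ℝ)|) ^ 2 * B ^ (g * (4 * (t + 1) + 1)) := by positivity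
    calc (1 + |(m k : ℝ)|) ^ 2 * (B ^ (g * (4 * (t + 1) + 1)) * ε ^ (t + 1))
        = (1 + |(m k : ℝ)|) ^ 2 * B ^ (g * (4 * (t + 1) + 1)) * ε ^ (t + 1) := by ring
      _ ≤ (1 + |(m k : ℝ)|) ^ 2 * B ^ (g * (4 * (t + 1) + 1)) *
          ((ε / ε₀) * ε₀ ^ (t + 1)) := mul_le_mul_of_nonneg_left h1 h3
      _ = _ := by ring
  rw [← Finset.mul_prod_erase Finset.univ _ (Finset.mem_univ k),
    ← Finset.mul_prod_erase Finset.univ (fun k => Dom_a g B ε₀ (m k)) (Finset.mem_univ k),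
    ← mul_assoc]
  refine mul_le_mul hk ?_ (Finset.prod_nonneg fun i _ => hnn _) (by
    have := hnn₀ (m k)
    positivity)
  exact Finset.prod_le_prod (fun i _ => hnn _) fun i _ => hmono _

theorem dom (g : ℕ) {B κ : ℝ} (hB : 1 ≤ B) (hκ : 0 < κ) :
    ∃ ε > 0, ∀ τ : Matrix (Fin g) (Fin g) ℂ, AM.Siegel τ →
      (∀ i j, i ≠ j → ‖qq τ i j‖ ≤ B ∧ ‖qq τ i j‖⁻¹ ≤ B) → ∀ z : Fin g → ℂ,
      (∀ k, ‖Wv τ k z‖ * (‖Wv τ k z‖ * ‖Wm τ k z‖) ≤ ε) → (∀ k, ‖Wm τ k z‖ ≤ ε) →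
      (∀ k, ‖Wv τ k z‖ * ‖Wm τ k z‖ ≤ ε) → ∀ L : List (Fin g), L.length ≤ 2 →
      ‖th τ L z - Dq (qq τ) L.toFinset (fun k => Wv τ k z)‖ ≤ κ * ∏ k, (1 + ‖Wv τ k z‖) := by
  classical
  have hB0 : 0 < B := lt_of_lt_of_le one_pos hB
  set ε₀ : ℝ := 1 / (2 * B ^ (4 * g)) with hε₀
  have hε₀p : 0 < ε₀ := by positivity
  have hε₀1 : ε₀ ≤ 1 := by
    rw [hε₀, div_le_one (by positivity)]
    have := one_le_pow₀ hB (n := 4 * g)
    linarith
  have hsum : Summable fun m : Fin g → ℤ => ∏ k, Dom_a g B ε₀ (m k) := by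
    have h1 : Summable fun n : ℤ => ((Dom_a g B ε₀ n : ℝ) : ℂ) :=
      Complex.summable_ofReal.2 (Dom_summable g hB)
    have h2 := (AM.hasSum_tuple g (fun _ n => ((Dom_a g B ε₀ n : ℝ) : ℂ)) _
      (fun _ => h1.hasSum)).summable
    rw [← Complex.summable_ofReal]
    refine h2.congr fun m => ?_
    push_cast
    rfl
  have hann : ∀ n, 0 ≤ Dom_a g B ε₀ n := fun n => by unfold Dom_a; positivity
  set C : ℝ := ∑' m : Fin g → ℤ, ∏ k, Dom_a g B ε₀ (m k) with hC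
  have hC0 : 0 ≤ C := tsum_nonneg fun m => Finset.prod_nonneg fun k _ => hann _
  refine ⟨min ε₀ (κ * ε₀ / (C + 1)), lt_min hε₀p (by positivity), ?_⟩
  intro τ hτ hq z h1 h2 h3 L hL
  set ε : ℝ := min ε₀ (κ * ε₀ / (C + 1)) with hε
  have hεp : 0 < ε := lt_min hε₀p (by positivity)
  have hεle : ε ≤ ε₀ := min_le_left _ _
  have hεC : ε / ε₀ * C ≤ κ := by
    have h4 : ε ≤ κ * ε₀ / (C + 1) := min_le_right _ _
    rw [le_div_iff₀ (by positivity)] at h4
    rw [div_mul_eq_mul_div, div_le_iff₀ hε₀p]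
    nlinarith
  set N : ℝ := ∏ k, (1 + ‖Wv τ k z‖) with hN
  have hN0 : 0 ≤ N := Finset.prod_nonneg fun k _ => by positivity
  let T : (Fin g → ℤ) → ℂ := fun m => (L.map (fun i => (m i : ℂ))).prod *
      cexp (Real.pi * I * (∑ i, ∑ j, (m i : ℂ) * τ i j * (m j : ℂ))
        - 2 * Real.pi * I * ∑ i, (m i : ℂ) * z i)
  have hT : Summable T := by
    obtain ⟨b, hb, hb2⟩ := summable_majorant hτ L (∑ i, |(z i).im|)
    refine Summable.of_norm_bounded hb fun m => hb2 m z fun i => ?_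
    exact Finset.single_le_sum (f := fun i => |(z i).im|) (fun j _ => abs_nonneg _)
      (Finset.mem_univ i)
  let χ : Finset (Fin g) → Fin g → ℤ := fun S i => if i ∈ S then (1 : ℤ) else 0
  have hχ : Function.Injective χ := by
    intro S S' h
    ext i
    have h4 := congrFun h i
    by_cases h5 : i ∈ S <;> by_cases h6 : i ∈ S' <;> simp [χ, h5, h6] at h4 ⊢
  set s : Finset (Fin g → ℤ) := Finset.univ.image χ with hs
  have hsm : ∀ m, m ∉ s → ∃ k, m k ≠ 0 ∧ m k ≠ 1 := by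
    intro m hm
    by_contra hcon
    push Not at hcon
    apply hm
    rw [hs, Finset.mem_image]
    refine ⟨Finset.univ.filter fun i => m i = 1, Finset.mem_univ _, ?_⟩
    funext i
    show (if i ∈ Finset.univ.filter (fun i => m i = 1) then (1 : ℤ) else 0) = m i
    have hmem : i ∈ (Finset.univ.filter fun i => m i = 1) ↔ m i = 1 := by simp
    by_cases h4 : m i = 1
    · rw [if_pos (hmem.2 h4), h4]
    · rw [if_neg (fun h => h4 (hmem.1 h))]
      by_contra h5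
      exact h4 (hcon i (Ne.symm h5))
  have hDq : Dq (qq τ) L.toFinset (fun k => Wv τ k z) = ∑ m ∈ s, T m := by
    rw [hs, Finset.sum_image fun S _ S' _ h => hχ h]
    unfold Dq
    refine Finset.sum_congr rfl fun S _ => ?_
    show _ = (L.map (fun i => ((if i ∈ S then (1 : ℤ) else 0 : ℤ) : ℂ))).prod *
      cexp (Real.pi * I * (∑ i, ∑ j, ((if i ∈ S then (1 : ℤ) else 0 : ℤ) : ℂ) * τ i j *
        ((if j ∈ S then (1 : ℤ) else 0 : ℤ) : ℂ))
      - 2 * Real.pi * I * ∑ i, ((if i ∈ S then (1 : ℤ) else 0 : ℤ) : ℂ) * z i)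
    rw [term_zero_one hτ z S, Dom_ind, ite_mul, one_mul, zero_mul]
  have hth : th τ L z = ∑' m, T m := rfl
  let T' : (Fin g → ℤ) → ℂ := fun m => if m ∈ s then 0 else T m
  let T'' : (Fin g → ℤ) → ℂ := fun m => if m ∈ s then T m else 0
  have hT'' : ∑' m, T'' m = ∑ m ∈ s, T m := by
    rw [tsum_eq_sum (s := s) fun m hm => if_neg hm]
    exact Finset.sum_congr rfl fun m hm => if_pos hm
  have hT''s : Summable T'' := summable_of_ne_finset_zero (s := s) fun m hm => if_neg hm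
  have hdec : ∀ m, T m = T'' m + T' m := by
    intro m
    show T m = (if m ∈ s then T m else 0) + (if m ∈ s then 0 else T m)
    split_ifs <;> simp
  have hT's : Summable T' := by
    refine (hT.sub hT''s).congr fun m => ?_
    rw [hdec m]
    ring
  have hdiff : th τ L z - Dq (qq τ) L.toFinset (fun k => Wv τ k z) = ∑' m, T' m := by
    rw [hth, hDq, ← hT'', tsum_congr hdec, Summable.tsum_add hT''s hT's]
    ring
  rw [hdiff]
  have hbd : ∀ m, ‖T' m‖ ≤ N * (ε / ε₀) * ∏ k, Dom_a g B ε₀ (m k) := by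
    intro m
    show ‖(if m ∈ s then 0 else T m)‖ ≤ _
    split_ifs with hm
    · rw [norm_zero]
      have : 0 ≤ ∏ k, Dom_a g B ε₀ (m k) := Finset.prod_nonneg fun k _ => hann _
      positivity
    · have h4 := norm_term_le hτ hB hεp (hεle.trans hε₀1) hq z h1 h2 h3 m
      have h5 := Dom_weight L hL m
      have h6 := Dom_prod hB hεp hεle m (hsm m hm)
      have h7 : ∏ k, Dom_a g B ε (m k) = (∏ i, (1 + |(m i : ℝ)|) ^ 2) *
          ∏ k, (B ^ (g * (4 * tri (m k) + 1)) * ε ^ (tri (m k))) := by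
        rw [← Finset.prod_mul_distrib]
        rfl
      calc ‖T m‖ = ‖(L.map (fun i => (m i : ℂ))).prod‖ *
            ‖cexp (Real.pi * I * (∑ i, ∑ j, (m i : ℂ) * τ i j * (m j : ℂ))
              - 2 * Real.pi * I * ∑ i, (m i : ℂ) * z i)‖ := norm_mul _ _
        _ ≤ (∏ i, (1 + |(m i : ℝ)|) ^ 2) *
            (N * ∏ k, (B ^ (g * (4 * tri (m k) + 1)) * ε ^ (tri (m k)))) :=
            mul_le_mul h5 h4 (norm_nonneg _) (Finset.prod_nonneg fun k _ => by positivity)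
        _ = N * ∏ k, Dom_a g B ε (m k) := by rw [h7]; ring
        _ ≤ N * (ε / ε₀ * ∏ k, Dom_a g B ε₀ (m k)) := mul_le_mul_of_nonneg_left h6 hN0
        _ = _ := by ring
  have hfin := tsum_of_norm_bounded (hsum.hasSum.mul_left (N * (ε / ε₀))) hbd
  refine hfin.trans ?_
  calc N * (ε / ε₀) * C = (ε / ε₀ * C) * N := by ring
    _ ≤ κ * N := mul_le_mul_of_nonneg_right hεC hN0

end AMC
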