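import Pool.Agent.Lib.MP_b57e3c_ag_M.Tcn

/-!
# Module Dtc : derivative of a theta constant with respect to an off-diagonal entry of `τ`

Let `c = cen τ ε δ ∈ singTheta τ` and `K = exp (π i εᵗ τ ε/4 + π i ε·δ/2) ≠ 0`. The theta constant of
`τ + t E`, `E = Esym j k`, `j ≠ k`, is `∑_m exp (π i (m+ε/2)ᵗ (τ + tE) (m+ε/2) + 2 π i (m+ε/2)·δ/2)`,
and `(m+ε/2)ᵗ E (m+ε/2) = 2 (m_j + ε_j/2)(m_k + ε_k/2)`. Termwise differentiation for `t` in a small disc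
(`|t| < ρ`, where `Im τ - 2 ρ` is still positive definite; majorant as in module Sum; e.g.
`hasDerivAt_tsum_of_isPreconnected`) gives at `t = 0`
`2 π i ∑_m (m_j + ε_j/2)(m_k + ε_k/2) K exp (π i mᵗ τ m + 2 π i m·c)`. Reindex `m ↦ -m`:
`= 2 π i K (th τ [j,k] c - (ε_k/2) th τ [j] c - (ε_j/2) th τ [k] c + (ε_j ε_k/4) th τ [] c)` and the last
three vanish (`mem_sing`).
-/

open Complex Filter Topology

namespace AMC

theorem Dtc_single {g : ℕ} (a : Fin g → ℂ) (j k : Fin g) :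
    ∑ i, ∑ l, a i * Matrix.single j k (1 : ℂ) i l * a l = a j * a k := by
  rw [Finset.sum_eq_single j, Finset.sum_eq_single k]
  · rw [Matrix.single_apply_same, mul_one]
  · intro l _ hl
    rw [Matrix.single_apply, if_neg (fun h => hl h.2.symm), mul_zero, zero_mul]
  · intro h
    exact absurd (Finset.mem_univ k) h
  · intro i _ hi
    refine Finset.sum_eq_zero fun l _ => ?_
    rw [Matrix.single_apply, if_neg (fun h => hi h.1.symm), mul_zero, zero_mul]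
  · intro h
    exact absurd (Finset.mem_univ j) h

theorem Dtc_quad {g : ℕ} (τ : Matrix (Fin g) (Fin g) ℂ) (a : Fin g → ℂ) (j k : Fin g) (t : ℂ) :
    ∑ i, ∑ l, a i * (τ + t • Esym j k) i l * a l =
      ∑ i, ∑ l, a i * τ i l * a l + 2 * t * (a j * a k) := by
  have e1 := Dtc_single a j k
  have e2 := Dtc_single a k j
  have e3 : ∑ i, ∑ l, a i * (τ + t • Esym j k) i l * a l = ∑ i, ∑ l, a i * τ i l * a l +
      t * (∑ i, ∑ l, a i * Matrix.single j k (1 : ℂ) i l * a l) +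
      t * ∑ i, ∑ l, a i * Matrix.single k j (1 : ℂ) i l * a l := by
    simp only [Finset.mul_sum, ← Finset.sum_add_distrib]
    refine Finset.sum_congr rfl fun i _ => Finset.sum_congr rfl fun l _ => ?_
    unfold Esym
    simp only [Matrix.add_apply, Matrix.smul_apply, smul_eq_mul]
    ring
  rw [e3, e1, e2]
  ring

theorem Dtc_term {g : ℕ} {τ : Matrix (Fin g) (Fin g) ℂ} (hτ : τ.IsSymm)
    (ε δ : Fin g → Fin 2) (m : Fin g → ℤ) :
    Real.pi * I * (∑ i, ∑ j, ((m i : ℂ) + ((ε i : ℕ) : ℂ) / 2) * τ i j *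
      ((m j : ℂ) + ((ε j : ℕ) : ℂ) / 2)) +
      2 * Real.pi * I * ∑ i, ((m i : ℂ) + ((ε i : ℕ) : ℂ) / 2) * (((δ i : ℕ) : ℂ) / 2) =
    (Real.pi * I * (∑ i, ∑ j, ((ε i : ℕ) : ℂ) * τ i j * ((ε j : ℕ) : ℂ)) / 4 +
      Real.pi * I * (∑ i, ((ε i : ℕ) : ℂ) * ((δ i : ℕ) : ℂ)) / 2) +
    (Real.pi * I * (∑ i, ∑ j, (m i : ℂ) * τ i j * (m j : ℂ)) +
      2 * Real.pi * I * ∑ i, (m i : ℂ) * cen τ ε δ i) := by
  have h1 : ∑ i, ∑ j, ((m i : ℂ) + ((ε i : ℕ) : ℂ) / 2) * τ i j *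
      ((m j : ℂ) + ((ε j : ℕ) : ℂ) / 2) = ∑ i, ∑ j, (m i : ℂ) * τ i j * (m j : ℂ) +
      (∑ i, ∑ j, (m i : ℂ) * τ i j * ((ε j : ℕ) : ℂ)) / 2 +
      (∑ i, ∑ j, ((ε i : ℕ) : ℂ) * τ i j * (m j : ℂ)) / 2 +
      (∑ i, ∑ j, ((ε i : ℕ) : ℂ) * τ i j * ((ε j : ℕ) : ℂ)) / 4 := by
    simp only [Finset.sum_div, ← Finset.sum_add_distrib]
    refine Finset.sum_congr rfl fun i _ => Finset.sum_congr rfl fun j _ => ?_
    ring
  have h2 : ∑ i, ∑ j, ((ε i : ℕ) : ℂ) * τ i j * (m j : ℂ) =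
      ∑ i, ∑ j, (m i : ℂ) * τ i j * ((ε j : ℕ) : ℂ) := by
    rw [Finset.sum_comm]
    refine Finset.sum_congr rfl fun i _ => Finset.sum_congr rfl fun j _ => ?_
    rw [hτ.apply i j]
    ring
  have h3 : ∑ i, ((m i : ℂ) + ((ε i : ℕ) : ℂ) / 2) * (((δ i : ℕ) : ℂ) / 2) =
      (∑ i, (m i : ℂ) * ((δ i : ℕ) : ℂ)) / 2 +
      (∑ i, ((ε i : ℕ) : ℂ) * ((δ i : ℕ) : ℂ)) / 4 := by
    simp only [Finset.sum_div, ← Finset.sum_add_distrib]
    refine Finset.sum_congr rfl fun i _ => ?_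
    ring
  have h4 : ∑ i, (m i : ℂ) * cen τ ε δ i =
      (∑ i, ∑ j, (m i : ℂ) * τ i j * ((ε j : ℕ) : ℂ)) / 2 +
      (∑ i, (m i : ℂ) * ((δ i : ℕ) : ℂ)) / 2 := by
    simp only [Finset.sum_div, ← Finset.sum_add_distrib]
    refine Finset.sum_congr rfl fun i _ => ?_
    unfold cen
    rw [← Finset.sum_div, mul_div_assoc', mul_add, Finset.mul_sum]
    rw [add_div]
    congr 2
    exact Finset.sum_congr rfl fun j _ => by ring
  rw [h1, h2, h3, h4]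
  ring

open scoped Matrix in
theorem Dtc_pos {g : ℕ} {Y : Matrix (Fin g) (Fin g) ℝ} (hY : Y.PosDef) :
    ∃ ρ > 0, ∀ x : Fin g → ℝ, x ≠ 0 → ρ * ∑ i, x i ^ 2 < star x ⬝ᵥ (Y *ᵥ x) := by
  have hcont : Continuous fun x : Fin g → ℝ => star x ⬝ᵥ (Y *ᵥ x) := by
    unfold dotProduct Matrix.mulVec dotProduct
    simp only [Pi.star_apply, star_trivial]
    fun_prop
  have hhom : ∀ (t : ℝ) (x : Fin g → ℝ), star (t • x) ⬝ᵥ (Y *ᵥ (t • x)) =
      t ^ 2 * (star x ⬝ᵥ (Y *ᵥ x)) := by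
    intro t x
    rw [Matrix.mulVec_smul, star_smul, smul_dotProduct, dotProduct_smul, star_trivial,
      smul_eq_mul, smul_eq_mul]
    ring
  have hcomp : IsCompact (Metric.sphere (0 : Fin g → ℝ) 1) := isCompact_sphere 0 1
  have hunit : ∀ x : Fin g → ℝ, x ≠ 0 → ‖x‖⁻¹ • x ∈ Metric.sphere (0 : Fin g → ℝ) 1 := by
    intro x hx
    have hn : 0 < ‖x‖ := norm_pos_iff.2 hx
    rw [mem_sphere_zero_iff_norm, norm_smul, norm_inv, norm_norm, inv_mul_cancel₀ hn.ne']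
  by_cases hne : (Metric.sphere (0 : Fin g → ℝ) 1).Nonempty
  · obtain ⟨v₀, hv₀, hmin⟩ := hcomp.exists_isMinOn hne hcont.continuousOn
    have hv1 : ‖v₀‖ = 1 := by simpa using hv₀
    have hv0 : v₀ ≠ 0 := by
      rintro rfl
      simp at hv1
    have hc := hY.dotProduct_mulVec_pos hv0
    refine ⟨(star v₀ ⬝ᵥ (Y *ᵥ v₀)) / (g + 1), by positivity, fun x hx => ?_⟩
    have hn : 0 < ‖x‖ := norm_pos_iff.2 hx
    have h2 := hmin (hunit x hx)
    rw [Set.mem_ofPred_eq] at h2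
    beta_reduce at h2
    rw [hhom] at h2
    have h3 : (star v₀ ⬝ᵥ (Y *ᵥ v₀)) * ‖x‖ ^ 2 ≤ star x ⬝ᵥ (Y *ᵥ x) := by
      have h4 := mul_le_mul_of_nonneg_right h2 (sq_nonneg ‖x‖)
      have h5 : ‖x‖⁻¹ ^ 2 * (star x ⬝ᵥ (Y *ᵥ x)) * ‖x‖ ^ 2 = star x ⬝ᵥ (Y *ᵥ x) := by
        field_simp
      rwa [h5] at h4
    have h4 : ∑ i, x i ^ 2 ≤ g * ‖x‖ ^ 2 := by
      have h1 : ∀ i ∈ Finset.univ, x i ^ 2 ≤ ‖x‖ ^ 2 := fun i _ => by
        have := norm_le_pi_norm x i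
        rw [Real.norm_eq_abs] at this
        rw [← sq_abs]
        exact pow_le_pow_left₀ (abs_nonneg _) this 2
      have h2 := Finset.sum_le_card_nsmul _ _ _ h1
      simpa using h2
    have h5 : (star v₀ ⬝ᵥ (Y *ᵥ v₀)) / (g + 1) * ∑ i, x i ^ 2 ≤
        (star v₀ ⬝ᵥ (Y *ᵥ v₀)) / (g + 1) * (g * ‖x‖ ^ 2) :=
      mul_le_mul_of_nonneg_left h4 (by positivity)
    have h6 : (star v₀ ⬝ᵥ (Y *ᵥ v₀)) / (g + 1) * (g * ‖x‖ ^ 2) <
        (star v₀ ⬝ᵥ (Y *ᵥ v₀)) * ‖x‖ ^ 2 := by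
      rw [div_mul_eq_mul_div, div_lt_iff₀ (by positivity)]
      nlinarith [mul_pos hc (pow_pos hn 2)]
    linarith
  · exact ⟨1, one_pos, fun x hx => absurd ⟨_, hunit x hx⟩ hne⟩

open scoped Matrix in
theorem Dtc_siegel {g : ℕ} {τ : Matrix (Fin g) (Fin g) ℂ} (hτ : AM.Siegel τ) :
    ∃ ρ : ℝ, 0 < ρ ∧
      AM.Siegel (τ - (((4 * ρ : ℝ) : ℂ) * I) • (1 : Matrix (Fin g) (Fin g) ℂ)) := by
  obtain ⟨ρ, hρ, hpos⟩ := Dtc_pos hτ.2
  refine ⟨ρ / 4, by positivity, ?_, ?_⟩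
  · exact hτ.1.sub (Matrix.isSymm_one.smul _)
  · have e : (τ - (((4 * (ρ / 4) : ℝ) : ℂ) * I) • (1 : Matrix (Fin g) (Fin g) ℂ)).map
        Complex.im = τ.map Complex.im - ρ • (1 : Matrix (Fin g) (Fin g) ℝ) := by
      ext i j
      rw [Matrix.map_apply, Matrix.sub_apply, Matrix.sub_apply, Matrix.smul_apply,
        Matrix.smul_apply, Matrix.map_apply, Complex.sub_im, smul_eq_mul, smul_eq_mul]
      by_cases hij : i = j
      · rw [hij, Matrix.one_apply_eq, Matrix.one_apply_eq, mul_one, mul_one,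
          Complex.mul_im, Complex.ofReal_re, Complex.ofReal_im, Complex.I_im, Complex.I_re]
        ring
      · rw [Matrix.one_apply_ne hij, Matrix.one_apply_ne hij, mul_zero, mul_zero,
          Complex.zero_im]
    rw [e]
    refine Matrix.PosDef.of_dotProduct_mulVec_pos ?_ fun x hx => ?_
    · refine hτ.2.1.sub ?_
      refine Matrix.IsHermitian.ext fun i j => ?_
      rw [star_trivial, Matrix.smul_apply, Matrix.smul_apply]
      by_cases hij : i = j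
      · rw [hij]
      · rw [Matrix.one_apply_ne hij, Matrix.one_apply_ne (Ne.symm hij)]
    · rw [Matrix.sub_mulVec, dotProduct_sub, Matrix.smul_mulVec, Matrix.one_mulVec,
        dotProduct_smul, sub_pos, smul_eq_mul]
      have h1 := hpos x hx
      have h2 : star x ⬝ᵥ x = ∑ i, x i ^ 2 := by
        unfold dotProduct
        refine Finset.sum_congr rfl fun i _ => ?_
        rw [Pi.star_apply, star_trivial, pow_two]
      rw [h2]
      exact h1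

theorem Dtc_summable {g : ℕ} {τ : Matrix (Fin g) (Fin g) ℂ} (hτ : AM.Siegel τ)
    (L : List (Fin g)) (z : Fin g → ℂ) :
    Summable fun m : Fin g → ℤ => (L.map (fun i => (m i : ℂ))).prod *
      cexp (Real.pi * I * (∑ i, ∑ j, (m i : ℂ) * τ i j * (m j : ℂ))
        - 2 * Real.pi * I * ∑ i, (m i : ℂ) * z i) := by
  obtain ⟨b, hb, hb'⟩ := summable_majorant hτ L (∑ i, |(z i).im|)
  exact Summable.of_norm_bounded hb fun m => hb' m z fun i =>
    Finset.single_le_sum (f := fun i => |(z i).im|) (fun _ _ => abs_nonneg _)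
      (Finset.mem_univ i)

/-- the real number `(m_j + ε_j/2) (m_k + ε_k/2)` -/
noncomputable def Dtc_r {g : ℕ} (ε : Fin g → Fin 2) (j k : Fin g) (m : Fin g → ℤ) : ℝ :=
  ((m j : ℝ) + ((ε j : ℕ) : ℝ) / 2) * ((m k : ℝ) + ((ε k : ℕ) : ℝ) / 2)

theorem Dtc_r_le {g : ℕ} (ε : Fin g → Fin 2) {j k : Fin g} (hjk : j ≠ k) (m : Fin g → ℤ) :
    |Dtc_r ε j k m| ≤ ∑ i, (m i : ℝ) ^ 2 + 1 / 2 := by
  have h1 : ∀ i : Fin g, ((m i : ℝ) + ((ε i : ℕ) : ℝ) / 2) ^ 2 ≤ 2 * (m i : ℝ) ^ 2 + 1 / 2 := by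
    intro i
    have h2 : ((ε i : ℕ) : ℝ) ≤ 1 := by
      have : (ε i : ℕ) ≤ 1 := by omega
      exact_mod_cast this
    have h3 : (0 : ℝ) ≤ ((ε i : ℕ) : ℝ) := Nat.cast_nonneg _
    nlinarith [sq_nonneg ((m i : ℝ) - ((ε i : ℕ) : ℝ) / 2)]
  have h2 : (m j : ℝ) ^ 2 + (m k : ℝ) ^ 2 ≤ ∑ i, (m i : ℝ) ^ 2 := by
    rw [← Finset.sum_pair (f := fun i => (m i : ℝ) ^ 2) hjk]
    exact Finset.sum_le_sum_of_subset_of_nonneg (Finset.subset_univ _)
      fun _ _ _ => sq_nonneg _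
  unfold Dtc_r
  rw [abs_le]
  constructor <;>
  nlinarith [h1 j, h1 k, h2, sq_nonneg ((m j : ℝ) + ((ε j : ℕ) : ℝ) / 2 +
    ((m k : ℝ) + ((ε k : ℕ) : ℝ) / 2)), sq_nonneg ((m j : ℝ) + ((ε j : ℕ) : ℝ) / 2 -
    ((m k : ℝ) + ((ε k : ℕ) : ℝ) / 2))]

/-- the terms of the theta series at the point of order two -/
noncomputable def Dtc_G {g : ℕ} (τ : Matrix (Fin g) (Fin g) ℂ) (z : Fin g → ℂ)
    (m : Fin g → ℤ) : ℂ :=
  cexp (Real.pi * I * (∑ i, ∑ j, (m i : ℂ) * τ i j * (m j : ℂ))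
    - 2 * Real.pi * I * ∑ i, (m i : ℂ) * z i)

theorem Dtc_G_neg {g : ℕ} (τ : Matrix (Fin g) (Fin g) ℂ) (z : Fin g → ℂ) (m : Fin g → ℤ) :
    Dtc_G τ (fun i => - z i) (-m) = Dtc_G τ z m := by
  unfold Dtc_G
  simp only [Pi.neg_apply, Int.cast_neg, neg_mul, mul_neg, neg_neg]

/-- the bound for the terms of the differentiated series -/
theorem Dtc_bound {g : ℕ} {τ : Matrix (Fin g) (Fin g) ℂ} {ρ : ℝ} (hρ : 0 < ρ)
    (ε : Fin g → Fin 2) {j k : Fin g} (hjk : j ≠ k) (z : Fin g → ℂ) (m : Fin g → ℤ) {t : ℂ}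
    (ht : ‖t‖ < ρ) :
    ‖Dtc_G τ z m * (cexp (t * (2 * Real.pi * I * (Dtc_r ε j k m : ℂ))) *
      (2 * Real.pi * I * (Dtc_r ε j k m : ℂ)))‖ ≤ Real.exp (2 * Real.pi * ρ) / ρ *
      ‖Dtc_G (τ - (((4 * ρ : ℝ) : ℂ) * I) • (1 : Matrix (Fin g) (Fin g) ℂ)) z m‖ := by
  have hr := Dtc_r_le ε hjk m
  obtain ⟨r, hr'⟩ : ∃ r, r = Dtc_r ε j k m := ⟨_, rfl⟩
  rw [← hr'] at hr ⊢
  have hpi := Real.pi_pos
  have e1 : ‖Dtc_G (τ - (((4 * ρ : ℝ) : ℂ) * I) • (1 : Matrix (Fin g) (Fin g) ℂ)) z m‖ =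
      ‖Dtc_G τ z m‖ * Real.exp (4 * Real.pi * ρ * ∑ i, (m i : ℝ) ^ 2) := by
    have e2 : Dtc_G (τ - (((4 * ρ : ℝ) : ℂ) * I) • (1 : Matrix (Fin g) (Fin g) ℂ)) z m =
        Dtc_G τ z m * cexp ((4 * Real.pi * ρ * ∑ i, (m i : ℝ) ^ 2 : ℝ) : ℂ) := by
      unfold Dtc_G
      rw [← Complex.exp_add]
      congr 1
      have e3 : ∑ i, ∑ j, (m i : ℂ) * (τ - (((4 * ρ : ℝ) : ℂ) * I) •
          (1 : Matrix (Fin g) (Fin g) ℂ)) i j * (m j : ℂ) =
          ∑ i, ∑ j, (m i : ℂ) * τ i j * (m j : ℂ) -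
          (((4 * ρ : ℝ) : ℂ) * I) * ∑ i, (m i : ℂ) ^ 2 := by
        rw [Finset.mul_sum, ← Finset.sum_sub_distrib]
        refine Finset.sum_congr rfl fun i _ => ?_
        have e4 : ∑ j, (m i : ℂ) * (τ - (((4 * ρ : ℝ) : ℂ) * I) •
            (1 : Matrix (Fin g) (Fin g) ℂ)) i j * (m j : ℂ) =
            ∑ j, (m i : ℂ) * τ i j * (m j : ℂ) - ∑ j, (((4 * ρ : ℝ) : ℂ) * I) * ((m i : ℂ) *
            (1 : Matrix (Fin g) (Fin g) ℂ) i j * (m j : ℂ)) := by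
          rw [← Finset.sum_sub_distrib]
          refine Finset.sum_congr rfl fun j _ => ?_
          rw [Matrix.sub_apply, Matrix.smul_apply, smul_eq_mul]
          ring
        rw [e4]
        congr 1
        rw [Finset.sum_eq_single i]
        · rw [Matrix.one_apply_eq]
          ring
        · intro j _ hj
          rw [Matrix.one_apply_ne (Ne.symm hj)]
          ring
        · intro h
          exact absurd (Finset.mem_univ i) h
      rw [e3]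
      push_cast
      linear_combination (-4 * (Real.pi : ℂ) * ρ * ∑ i, (m i : ℂ) ^ 2) * I_sq
    rw [e2, norm_mul, Complex.norm_exp_ofReal]
  have e5 : ‖cexp (t * (2 * Real.pi * I * (r : ℂ)))‖ ≤ Real.exp (2 * Real.pi * ρ * |r|) := by
    rw [Complex.norm_exp]
    apply Real.exp_le_exp.2
    have h1 : (t * (2 * Real.pi * I * (r : ℂ))).re = - (2 * Real.pi * (t.im * r)) := by
      simp only [Complex.mul_re, Complex.mul_im, Complex.re_ofNat, Complex.im_ofNat,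
        Complex.ofReal_re, Complex.ofReal_im, Complex.I_re, Complex.I_im]
      ring
    rw [h1]
    have h2 : |t.im * r| ≤ ρ * |r| := by
      rw [abs_mul]
      exact mul_le_mul_of_nonneg_right ((Complex.abs_im_le_norm t).trans ht.le) (abs_nonneg _)
    have h3 := (abs_le.1 h2).1
    nlinarith
  have e6 : ‖(2 * Real.pi * I * (r : ℂ))‖ ≤ Real.exp (2 * Real.pi * ρ * |r|) / ρ := by
    rw [norm_mul, norm_mul, norm_mul, Complex.norm_I, Complex.norm_real, Complex.norm_real,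
      Real.norm_eq_abs, Real.norm_eq_abs, abs_of_pos hpi, mul_one, Complex.norm_ofNat,
      le_div_iff₀ hρ]
    have := Real.add_one_le_exp (2 * Real.pi * ρ * |r|)
    linarith
  rw [e1, norm_mul, norm_mul]
  have e7 : ‖cexp (t * (2 * Real.pi * I * (r : ℂ)))‖ * ‖(2 * Real.pi * I * (r : ℂ))‖ ≤
      Real.exp (2 * Real.pi * ρ) / ρ * Real.exp (4 * Real.pi * ρ * ∑ i, (m i : ℝ) ^ 2) := by
    calc ‖cexp (t * (2 * Real.pi * I * (r : ℂ)))‖ * ‖(2 * Real.pi * I * (r : ℂ))‖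
        ≤ Real.exp (2 * Real.pi * ρ * |r|) * (Real.exp (2 * Real.pi * ρ * |r|) / ρ) :=
          mul_le_mul e5 e6 (norm_nonneg _) (Real.exp_pos _).le
      _ = Real.exp (4 * Real.pi * ρ * |r|) / ρ := by
          rw [mul_div_assoc', ← Real.exp_add]
          congr 2
          ring
      _ ≤ Real.exp (4 * Real.pi * ρ * (∑ i, (m i : ℝ) ^ 2 + 1 / 2)) / ρ := by
          gcongr
      _ = Real.exp (2 * Real.pi * ρ) / ρ *
          Real.exp (4 * Real.pi * ρ * ∑ i, (m i : ℝ) ^ 2) := by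
          rw [div_mul_eq_mul_div, ← Real.exp_add]
          congr 2
          ring
  calc ‖Dtc_G τ z m‖ * (‖cexp (t * (2 * Real.pi * I * (r : ℂ)))‖ *
        ‖(2 * Real.pi * I * (r : ℂ))‖)
      ≤ ‖Dtc_G τ z m‖ * (Real.exp (2 * Real.pi * ρ) / ρ *
        Real.exp (4 * Real.pi * ρ * ∑ i, (m i : ℝ) ^ 2)) :=
        mul_le_mul_of_nonneg_left e7 (norm_nonneg _)
    _ = _ := by ring

theorem deriv_thetaConst {g : ℕ} {τ : Matrix (Fin g) (Fin g) ℂ} (hτ : AM.Siegel τ)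
    (ε δ : Fin g → Fin 2) {j k : Fin g} (hjk : j ≠ k) (h : cen τ ε δ ∈ AM.singTheta τ) :
    HasDerivAt (fun t : ℂ => AM.thetaConst (τ + t • Esym j k) ε δ)
      (2 * Real.pi * I * cexp (Real.pi * I * (∑ i, ∑ j, ((ε i : ℕ) : ℂ) * τ i j *
      ((ε j : ℕ) : ℂ)) / 4 + Real.pi * I * (∑ i, ((ε i : ℕ) : ℂ) * ((δ i : ℕ) : ℂ)) / 2) *
      th τ [j, k] (cen τ ε δ)) 0 := by
  obtain ⟨c, hc⟩ : ∃ c, c = cen τ ε δ := ⟨_, rfl⟩
  obtain ⟨κ, hκ⟩ : ∃ κ, κ = cexp (Real.pi * I * (∑ i, ∑ j, ((ε i : ℕ) : ℂ) * τ i j *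
      ((ε j : ℕ) : ℂ)) / 4 + Real.pi * I * (∑ i, ((ε i : ℕ) : ℂ) * ((δ i : ℕ) : ℂ)) / 2) :=
    ⟨_, rfl⟩
  rw [← hc] at h
  rw [← hκ, ← hc]
  -- the series
  have hser : (fun t : ℂ => AM.thetaConst (τ + t • Esym j k) ε δ) = fun t : ℂ =>
      ∑' m : Fin g → ℤ, κ * (Dtc_G τ (fun i => - c i) m *
        cexp (t * (2 * Real.pi * I * (Dtc_r ε j k m : ℂ)))) := by
    funext t
    unfold AM.thetaConst
    refine tsum_congr fun m => ?_
    rw [Dtc_quad τ (fun i => (m i : ℂ) + ((ε i : ℕ) : ℂ) / 2) j k t, hκ]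
    unfold Dtc_G
    rw [← Complex.exp_add, ← Complex.exp_add]
    congr 1
    have h1 := Dtc_term hτ.1 ε δ m
    rw [← hc] at h1
    have h2 : (Dtc_r ε j k m : ℂ) = ((m j : ℂ) + ((ε j : ℕ) : ℂ) / 2) *
        ((m k : ℂ) + ((ε k : ℕ) : ℂ) / 2) := by
      unfold Dtc_r
      push_cast
      ring
    have h3 : ∑ i, (m i : ℂ) * (- c i) = - ∑ i, (m i : ℂ) * c i := by
      rw [← Finset.sum_neg_distrib]
      exact Finset.sum_congr rfl fun i _ => by ring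
    rw [h2, h3]
    linear_combination h1
  rw [hser]
  obtain ⟨ρ, hρ, hρ'⟩ := Dtc_siegel hτ
  have hsum : Summable fun m => ‖Dtc_G (τ - (((4 * ρ : ℝ) : ℂ) * I) •
      (1 : Matrix (Fin g) (Fin g) ℂ)) (fun i => - c i) m‖ := by
    have := (Dtc_summable hρ' [] (fun i => - c i)).norm
    simpa [Dtc_G] using this
  have hd := hasDerivAt_tsum_of_isPreconnected (𝕜 := ℂ)
    (g := fun (m : Fin g → ℤ) (t : ℂ) => κ * (Dtc_G τ (fun i => - c i) m *
        cexp (t * (2 * Real.pi * I * (Dtc_r ε j k m : ℂ)))))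
    (g' := fun (m : Fin g → ℤ) (t : ℂ) => κ * (Dtc_G τ (fun i => - c i) m *
        (cexp (t * (2 * Real.pi * I * (Dtc_r ε j k m : ℂ))) *
        (2 * Real.pi * I * (Dtc_r ε j k m : ℂ)))))
    (u := fun m => ‖κ‖ * (Real.exp (2 * Real.pi * ρ) / ρ *
      ‖Dtc_G (τ - (((4 * ρ : ℝ) : ℂ) * I) • (1 : Matrix (Fin g) (Fin g) ℂ))
        (fun i => - c i) m‖)) (t := Metric.ball (0 : ℂ) ρ) (y₀ := 0) (y := 0)
    ((hsum.mul_left _).mul_left _) Metric.isOpen_ball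
    (convex_ball (0 : ℂ) ρ).isPreconnected ?_ ?_ (Metric.mem_ball_self hρ) ?_
    (Metric.mem_ball_self hρ)
  · suffices hval : 2 * Real.pi * I * κ * th τ [j, k] c = ∑' m : Fin g → ℤ,
        κ * (Dtc_G τ (fun i => - c i) m *
        (cexp (0 * (2 * Real.pi * I * (Dtc_r ε j k m : ℂ))) *
        (2 * Real.pi * I * (Dtc_r ε j k m : ℂ)))) by
      rw [hval]
      exact hd
    -- evaluation
    obtain ⟨h0, h1⟩ := (mem_sing hτ c).1 h
    have s0 : HasSum (fun m => Dtc_G τ c m) 0 := by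
      have := (Dtc_summable hτ [] c).hasSum
      rw [show (∑' m : Fin g → ℤ, (([] : List (Fin g)).map (fun i => (m i : ℂ))).prod *
        cexp (Real.pi * I * (∑ i, ∑ j, (m i : ℂ) * τ i j * (m j : ℂ))
        - 2 * Real.pi * I * ∑ i, (m i : ℂ) * c i)) = 0 from h0] at this
      simpa [Dtc_G] using this
    have s1 : ∀ i, HasSum (fun m => (m i : ℂ) * Dtc_G τ c m) 0 := by
      intro i
      have := (Dtc_summable hτ [i] c).hasSum
      rw [show (∑' m : Fin g → ℤ, (([i] : List (Fin g)).map (fun i => (m i : ℂ))).prod *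
        cexp (Real.pi * I * (∑ i, ∑ j, (m i : ℂ) * τ i j * (m j : ℂ))
        - 2 * Real.pi * I * ∑ i, (m i : ℂ) * c i)) = 0 from h1 i] at this
      simpa [Dtc_G] using this
    have s2 : HasSum (fun m => ((m j : ℂ) * (m k : ℂ)) * Dtc_G τ c m) (th τ [j, k] c) := by
      have := (Dtc_summable hτ [j, k] c).hasSum
      rw [show (∑' m : Fin g → ℤ, (([j, k] : List (Fin g)).map (fun i => (m i : ℂ))).prod *
        cexp (Real.pi * I * (∑ i, ∑ j, (m i : ℂ) * τ i j * (m j : ℂ))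
        - 2 * Real.pi * I * ∑ i, (m i : ℂ) * c i)) = th τ [j, k] c from rfl] at this
      simpa [Dtc_G] using this
    have s3 := (((s2.sub ((s1 j).mul_left (((ε k : ℕ) : ℂ) / 2))).sub
      ((s1 k).mul_left (((ε j : ℕ) : ℂ) / 2))).add
      (s0.mul_left ((((ε j : ℕ) : ℂ) / 2) * (((ε k : ℕ) : ℂ) / 2)))).mul_left
      (2 * Real.pi * I * κ)
    rw [mul_zero, mul_zero, mul_zero, sub_zero, sub_zero, add_zero] at s3
    rw [← (Equiv.neg (Fin g → ℤ)).tsum_eq, ← s3.tsum_eq]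
    refine tsum_congr fun m => ?_
    rw [Equiv.neg_apply, Dtc_G_neg, zero_mul, Complex.exp_zero]
    unfold Dtc_r
    rw [Pi.neg_apply, Pi.neg_apply]
    push_cast
    ring
  · intro m t _
    have h1 : HasDerivAt (fun t : ℂ => t * (2 * Real.pi * I * (Dtc_r ε j k m : ℂ)))
        (2 * Real.pi * I * (Dtc_r ε j k m : ℂ)) t := by
      simpa using (hasDerivAt_id t).mul_const (2 * Real.pi * I * (Dtc_r ε j k m : ℂ))
    exact (h1.cexp.const_mul _).const_mul _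
  · intro m t ht
    rw [norm_mul]
    refine mul_le_mul_of_nonneg_left ?_ (norm_nonneg _)
    exact Dtc_bound hρ ε hjk _ m (mem_ball_zero_iff.1 ht)
  · have h1 := (Dtc_summable hτ [] (fun i => - c i)).mul_left κ
    simpa [Dtc_G] using h1

end AMC
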