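import Pool.Agent.Lib.MP_b57e3c_ag_M.Der

/-!
# Module Qp : quasi-periodicity, invariance of the singular locus

`theta τ (z + k) = theta τ z` for integer `k`;
`theta τ (z + τ k) = exp (- π i kᵗ τ k - 2 π i kᵗ z) theta τ z` (complete the square: `m ↦ m + k`,
`τ` symmetric); `theta τ (-z) = theta τ z` (`m ↦ -m`). So if `theta τ` and its differential
vanish at `z`, they vanish at `z + k`, `z + τ k` (product rule) and `-z`.
`sing_reflect`: for `ε, δ : Fin g → Fin 2` and an integer vector `n`, the reflection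
`z ↦ 2 (cen τ ε δ + n) - z = -z + τ ε + δ + 2 n` preserves `singTheta τ`.
-/

open Complex Filter Topology

namespace AMC

variable {g : ℕ} {τ : Matrix (Fin g) (Fin g) ℂ}

private theorem Qp_transfer {F E : (Fin g → ℂ) → ℂ} {A : (Fin g → ℂ) → (Fin g → ℂ)}
    {p : Fin g → ℂ} (hA : DifferentiableAt ℂ A p) (hE : DifferentiableAt ℂ E p)
    (h : ∀ w, F w = E w * F (A w)) (h0 : F (A p) = 0)
    (h1 : HasFDerivAt F (0 : (Fin g → ℂ) →L[ℂ] ℂ) (A p)) :
    F p = 0 ∧ HasFDerivAt F (0 : (Fin g → ℂ) →L[ℂ] ℂ) p := by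
  refine ⟨by rw [h, h0, mul_zero], ?_⟩
  have h2 : HasFDerivAt (fun w => F (A w)) (0 : (Fin g → ℂ) →L[ℂ] ℂ) p := by
    have := h1.comp p hA.hasFDerivAt
    simpa [Function.comp_def] using this
  have h3 := hE.hasFDerivAt.mul h2
  have h4 : (fun w => E w * F (A w)) = F := by
    funext w
    exact (h w).symm
  rw [show (E * fun w => F (A w)) = F from h4] at h3
  refine h3.congr_fderiv ?_
  ext v
  simp [h0]

/-- the bilinear form -/
private noncomputable def Qp_Q (τ : Matrix (Fin g) (Fin g) ℂ) (a b : Fin g → ℂ) : ℂ :=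
  ∑ i, ∑ j, a i * τ i j * b j

private theorem Qp_add_left (a b c : Fin g → ℂ) :
    Qp_Q τ (a + b) c = Qp_Q τ a c + Qp_Q τ b c := by
  simp only [Qp_Q, Pi.add_apply, add_mul, Finset.sum_add_distrib]

private theorem Qp_add_right (a b c : Fin g → ℂ) :
    Qp_Q τ a (b + c) = Qp_Q τ a b + Qp_Q τ a c := by
  simp only [Qp_Q, Pi.add_apply, mul_add, Finset.sum_add_distrib]

private theorem Qp_symm (hτ : AM.Siegel τ) (a b : Fin g → ℂ) : Qp_Q τ a b = Qp_Q τ b a := by
  unfold Qp_Q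
  rw [Finset.sum_comm]
  refine Finset.sum_congr rfl fun i _ => Finset.sum_congr rfl fun j _ => ?_
  rw [hτ.1.apply i j]
  ring

private theorem Qp_int (z : Fin g → ℂ) (k : Fin g → ℤ) :
    AM.theta τ (fun i => z i + (k i : ℂ)) = AM.theta τ z := by
  unfold AM.theta
  refine tsum_congr fun m => ?_
  have h1 : ∑ i, (m i : ℂ) * (z i + (k i : ℂ)) =
      ∑ i, (m i : ℂ) * z i + ((∑ i, m i * k i : ℤ) : ℂ) := by
    push_cast
    rw [← Finset.sum_add_distrib]
    refine Finset.sum_congr rfl fun i _ => ?_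
    ring
  rw [h1, mul_add, ← add_assoc, Complex.exp_add _ (2 * Real.pi * I * _)]
  have h2 : cexp (2 * Real.pi * I * ((∑ i, m i * k i : ℤ) : ℂ)) = 1 := by
    rw [Complex.exp_eq_one_iff]
    exact ⟨∑ i, m i * k i, by ring⟩
  rw [h2, mul_one]

private theorem Qp_tau (hτ : AM.Siegel τ) (z : Fin g → ℂ) (k : Fin g → ℤ) :
    AM.theta τ (fun i => z i + ∑ j, τ i j * (k j : ℂ)) =
      cexp (-(Real.pi * I * Qp_Q τ (fun i => (k i : ℂ)) (fun i => (k i : ℂ)))
        - 2 * Real.pi * I * ∑ i, (k i : ℂ) * z i) * AM.theta τ z := by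
  unfold AM.theta
  rw [← (Equiv.addRight k).tsum_eq (fun m : Fin g → ℤ =>
    cexp (Real.pi * I * (∑ i, ∑ j, (m i : ℂ) * τ i j * (m j : ℂ))
      + 2 * Real.pi * I * ∑ i, (m i : ℂ) * z i)), ← tsum_mul_left]
  refine tsum_congr fun m => ?_
  rw [← Complex.exp_add]
  congr 1
  have h1 : ∑ i, (m i : ℂ) * (z i + ∑ j, τ i j * (k j : ℂ)) =
      ∑ i, (m i : ℂ) * z i + Qp_Q τ (fun i => (m i : ℂ)) (fun i => (k i : ℂ)) := by
    unfold Qp_Q
    rw [← Finset.sum_add_distrib]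
    refine Finset.sum_congr rfl fun i _ => ?_
    rw [mul_add, Finset.mul_sum]
    congr 1
    refine Finset.sum_congr rfl fun j _ => ?_
    ring
  have h2 : ∑ i, ∑ j, (((Equiv.addRight k) m i : ℤ) : ℂ) * τ i j *
      (((Equiv.addRight k) m j : ℤ) : ℂ) =
      Qp_Q τ ((fun i => (m i : ℂ)) + fun i => (k i : ℂ))
        ((fun i => (m i : ℂ)) + fun i => (k i : ℂ)) := by
    unfold Qp_Q
    refine Finset.sum_congr rfl fun i _ => Finset.sum_congr rfl fun j _ => ?_
    simp [Equiv.coe_addRight]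
  have h3 : ∑ i, (((Equiv.addRight k) m i : ℤ) : ℂ) * z i =
      ∑ i, (m i : ℂ) * z i + ∑ i, (k i : ℂ) * z i := by
    rw [← Finset.sum_add_distrib]
    refine Finset.sum_congr rfl fun i _ => ?_
    simp only [Equiv.coe_addRight, Pi.add_apply, Int.cast_add]
    ring
  have h4 : ∑ i, ∑ j, (m i : ℂ) * τ i j * (m j : ℂ) =
      Qp_Q τ (fun i => (m i : ℂ)) (fun i => (m i : ℂ)) := rfl
  rw [h1, h2, h3, h4, Qp_add_left, Qp_add_right, Qp_add_right,
    Qp_symm hτ (fun i => (k i : ℂ)) (fun i => (m i : ℂ))]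
  ring

private theorem Qp_neg (z : Fin g → ℂ) : AM.theta τ (fun i => - z i) = AM.theta τ z := by
  unfold AM.theta
  rw [← (Equiv.neg (Fin g → ℤ)).tsum_eq (fun m : Fin g → ℤ =>
    cexp (Real.pi * I * (∑ i, ∑ j, (m i : ℂ) * τ i j * (m j : ℂ))
      + 2 * Real.pi * I * ∑ i, (m i : ℂ) * z i))]
  refine tsum_congr fun m => ?_
  simp

theorem sing_add_int (hτ : AM.Siegel τ) {z : Fin g → ℂ} (hz : z ∈ AM.singTheta τ)
    (k : Fin g → ℤ) : (fun i => z i + (k i : ℂ)) ∈ AM.singTheta τ := by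
  have hA : (fun i => (fun i => z i + (k i : ℂ)) i - (k i : ℂ)) = z := by
    funext i
    simp
  refine Qp_transfer (A := fun w i => w i - (k i : ℂ)) (E := fun _ => 1) (by fun_prop)
    (by fun_prop) (fun w => ?_) ?_ ?_
  · rw [one_mul]
    have := Qp_int (τ := τ) (fun i => w i - (k i : ℂ)) k
    simpa using this
  · rw [hA]
    exact hz.1
  · rw [hA]
    exact hz.2

theorem sing_add_tau (hτ : AM.Siegel τ) {z : Fin g → ℂ} (hz : z ∈ AM.singTheta τ)
    (k : Fin g → ℤ) : (fun i => z i + ∑ j, τ i j * (k j : ℂ)) ∈ AM.singTheta τ := by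
  have hA : (fun i => (fun i => z i + ∑ j, τ i j * (k j : ℂ)) i - ∑ j, τ i j * (k j : ℂ)) = z := by
    funext i
    simp
  refine Qp_transfer (A := fun w i => w i - ∑ j, τ i j * (k j : ℂ))
    (E := fun w => cexp (-(Real.pi * I * Qp_Q τ (fun i => (k i : ℂ)) (fun i => (k i : ℂ)))
        - 2 * Real.pi * I * ∑ i, (k i : ℂ) * (w i - ∑ j, τ i j * (k j : ℂ)))) (by fun_prop)
    (by fun_prop) (fun w => ?_) ?_ ?_
  · have := Qp_tau hτ (fun i => w i - ∑ j, τ i j * (k j : ℂ)) k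
    simpa using this
  · rw [hA]
    exact hz.1
  · rw [hA]
    exact hz.2

theorem sing_neg (hτ : AM.Siegel τ) {z : Fin g → ℂ} (hz : z ∈ AM.singTheta τ) :
    (fun i => - z i) ∈ AM.singTheta τ := by
  have hA : (fun i => - (fun i => - z i) i) = z := by
    funext i
    simp
  refine Qp_transfer (A := fun w i => - w i) (E := fun _ => 1) (by fun_prop)
    (by fun_prop) (fun w => ?_) ?_ ?_
  · rw [one_mul, Qp_neg]
  · rw [hA]
    exact hz.1
  · rw [hA]
    exact hz.2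

theorem sing_reflect (hτ : AM.Siegel τ) {z : Fin g → ℂ} (hz : z ∈ AM.singTheta τ)
    (ε δ : Fin g → Fin 2) (n : Fin g → ℤ) :
    (fun i => 2 * (cen τ ε δ i + (n i : ℂ)) - z i) ∈ AM.singTheta τ := by
  have h := sing_add_int hτ (sing_add_tau hτ (sing_neg hτ hz) (fun j => ((ε j : ℕ) : ℤ)))
    (fun i => ((δ i : ℕ) : ℤ) + 2 * n i)
  have h2 : (fun i => 2 * (cen τ ε δ i + (n i : ℂ)) - z i) = fun i =>
      (fun i => (fun i => - z i) i + ∑ j, τ i j * ((((ε j : ℕ) : ℤ)) : ℂ)) i +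
        ((((δ i : ℕ) : ℤ) + 2 * n i : ℤ) : ℂ) := by
    funext i
    simp only [cen]
    push_cast
    ring
  rw [h2]
  exact h

end AMC
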