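import Pool.Agent.Lib.MP_b57e3c_ag_M.Der

/-!
# Module Tcn : theta constants and points of order two

`(m + ε/2)ᵗ τ (m + ε/2) π i + 2 π i (m + ε/2)·δ/2
  = π i mᵗ τ m + 2 π i m·(τ ε + δ)/2 + (π i/4) εᵗ τ ε + (π i/2) ε·δ`, so
`thetaConst τ ε δ = exp (π i εᵗ τ ε/4 + π i ε·δ/2) * theta τ (cen τ ε δ)`.
-/

open Complex Filter Topology

namespace AMC

private theorem Tcn_exp {g : ℕ} {τ : Matrix (Fin g) (Fin g) ℂ} (hτ : ∀ i j, τ i j = τ j i)
    (m e d : Fin g → ℂ) :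
    Real.pi * I * (∑ i, ∑ j, (m i + e i / 2) * τ i j * (m j + e j / 2))
      + 2 * Real.pi * I * ∑ i, (m i + e i / 2) * (d i / 2) =
    (Real.pi * I * (∑ i, ∑ j, e i * τ i j * e j) / 4 + Real.pi * I * (∑ i, e i * d i) / 2) +
      (Real.pi * I * (∑ i, ∑ j, m i * τ i j * m j) +
        2 * Real.pi * I * ∑ i, m i * (((∑ j, τ i j * e j) + d i) / 2)) := by
  have h1 : (∑ i, ∑ j, (m i + e i / 2) * τ i j * (m j + e j / 2)) =
      (∑ i, ∑ j, m i * τ i j * m j) + (1 / 2) * (∑ i, ∑ j, m i * τ i j * e j) +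
        (1 / 2) * (∑ i, ∑ j, e i * τ i j * m j) + (1 / 4) * (∑ i, ∑ j, e i * τ i j * e j) := by
    simp only [Finset.mul_sum, ← Finset.sum_add_distrib]
    exact Finset.sum_congr rfl fun i _ => Finset.sum_congr rfl fun j _ => by ring
  have h2 : (∑ i, ∑ j, e i * τ i j * m j) = ∑ i, ∑ j, m i * τ i j * e j := by
    rw [Finset.sum_comm]
    refine Finset.sum_congr rfl fun i _ => Finset.sum_congr rfl fun j _ => ?_
    rw [hτ j i]
    ring
  have h3 : (∑ i, (m i + e i / 2) * (d i / 2)) =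
      (1 / 2) * (∑ i, m i * d i) + (1 / 4) * ∑ i, e i * d i := by
    simp only [Finset.mul_sum, ← Finset.sum_add_distrib]
    exact Finset.sum_congr rfl fun i _ => by ring
  have h4 : (∑ i, m i * (((∑ j, τ i j * e j) + d i) / 2)) =
      (1 / 2) * (∑ i, ∑ j, m i * τ i j * e j) + (1 / 2) * ∑ i, m i * d i := by
    simp only [Finset.mul_sum, ← Finset.sum_add_distrib]
    refine Finset.sum_congr rfl fun i _ => ?_
    have h5 : (∑ j, 1 / 2 * (m i * τ i j * e j)) = m i * (∑ j, τ i j * e j) / 2 := by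
      rw [Finset.mul_sum, Finset.sum_div]
      exact Finset.sum_congr rfl fun j _ => by ring
    rw [h5]
    ring
  rw [h1, h2, h3, h4]
  ring

theorem thetaConst_eq {g : ℕ} {τ : Matrix (Fin g) (Fin g) ℂ} (hτ : AM.Siegel τ)
    (ε δ : Fin g → Fin 2) :
    AM.thetaConst τ ε δ = cexp (Real.pi * I * (∑ i, ∑ j, ((ε i : ℕ) : ℂ) * τ i j *
      ((ε j : ℕ) : ℂ)) / 4 + Real.pi * I * (∑ i, ((ε i : ℕ) : ℂ) * ((δ i : ℕ) : ℂ)) / 2) *
      AM.theta τ (cen τ ε δ) := by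
  have hs : ∀ i j, τ i j = τ j i := fun i j => (hτ.1.apply i j).symm
  unfold AM.thetaConst AM.theta
  rw [← tsum_mul_left]
  refine tsum_congr fun m => ?_
  rw [← Complex.exp_add]
  congr 1
  exact Tcn_exp hs (fun i => (m i : ℂ)) (fun i => ((ε i : ℕ) : ℂ)) (fun i => ((δ i : ℕ) : ℂ))

theorem thetaConst_zero {g : ℕ} {τ : Matrix (Fin g) (Fin g) ℂ} (hτ : AM.Siegel τ)
    (ε δ : Fin g → Fin 2) (h : cen τ ε δ ∈ AM.singTheta τ) : AM.thetaConst τ ε δ = 0 := by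
  rw [thetaConst_eq hτ, h.1, mul_zero]

end AMC
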