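import Pool.Agent.Lib.MP_b57e3c_ag_M.Sum
import Pool.Agent.Lib.MP_b57e3c_ag_M.Der
import Pool.Agent.Lib.MP_b57e3c_ag_M.Qp
import Pool.Agent.Lib.MP_b57e3c_ag_M.Trm
import Pool.Agent.Lib.MP_b57e3c_ag_M.Dom
import Pool.Agent.Lib.MP_b57e3c_ag_M.Tcn
import Pool.Agent.Lib.MP_b57e3c_ag_M.Dtc
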