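import Pool.Agent.Lib.MP_b57e3c_ag_M.Dom
import Pool.Agent.Lib.MP_b57e3c_ag_M.Der

/-!
# Module Apx : locally uniform approximation by the limit polynomial

`‖qq τ i j‖ = exp (- 2 π Im τ_ij)`, so with `B' = exp (2 π |B|)` the hypotheses on `q` of `dom` hold for
`i ≠ j` (`C.bd`). Let `R = 1 + ∑ ‖W0 k‖` (so `‖W0 k‖ ≤ R`), and let `ε` be given by `dom` for `B'` and
`κ / (2 ∏ (2 + R))`. Take `δ ≤ 1` with `(R + 1)² δ ≤ ε`, `δ ≤ ε`: the three smallness hypotheses of
`dom` hold, so `‖th τ L z - Dq (qq τ) L.toFinset (W z)‖ ≤ κ/2`. Moreover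
`(q, W) ↦ Dq q A W` is continuous (polynomial; only the `q i j` with `i < j` occur), so for `δ` small and
`n` large (`C.lim`), `‖Dq (qq (C.τ n)) A (W z) - Dq C.q A W0‖ < κ/2`.
* `isClosed_Lim`: if `W` is in the closure, for `δ > 0` take `W' ∈ Lim` with `‖W' - W‖ < δ/2` and use
  `δ/2`.
* `lim_sing`: for `W ∈ Lim`, `L = []` or `[i]` (a finset with at most one element is
  `L.toFinset` for such an `L`) and `κ > 0`, take `n` for which `apx` applies at some `p ∈ C.M n`
  (the two eventual statements hold simultaneously for some `n`), `th (C.τ n) L p = 0` by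
  `mem_sing`; so `‖Dq C.q A W‖ < κ` for all `κ > 0`.
-/

open Complex Filter Topology

namespace AMC

namespace Apx

variable {g : ℕ}

theorem qS_up (q : Fin g → Fin g → ℂ) (S : Finset (Fin g)) :
    qS (fun i j => if i < j then q i j else 0) S = qS q S := by
  unfold qS
  refine Finset.prod_congr rfl fun i _ => Finset.prod_congr rfl fun j _ => ?_
  by_cases h : i < j
  · simp only [h, if_true]
  · simp only [h, if_false]

theorem Dq_up (q : Fin g → Fin g → ℂ) (A : Finset (Fin g)) (W : Fin g → ℂ) :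
    Dq (fun i j => if i < j then q i j else 0) A W = Dq q A W := by
  unfold Dq
  refine Finset.sum_congr rfl fun S _ => ?_
  rw [qS_up]

theorem Dq_cont (A : Finset (Fin g)) :
    Continuous fun x : (Fin g → Fin g → ℂ) × (Fin g → ℂ) => Dq x.1 A x.2 := by
  unfold Dq qS
  refine continuous_finsetSum _ fun S _ => ?_
  by_cases hA : A ⊆ S
  · simp only [hA, if_true]
    refine Continuous.mul ?_ ?_
    · refine continuous_finsetProd _ fun i _ => continuous_finsetProd _ fun j _ => ?_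
      by_cases h : i < j
      · simp only [h, if_true]
        fun_prop
      · simp only [h, if_false]
        exact continuous_const
    · fun_prop
  · simp only [hA, if_false]
    exact continuous_const

theorem norm_qq (τ : Matrix (Fin g) (Fin g) ℂ) (i j : Fin g) :
    ‖qq τ i j‖ = Real.exp (-(2 * Real.pi * (τ i j).im)) := by
  unfold qq
  rw [Complex.norm_exp]
  congr 1
  simp [mul_assoc]

theorem qq_bd {τ : Matrix (Fin g) (Fin g) ℂ} {i j : Fin g} {B : ℝ} (h : |(τ i j).im| ≤ B) :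
    ‖qq τ i j‖ ≤ Real.exp (2 * Real.pi * |B|) ∧ ‖qq τ i j‖⁻¹ ≤ Real.exp (2 * Real.pi * |B|) := by
  rw [norm_qq, ← Real.exp_neg, neg_neg]
  have h1 : |(τ i j).im| ≤ |B| := h.trans (le_abs_self B)
  have h2 := abs_le.1 h1
  have hpi := Real.pi_pos
  constructor
  · apply Real.exp_le_exp.2
    nlinarith
  · apply Real.exp_le_exp.2
    nlinarith

end Apx

theorem Cusp.apx {g : ℕ} (C : Cusp g) (L : List (Fin g)) (hL : L.length ≤ 2) (W0 : Fin g → ℂ)
    {κ : ℝ} (hκ : 0 < κ) :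
    ∃ δ > 0, ∀ᶠ n in (C.U : Filter ℕ), ∀ z : Fin g → ℂ, (∀ k, ‖Wv (C.τ n) k z - W0 k‖ < δ) →
      (∀ k, ‖Wm (C.τ n) k z‖ < δ) → ‖th (C.τ n) L z - Dq C.q L.toFinset W0‖ < κ := by
  obtain ⟨R, hR1, hR⟩ : ∃ R : ℝ, 0 ≤ R ∧ ∀ k, ‖W0 k‖ ≤ R := by
    refine ⟨∑ k, ‖W0 k‖, Finset.sum_nonneg fun k _ => norm_nonneg _, fun k => ?_⟩
    exact Finset.single_le_sum (f := fun k => ‖W0 k‖) (fun k _ => norm_nonneg _)
      (Finset.mem_univ k)
  have hPr : 0 < ∏ _k : Fin g, (2 + R) := Finset.prod_pos fun _ _ => by linarith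
  obtain ⟨ε, hε, hdom⟩ := dom g (B := Real.exp (2 * Real.pi * |C.B|))
    (κ := κ / (2 * ∏ _k : Fin g, (2 + R)))
    (Real.one_le_exp (by positivity)) (by positivity)
  -- the limit polynomial is continuous
  have hc := (Apx.Dq_cont (g := g) L.toFinset).continuousAt
    (x := ((fun i j => if i < j then C.q i j else 0 : Fin g → Fin g → ℂ), W0))
  obtain ⟨δ₁, hδ₁, hc1⟩ := Metric.continuousAt_iff.1 hc (κ / 2) (by linarith)
  have hlim : Tendsto (fun n => (fun i j => if i < j then qq (C.τ n) i j else 0 :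
      Fin g → Fin g → ℂ)) (C.U : Filter ℕ)
      (𝓝 (fun i j => if i < j then C.q i j else 0)) := by
    refine tendsto_pi_nhds.2 fun i => tendsto_pi_nhds.2 fun j => ?_
    by_cases h : i < j
    · simp only [h, if_true]
      exact C.lim i j h.ne
    · simp only [h, if_false]
      exact tendsto_const_nhds
  have hev := (Metric.tendsto_nhds.1 hlim) δ₁ hδ₁
  have hR2 : 0 < (R + 1) ^ 2 := by positivity
  refine ⟨min (min 1 δ₁) (ε / (R + 1) ^ 2), by positivity, ?_⟩
  filter_upwards [hev] with n hn z hz hz'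
  have h1 : ∀ k, ‖Wv (C.τ n) k z‖ ≤ R + 1 := by
    intro k
    have h2 : ‖Wv (C.τ n) k z - W0 k‖ < 1 :=
      lt_of_lt_of_le (hz k) ((min_le_left _ _).trans (min_le_left _ _))
    have h3 : Wv (C.τ n) k z = (Wv (C.τ n) k z - W0 k) + W0 k := by ring
    rw [h3]
    have := norm_add_le (Wv (C.τ n) k z - W0 k) (W0 k)
    have := hR k
    linarith
  have h2 : ∀ k, (R + 1) ^ 2 * ‖Wm (C.τ n) k z‖ ≤ ε := by
    intro k
    have h3 : ‖Wm (C.τ n) k z‖ ≤ ε / (R + 1) ^ 2 := (hz' k).le.trans (min_le_right _ _)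
    rw [le_div_iff₀ hR2] at h3
    linarith
  have h4 := hdom (C.τ n) (C.siegel n) (fun i j hij => Apx.qq_bd (C.bd n i j hij)) z
    (fun k => by
      have a1 := h1 k
      have a2 := h2 k
      have a3 := norm_nonneg (Wm (C.τ n) k z)
      have a4 := norm_nonneg (Wv (C.τ n) k z)
      have a5 : ‖Wv (C.τ n) k z‖ * ‖Wv (C.τ n) k z‖ ≤ (R + 1) * (R + 1) :=
        mul_le_mul a1 a1 a4 (by linarith)
      have a6 := mul_le_mul_of_nonneg_right a5 a3
      nlinarith) (fun k => by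
      have a2 := h2 k
      have a3 := norm_nonneg (Wm (C.τ n) k z)
      have a7 : 1 ≤ (R + 1) ^ 2 := by nlinarith
      have a6 := mul_le_mul_of_nonneg_right a7 a3
      linarith) (fun k => by
      have a1 := h1 k
      have a2 := h2 k
      have a3 := norm_nonneg (Wm (C.τ n) k z)
      have a7 : R + 1 ≤ (R + 1) ^ 2 := by nlinarith
      have a6 := mul_le_mul_of_nonneg_right (a1.trans a7) a3
      linarith) L hL
  have h5 : ∏ k, (1 + ‖Wv (C.τ n) k z‖) ≤ ∏ _k : Fin g, (2 + R) :=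
    Finset.prod_le_prod (fun k _ => by positivity) fun k _ => by
      have := h1 k
      linarith
  have h6 : κ / (2 * ∏ _k : Fin g, (2 + R)) * ∏ k, (1 + ‖Wv (C.τ n) k z‖) ≤ κ / 2 := by
    calc κ / (2 * ∏ _k : Fin g, (2 + R)) * ∏ k, (1 + ‖Wv (C.τ n) k z‖)
        ≤ κ / (2 * ∏ _k : Fin g, (2 + R)) * ∏ _k : Fin g, (2 + R) :=
          mul_le_mul_of_nonneg_left h5 (by positivity)
      _ = κ / 2 := by
          field_simp
  have h7 := hc1 (x := ((fun i j => if i < j then qq (C.τ n) i j else 0 :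
      Fin g → Fin g → ℂ), fun k => Wv (C.τ n) k z)) (by
    rw [Prod.dist_eq]
    refine max_lt hn ?_
    rw [dist_pi_lt_iff hδ₁]
    intro k
    rw [dist_eq_norm]
    exact lt_of_lt_of_le (hz k) ((min_le_left _ _).trans (min_le_right _ _)))
  simp only [Apx.Dq_up] at h7
  rw [dist_eq_norm] at h7
  have h8 : th (C.τ n) L z - Dq C.q L.toFinset W0 =
      (th (C.τ n) L z - Dq (qq (C.τ n)) L.toFinset (fun k => Wv (C.τ n) k z)) +
      (Dq (qq (C.τ n)) L.toFinset (fun k => Wv (C.τ n) k z) - Dq C.q L.toFinset W0) := by ring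
  rw [h8]
  refine lt_of_le_of_lt (norm_add_le _ _) ?_
  linarith

theorem Cusp.isClosed_Lim {g : ℕ} (C : Cusp g) : IsClosed C.Lim := by
  refine isClosed_of_closure_subset fun W hW => ?_
  intro δ hδ
  obtain ⟨W', hW', hd⟩ := Metric.mem_closure_iff.1 hW (δ / 2) (by linarith)
  filter_upwards [hW' (δ / 2) (by linarith)] with n hn
  obtain ⟨p, hp, h1, h2⟩ := hn
  refine ⟨p, hp, fun k => ?_, fun k => ?_⟩
  · have h3 : ‖W k - W' k‖ < δ / 2 := by
      rw [← dist_eq_norm]
      exact (dist_pi_lt_iff (by linarith)).1 hd k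
    have h4 : Wv (C.τ n) k p - W k = (Wv (C.τ n) k p - W' k) - (W k - W' k) := by ring
    rw [h4]
    have := norm_sub_le (Wv (C.τ n) k p - W' k) (W k - W' k)
    have := h1 k
    linarith
  · have := h2 k
    linarith

theorem Cusp.lim_sing {g : ℕ} (C : Cusp g) {W : Fin g → ℂ} (hW : W ∈ C.Lim)
    (A : Finset (Fin g)) (hA : A.card ≤ 1) : Dq C.q A W = 0 := by
  obtain ⟨L, hL, hLA, hL0⟩ : ∃ L : List (Fin g), L.length ≤ 2 ∧ L.toFinset = A ∧
      ∀ n, ∀ p ∈ C.M n, th (C.τ n) L p = 0 := by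
    rcases Nat.le_one_iff_eq_zero_or_eq_one.1 hA with h | h
    · rw [Finset.card_eq_zero] at h
      exact ⟨[], by simp, by simp [h], fun n p hp =>
        ((mem_sing (C.siegel n) p).1 (C.sub n hp)).1⟩
    · obtain ⟨i, h⟩ := Finset.card_eq_one.1 h
      exact ⟨[i], by simp, by simp [h], fun n p hp =>
        ((mem_sing (C.siegel n) p).1 (C.sub n hp)).2 i⟩
  by_contra hne
  obtain ⟨δ, hδ, h1⟩ := C.apx L hL W (norm_pos_iff.2 hne)
  obtain ⟨n, h2, p, hp, h3, h4⟩ := (h1.and (hW δ hδ)).exists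
  have h5 := h2 p h3 h4
  rw [hL0 n p hp, hLA, zero_sub, norm_neg] at h5
  exact lt_irrefl _ h5

end AMC
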