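import Pool.Agent.Lib.MP_b57e3c_ag_M.TbN
import Pool.Agent.Lib.MP_b57e3c_ag_M.Qp

/-!
# Module Cen : centres of symmetry are singular points

Take `c₀, δ₁, δ` from `tubeN` for `W0 = e`. For most `n`: `W_j(c n)` is close to `e j` for `j ∈ J`, so by
`Wv_eq` and `near_int` there is an integer `m_j` with `‖c n j + m_j - z00‖ < δ₁/4`; `m_k = 0` for `k ∉ J`.
Let `c' = c n + m`, `x_c = (c' - z00)|_J`, `s = c'|_{J^c} = (c n)|_{J^c}`, in `DnSet` since `e k = 0` and
`‖W_k(c n)‖, ‖W⁻_k(c n)‖ < δ` for `k ∉ J` (most `n`). Let `x` be given by `tubeN`: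
`p = glue J (zJ + x) s ∈ C.M n ⊆ singTheta`. By `hc`, `z' = 2 c' - p ∈ singTheta`, and
`z' = glue J (zJ + (2 x_c - x)) s`, `‖2 x_c - x‖ < δ₁/2 + δ₁/2`. So `th [j] z' = 0` for `j ∈ J`
(`mem_sing`), and the estimate of `tubeN` gives `x = 2 x_c - x`, `x = x_c`: `p = c'`. So
`c' ∈ singTheta`, and `c n ∈ singTheta` by `sing_add_int`.
-/

open Complex Filter Topology Metric

namespace AMC

theorem Cusp.center {g : ℕ} (C : Cusp g) (hg : 3 ≤ g) {e : Fin g → ℂ} (he : e ∈ C.Lim)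
    {J : Finset (Fin g)} (hJ : J.card = 3) (hJ0 : ∀ j ∈ J, e j ≠ 0) (hK : ∀ k, k ∉ J → e k = 0)
    (hdet : (Hes C.q J e).det ≠ 0)
    (c : ℕ → Fin g → ℂ)
    (hc : ∀ n, ∀ z ∈ AM.singTheta (C.τ n), ∀ m : Fin g → ℤ,
      (fun i => 2 * (c n i + (m i : ℂ)) - z i) ∈ AM.singTheta (C.τ n))
    (h1 : ∀ k, Tendsto (fun n => Wv (C.τ n) k (c n)) (C.U : Filter ℕ) (𝓝 (e k)))
    (h2 : ∀ k, Tendsto (fun n => Wm (C.τ n) k (c n)) (C.U : Filter ℕ) (𝓝 0)) :
    ∀ᶠ n in (C.U : Filter ℕ), c n ∈ AM.singTheta (C.τ n) := by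
  classical
  obtain ⟨c₀, δ₁, δ, hc₀, hδ₁, hδ, htube⟩ := C.tubeN hg he hJ hJ0 hdet
  obtain ⟨δ', hδ', hnear⟩ := near_int (show (0 : ℝ) < δ₁ / 4 by linarith)
  -- closeness of the J-coordinates
  have a1 : ∀ᶠ n in (C.U : Filter ℕ), ∀ k, k ∈ J →
      ‖Wv (C.τ n) k (c n) / e k - 1‖ < δ' := by
    rw [eventually_all]
    intro k
    by_cases hk : k ∈ J
    · have h3 : Tendsto (fun n => Wv (C.τ n) k (c n) / e k - 1) (C.U : Filter ℕ) (𝓝 0) := by
        have h4 := ((h1 k).div_const (e k)).sub_const 1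
        rw [div_self (hJ0 k hk), sub_self] at h4
        exact h4
      have h5 := (tendsto_zero_iff_norm_tendsto_zero.1 h3).eventually (gt_mem_nhds hδ')
      filter_upwards [h5] with n hn _ using hn
    · exact Eventually.of_forall fun n h => absurd h hk
  have a2 : ∀ᶠ n in (C.U : Filter ℕ), ∀ k, k ∉ J →
      ‖Wv (C.τ n) k (c n)‖ < δ ∧ ‖Wm (C.τ n) k (c n)‖ < δ := by
    rw [eventually_all]
    intro k
    by_cases hk : k ∈ J
    · exact Eventually.of_forall fun n h => absurd hk h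
    · have h3 := h1 k
      rw [hK k hk] at h3
      have h5 := (tendsto_zero_iff_norm_tendsto_zero.1 h3).eventually (gt_mem_nhds hδ)
      have h6 := (tendsto_zero_iff_norm_tendsto_zero.1 (h2 k)).eventually (gt_mem_nhds hδ)
      filter_upwards [h5, h6] with n hn hn' _ using ⟨hn, hn'⟩
  filter_upwards [htube, a1, a2] with n ht b1 b2
  -- the integer translation
  have hm : ∀ k, ∃ m : ℤ, (k ∈ J → ‖c n k - z00 (C.τ n) e k - m‖ < δ₁ / 4) ∧ (k ∉ J → m = 0) := by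
    intro k
    by_cases hk : k ∈ J
    · have h3 := b1 k hk
      rw [Wv_eq (C.τ n) (hJ0 k hk), mul_div_cancel_left₀ _ (hJ0 k hk)] at h3
      obtain ⟨m, hm⟩ := hnear _ h3
      exact ⟨m, fun _ => hm, fun h => absurd hk h⟩
    · exact ⟨0, fun h => absurd h hk, fun _ => rfl⟩
  choose m hm1 hm2 using hm
  set xc : {k // k ∈ J} → ℂ := fun k => c n k - z00 (C.τ n) e k - m k with hxc
  set s : {k // k ∉ J} → ℂ := fun k => c n k with hs
  have hsD : s ∈ DnSet (C.τ n) e J δ := by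
    intro k
    refine ⟨fun _ => ?_, fun h => absurd (hK k k.2) h⟩
    have := b2 k k.2
    unfold Wv Wm at this
    exact this
  have hxcn : ‖xc‖ ≤ δ₁ / 4 := by
    rw [pi_norm_le_iff_of_nonneg (by linarith)]
    intro k
    exact (hm1 k k.2).le
  obtain ⟨x, hx, hxM, hxe⟩ := ht s hsD
  set p := glue J (zJ (C.τ n) e J + x) s with hp
  have hpS : p ∈ AM.singTheta (C.τ n) := C.sub n hxM
  -- reflection
  have hz := hc n p hpS (fun k => - m k)
  have hzeq : (fun i => 2 * (c n i + ((- m i : ℤ) : ℂ)) - p i)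
      = glue J (zJ (C.τ n) e J + (2 • xc - x)) s := by
    funext i
    by_cases hi : i ∈ J
    · have e1 : p i = zJ (C.τ n) e J ⟨i, hi⟩ + x ⟨i, hi⟩ := by
        rw [hp]; exact glue_mem _ _ ⟨i, hi⟩
      have e2 : glue J (zJ (C.τ n) e J + (2 • xc - x)) s i
          = zJ (C.τ n) e J ⟨i, hi⟩ + (2 * xc ⟨i, hi⟩ - x ⟨i, hi⟩) := by
        rw [glue_mem _ _ ⟨i, hi⟩]
        simp
      rw [e1, e2, hxc]
      simp only [zJ]
      push_cast
      ring
    · have e1 : p i = s ⟨i, hi⟩ := by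
        rw [hp]; exact glue_notMem _ _ ⟨i, hi⟩
      have e2 : glue J (zJ (C.τ n) e J + (2 • xc - x)) s i = s ⟨i, hi⟩ :=
        glue_notMem _ _ ⟨i, hi⟩
      rw [e1, e2, hs, hm2 i hi]
      simp only
      push_cast
      ring
  rw [hzeq] at hz
  have hball : (2 • xc - x) ∈ ball (0 : {k // k ∈ J} → ℂ) δ₁ := by
    rw [mem_ball_zero_iff]
    calc ‖2 • xc - x‖ ≤ ‖2 • xc‖ + ‖x‖ := norm_sub_le _ _
      _ ≤ 2 * ‖xc‖ + ‖x‖ := by
          gcongr
          rw [two_smul]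
          calc ‖xc + xc‖ ≤ ‖xc‖ + ‖xc‖ := norm_add_le _ _
            _ = 2 * ‖xc‖ := by ring
      _ < δ₁ := by linarith
  have h3 := hxe _ hball
  have h4 : (fun j : {k // k ∈ J} => th (C.τ n) [(j : Fin g)]
      (glue J (zJ (C.τ n) e J + (2 • xc - x)) s)) = 0 := by
    funext j
    exact ((mem_sing (C.siegel n) _).1 hz).2 j
  rw [h4, norm_zero] at h3
  have h5 : x - (2 • xc - x) = 0 := by
    rw [← norm_eq_zero]
    have := norm_nonneg (x - (2 • xc - x))
    nlinarith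
  have h6 : x = xc := by
    funext k
    rw [two_smul] at h5
    have h7 := congrFun h5 k
    simp only [Pi.sub_apply, Pi.add_apply, Pi.zero_apply] at h7
    have h8 : (x k - xc k) * 2 = 0 := by linear_combination h7
    have h9 : x k - xc k = 0 := by simpa using h8
    exact sub_eq_zero.1 h9
  have hpc : (fun i => p i + (m i : ℂ)) = c n := by
    funext i
    by_cases hi : i ∈ J
    · have e1 : p i = zJ (C.τ n) e J ⟨i, hi⟩ + x ⟨i, hi⟩ := by
        rw [hp]; exact glue_mem _ _ ⟨i, hi⟩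
      rw [e1, h6, hxc]
      simp only [zJ]
      ring
    · have e1 : p i = s ⟨i, hi⟩ := by
        rw [hp]; exact glue_notMem _ _ ⟨i, hi⟩
      rw [e1, hs, hm2 i hi]
      simp
  have := sing_add_int (C.siegel n) hpS m
  rw [hpc] at this
  exact this

end AMC
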