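import Pool.Agent.Lib.MP_b57e3c_ag_M.Dn

/-!
# Module Cov : lifting a vector `W` near `W0`

Choose `δ₂ ≤ δ` such that for `‖W k - W0 k‖ < δ₂` and `W0 k ≠ 0` the number
`y k = - log (W k / W0 k) / (2 π i)` has norm `< δ/2` (`log` is continuous at `1`) (and `W k ≠ 0`); then
`W k = W0 k * exp (-2 π i y_k)`. Given `W`, let `x' j = y j` for `j ∈ J`, and
`s n k = z00 (C.τ n) W0 k + y k` if `W0 k ≠ 0`; `s n k = (π i τ_kk - log (W k))/(2 π i)` if `W0 k = 0 ≠ W k`;
`s n k = 0` if `W0 k = 0 = W k`. Then `W_k = W k` exactly, except in the last case, where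
`W_k = exp (π i τ_kk) → 0`. `W⁻_k = exp (2 π i τ_kk)/W k → 0` (`Wv_mul_Wm`), resp. `exp (π i τ_kk) → 0`. So
`s n ∈ DnSet` for most `n` (`‖W k‖ < δ₂ ≤ δ` when `W0 k = 0`). `‖exp (π i τ_kk)‖ = exp (-π Im τ_kk) → 0` by `C.diag`.
-/

open Complex Filter Topology Metric

namespace AMC

private theorem Cov_delta {g : ℕ} (W0 : Fin g → ℂ) {δ : ℝ} (hδ : 0 < δ) :
    ∃ δ₂ > 0, δ₂ ≤ δ ∧ ∀ W : Fin g → ℂ, (∀ k, ‖W k - W0 k‖ < δ₂) →
      ∀ k, W0 k ≠ 0 → W k ≠ 0 ∧ ‖-Complex.log (W k / W0 k) / (2 * Real.pi * I)‖ < δ / 2 := by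
  have h : ∀ k, ∃ r > 0, ∀ w : ℂ, ‖w - W0 k‖ < r → W0 k ≠ 0 →
      w ≠ 0 ∧ ‖-Complex.log (w / W0 k) / (2 * Real.pi * I)‖ < δ / 2 := by
    intro k
    by_cases hk : W0 k = 0
    · exact ⟨1, one_pos, fun w _ h' => absurd hk h'⟩
    · have hc : ContinuousAt (fun w => -Complex.log (w / W0 k) / (2 * Real.pi * I)) (W0 k) := by
        refine ContinuousAt.div_const (ContinuousAt.neg ?_) _
        refine ContinuousAt.clog (continuousAt_id.div_const _) ?_
        simp [div_self hk]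
      have h1 : ∀ᶠ w in 𝓝 (W0 k), ‖-Complex.log (w / W0 k) / (2 * Real.pi * I)‖ < δ / 2 := by
        refine hc.norm.eventually_lt continuousAt_const ?_
        simp [div_self hk, hδ]
      have h2 : ∀ᶠ w in 𝓝 (W0 k), w ≠ 0 := ContinuousAt.eventually_ne continuousAt_id hk
      obtain ⟨r, hr, h3⟩ := Metric.eventually_nhds_iff.1 (h1.and h2)
      exact ⟨r, hr, fun w hw _ =>
        ⟨(h3 (by rwa [dist_eq_norm])).2, (h3 (by rwa [dist_eq_norm])).1⟩⟩
  choose r hr hr2 using h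
  have h4 : ∀ᶠ x in 𝓝[>] (0 : ℝ), ∀ k, x < r k :=
    Filter.eventually_all.2 fun k => by
      filter_upwards [Ioo_mem_nhdsGT (hr k)] with x hx using hx.2
  have h5 : ∀ᶠ x in 𝓝[>] (0 : ℝ), x < δ := by
    filter_upwards [Ioo_mem_nhdsGT hδ] with x hx using hx.2
  have h6 : ∀ᶠ x in 𝓝[>] (0 : ℝ), 0 < x := self_mem_nhdsWithin
  obtain ⟨x, ⟨h7, h8⟩, h9⟩ := ((h4.and h5).and h6).exists
  exact ⟨x, h9, h8.le, fun W hW k hk => hr2 k (W k) ((hW k).trans (h7 k)) hk⟩

private theorem Cov_exp_tendsto {g : ℕ} (C : Cusp g) (k : Fin g) :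
    Tendsto (fun n => cexp (Real.pi * I * C.τ n k k)) (C.U : Filter ℕ) (𝓝 0) := by
  rw [tendsto_zero_iff_norm_tendsto_zero]
  have e : ∀ n, ‖cexp (Real.pi * I * C.τ n k k)‖ = Real.exp (-(Real.pi * (C.τ n k k).im)) := by
    intro n
    rw [Complex.norm_exp]
    congr 1
    simp
  simp only [e]
  refine Real.tendsto_exp_neg_atTop_nhds_zero.comp ?_
  exact (C.diag k).const_mul_atTop Real.pi_pos

private theorem Cov_exp2_tendsto {g : ℕ} (C : Cusp g) (k : Fin g) :
    Tendsto (fun n => cexp (2 * Real.pi * I * C.τ n k k)) (C.U : Filter ℕ) (𝓝 0) := by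
  have h := (Cov_exp_tendsto C k).mul (Cov_exp_tendsto C k)
  rw [mul_zero] at h
  refine h.congr fun n => ?_
  rw [← Complex.exp_add]
  congr 1
  ring

theorem Cusp.cover {g : ℕ} (C : Cusp g) (W0 : Fin g → ℂ) (J : Finset (Fin g))
    (hJ0 : ∀ j ∈ J, W0 j ≠ 0) {δ : ℝ} (hδ : 0 < δ) :
    ∃ δ₂ > 0, ∀ W : Fin g → ℂ, (∀ k, ‖W k - W0 k‖ < δ₂) →
      ∃ (x' : {k // k ∈ J} → ℂ) (s : ℕ → {k // k ∉ J} → ℂ), ‖x'‖ < δ ∧
        (∀ j : {k // k ∈ J}, W j = W0 j * cexp (-2 * Real.pi * I * x' j)) ∧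
        (∀ᶠ n in (C.U : Filter ℕ), s n ∈ DnSet (C.τ n) W0 J δ) ∧
        (∀ k, Tendsto (fun n => Wv (C.τ n) k (glue J (zJ (C.τ n) W0 J + x') (s n)))
          (C.U : Filter ℕ) (𝓝 (W k))) ∧
        ∀ k, Tendsto (fun n => Wm (C.τ n) k (glue J (zJ (C.τ n) W0 J + x') (s n)))
          (C.U : Filter ℕ) (𝓝 0) := by
  have hI : (2 * Real.pi * I : ℂ) ≠ 0 := Complex.two_pi_I_ne_zero
  obtain ⟨δ₂, hδ₂, hle, hy⟩ := Cov_delta W0 hδ
  refine ⟨δ₂, hδ₂, fun W hW => ?_⟩
  have hy := hy W hW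
  -- the shifts
  set y : Fin g → ℂ := fun k => -Complex.log (W k / W0 k) / (2 * Real.pi * I) with hydef
  have hyW : ∀ k, W0 k ≠ 0 → W k = W0 k * cexp (-2 * Real.pi * I * y k) := by
    intro k hk
    have e : -2 * Real.pi * I * y k = Complex.log (W k / W0 k) := by
      rw [hydef]
      field_simp
    rw [e, Complex.exp_log (div_ne_zero (hy k hk).1 hk)]
    field_simp
  -- the coordinates
  set z : ℕ → Fin g → ℂ := fun n k =>
    if W0 k = 0 then
      (if W k = 0 then 0 else (Real.pi * I * C.τ n k k - Complex.log (W k)) / (2 * Real.pi * I))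
    else z00 (C.τ n) W0 k + y k with hzdef
  have hglue : ∀ n, glue J (zJ (C.τ n) W0 J + fun j : {k // k ∈ J} => y j)
      (fun k : {k // k ∉ J} => z n k) = z n := by
    intro n
    funext i
    unfold glue
    split_ifs with hi
    · simp only [Pi.add_apply, zJ, hzdef, if_neg (hJ0 i hi)]
    · rfl
  -- the limits
  have hWv0 : ∀ n k, W0 k ≠ 0 → Wv (C.τ n) k (z n) = W k := by
    intro n k hk
    rw [Wv_eq _ hk, hyW k hk]
    congr 3
    simp only [hzdef, if_neg hk]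
    ring
  have hWv1 : ∀ n k, W0 k = 0 → W k ≠ 0 → Wv (C.τ n) k (z n) = W k := by
    intro n k hk hk2
    unfold Wv
    have e : Real.pi * I * C.τ n k k - 2 * Real.pi * I * z n k = Complex.log (W k) := by
      simp only [hzdef, if_pos hk, if_neg hk2]
      field_simp
      ring
    rw [e, Complex.exp_log hk2]
  have hWv2 : ∀ n k, W0 k = 0 → W k = 0 →
      Wv (C.τ n) k (z n) = cexp (Real.pi * I * C.τ n k k) := by
    intro n k hk hk2
    unfold Wv
    simp only [hzdef, if_pos hk, if_pos hk2, mul_zero, sub_zero]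
  have hWm2 : ∀ n k, W0 k = 0 → W k = 0 →
      Wm (C.τ n) k (z n) = cexp (Real.pi * I * C.τ n k k) := by
    intro n k hk hk2
    unfold Wm
    simp only [hzdef, if_pos hk, if_pos hk2, mul_zero, add_zero]
  have hLv : ∀ k, Tendsto (fun n => Wv (C.τ n) k (z n)) (C.U : Filter ℕ) (𝓝 (W k)) := by
    intro k
    by_cases hk : W0 k = 0
    · by_cases hk2 : W k = 0
      · simp only [fun n => hWv2 n k hk hk2]
        rw [hk2]
        exact Cov_exp_tendsto C k
      · simp only [fun n => hWv1 n k hk hk2]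
        exact tendsto_const_nhds
    · simp only [fun n => hWv0 n k hk]
      exact tendsto_const_nhds
  have hLm : ∀ k, Tendsto (fun n => Wm (C.τ n) k (z n)) (C.U : Filter ℕ) (𝓝 0) := by
    intro k
    have key : W k ≠ 0 → (∀ n, Wv (C.τ n) k (z n) = W k) →
        Tendsto (fun n => Wm (C.τ n) k (z n)) (C.U : Filter ℕ) (𝓝 0) := by
      intro hk2 hw
      have h := (Cov_exp2_tendsto C k).div_const (W k)
      rw [zero_div] at h
      refine h.congr fun n => ?_
      have h3 := Wv_mul_Wm (C.τ n) k (z n)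
      rw [hw n] at h3
      rw [← h3]
      field_simp
    by_cases hk : W0 k = 0
    · by_cases hk2 : W k = 0
      · simp only [fun n => hWm2 n k hk hk2]
        exact Cov_exp_tendsto C k
      · exact key hk2 fun n => hWv1 n k hk hk2
    · exact key (hy k hk).1 fun n => hWv0 n k hk
  refine ⟨fun j => y j, fun n k => z n k, ?_, fun j => hyW j (hJ0 j j.2), ?_, ?_, ?_⟩
  · refine lt_of_le_of_lt ((pi_norm_le_iff_of_nonneg (by positivity : (0 : ℝ) ≤ δ / 2)).2
      fun j => (hy j (hJ0 j j.2)).2.le) (by linarith)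
  · have hd : ∀ k, ∀ᶠ n in (C.U : Filter ℕ),
        (W0 k = 0 → ‖Wv (C.τ n) k (z n)‖ < δ ∧ ‖Wm (C.τ n) k (z n)‖ < δ) := by
      intro k
      by_cases hk : W0 k = 0
      · have h1 : ‖W k‖ < δ := by
          have := hW k
          rw [hk, sub_zero] at this
          exact this.trans_le hle
        have h2 := (hLv k).norm.eventually_lt tendsto_const_nhds h1
        have h3 : ∀ᶠ n in (C.U : Filter ℕ), ‖Wm (C.τ n) k (z n)‖ < δ := by
          refine (hLm k).norm.eventually_lt tendsto_const_nhds ?_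
          rwa [norm_zero]
        filter_upwards [h2, h3] with n h4 h5 _ using ⟨h4, h5⟩
      · exact Filter.Eventually.of_forall fun n h => absurd h hk
    filter_upwards [Filter.eventually_all.2 hd] with n hn
    intro k
    refine ⟨fun h => hn k h, fun h => ?_⟩
    have e : z n k - z00 (C.τ n) W0 k = y k := by
      simp only [hzdef, if_neg h]
      ring
    rw [e]
    exact (hy k h).2.trans (by linarith)
  · intro k
    simp only [hglue]
    exact hLv k
  · intro k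
    simp only [hglue]
    exact hLm k

end AMC
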