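import Pool.Agent.Lib.MP_b57e3c_ag_M.Defs

/-!
# Module Dn : the base domains in the `z_K`-space

`z00 τ W0 k` satisfies `exp (π i τ_kk - 2 π i z00) = W0 k` if `W0 k ≠ 0`. `DnSet τ W0 J δ` is a
product over `k ∉ J` of strips `{‖W_k‖ < δ, ‖W⁻_k‖ < δ}` (if `W0 k = 0`; the conditions say
that `Im s` lies in an interval, since `‖exp (π i τ_kk ∓ 2 π i s)‖ = exp (- π Im τ_kk ± 2 π Im s)`) and of
discs around `z00` (if `W0 k ≠ 0`): open and convex.
* `Wv_eq`: `exp (π i τ_kk - 2 π i z_k) = exp (π i τ_kk - 2 π i z00) exp (- 2 π i (z_k - z00))`,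
  `Complex.exp_log`.
* `near_int`: if `‖exp (-2 π i x) - 1‖` is small then `x` is close to an integer: let
  `x = u + i v`; `‖exp(..)‖ = exp (2 π v)` is close to `1`, so `v` is small; and `cos (2 π u)` is close
  to `1`, … or: by compactness/`Complex.log`: `y = log (exp (-2π i x))` is small (continuity of
  `log` at `1`), `exp y = exp (-2 π i x)` so `-2π i x = y + 2π i n` (`Complex.exp_eq_exp_iff_exists_int`).
* `Wm_eq`: `W_k W⁻_k = exp (2 π i τ_kk)`.
-/

open Complex Filter Topology Metric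

namespace AMC

variable {g : ℕ}

noncomputable def z00 (τ : Matrix (Fin g) (Fin g) ℂ) (W0 : Fin g → ℂ) (k : Fin g) : ℂ :=
  (Real.pi * I * τ k k - Complex.log (W0 k)) / (2 * Real.pi * I)

/-- the `J`-part of `z00` -/
noncomputable def zJ (τ : Matrix (Fin g) (Fin g) ℂ) (W0 : Fin g → ℂ) (J : Finset (Fin g)) :
    {k // k ∈ J} → ℂ := fun k => z00 τ W0 k

def DnSet (τ : Matrix (Fin g) (Fin g) ℂ) (W0 : Fin g → ℂ) (J : Finset (Fin g)) (δ : ℝ) :
    Set ({k // k ∉ J} → ℂ) :=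
  {s | ∀ k : {k // k ∉ J},
    (W0 k = 0 → ‖cexp (Real.pi * I * τ k k - 2 * Real.pi * I * s k)‖ < δ ∧
      ‖cexp (Real.pi * I * τ k k + 2 * Real.pi * I * s k)‖ < δ) ∧
    (W0 k ≠ 0 → ‖s k - z00 τ W0 k‖ < δ)}

private theorem Dn_exp (c u x y : ℂ) {a b δ : ℝ} (ha : 0 ≤ a) (hb : 0 ≤ b) (hab : a + b = 1)
    (hx : ‖cexp (c + u * x)‖ < δ) (hy : ‖cexp (c + u * y)‖ < δ) :
    ‖cexp (c + u * (a • x + b • y))‖ < δ := by
  rw [Complex.norm_exp] at hx hy ⊢
  have e : c + u * (a • x + b • y) = (a : ℂ) * (c + u * x) + (b : ℂ) * (c + u * y) := by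
    have h : (a : ℂ) + b = 1 := by exact_mod_cast hab
    rw [Complex.real_smul, Complex.real_smul]
    linear_combination (-c) * h
  have e2 : (c + u * (a • x + b • y)).re = a * (c + u * x).re + b * (c + u * y).re := by
    rw [e, Complex.add_re, Complex.re_ofReal_mul, Complex.re_ofReal_mul]
  rw [e2]
  rcases le_total (c + u * x).re (c + u * y).re with h | h
  · refine lt_of_le_of_lt (Real.exp_le_exp.2 ?_) hy
    have h1 := mul_le_mul_of_nonneg_left h ha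
    have h2 : b = 1 - a := by linarith
    subst h2
    linarith
  · refine lt_of_le_of_lt (Real.exp_le_exp.2 ?_) hx
    have h1 := mul_le_mul_of_nonneg_left h hb
    have h2 : a = 1 - b := by linarith
    subst h2
    linarith

theorem isOpen_DnSet (τ : Matrix (Fin g) (Fin g) ℂ) (W0 : Fin g → ℂ) (J : Finset (Fin g))
    (δ : ℝ) : IsOpen (DnSet τ W0 J δ) := by
  have e : DnSet τ W0 J δ = ⋂ k : {k // k ∉ J}, {s |
      (W0 k = 0 → ‖cexp (Real.pi * I * τ k k - 2 * Real.pi * I * s k)‖ < δ ∧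
        ‖cexp (Real.pi * I * τ k k + 2 * Real.pi * I * s k)‖ < δ) ∧
      (W0 k ≠ 0 → ‖s k - z00 τ W0 k‖ < δ)} := by
    ext s
    simp only [DnSet, Set.mem_iInter, Set.mem_ofPred_eq]
  rw [e]
  refine isOpen_iInter_of_finite fun k => ?_
  by_cases h : W0 k = 0
  · have e2 : {s : {k // k ∉ J} → ℂ |
        (W0 k = 0 → ‖cexp (Real.pi * I * τ k k - 2 * Real.pi * I * s k)‖ < δ ∧
          ‖cexp (Real.pi * I * τ k k + 2 * Real.pi * I * s k)‖ < δ) ∧
        (W0 k ≠ 0 → ‖s k - z00 τ W0 k‖ < δ)} =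
        {s | ‖cexp (Real.pi * I * τ k k - 2 * Real.pi * I * s k)‖ < δ} ∩
        {s | ‖cexp (Real.pi * I * τ k k + 2 * Real.pi * I * s k)‖ < δ} := by
      ext s
      exact ⟨fun hs => hs.1 h, fun hs => ⟨fun _ => hs, fun h' => absurd h h'⟩⟩
    rw [e2]
    refine IsOpen.inter (isOpen_lt ?_ continuous_const) (isOpen_lt ?_ continuous_const)
    · fun_prop
    · fun_prop
  · have e2 : {s : {k // k ∉ J} → ℂ |
        (W0 k = 0 → ‖cexp (Real.pi * I * τ k k - 2 * Real.pi * I * s k)‖ < δ ∧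
          ‖cexp (Real.pi * I * τ k k + 2 * Real.pi * I * s k)‖ < δ) ∧
        (W0 k ≠ 0 → ‖s k - z00 τ W0 k‖ < δ)} =
        {s | ‖s k - z00 τ W0 k‖ < δ} := by
      ext s
      exact ⟨fun hs => hs.2 h, fun hs => ⟨fun h' => absurd h' h, fun _ => hs⟩⟩
    rw [e2]
    refine isOpen_lt ?_ continuous_const
    fun_prop

theorem isPreconnected_DnSet (τ : Matrix (Fin g) (Fin g) ℂ) (W0 : Fin g → ℂ)
    (J : Finset (Fin g)) (δ : ℝ) : IsPreconnected (DnSet τ W0 J δ) := by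
  have hc : Convex ℝ (DnSet τ W0 J δ) := by
    intro x hx y hy a b ha hb hab k
    refine ⟨fun h => ?_, fun h => ?_⟩
    · have hx' := (hx k).1 h
      have hy' := (hy k).1 h
      have e : ∀ s : ℂ, Real.pi * I * τ k k - 2 * Real.pi * I * s =
          Real.pi * I * τ k k + (-(2 * Real.pi * I)) * s := fun s => by ring
      rw [e] at hx' hy' ⊢
      exact ⟨Dn_exp _ _ _ _ ha hb hab hx'.1 hy'.1, Dn_exp _ _ _ _ ha hb hab hx'.2 hy'.2⟩
    · have hx' := (hx k).2 h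
      have hy' := (hy k).2 h
      rw [← mem_ball_iff_norm] at hx' hy' ⊢
      exact convex_ball (z00 τ W0 k) δ hx' hy' ha hb hab
  exact hc.isPreconnected

theorem Wv_eq (τ : Matrix (Fin g) (Fin g) ℂ) {W0 : Fin g → ℂ} {k : Fin g} (h : W0 k ≠ 0)
    (z : Fin g → ℂ) : Wv τ k z = W0 k * cexp (-2 * Real.pi * I * (z k - z00 τ W0 k)) := by
  have hI : (2 * Real.pi * I : ℂ) ≠ 0 := Complex.two_pi_I_ne_zero
  unfold Wv
  conv_rhs => rw [← Complex.exp_log h]
  rw [← Complex.exp_add]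
  congr 1
  unfold z00
  field_simp
  ring

theorem near_int {δ : ℝ} (hδ : 0 < δ) : ∃ δ' > 0, ∀ x : ℂ,
    ‖cexp (-2 * Real.pi * I * x) - 1‖ < δ' → ∃ n : ℤ, ‖x - n‖ < δ := by
  have hI : (2 * Real.pi * I : ℂ) ≠ 0 := Complex.two_pi_I_ne_zero
  have hpi := Real.pi_pos
  have hcont : ContinuousAt Complex.log 1 := continuousAt_clog (by simp)
  obtain ⟨δ', hδ', hl⟩ := Metric.continuousAt_iff.1 hcont (2 * Real.pi * δ) (by positivity)
  refine ⟨δ', hδ', fun x hx => ?_⟩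
  have h1 := hl (x := cexp (-2 * Real.pi * I * x)) (by rw [dist_eq_norm]; exact hx)
  rw [Complex.log_one, dist_zero_right] at h1
  have h2 : cexp (Complex.log (cexp (-2 * Real.pi * I * x))) = cexp (-2 * Real.pi * I * x) :=
    Complex.exp_log (Complex.exp_ne_zero _)
  obtain ⟨n, hn⟩ := Complex.exp_eq_exp_iff_exists_int.1 h2
  refine ⟨n, ?_⟩
  have h3 : 2 * Real.pi * I * (x - n) = - Complex.log (cexp (-2 * Real.pi * I * x)) := by
    rw [hn]
    ring
  have h4 : ‖(2 * Real.pi * I : ℂ) * (x - n)‖ = 2 * Real.pi * ‖x - n‖ := by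
    rw [norm_mul, norm_mul, norm_mul, Complex.norm_I, Complex.norm_real, Real.norm_eq_abs,
      abs_of_pos hpi, Complex.norm_ofNat, mul_one]
  rw [h3, norm_neg] at h4
  rw [h4] at h1
  exact lt_of_mul_lt_mul_left h1 (by positivity)

theorem Wv_mul_Wm (τ : Matrix (Fin g) (Fin g) ℂ) (k : Fin g) (z : Fin g → ℂ) :
    Wv τ k z * Wm τ k z = cexp (2 * Real.pi * I * τ k k) := by
  unfold Wv Wm
  rw [← Complex.exp_add]
  congr 1
  ring

theorem Wv_congr (τ : Matrix (Fin g) (Fin g) ℂ) {k : Fin g} {z z' : Fin g → ℂ} (n : ℤ)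
    (h : z' k = z k + n) : Wv τ k z' = Wv τ k z ∧ Wm τ k z' = Wm τ k z := by
  unfold Wv Wm
  constructor
  · refine Complex.exp_eq_exp_iff_exists_int.2 ⟨-n, ?_⟩
    rw [h]
    push_cast
    ring
  · refine Complex.exp_eq_exp_iff_exists_int.2 ⟨n, ?_⟩
    rw [h]
    ring

end AMC
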