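import Pool.Agent.Lib.MP_b57e3c_ag_M.TbN
import Pool.Agent.Lib.MP_b57e3c_ag_M.Cov

/-!
# Module Kp : the limit set is locally `{D_J F = 0}`

Take `c, δ₁, δ` from `tubeN` and `δ₂` from `cover` for `min δ δ₁` (`DnSet_mono`). Let `W` be within `δ₂` of `W0`,
with `D_j F (W) = 0` for `j ∈ J`; `x', s n` from `cover`; `z'_n = glue J (zJ + x') (s n)`: its coordinates tend
to `W`, `0`, so by `apx` (at `W`, list `[j]`, `Dq C.q {j} W = 0`) `th (C.τ n) [j] z'_n → 0` for `j ∈ J`. Let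
`x_n` be given by `tubeN` (for `s n`, most `n`): `c ‖x_n - x'‖ ≤ ‖(th [j] z'_n)_j‖ → 0`. The point
`p_n = glue J (zJ + x_n) (s n) ∈ C.M n` has `W_j(p_n) = W0 j exp (-2 π i x_n j) → W0 j exp (-2 π i x' j) = W j` for
`j ∈ J` (`Wv_eq`), and `W⁻_j(p_n) = exp (2 π i τ_jj) / W_j(p_n) → 0` (`Wv_mul_Wm`, `C.diag`, `W j ≠ 0`), and the
same coordinates as `z'_n` for `k ∉ J`. So `W ∈ Lim`.
-/

open Complex Filter Topology Metric

namespace AMC

theorem Cusp.th_tendsto {g : ℕ} (C : Cusp g) {W : Fin g → ℂ} (z : ℕ → Fin g → ℂ)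
    (h1 : ∀ k, Tendsto (fun n => Wv (C.τ n) k (z n)) (C.U : Filter ℕ) (𝓝 (W k)))
    (h2 : ∀ k, Tendsto (fun n => Wm (C.τ n) k (z n)) (C.U : Filter ℕ) (𝓝 0))
    (L : List (Fin g)) (hL : L.length ≤ 2) :
    Tendsto (fun n => th (C.τ n) L (z n)) (C.U : Filter ℕ) (𝓝 (Dq C.q L.toFinset W)) := by
  rw [Metric.tendsto_nhds]
  intro κ hκ
  obtain ⟨δ, hδ, h⟩ := C.apx L hL W hκ
  have a1 : ∀ᶠ n in (C.U : Filter ℕ), ∀ k, ‖Wv (C.τ n) k (z n) - W k‖ < δ := by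
    rw [eventually_all]
    intro k
    exact (tendsto_iff_norm_sub_tendsto_zero.1 (h1 k)).eventually (gt_mem_nhds hδ)
  have a2 : ∀ᶠ n in (C.U : Filter ℕ), ∀ k, ‖Wm (C.τ n) k (z n)‖ < δ := by
    rw [eventually_all]
    intro k
    have := (tendsto_zero_iff_norm_tendsto_zero.1 (h2 k)).eventually (gt_mem_nhds hδ)
    exact this
  filter_upwards [h, a1, a2] with n hn b1 b2
  rw [dist_eq_norm]
  exact hn (z n) b1 b2

theorem Cusp.exp_diag {g : ℕ} (C : Cusp g) (k : Fin g) :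
    Tendsto (fun n => cexp (2 * Real.pi * I * C.τ n k k)) (C.U : Filter ℕ) (𝓝 0) := by
  rw [tendsto_zero_iff_norm_tendsto_zero]
  have h1 : ∀ n, ‖cexp (2 * Real.pi * I * C.τ n k k)‖
      = Real.exp (-(2 * Real.pi * (C.τ n k k).im)) := by
    intro n
    rw [Complex.norm_exp]
    congr 1
    simp
  simp_rw [h1]
  refine Real.tendsto_exp_neg_atTop_nhds_zero.comp ?_
  exact Tendsto.const_mul_atTop (by positivity) (C.diag k)

theorem Cusp.kp {g : ℕ} (C : Cusp g) (hg : 3 ≤ g) {W0 : Fin g → ℂ} (hW0 : W0 ∈ C.Lim)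
    {J : Finset (Fin g)} (hJ : J.card = 3) (hJ0 : ∀ j ∈ J, W0 j ≠ 0)
    (hdet : (Hes C.q J W0).det ≠ 0) :
    ∃ δ > 0, ∀ W : Fin g → ℂ, (∀ k, ‖W k - W0 k‖ < δ) → (∀ j ∈ J, Dq C.q {j} W = 0) →
      W ∈ C.Lim := by
  classical
  obtain ⟨c, δ₁, δ, hc, hδ₁, hδ, htube⟩ := C.tubeN hg hW0 hJ hJ0 hdet
  obtain ⟨δ₂, hδ₂, hcov⟩ := C.cover W0 J hJ0 (lt_min hδ hδ₁)
  refine ⟨δ₂, hδ₂, fun W hW hD => ?_⟩
  obtain ⟨x', s, hx', hWx, hs, hWv, hWm⟩ := hcov W hW
  set zn : ℕ → Fin g → ℂ := fun n => glue J (zJ (C.τ n) W0 J + x') (s n) with hzn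
  set R : ℕ → ({k // k ∈ J} → ℂ) := fun n => (fun j : {k // k ∈ J} =>
    th (C.τ n) [(j : Fin g)] (zn n)) with hR
  have hth : Tendsto R (C.U : Filter ℕ) (𝓝 0) := by
    rw [tendsto_pi_nhds]
    intro j
    have := C.th_tendsto zn hWv hWm [(j : Fin g)] (by simp)
    have e : Dq C.q [(j : Fin g)].toFinset W = 0 := by
      have := hD j j.2
      simpa using this
    rw [e] at this
    exact this
  have hchoice : ∀ n, ∃ x : {k // k ∈ J} → ℂ,
      ((∀ s ∈ DnSet (C.τ n) W0 J δ, ∃ x : {k // k ∈ J} → ℂ, ‖x‖ < δ₁ / 2 ∧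
        glue J (zJ (C.τ n) W0 J + x) s ∈ C.M n ∧
        ∀ x' ∈ ball (0 : {k // k ∈ J} → ℂ) δ₁, c * ‖x - x'‖ ≤
          ‖(fun j : {k // k ∈ J} => th (C.τ n) [(j : Fin g)]
            (glue J (zJ (C.τ n) W0 J + x') s))‖) ∧ s n ∈ DnSet (C.τ n) W0 J δ) →
      glue J (zJ (C.τ n) W0 J + x) (s n) ∈ C.M n ∧ c * ‖x - x'‖ ≤ ‖R n‖ := by
    intro n
    by_cases h : (∀ s ∈ DnSet (C.τ n) W0 J δ, ∃ x : {k // k ∈ J} → ℂ, ‖x‖ < δ₁ / 2 ∧
        glue J (zJ (C.τ n) W0 J + x) s ∈ C.M n ∧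
        ∀ x' ∈ ball (0 : {k // k ∈ J} → ℂ) δ₁, c * ‖x - x'‖ ≤
          ‖(fun j : {k // k ∈ J} => th (C.τ n) [(j : Fin g)]
            (glue J (zJ (C.τ n) W0 J + x') s))‖) ∧ s n ∈ DnSet (C.τ n) W0 J δ
    · obtain ⟨x, -, h2, h3⟩ := h.1 (s n) h.2
      refine ⟨x, fun _ => ⟨h2, h3 x' ?_⟩⟩
      rw [mem_ball_zero_iff]
      exact lt_of_lt_of_le hx' (min_le_right _ _)
    · exact ⟨0, fun h' => absurd h' h⟩
  choose x hx using hchoice
  have hev : ∀ᶠ n in (C.U : Filter ℕ),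
      glue J (zJ (C.τ n) W0 J + x n) (s n) ∈ C.M n ∧ c * ‖x n - x'‖ ≤ ‖R n‖ := by
    filter_upwards [htube, hs] with n h1 h2
    exact hx n ⟨h1, DnSet_mono _ _ _ (min_le_left _ _) h2⟩
  have hxlim : Tendsto x (C.U : Filter ℕ) (𝓝 x') := by
    rw [tendsto_iff_norm_sub_tendsto_zero]
    have h1 : Tendsto (fun n => ‖R n‖ / c) (C.U : Filter ℕ) (𝓝 0) := by
      have := (tendsto_norm_zero.comp hth).div_const c
      simpa using this
    refine squeeze_zero' (Eventually.of_forall fun n => norm_nonneg _) ?_ h1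
    filter_upwards [hev] with n hn
    rw [le_div_iff₀ hc]
    linarith [hn.2]
  have hWne : ∀ k ∈ J, W k ≠ 0 := by
    intro k hk
    have := hWx ⟨k, hk⟩
    simp only at this
    rw [this]
    exact mul_ne_zero (hJ0 k hk) (exp_ne_zero _)
  set p : ℕ → Fin g → ℂ := fun n => glue J (zJ (C.τ n) W0 J + x n) (s n) with hp
  have hpv : ∀ k, Tendsto (fun n => Wv (C.τ n) k (p n)) (C.U : Filter ℕ) (𝓝 (W k)) := by
    intro k
    by_cases hk : k ∈ J
    · have e1 : ∀ n, Wv (C.τ n) k (p n)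
          = W0 k * cexp (-2 * Real.pi * I * x n ⟨k, hk⟩) := by
        intro n
        rw [Wv_eq (C.τ n) (hJ0 k hk)]
        congr 3
        have : p n k = zJ (C.τ n) W0 J ⟨k, hk⟩ + x n ⟨k, hk⟩ := by
          simp only [hp]
          exact glue_mem _ _ ⟨k, hk⟩
        rw [this]
        unfold zJ
        ring
      simp_rw [e1]
      have e2 : W k = W0 k * cexp (-2 * Real.pi * I * x' ⟨k, hk⟩) := hWx ⟨k, hk⟩
      rw [e2]
      refine Tendsto.const_mul _ ?_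
      refine (Complex.continuous_exp.tendsto _).comp ?_
      refine Tendsto.const_mul _ ?_
      exact (tendsto_pi_nhds.1 hxlim) ⟨k, hk⟩
    · have e1 : ∀ n, Wv (C.τ n) k (p n) = Wv (C.τ n) k (zn n) := by
        intro n
        have : p n k = zn n k := by
          simp only [hp, hzn]
          rw [glue_notMem _ _ ⟨k, hk⟩, glue_notMem _ _ ⟨k, hk⟩]
        unfold Wv
        rw [this]
      simp_rw [e1]
      exact hWv k
  have hpm : ∀ k, Tendsto (fun n => Wm (C.τ n) k (p n)) (C.U : Filter ℕ) (𝓝 0) := by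
    intro k
    by_cases hk : k ∈ J
    · have e1 : ∀ n, Wm (C.τ n) k (p n)
          = cexp (2 * Real.pi * I * C.τ n k k) / Wv (C.τ n) k (p n) := by
        intro n
        rw [← Wv_mul_Wm (C.τ n) k (p n), mul_div_cancel_left₀]
        exact exp_ne_zero _
      simp_rw [e1]
      have := (C.exp_diag k).div (hpv k) (hWne k hk)
      rw [zero_div] at this
      exact this
    · have e1 : ∀ n, Wm (C.τ n) k (p n) = Wm (C.τ n) k (zn n) := by
        intro n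
        have : p n k = zn n k := by
          simp only [hp, hzn]
          rw [glue_notMem _ _ ⟨k, hk⟩, glue_notMem _ _ ⟨k, hk⟩]
        unfold Wm
        rw [this]
      simp_rw [e1]
      exact hWm k
  intro ε hε
  have a1 : ∀ᶠ n in (C.U : Filter ℕ), ∀ k, ‖Wv (C.τ n) k (p n) - W k‖ < ε := by
    rw [eventually_all]
    intro k
    exact (tendsto_iff_norm_sub_tendsto_zero.1 (hpv k)).eventually (gt_mem_nhds hε)
  have a2 : ∀ᶠ n in (C.U : Filter ℕ), ∀ k, ‖Wm (C.τ n) k (p n)‖ < ε := by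
    rw [eventually_all]
    intro k
    have := (tendsto_zero_iff_norm_tendsto_zero.1 (hpm k)).eventually (gt_mem_nhds hε)
    exact this
  filter_upwards [hev, a1, a2] with n h1 h2 h3
  exact ⟨p n, h1.1, h2, h3⟩

end AMC
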