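import Pool.Agent.Lib.MP_b57e3c_ag_M.Dn

/-!
# Module Nbd : coordinates on the tube over `DnSet`

For `k ∉ J` with `W0 k = 0`: `z = glue J (zJ + x) s` has `z k = s k` and `‖W_k(z)‖ < δ`, `‖W⁻_k(z)‖ < δ` by
the definition of `DnSet`. For `k ∉ J` with `W0 k ≠ 0`: `W_k(z) = W0 k * exp (-2 π i (s k - z00))` (`Wv_eq`),
`‖s k - z00‖ < δ`; for `k ∈ J`: `W_k(z) = W0 k * exp (-2 π i x k)`, `‖x k‖ < δ`. By continuity of `exp` at `0`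
`δ ≤ δ'` can be chosen such that `‖W_k(z) - W0 k‖ < min δ' (‖W0 k‖/2)` in these cases (finitely many `k`).
Then `‖W⁻_k(z)‖ = ‖exp (2 π i τ_kk)‖ / ‖W_k(z)‖ ≤ 2 exp (-2 π Im τ_kk) / ‖W0 k‖ < δ'` for most `n`
(`Wv_mul_Wm`, `C.diag`).
-/

open Complex Filter Topology Metric

namespace AMC

private theorem Nbd_eps {g : ℕ} (W0 : Fin g → ℂ) {δ' : ℝ} (hδ' : 0 < δ') :
    ∃ δ > 0, δ ≤ δ' ∧ ∀ k, W0 k ≠ 0 → ∀ w : ℂ, ‖w‖ < δ →
      ‖W0 k * cexp (-2 * Real.pi * I * w) - W0 k‖ < min δ' (‖W0 k‖ / 2) := by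
  have h1 : ∀ k, ∀ᶠ δ in 𝓝[>] (0 : ℝ), W0 k ≠ 0 → ∀ w : ℂ, ‖w‖ < δ →
      ‖W0 k * cexp (-2 * Real.pi * I * w) - W0 k‖ < min δ' (‖W0 k‖ / 2) := by
    intro k
    by_cases hk : W0 k = 0
    · exact Eventually.of_forall fun δ h => absurd hk h
    · have hpos : 0 < min δ' (‖W0 k‖ / 2) := by
        have := norm_pos_iff.2 hk
        exact lt_min hδ' (by positivity)
      have hc : ContinuousAt (fun w : ℂ => W0 k * cexp (-2 * Real.pi * I * w)) 0 := by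
        fun_prop
      obtain ⟨ε, hε, h2⟩ := Metric.continuousAt_iff.1 hc _ hpos
      filter_upwards [Ioo_mem_nhdsGT hε] with δ hδ _ w hw
      have h3 := h2 (x := w) (by rw [dist_zero_right]; exact hw.trans hδ.2)
      rwa [mul_zero, Complex.exp_zero, mul_one, dist_eq_norm] at h3
  have h4 : ∀ᶠ δ in 𝓝[>] (0 : ℝ), 0 < δ ∧ δ ≤ δ' := by
    filter_upwards [Ioo_mem_nhdsGT hδ'] with δ hδ
    exact ⟨hδ.1, hδ.2.le⟩
  obtain ⟨δ, h5, h6⟩ := ((eventually_all.2 h1).and h4).exists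
  exact ⟨δ, h6.1, h6.2, h5⟩

private theorem Nbd_diag {g : ℕ} (C : Cusp g) (W0 : Fin g → ℂ) {δ' : ℝ} (hδ' : 0 < δ') :
    ∀ᶠ n in (C.U : Filter ℕ), ∀ k, W0 k ≠ 0 →
      ‖cexp (2 * Real.pi * I * C.τ n k k)‖ < δ' * (‖W0 k‖ / 2) := by
  refine eventually_all.2 fun k => ?_
  by_cases hk : W0 k = 0
  · exact Eventually.of_forall fun n h => absurd hk h
  · have hpos : 0 < δ' * (‖W0 k‖ / 2) := by
      have := norm_pos_iff.2 hk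
      positivity
    have h1 : Tendsto (fun n => Real.exp (-(2 * Real.pi * (C.τ n k k).im))) C.U (𝓝 0) := by
      refine Real.tendsto_exp_neg_atTop_nhds_zero.comp ?_
      exact (C.diag k).const_mul_atTop (by positivity)
    filter_upwards [h1.eventually_lt_const hpos] with n hn _
    rw [Complex.norm_exp]
    have h2 : (2 * Real.pi * I * C.τ n k k : ℂ).re = -(2 * Real.pi * (C.τ n k k).im) := by
      have h3 : (2 * Real.pi * I * C.τ n k k : ℂ) =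
          ((2 * Real.pi : ℝ) : ℂ) * (I * C.τ n k k) := by
        push_cast
        ring
      rw [h3, Complex.re_ofReal_mul, Complex.mul_re, Complex.I_re, Complex.I_im]
      ring
    rw [h2]
    exact hn

private theorem Nbd_main {g : ℕ} {τ : Matrix (Fin g) (Fin g) ℂ} {W0 : Fin g → ℂ} {k : Fin g}
    (hk : W0 k ≠ 0) {δ δ' : ℝ} (h1 : ∀ w : ℂ, ‖w‖ < δ →
      ‖W0 k * cexp (-2 * Real.pi * I * w) - W0 k‖ < min δ' (‖W0 k‖ / 2))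
    (h2 : ‖cexp (2 * Real.pi * I * τ k k)‖ < δ' * (‖W0 k‖ / 2)) {z : Fin g → ℂ}
    (hz : ‖z k - z00 τ W0 k‖ < δ) : ‖Wv τ k z - W0 k‖ < δ' ∧ ‖Wm τ k z‖ < δ' := by
  have h3 := h1 _ hz
  rw [← Wv_eq τ hk z] at h3
  refine ⟨h3.trans_le (min_le_left _ _), ?_⟩
  have h4 : ‖Wv τ k z - W0 k‖ < ‖W0 k‖ / 2 := h3.trans_le (min_le_right _ _)
  have hpos := norm_pos_iff.2 hk
  have h5 : ‖W0 k‖ / 2 < ‖Wv τ k z‖ := by
    have h6 : ‖W0 k‖ - ‖Wv τ k z‖ ≤ ‖W0 k - Wv τ k z‖ := norm_sub_norm_le _ _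
    rw [norm_sub_rev] at h6
    linarith
  have h7 : ‖Wv τ k z‖ * ‖Wm τ k z‖ < δ' * (‖W0 k‖ / 2) := by
    rw [← norm_mul, Wv_mul_Wm]
    exact h2
  have h8 : ‖W0 k‖ / 2 * ‖Wm τ k z‖ ≤ ‖Wv τ k z‖ * ‖Wm τ k z‖ :=
    mul_le_mul_of_nonneg_right h5.le (norm_nonneg _)
  have h9 : ‖Wm τ k z‖ * (‖W0 k‖ / 2) < δ' * (‖W0 k‖ / 2) := by
    rw [mul_comm]
    exact h8.trans_lt h7
  exact lt_of_mul_lt_mul_right h9 (by positivity)

theorem DnSet_mono {g : ℕ} (τ : Matrix (Fin g) (Fin g) ℂ) (W0 : Fin g → ℂ)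
    (J : Finset (Fin g)) {δ δ' : ℝ} (h : δ ≤ δ') : DnSet τ W0 J δ ⊆ DnSet τ W0 J δ' := by
  intro s hs k
  exact ⟨fun hk => ⟨((hs k).1 hk).1.trans_le h, ((hs k).1 hk).2.trans_le h⟩,
    fun hk => ((hs k).2 hk).trans_le h⟩

theorem Cusp.nbd {g : ℕ} (C : Cusp g) (W0 : Fin g → ℂ) (J : Finset (Fin g))
    (hJ0 : ∀ j ∈ J, W0 j ≠ 0) {δ' : ℝ} (hδ' : 0 < δ') :
    ∃ δ > 0, ∀ᶠ n in (C.U : Filter ℕ), ∀ x : {k // k ∈ J} → ℂ, (∀ j, ‖x j‖ < δ) →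
      ∀ s ∈ DnSet (C.τ n) W0 J δ,
        (∀ k, ‖Wv (C.τ n) k (glue J (zJ (C.τ n) W0 J + x) s) - W0 k‖ < δ') ∧
        ∀ k, ‖Wm (C.τ n) k (glue J (zJ (C.τ n) W0 J + x) s)‖ < δ' := by
  obtain ⟨δ, hδ, hδδ, h1⟩ := Nbd_eps W0 hδ'
  refine ⟨δ, hδ, ?_⟩
  filter_upwards [Nbd_diag C W0 hδ'] with n hn x hx s hs
  have h2 : ∀ k, ‖Wv (C.τ n) k (glue J (zJ (C.τ n) W0 J + x) s) - W0 k‖ < δ' ∧
      ‖Wm (C.τ n) k (glue J (zJ (C.τ n) W0 J + x) s)‖ < δ' := by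
    intro k
    by_cases hkJ : k ∈ J
    · refine Nbd_main (hJ0 k hkJ) (h1 k (hJ0 k hkJ)) (hn k (hJ0 k hkJ)) ?_
      have h3 : glue J (zJ (C.τ n) W0 J + x) s k = z00 (C.τ n) W0 k + x ⟨k, hkJ⟩ := by
        unfold glue
        rw [dif_pos hkJ]
        rfl
      rw [h3, add_sub_cancel_left]
      exact hx _
    · have h3 : glue J (zJ (C.τ n) W0 J + x) s k = s ⟨k, hkJ⟩ := by
        unfold glue
        rw [dif_neg hkJ]
      by_cases hk : W0 k = 0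
      · have h4 := (hs ⟨k, hkJ⟩).1 hk
        unfold Wv Wm
        rw [h3, hk, sub_zero]
        exact ⟨h4.1.trans_le hδδ, h4.2.trans_le hδδ⟩
      · refine Nbd_main hk (h1 k hk) (hn k hk) ?_
        rw [h3]
        exact (hs ⟨k, hkJ⟩).2 hk
  exact ⟨fun k => (h2 k).1, fun k => (h2 k).2⟩

end AMC
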