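import Pool.Agent.Lib.MP_b57e3c_ag_M.Dn

/-!
# Module Ner : points of `M n` in the tube

Let `δ'` be given by `near_int` for `δ`, and take `0 < δ'' ≤ δ` with `δ'' ≤ δ' ‖W0 k‖` for all `k` with
`W0 k ≠ 0`. By `W0 ∈ Lim` for most `n` there is `p ∈ C.M n` with `‖W_k(p) - W0 k‖ < δ''`, `‖W⁻_k(p)‖ < δ''`. For
`k` with `W0 k ≠ 0`, `Wv_eq` gives `‖exp (-2 π i (p_k - z00)) - 1‖ < δ'`, so `‖p_k - z00 - n_k‖ < δ` for some
integer `n_k`; put `n_k = 0` for the others. `p' = p - n ∈ C.M n` (`C.inv1`) is `glue J (zJ + x) s` with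
`x = (p' - z00)|_J`, `s = p'|_{J^c}`: `‖x‖ < δ` (pi norm, `pi_norm_lt_iff`), `s ∈ DnSet`: for `k ∉ J` with
`W0 k = 0`, `‖exp (π i τ_kk ∓ 2 π i p_k)‖ = ‖W_k(p)‖, ‖W⁻_k(p)‖ < δ'' ≤ δ`.
-/

open Complex Filter Topology Metric

namespace AMC

theorem Cusp.near_pt {g : ℕ} (C : Cusp g) {W0 : Fin g → ℂ} (hW0 : W0 ∈ C.Lim)
    (J : Finset (Fin g)) (hJ0 : ∀ j ∈ J, W0 j ≠ 0) {δ : ℝ} (hδ : 0 < δ) :
    ∀ᶠ n in (C.U : Filter ℕ), ∃ x ∈ ball (0 : {k // k ∈ J} → ℂ) δ,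
      ∃ s ∈ DnSet (C.τ n) W0 J δ, glue J (zJ (C.τ n) W0 J + x) s ∈ C.M n := by
  obtain ⟨δ', hδ', hni⟩ := near_int hδ
  have hev : ∀ᶠ e in 𝓝[>] (0 : ℝ), 0 < e ∧ e ≤ δ ∧ ∀ k, W0 k ≠ 0 → e ≤ δ' * ‖W0 k‖ := by
    have h1 : ∀ᶠ e in 𝓝[>] (0 : ℝ), e ∈ Set.Ioc 0 δ := Ioc_mem_nhdsGT hδ
    have h2 : ∀ᶠ e in 𝓝[>] (0 : ℝ), ∀ k, W0 k ≠ 0 → e ≤ δ' * ‖W0 k‖ := by
      refine Filter.eventually_all.2 fun k => ?_
      by_cases hk : W0 k = 0
      · exact Filter.Eventually.of_forall fun e h => absurd hk h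
      · have h3 : 0 < δ' * ‖W0 k‖ := mul_pos hδ' (norm_pos_iff.2 hk)
        have h4 : ∀ᶠ e in 𝓝[>] (0 : ℝ), e ∈ Set.Ioc 0 (δ' * ‖W0 k‖) := Ioc_mem_nhdsGT h3
        exact h4.mono fun e he _ => he.2
    filter_upwards [h1, h2] with e he he'
    exact ⟨he.1, he.2, he'⟩
  obtain ⟨e, he0, heδ, heW⟩ := hev.exists
  have h1 := hW0 e he0
  filter_upwards [h1] with n hn
  obtain ⟨p, hp, hv, hm⟩ := hn
  have hex : ∀ k, ∃ N : ℤ, (W0 k = 0 → N = 0) ∧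
      (W0 k ≠ 0 → ‖p k - z00 (C.τ n) W0 k - N‖ < δ) := by
    intro k
    by_cases hk : W0 k = 0
    · exact ⟨0, fun _ => rfl, fun h => absurd hk h⟩
    · have h2 := hv k
      rw [Wv_eq (C.τ n) hk p] at h2
      have h3 : W0 k * cexp (-2 * Real.pi * I * (p k - z00 (C.τ n) W0 k)) - W0 k =
          W0 k * (cexp (-2 * Real.pi * I * (p k - z00 (C.τ n) W0 k)) - 1) := by ring
      rw [h3, norm_mul] at h2
      have h4 : ‖W0 k‖ * ‖cexp (-2 * Real.pi * I * (p k - z00 (C.τ n) W0 k)) - 1‖ <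
          ‖W0 k‖ * δ' := by
        calc _ < e := h2
          _ ≤ δ' * ‖W0 k‖ := heW k hk
          _ = _ := mul_comm _ _
      obtain ⟨N, hN⟩ := hni _ (lt_of_mul_lt_mul_left h4 (norm_nonneg _))
      exact ⟨N, fun h => absurd h hk, fun _ => hN⟩
  choose N hN0 hN using hex
  have hp' := C.inv1 n p hp (fun i => - N i)
  set p' : Fin g → ℂ := fun i => p i + ((- N i : ℤ) : ℂ) with hp'd
  have hpk : ∀ k, p' k - z00 (C.τ n) W0 k = p k - z00 (C.τ n) W0 k - N k := by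
    intro k
    simp only [hp'd]
    push_cast
    ring
  refine ⟨fun k => p' k - z00 (C.τ n) W0 k, ?_, fun k => p' k, ?_, ?_⟩
  · rw [mem_ball_zero_iff, pi_norm_lt_iff hδ]
    intro k
    rw [hpk]
    exact hN k (hJ0 k k.2)
  · intro k
    refine ⟨fun hk => ?_, fun hk => ?_⟩
    · have h5 : p' (k : Fin g) = p k := by
        simp only [hp'd, hN0 k hk]
        simp
      beta_reduce
      rw [h5]
      have h6 := hv k
      rw [hk, sub_zero] at h6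
      exact ⟨h6.trans_le heδ, (hm k).trans_le heδ⟩
    · rw [hpk]
      exact hN k hk
  · have h7 : glue J (zJ (C.τ n) W0 J + fun k : {k // k ∈ J} => p' k - z00 (C.τ n) W0 k)
        (fun k : {k // k ∉ J} => p' k) = p' := by
      funext i
      unfold glue
      by_cases hi : i ∈ J
      · rw [dif_pos hi]
        show z00 (C.τ n) W0 i + (p' i - z00 (C.τ n) W0 i) = p' i
        ring
      · rw [dif_neg hi]
    rw [h7]
    exact hp'

end AMC
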