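import Pool.Agent.Lib.MP_b57e3c_ag_M.Defs

/-! # Definitions for the limit problem -/

open Complex Filter Topology

namespace AMC

/-- `q` is of hyperelliptic type on `T`, with parameters `a` -/
def Good {g : ℕ} (q : Fin g → Fin g → ℂ) (a : Fin g → ℂ) (T : Finset (Fin g)) : Prop :=
  (∀ i ∈ T, a i ≠ 0) ∧ ∀ i ∈ T, ∀ j ∈ T, i ≠ j →
    a i ≠ a j ∧ a i + a j ≠ 0 ∧ q i j = ((a i - a j) / (a i + a j)) ^ 2

/-- the singular point with support `J` (`card J = 3`) -/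
noncomputable def pt {g : ℕ} (a : Fin g → ℂ) (J : Finset (Fin g)) : Fin g → ℂ :=
  fun i => if i ∈ J then - ∏ l ∈ J.erase i, (a i + a l) / (a i - a l) else 0

/-- the curve of singular points supported on `T` (`card T = 4`) -/
noncomputable def gam {g : ℕ} (a : Fin g → ℂ) (T : Finset (Fin g)) (x : ℂ) : Fin g → ℂ :=
  fun i => if i ∈ T then (∏ l ∈ T.erase i, (a i + a l) / (a i - a l)) * ((x - a i) / (x + a i))
    else 0

/-- the `3 × 3` block of the logarithmic Hessian -/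
noncomputable def Hes {g : ℕ} (q : Fin g → Fin g → ℂ) (J : Finset (Fin g)) (W : Fin g → ℂ) :
    Matrix {k // k ∈ J} {k // k ∈ J} ℂ :=
  Matrix.of fun i j : {k // k ∈ J} => Dq q {(i : Fin g), (j : Fin g)} W

/-- the limit problem: a closed set of singular points of `F = ∑ q_S W^S` which is locally equal to
`{D_J F = 0}` at the points where the `J`-block of the Hessian is invertible -/
structure LimData (g : ℕ) where
  q : Fin g → Fin g → ℂ
  L : Set (Fin g → ℂ)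
  sym : ∀ i j, q i j = q j i
  ne0 : ∀ i j, i ≠ j → q i j ≠ 0
  ne1 : ∀ i j, i ≠ j → q i j ≠ 1
  closed : IsClosed L
  sing : ∀ W ∈ L, ∀ A : Finset (Fin g), A.card ≤ 1 → Dq q A W = 0
  kp : ∀ W0 ∈ L, ∀ J : Finset (Fin g), J.card = 3 → (∀ j ∈ J, W0 j ≠ 0) →
    (Hes q J W0).det ≠ 0 → ∃ δ > 0, ∀ W : Fin g → ℂ, (∀ k, ‖W k - W0 k‖ < δ) →
      (∀ j ∈ J, Dq q {j} W = 0) → W ∈ L

/-- the tensor of `F` in three variables when the fourth one is `w` -/
def tens (q12 q13 q23 q1 q2 q3 w : ℂ) : Bool → Bool → Bool → ℂ := fun x y z =>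
  (if x && y then q12 else 1) * (if x && z then q13 else 1) * (if y && z then q23 else 1) *
    (1 + w * ((if x then q1 else 1) * (if y then q2 else 1) * (if z then q3 else 1)))

/-- first obstruction -/
def obP (e1 e2 e3 q1 q2 q3 : ℂ) : ℂ :=
  1 + e1 * (q1 + q2 * q3) + e2 * (q2 + q1 * q3) + e3 * (q3 + q1 * q2) + q1 * q2 * q3

/-- `x² + y² + z² - 2 x y - 2 y z - 2 x z` -/
def kal (x y z : ℂ) : ℂ := x ^ 2 + y ^ 2 + z ^ 2 - 2 * x * y - 2 * y * z - 2 * x * z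

/-- second obstruction -/
def obL (e1 e2 e3 q1 q2 q3 : ℂ) : ℂ :=
  kal ((1 + e1) * (q1 * (e1 + e3 * q2 + e2 * q3 + q2 * q3)))
    ((1 + e2) * (q2 * (e2 + e3 * q1 + e1 * q3 + q1 * q3)))
    ((1 + e3) * (q3 * (e3 + e2 * q1 + e1 * q2 + q1 * q2)))

/-- the hyperdeterminant of a triple -/
def trp (x y z : ℂ) : ℂ :=
  x ^ 2 * y ^ 2 * z ^ 2 + x ^ 2 + y ^ 2 + z ^ 2 - 2 * x * y * z * (x + y + z)
    - 2 * (x * y + y * z + z * x) + 8 * x * y * z

end AMC
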