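import Pool.Agent.Lib.MP_b57e3c_ag_M.Apx
import Pool.Agent.Lib.MP_b57e3c_ag_M.Tub
import Pool.Agent.Lib.MP_b57e3c_ag_M.Nbd
import Pool.Agent.Lib.MP_b57e3c_ag_M.Ner
import Pool.Agent.Lib.MP_b57e3c_ag_M.Ldef

/-!
# Module TbN : near a point of the limit set, `M n` is the graph `{D_J θ = 0}` over a big domain

Let `A` be the linear map `(A v) i = ∑_{j ∈ J} (- 2 π i) Dq C.q {i, j} W0 * v j` on `{k // k ∈ J} → ℂ`. It is
injective by `hdet`, so `c₀ ‖v‖ ≤ ‖A v‖` for some `c₀ > 0` (finite dimension). For fixed `n` put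
`τ = C.τ n`, `Ψ z = (th τ [j] z)_{j ∈ J}`, differentiable (`hasFDerivAt_th`), with
`(fderiv Ψ z (glue J v 0)) i = ∑_{j ∈ J} (- 2 π i) th τ [j, i] z * v j`; `Ψ = 0` on `C.M n`
(`C.sub`, `mem_sing`). (Note `[j, i].toFinset = {i, j}`, also for `i = j`.)
1. By `apx` for the lists `[j, i]` there is `δ_A` such that for most `n`, for all `z` with
`‖W_k(z) - W0 k‖ < δ_A`, `‖W⁻_k(z)‖ < δ_A` for all `k`: `‖fderiv Ψ z (glue J v 0) - A v‖ ≤ (c₀/2) ‖v‖`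
(take `κ` with `3 * 2 π κ ≤ c₀/2`). Let `δ₁` be given by `nbd` for `δ_A`.
2. By `apx` for the lists `[j]` (`Dq C.q {j} W0 = 0` by `lim_sing`) there is `δ_B` such that for
most `n`, for all `z` with `‖W_k(z) - W0 k‖ < δ_B`, `‖W⁻_k(z)‖ < δ_B`: `‖Ψ z‖ < c₀ δ₁ / 8`. Let `δ_2` be
given by `nbd` for `δ_B` and `δ = min δ₁ δ_2`. By `DnSet_mono` the hypotheses `h1`, `h2` of `tube` hold for
most `n` with `D = DnSet (C.τ n) W0 J δ`, `m = g - 3`, `z0 = zJ (C.τ n) W0 J`.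
3. `hne` is `near_pt` (for `δ`, `ball 0 δ ⊆ ball 0 δ₁`).
Conclusion by `tube`, with `c = c₀/2`.
-/

open Complex Filter Topology Metric

namespace AMC

private theorem TbN_fin {ι : Type*} [Finite ι] {P : ι → ℝ → Prop}
    (hm : ∀ i δ δ', δ' ≤ δ → P i δ → P i δ') (h : ∀ i, ∃ δ > 0, P i δ) :
    ∃ δ > 0, ∀ i, P i δ := by
  have h1 : ∀ᶠ δ in 𝓝[>] (0 : ℝ), ∀ i, P i δ := by
    rw [Filter.eventually_all]
    intro i
    obtain ⟨δ, hδ, hP⟩ := h i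
    filter_upwards [Ioc_mem_nhdsGT hδ] with x hx
    exact hm i δ x hx.2 hP
  obtain ⟨δ, h2, h3⟩ := (h1.and self_mem_nhdsWithin).exists
  exact ⟨δ, h3, h2⟩

private theorem TbN_glue {g : ℕ} (J : Finset (Fin g)) (F : Fin g → ℂ)
    (v : {k // k ∈ J} → ℂ) :
    ∑ i, F i * glue J v 0 i = ∑ i : {k // k ∈ J}, F i * v i := by
  have h1 : ∑ i, F i * glue J v 0 i = ∑ i ∈ J, F i * glue J v 0 i := by
    symm
    refine Finset.sum_subset (Finset.subset_univ _) fun i _ hi => ?_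
    have : glue J v 0 i = 0 := by
      unfold glue
      rw [dif_neg hi]
      rfl
    rw [this, mul_zero]
  rw [h1, ← Finset.sum_coe_sort J]
  refine Finset.sum_congr rfl fun i _ => ?_
  have : glue J v 0 (i : Fin g) = v i := by
    unfold glue
    rw [dif_pos i.2]
  rw [this]

/-- the linear map -/
private noncomputable def TbN_A {g : ℕ} (q : Fin g → Fin g → ℂ) (J : Finset (Fin g))
    (W : Fin g → ℂ) : ({k // k ∈ J} → ℂ) →ₗ[ℂ] ({k // k ∈ J} → ℂ) :=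
  Matrix.mulVecLin ((-2 * Real.pi * I) • Hes q J W)

private theorem TbN_A_apply {g : ℕ} (q : Fin g → Fin g → ℂ) (J : Finset (Fin g))
    (W : Fin g → ℂ) (v : {k // k ∈ J} → ℂ) (j : {k // k ∈ J}) :
    TbN_A q J W v j = ∑ i : {k // k ∈ J},
      (-2 * Real.pi * I) * Dq q {(j : Fin g), (i : Fin g)} W * v i := by
  unfold TbN_A
  rw [Matrix.mulVecLin_apply]
  rfl

private theorem TbN_low {g : ℕ} (q : Fin g → Fin g → ℂ) (J : Finset (Fin g))
    (W : Fin g → ℂ) (hdet : (Hes q J W).det ≠ 0) :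
    ∃ c > 0, ∀ x, c * ‖x‖ ≤ ‖TbN_A q J W x‖ := by
  have hpi : (-2 * Real.pi * I : ℂ) ≠ 0 := by
    simp [Real.pi_ne_zero]
  have hker : LinearMap.ker (TbN_A q J W) = ⊥ := by
    rw [LinearMap.ker_eq_bot']
    intro v hv
    unfold TbN_A at hv
    rw [Matrix.mulVecLin_apply] at hv
    refine Matrix.eq_zero_of_mulVec_eq_zero ?_ hv
    rw [Matrix.det_smul]
    exact mul_ne_zero (pow_ne_zero _ hpi) hdet
  obtain ⟨K, hK, hanti⟩ := LinearMap.exists_antilipschitzWith (TbN_A q J W) hker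
  have hK' : (0 : ℝ) < K := by exact_mod_cast hK
  refine ⟨(K : ℝ)⁻¹, inv_pos.2 hK', fun x => ?_⟩
  have h1 := hanti.le_mul_dist x 0
  rw [map_zero, dist_zero_right, dist_zero_right] at h1
  rw [inv_mul_le_iff₀ hK']
  exact h1

theorem Cusp.tubeN {g : ℕ} (C : Cusp g) (hg : 3 ≤ g) {W0 : Fin g → ℂ} (hW0 : W0 ∈ C.Lim)
    {J : Finset (Fin g)} (hJ : J.card = 3) (hJ0 : ∀ j ∈ J, W0 j ≠ 0)
    (hdet : (Hes C.q J W0).det ≠ 0) :
    ∃ c δ₁ δ : ℝ, 0 < c ∧ 0 < δ₁ ∧ 0 < δ ∧ ∀ᶠ n in (C.U : Filter ℕ),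
      ∀ s ∈ DnSet (C.τ n) W0 J δ, ∃ x : {k // k ∈ J} → ℂ, ‖x‖ < δ₁ / 2 ∧
        glue J (zJ (C.τ n) W0 J + x) s ∈ C.M n ∧
        ∀ x' ∈ ball (0 : {k // k ∈ J} → ℂ) δ₁, c * ‖x - x'‖ ≤
          ‖(fun j : {k // k ∈ J} => th (C.τ n) [(j : Fin g)]
            (glue J (zJ (C.τ n) W0 J + x') s))‖ := by
  obtain ⟨c₀, hc₀, hA⟩ := TbN_low C.q J W0 hdet
  have hpi := Real.pi_pos
  -- the second derivatives
  have hκ : 0 < c₀ / (12 * Real.pi) := by positivity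
  obtain ⟨δA, hδA, hA2⟩ : ∃ δ > 0, ∀ ij : Fin g × Fin g, ∀ᶠ n in (C.U : Filter ℕ),
      ∀ z : Fin g → ℂ, (∀ k, ‖Wv (C.τ n) k z - W0 k‖ < δ) → (∀ k, ‖Wm (C.τ n) k z‖ < δ) →
        ‖th (C.τ n) [ij.1, ij.2] z - Dq C.q {ij.1, ij.2} W0‖ < c₀ / (12 * Real.pi) := by
    refine TbN_fin (fun ij δ δ' hδ h => ?_) (fun ij => ?_)
    · filter_upwards [h] with n hn z h1 h2
      exact hn z (fun k => (h1 k).trans_le hδ) (fun k => (h2 k).trans_le hδ)
    · obtain ⟨δ, hδ, h⟩ := C.apx [ij.1, ij.2] (by simp) W0 hκ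
      refine ⟨δ, hδ, ?_⟩
      have e : [ij.1, ij.2].toFinset = {ij.1, ij.2} := by simp
      rw [e] at h
      exact h
  obtain ⟨δ₁, hδ₁, hN1⟩ := C.nbd W0 J hJ0 hδA
  -- the first derivatives
  have hκB : 0 < c₀ * δ₁ / 8 := by positivity
  obtain ⟨δB, hδB, hB2⟩ : ∃ δ > 0, ∀ j : Fin g, ∀ᶠ n in (C.U : Filter ℕ),
      ∀ z : Fin g → ℂ, (∀ k, ‖Wv (C.τ n) k z - W0 k‖ < δ) → (∀ k, ‖Wm (C.τ n) k z‖ < δ) →
        ‖th (C.τ n) [j] z‖ < c₀ * δ₁ / 8 := by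
    refine TbN_fin (fun j δ δ' hδ h => ?_) (fun j => ?_)
    · filter_upwards [h] with n hn z h1 h2
      exact hn z (fun k => (h1 k).trans_le hδ) (fun k => (h2 k).trans_le hδ)
    · obtain ⟨δ, hδ, h⟩ := C.apx [j] (by simp) W0 hκB
      refine ⟨δ, hδ, ?_⟩
      have e : [j].toFinset = {j} := by simp
      rw [e, C.lim_sing hW0 {j} (by simp)] at h
      simpa using h
  obtain ⟨δ₂, hδ₂, hN2⟩ := C.nbd W0 J hJ0 hδB
  have hδ : 0 < min δ₁ δ₂ := lt_min hδ₁ hδ₂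
  refine ⟨c₀ / 2, δ₁, min δ₁ δ₂, by positivity, hδ₁, hδ, ?_⟩
  rw [← Filter.eventually_all] at hA2 hB2
  filter_upwards [hA2, hN1, hB2, hN2, C.near_pt hW0 J hJ0 hδ] with n hA2 hN1 hB2 hN2 hpt
  have hτ := C.siegel n
  have hder : ∀ z, HasFDerivAt (fun z => fun j : {k // k ∈ J} => th (C.τ n) [(j : Fin g)] z)
      (ContinuousLinearMap.pi fun j : {k // k ∈ J} =>
        ∑ i, (- 2 * Real.pi * I * th (C.τ n) (i :: [(j : Fin g)]) z) •
        (ContinuousLinearMap.proj i : (Fin g → ℂ) →L[ℂ] ℂ)) z := fun z =>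
    hasFDerivAt_pi.2 fun j => hasFDerivAt_th hτ [(j : Fin g)] z
  have hcard : Fintype.card {k // k ∈ J} = 3 := by
    rw [Fintype.card_coe, hJ]
  refine tube (m := g - 3) J (by omega) (C.closed n) (C.mp n)
    (fun z => fun j : {k // k ∈ J} => th (C.τ n) [(j : Fin g)] z)
    (fun z => (hder z).differentiableAt) ?_ (zJ (C.τ n) W0 J) (DnSet (C.τ n) W0 J (min δ₁ δ₂))
    (isOpen_DnSet _ _ _ _) (isPreconnected_DnSet _ _ _ _)
    (LinearMap.toContinuousLinearMap (TbN_A C.q J W0)) hc₀ hδ₁ hA ?_ ?_ ?_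
  · intro z hz
    have h1 := ((mem_sing hτ z).1 (C.sub n hz)).2
    funext j
    exact h1 j
  · intro x hx s hs v
    rw [mem_ball_zero_iff] at hx
    have hxj : ∀ j, ‖x j‖ < δ₁ := fun j => (norm_le_pi_norm x j).trans_lt hx
    obtain ⟨h1, h2⟩ := hN1 x hxj s (DnSet_mono _ _ _ (min_le_left _ _) hs)
    rw [(hder _).fderiv]
    refine (pi_norm_le_iff_of_nonneg (by positivity)).2 fun j => ?_
    have e1 : ((ContinuousLinearMap.pi fun j : {k // k ∈ J} =>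
        ∑ i, (- 2 * Real.pi * I * th (C.τ n) (i :: [(j : Fin g)])
          (glue J (zJ (C.τ n) W0 J + x) s)) •
        (ContinuousLinearMap.proj i : (Fin g → ℂ) →L[ℂ] ℂ)) (glue J v 0) -
        (LinearMap.toContinuousLinearMap (TbN_A C.q J W0)) v) j =
        ∑ i : {k // k ∈ J}, (-2 * Real.pi * I) * (th (C.τ n) [(i : Fin g), (j : Fin g)]
          (glue J (zJ (C.τ n) W0 J + x) s) - Dq C.q {(i : Fin g), (j : Fin g)} W0) * v i := by
      rw [Pi.sub_apply, ContinuousLinearMap.pi_apply, sum_apply,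
        LinearMap.coe_toContinuousLinearMap', TbN_A_apply]
      have e2 : ∀ i : Fin g, ((- 2 * Real.pi * I * th (C.τ n) (i :: [(j : Fin g)])
          (glue J (zJ (C.τ n) W0 J + x) s)) •
          (ContinuousLinearMap.proj i : (Fin g → ℂ) →L[ℂ] ℂ)) (glue J v 0) =
          (- 2 * Real.pi * I * th (C.τ n) (i :: [(j : Fin g)])
          (glue J (zJ (C.τ n) W0 J + x) s)) * glue J v 0 i := fun i => rfl
      simp only [e2]
      rw [TbN_glue J (fun i => - 2 * Real.pi * I * th (C.τ n) (i :: [(j : Fin g)])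
          (glue J (zJ (C.τ n) W0 J + x) s)) v, ← Finset.sum_sub_distrib]
      refine Finset.sum_congr rfl fun i _ => ?_
      rw [Finset.pair_comm (j : Fin g) (i : Fin g)]
      ring
    rw [e1]
    refine (norm_sum_le _ _).trans ?_
    have h3 : ∀ i ∈ (Finset.univ : Finset {k // k ∈ J}),
        ‖(-2 * Real.pi * I) * (th (C.τ n) [(i : Fin g), (j : Fin g)]
          (glue J (zJ (C.τ n) W0 J + x) s) - Dq C.q {(i : Fin g), (j : Fin g)} W0) * v i‖ ≤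
        (2 * Real.pi) * (c₀ / (12 * Real.pi)) * ‖v‖ := by
      intro i _
      rw [norm_mul, norm_mul]
      have e3 : ‖(-2 * Real.pi * I : ℂ)‖ = 2 * Real.pi := by
        simp [abs_of_pos hpi]
      rw [e3]
      have h4 := (hA2 ((i : Fin g), (j : Fin g)) _ h1 h2).le
      have h5 := norm_le_pi_norm v i
      gcongr
    refine (Finset.sum_le_sum h3).trans ?_
    rw [Finset.sum_const, Finset.card_univ, hcard, nsmul_eq_mul]
    have h6 : ((3 : ℕ) : ℝ) * ((2 * Real.pi) * (c₀ / (12 * Real.pi)) * ‖v‖) = c₀ / 2 * ‖v‖ := by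
      field_simp
      norm_num
    rw [h6]
  · intro s hs
    have h0 : ∀ j : {k // k ∈ J}, ‖(0 : {k // k ∈ J} → ℂ) j‖ < δ₂ := fun j => by
      simpa using hδ₂
    obtain ⟨h1, h2⟩ := hN2 0 h0 s (DnSet_mono _ _ _ (min_le_right _ _) hs)
    rw [add_zero] at h1 h2
    exact (pi_norm_lt_iff hκB).2 fun j => hB2 j _ h1 h2
  · obtain ⟨x, hx, s, hs, h⟩ := hpt
    exact ⟨x, ball_subset_ball (min_le_left _ _) hx, s, hs, h⟩

end AMC
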