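import Pool.Agent.Lib.MP_b57e3c_ag_M.Mex
import Pool.Agent.Lib.MP_b57e3c_ag_M.Apx
import Pool.Agent.Lib.MP_b57e3c_ag_M.Dn
import Pool.Agent.Lib.MP_b57e3c_ag_M.TbN
import Pool.Agent.Lib.MP_b57e3c_ag_M.Kp
import Pool.Agent.Lib.MP_b57e3c_ag_M.Cen
import Pool.Agent.Lib.MP_b57e3c_ag_M.Nbd
import Pool.Agent.Lib.MP_b57e3c_ag_M.Ner
import Pool.Agent.Lib.MP_b57e3c_ag_M.Cov
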