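import Pool.Agent.Lib.MP_b57e3c_ag_M.Tlm
import Pool.Agent.Lib.MP_b57e3c_ag_M.Sel
import Pool.Agent.Lib.MP_b57e3c_ag_M.Apx

/-!
# Module Sed : the limit set contains a point with support of three indices

For each `n`, `exists_point` (`d = g - 3`, `C.closed`, `C.ne`, `C.mp`, `C.inv1`, `C.inv2`) gives
`p n ∈ C.M n` with `y`-coordinates in `[0,1)`, and `Z n = {k | yc = 0}` with at least `g - 3` elements. Along the
ultrafilter `Z n` is constant, `= Z` (finitely many values). By `im_eq`,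
`Im (p n)_k = Im τ_kk · y_k + (error)`, `|error| ≤ g |B|` (`C.bd`, `0 ≤ y ≤ 1`). With
`T_k = Im τ_kk → ∞`: `‖W⁻_k‖ = exp (-π T_k - 2π Im p_k) ≤ exp (- π T_k + 2 π g |B|) → 0`,
`‖W_k‖ ‖W⁻_k‖ = exp (-2π T_k) → 0`, `‖W_k‖ (‖W_k‖ ‖W⁻_k‖) = exp (- 3 π T_k + 2 π Im p_k)
≤ exp (- π T_k + 2 π g |B|) → 0`, and for `k ∈ Z`: `‖W_k‖ = exp (-π T_k + 2π Im p_k) → 0`. So by `dom` (with
`B' = exp (2 π |B|)`), for every `κ > 0`, for most `n`:
`‖th τ L p - Dq (qq τ) L.toFinset W‖ ≤ κ ∏ (1 + ‖W_k‖)` for `L = []`, `[i]`, and `th τ L p = 0`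
(`C.sub`, `mem_sing`). `limit_seed` with `qn n = qq (C.τ n)` gives the statement with `J = Zᶜ`
(`g ≤ card Z + 3`); `W(p n) → e`, `W⁻ (p n) → 0` show `e ∈ C.Lim`.
-/

open Complex Filter Topology

namespace AMC

private theorem Sed_nv {g : ℕ} (τ : Matrix (Fin g) (Fin g) ℂ) (k : Fin g) (z : Fin g → ℂ) :
    ‖Wv τ k z‖ = Real.exp (-Real.pi * (τ k k).im + 2 * Real.pi * (z k).im) := by
  unfold Wv
  rw [Complex.norm_exp]
  congr 1
  simp [mul_assoc]

private theorem Sed_nm {g : ℕ} (τ : Matrix (Fin g) (Fin g) ℂ) (k : Fin g) (z : Fin g → ℂ) :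
    ‖Wm τ k z‖ = Real.exp (-Real.pi * (τ k k).im - 2 * Real.pi * (z k).im) := by
  unfold Wm
  rw [Complex.norm_exp]
  congr 1
  simp [mul_assoc]
  ring

private theorem Sed_im {g : ℕ} {τ : Matrix (Fin g) (Fin g) ℂ} (hτ : AM.Siegel τ) {B : ℝ}
    (hB : ∀ i j, i ≠ j → |(τ i j).im| ≤ B) {z : Fin g → ℂ}
    (hz : ∀ i, 0 ≤ yc τ i z ∧ yc τ i z < 1) (k : Fin g) :
    |(z k).im - (τ k k).im * yc τ k z| ≤ g * |B| := by
  rw [im_eq hτ k z, ← Finset.add_sum_erase Finset.univ _ (Finset.mem_univ k), add_sub_cancel_left]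
  calc |∑ j ∈ Finset.univ.erase k, (τ k j).im * yc τ j z|
      ≤ ∑ j ∈ Finset.univ.erase k, |(τ k j).im * yc τ j z| := Finset.abs_sum_le_sum_abs _ _
    _ ≤ ∑ _j ∈ Finset.univ.erase k, |B| := by
        refine Finset.sum_le_sum fun j hj => ?_
        have h1 : k ≠ j := (Finset.ne_of_mem_erase hj).symm
        have h2 := (hB k j h1).trans (le_abs_self B)
        rw [abs_mul, abs_of_nonneg (hz j).1]
        calc |(τ k j).im| * yc τ j z ≤ |B| * 1 :=
              mul_le_mul h2 (hz j).2.le (hz j).1 (abs_nonneg B)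
          _ = |B| := mul_one _
    _ = ((Finset.univ.erase k).card : ℝ) * |B| := by rw [Finset.sum_const, nsmul_eq_mul]
    _ ≤ g * |B| := by
        refine mul_le_mul_of_nonneg_right ?_ (abs_nonneg B)
        have h3 : (Finset.univ.erase k).card ≤ g := by
          have := Finset.card_le_univ (Finset.univ.erase k)
          rwa [Fintype.card_fin] at this
        exact_mod_cast h3

private theorem Sed_bd {g : ℕ} {τ : Matrix (Fin g) (Fin g) ℂ} (hτ : AM.Siegel τ) {B : ℝ}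
    (hB : ∀ i j, i ≠ j → |(τ i j).im| ≤ B) {z : Fin g → ℂ}
    (hz : ∀ i, 0 ≤ yc τ i z ∧ yc τ i z < 1) (k : Fin g) (hT : 0 ≤ (τ k k).im) :
    ‖Wm τ k z‖ ≤ Real.exp (-Real.pi * (τ k k).im + 2 * Real.pi * (g * |B|)) ∧
    ‖Wv τ k z‖ * ‖Wm τ k z‖ ≤ Real.exp (-Real.pi * (τ k k).im + 2 * Real.pi * (g * |B|)) ∧
    ‖Wv τ k z‖ * (‖Wv τ k z‖ * ‖Wm τ k z‖) ≤
      Real.exp (-Real.pi * (τ k k).im + 2 * Real.pi * (g * |B|)) ∧
    (yc τ k z = 0 → ‖Wv τ k z‖ ≤
      Real.exp (-Real.pi * (τ k k).im + 2 * Real.pi * (g * |B|))) := by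
  have h1 := abs_le.1 (Sed_im hτ hB hz k)
  have hpi := Real.pi_pos
  have hK : 0 ≤ (g : ℝ) * |B| := by positivity
  have h2 : 0 ≤ (τ k k).im * yc τ k z := mul_nonneg hT (hz k).1
  have h3 : (τ k k).im * yc τ k z ≤ (τ k k).im := by
    have := mul_le_mul_of_nonneg_left (hz k).2.le hT
    linarith
  set T := (τ k k).im
  set K := (g : ℝ) * |B|
  set x := (z k).im
  set y := T * yc τ k z
  have hpT : 0 ≤ Real.pi * T := by positivity
  have hpK : 0 ≤ Real.pi * K := by positivity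
  have hp1 : Real.pi * (-K) ≤ Real.pi * (x - y) := mul_le_mul_of_nonneg_left h1.1 hpi.le
  have hp2 : Real.pi * (x - y) ≤ Real.pi * K := mul_le_mul_of_nonneg_left h1.2 hpi.le
  have hp3 : 0 ≤ Real.pi * y := mul_nonneg hpi.le h2
  have hp4 : Real.pi * y ≤ Real.pi * T := mul_le_mul_of_nonneg_left h3 hpi.le
  rw [Sed_nv, Sed_nm, ← Real.exp_add, ← Real.exp_add]
  refine ⟨Real.exp_le_exp.2 ?_, Real.exp_le_exp.2 ?_, Real.exp_le_exp.2 ?_,
    fun h0 => Real.exp_le_exp.2 ?_⟩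
  · show -Real.pi * T - 2 * Real.pi * x ≤ -Real.pi * T + 2 * Real.pi * K
    nlinarith
  · show (-Real.pi * T + 2 * Real.pi * x) + (-Real.pi * T - 2 * Real.pi * x) ≤
      -Real.pi * T + 2 * Real.pi * K
    nlinarith
  · show (-Real.pi * T + 2 * Real.pi * x) +
      ((-Real.pi * T + 2 * Real.pi * x) + (-Real.pi * T - 2 * Real.pi * x)) ≤
      -Real.pi * T + 2 * Real.pi * K
    nlinarith
  · show -Real.pi * T + 2 * Real.pi * x ≤ -Real.pi * T + 2 * Real.pi * K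
    have h4 : y = 0 := by
      show T * yc τ k z = 0
      rw [h0, mul_zero]
    rw [h4] at hp2
    nlinarith

private theorem Sed_list {g : ℕ} (C : Cusp g) (A : Finset (Fin g)) (hA : A.card ≤ 1) :
    ∃ L : List (Fin g), L.length ≤ 2 ∧ L.toFinset = A ∧
      ∀ n, ∀ p ∈ C.M n, th (C.τ n) L p = 0 := by
  rcases Nat.le_one_iff_eq_zero_or_eq_one.1 hA with h | h
  · rw [Finset.card_eq_zero] at h
    exact ⟨[], by simp, by simp [h], fun n p hp =>
      ((mem_sing (C.siegel n) p).1 (C.sub n hp)).1⟩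
  · obtain ⟨i, h⟩ := Finset.card_eq_one.1 h
    exact ⟨[i], by simp, by simp [h], fun n p hp =>
      ((mem_sing (C.siegel n) p).1 (C.sub n hp)).2 i⟩

theorem Cusp.exists_seed {g : ℕ} (C : Cusp g) (hg : 3 ≤ g) :
    ∃ J : Finset (Fin g), J.card = 3 ∧ ∃ e ∈ C.Lim, (∀ j ∈ J, e j ≠ 0) ∧
      ∀ k, k ∉ J → e k = 0 := by
  classical
  choose p hpM hp01 hpc using fun n => exists_point (C.siegel n) (C.closed n) (C.ne n) (C.mp n)
    (C.inv1 n) (C.inv2 n)
  -- bounds going to zero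
  set b : ℕ → Fin g → ℝ := fun n k =>
    Real.exp (-Real.pi * (C.τ n k k).im + 2 * Real.pi * (g * |C.B|)) with hb
  have hb0 : ∀ k, Tendsto (fun n => b n k) (C.U : Filter ℕ) (𝓝 0) := by
    intro k
    refine Real.tendsto_exp_atBot.comp ?_
    refine tendsto_atBot_add_const_right _ _ ?_
    have h1 := (C.diag k).const_mul_atTop Real.pi_pos
    have h2 := tendsto_neg_atTop_atBot.comp h1
    refine h2.congr fun n => ?_
    show -(Real.pi * (C.τ n k k).im) = -Real.pi * (C.τ n k k).im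
    ring
  have hT : ∀ᶠ n in (C.U : Filter ℕ), ∀ k, 0 ≤ (C.τ n k k).im :=
    eventually_all.2 fun k => (C.diag k).eventually_ge_atTop 0
  have hsmall : ∀ ε > 0, ∀ᶠ n in (C.U : Filter ℕ), ∀ k, b n k < ε := fun ε hε =>
    eventually_all.2 fun k => (hb0 k).eventually_lt_const hε
  -- the index set is constant
  obtain ⟨Z, hZ⟩ := Ultrafilter.eq_pure_of_finite
    (C.U.map fun n => Finset.univ.filter (fun i => yc (C.τ n) i (p n) = 0))
  have hZe : ∀ᶠ n in (C.U : Filter ℕ),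
      Finset.univ.filter (fun i => yc (C.τ n) i (p n) = 0) = Z := by
    have h1 : {Z} ∈ C.U.map fun n => Finset.univ.filter (fun i => yc (C.τ n) i (p n) = 0) := by
      rw [hZ]
      exact Ultrafilter.mem_pure.2 rfl
    exact h1
  have hc : g ≤ Z.card + 3 := by
    obtain ⟨n, hn⟩ := hZe.exists
    have h1 := hpc n
    rw [hn] at h1
    omega
  have hWZ : ∀ k ∈ Z, Tendsto (fun n => Wv (C.τ n) k (p n)) (C.U : Filter ℕ) (𝓝 0) := by
    intro k hk
    refine squeeze_zero_norm' ?_ (hb0 k)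
    filter_upwards [hT, hZe] with n h1 h2
    rw [← h2] at hk
    exact (Sed_bd (C.siegel n) (C.bd n) (hp01 n) k (h1 k)).2.2.2 (Finset.mem_filter.1 hk).2
  have hD : ∀ A : Finset (Fin g), A.card ≤ 1 → ∀ κ > 0, ∀ᶠ n in (C.U : Filter ℕ),
      ‖Dq (qq (C.τ n)) A (fun k => Wv (C.τ n) k (p n))‖ ≤
        κ * ∏ k, (1 + ‖Wv (C.τ n) k (p n)‖) := by
    intro A hA κ hκ
    obtain ⟨L, hL, hLA, hL0⟩ := Sed_list C A hA
    have hB1 : 1 ≤ Real.exp (2 * Real.pi * |C.B|) := Real.one_le_exp (by positivity)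
    obtain ⟨ε, hε, hdom⟩ := dom g hB1 hκ
    filter_upwards [hT, hsmall ε hε] with n h1 h2
    have h3 := fun k => Sed_bd (C.siegel n) (C.bd n) (hp01 n) k (h1 k)
    have h4 := hdom (C.τ n) (C.siegel n) (fun i j hij => Apx.qq_bd (C.bd n i j hij)) (p n)
      (fun k => (h3 k).2.2.1.trans (h2 k).le) (fun k => (h3 k).1.trans (h2 k).le)
      (fun k => (h3 k).2.1.trans (h2 k).le) L hL
    rw [hL0 n (p n) (hpM n), hLA, zero_sub, norm_neg] at h4
    exact h4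
  obtain ⟨h3, e, he0, he1, he⟩ := limit_seed C.U C.lim C.sym C.ne0 C.ne1 hD hc hWZ
  refine ⟨Zᶜ, h3, e, ?_, he0, he1⟩
  intro δ hδ
  have h5 : ∀ᶠ n in (C.U : Filter ℕ), ∀ k, ‖Wv (C.τ n) k (p n) - e k‖ < δ := by
    refine eventually_all.2 fun k => ?_
    have := (Metric.tendsto_nhds.1 (he k)) δ hδ
    filter_upwards [this] with n hn
    rwa [dist_eq_norm] at hn
  filter_upwards [hT, hsmall δ hδ, h5] with n h1 h2 h6
  exact ⟨p n, hpM n, h6, fun k => lt_of_le_of_lt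
    (Sed_bd (C.siegel n) (C.bd n) (hp01 n) k (h1 k)).1 (h2 k)⟩

end AMC
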