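import Pool.Agent.Lib.MP_b57e3c_ag_M.Exp

/-!
# Module Sml : singular points with small support

`W` nonzero exactly on `R`, `card R ≤ 3`. Claim `card R = 3`.
`R = ∅`: `Dq q ∅ W = 1 ≠ 0`. `R = {x}`: `Dq q {x} W = W x = 0`, contradiction. `R = {x, y}`:
`Dq q {x} W = W x (1 + q x y W y) = 0` and symmetrically, so `W y = - 1/q x y = W x`;
`Dq q ∅ W = 1 + W x + W y + q x y W x W y = 1 - 1/q x y = 0` gives `q x y = 1`, contradiction.
(Use `Dq_support`.)
-/

open Complex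

namespace AMC

private theorem Sml_sum1 {g : ℕ} (x : Fin g) (f : Finset (Fin g) → ℂ) :
    ∑ S ∈ ({x} : Finset (Fin g)).powerset, f S = f ∅ + f {x} := by
  have h4 := Finset.sum_powerset_insert (Finset.notMem_empty x) f
  simpa using h4

private theorem Sml_sum2 {g : ℕ} {x y : Fin g} (hxy : x ≠ y) (f : Finset (Fin g) → ℂ) :
    ∑ S ∈ ({x, y} : Finset (Fin g)).powerset, f S = f ∅ + f {y} + (f {x} + f {x, y}) := by
  have h1 : x ∉ ({y} : Finset (Fin g)) := by simp [hxy]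
  rw [Finset.sum_powerset_insert h1, Sml_sum1, Sml_sum1]
  rfl

private theorem Sml_s1 {g : ℕ} (q : Fin g → Fin g → ℂ) (x : Fin g) : qS q {x} = 1 := by
  simp [qS]

private theorem Sml_s2 {g : ℕ} {q : Fin g → Fin g → ℂ} (hs : ∀ i j, q i j = q j i)
    {x y : Fin g} (hxy : x ≠ y) : qS q {x, y} = q x y := by
  rw [qS_insert hs (by simp [hxy]), Sml_s1, Finset.prod_singleton, one_mul]

private theorem Sml_D1 {g : ℕ} {q : Fin g → Fin g → ℂ} (hs : ∀ i j, q i j = q j i)
    {x y : Fin g} (hxy : x ≠ y) {W : Fin g → ℂ}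
    (hW : ∀ i, i ∉ ({x, y} : Finset (Fin g)) → W i = 0) :
    Dq q {x} W = W x * (1 + q x y * W y) := by
  rw [Dq_support hW, Sml_sum2 hxy]
  simp [Sml_s1, Sml_s2 hs hxy, hxy, Finset.prod_pair hxy]
  ring

private theorem Sml_D0 {g : ℕ} {q : Fin g → Fin g → ℂ} (hs : ∀ i j, q i j = q j i)
    {x y : Fin g} (hxy : x ≠ y) {W : Fin g → ℂ}
    (hW : ∀ i, i ∉ ({x, y} : Finset (Fin g)) → W i = 0) :
    Dq q ∅ W = 1 + W x + W y + q x y * W x * W y := by
  rw [Dq_support hW, Sml_sum2 hxy]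
  simp [Sml_s1, Sml_s2 hs hxy, qS_empty, Finset.prod_pair hxy]
  ring

theorem card_three {g : ℕ} {q : Fin g → Fin g → ℂ} (hs : ∀ i j, q i j = q j i)
    (h0 : ∀ i j, i ≠ j → q i j ≠ 0) (h1 : ∀ i j, i ≠ j → q i j ≠ 1) {W : Fin g → ℂ}
    {R : Finset (Fin g)} (hR : ∀ k ∈ R, W k ≠ 0) (hR' : ∀ k, k ∉ R → W k = 0)
    (hc : R.card ≤ 3) (hD : ∀ A : Finset (Fin g), A.card ≤ 1 → Dq q A W = 0) : R.card = 3 := by
  have h3 : R.card = 0 ∨ R.card = 1 ∨ R.card = 2 ∨ R.card = 3 := by omega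
  rcases h3 with h | h | h | h
  · exfalso
    rw [Finset.card_eq_zero] at h
    subst h
    have h4 := hD ∅ (by simp)
    rw [Dq_support hR'] at h4
    simp [qS_empty] at h4
  · exfalso
    obtain ⟨x, rfl⟩ := Finset.card_eq_one.1 h
    have h4 := hD {x} (by simp)
    rw [Dq_support hR', Sml_sum1] at h4
    simp [Sml_s1] at h4
    exact hR x (by simp) h4
  · exfalso
    obtain ⟨x, y, hxy, rfl⟩ := Finset.card_eq_two.1 h
    have hx := hR x (by simp)
    have hy := hR y (by simp)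
    have h4 := hD {x} (by simp)
    have h5 := hD {y} (by simp)
    have h6 := hD ∅ (by simp)
    rw [Sml_D1 hs hxy hR'] at h4
    have hR2 : ∀ k, k ∉ ({y, x} : Finset (Fin g)) → W k = 0 := by
      intro k hk
      rw [Finset.pair_comm] at hk
      exact hR' k hk
    rw [Sml_D1 hs hxy.symm hR2, hs y x] at h5
    rw [Sml_D0 hs hxy hR'] at h6
    have e1 : 1 + q x y * W y = 0 := (mul_eq_zero.1 h4).resolve_left hx
    have e2 : 1 + q x y * W x = 0 := (mul_eq_zero.1 h5).resolve_left hy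
    have hq := h0 x y hxy
    have e4 : q x y * (1 - q x y) = 0 := by
      linear_combination (-q x y) * (q x y) * h6 + (q x y) * (1 + q x y * W y) * e2
    rcases mul_eq_zero.1 e4 with h7 | h7
    · exact hq h7
    · exact h1 x y hxy (sub_eq_zero.1 h7).symm
  · exact h

end AMC
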