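import Pool.Agent.Lib.MP_b57e3c_ag_M.Exp

/-!
# Module Tla : limit of approximately singular points

Let `V n k = ‖W n k‖`, `X n = ∏_{j ∈ I} W n j` (`I` = the indices going to infinity), nonzero for most `n`.
For a set `S` write `S = (S ∩ Z) ∪ (S ∩ R) ∪ (S ∩ I)`. Then
`(qS (qn n) S ∏_{i ∈ S} W n i) / X n` tends to `0` unless `S ∩ Z = ∅` and `S ∩ I = I` (the factors
`W n i`, `i ∈ S ∩ Z`, tend to `0`; the factors `1 / W n i`, `i ∈ I ∖ S`, tend to `0`; the others are bounded);
and for `S = T ∪ I`, `T ⊆ R` it tends to `qS q (T ∪ I) ∏_{i ∈ T} e i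
= qS q I * (qS q T * ∏_{i ∈ T} (e i * ∏_{j ∈ I} q i j))` (`qS_insert` repeatedly).
On the other hand `∏_k (1 + V n k) / ‖X n‖` is bounded for most `n` (`(1 + V)/V ≤ 2` on `I`, bounded on
the others), so `Dq (qn n) A (W n) / X n → 0` for `A = ∅` and `A = {i}`. Hence, with
`W' i = e i * ∏_{j ∈ I} q i j` on `R`, `0` elsewhere,
`qS q I * Dq q A W' = 0` for `A = ∅` and for `A = {i}`, `i ∈ R` (for `i ∈ R`, `{i} ⊆ T ∪ I` iff
`i ∈ T`). `qS q I ≠ 0`. For `i ∉ R`, `Dq q {i} W' = 0` trivially (`W' i = 0`).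
-/

open Complex Filter Topology

namespace AMC

/-- the limit of the factor number `k` of the term of `S` -/
private noncomputable def Tla_F {g : ℕ} (Z R S : Finset (Fin g)) (e : Fin g → ℂ) (k : Fin g) :
    ℂ :=
  if k ∈ Z then (if k ∈ S then 0 else 1) else if k ∈ R then (if k ∈ S then e k else 1)
    else (if k ∈ S then 1 else 0)

private theorem Tla_fac {g : ℕ} {U : Filter ℕ} {W : ℕ → Fin g → ℂ}
    {Z R I : Finset (Fin g)} (hZR : Disjoint Z R) (hZI : Disjoint Z I) (hRI : Disjoint R I)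
    (hu : Z ∪ R ∪ I = Finset.univ) {e : Fin g → ℂ}
    (hZ : ∀ k ∈ Z, Tendsto (fun n => W n k) U (𝓝 0))
    (hR : ∀ k ∈ R, e k ≠ 0 ∧ Tendsto (fun n => W n k) U (𝓝 (e k)))
    (hI : ∀ k ∈ I, Tendsto (fun n => ‖W n k‖) U atTop) (S : Finset (Fin g)) (k : Fin g) :
    Tendsto (fun n => (if k ∈ S then W n k else 1) / (if k ∈ I then W n k else 1)) U
      (𝓝 (Tla_F Z R S e k)) := by
  unfold Tla_F
  by_cases hkZ : k ∈ Z
  · have hkI : k ∉ I := Finset.disjoint_left.1 hZI hkZ
    simp only [if_pos hkZ, if_neg hkI, div_one]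
    by_cases hkS : k ∈ S
    · simp only [if_pos hkS]
      exact hZ k hkZ
    · simp only [if_neg hkS]
      exact tendsto_const_nhds
  · by_cases hkR : k ∈ R
    · have hkI : k ∉ I := Finset.disjoint_left.1 hRI hkR
      simp only [if_neg hkZ, if_pos hkR, if_neg hkI, div_one]
      by_cases hkS : k ∈ S
      · simp only [if_pos hkS]
        exact (hR k hkR).2
      · simp only [if_neg hkS]
        exact tendsto_const_nhds
    · have hkI : k ∈ I := by
        have h1 : k ∈ Z ∪ R ∪ I := by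
          rw [hu]
          exact Finset.mem_univ k
        simp only [Finset.mem_union] at h1
        tauto
      simp only [if_neg hkZ, if_neg hkR, if_pos hkI]
      by_cases hkS : k ∈ S
      · simp only [if_pos hkS]
        refine tendsto_const_nhds.congr' ?_
        filter_upwards [(hI k hkI).eventually_gt_atTop 0] with n hn
        rw [div_self (norm_pos_iff.1 hn)]
      · simp only [if_neg hkS]
        rw [tendsto_zero_iff_norm_tendsto_zero]
        have h2 : (fun n => ‖1 / W n k‖) = fun n => ‖W n k‖⁻¹ := by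
          funext n
          rw [norm_div, norm_one, one_div]
        rw [h2]
        exact (hI k hkI).inv_tendsto_atTop

private theorem Tla_bd {g : ℕ} {U : Filter ℕ} {W : ℕ → Fin g → ℂ}
    {Z R I : Finset (Fin g)} (hZI : Disjoint Z I) (hRI : Disjoint R I)
    (hu : Z ∪ R ∪ I = Finset.univ) {e : Fin g → ℂ}
    (hZ : ∀ k ∈ Z, Tendsto (fun n => W n k) U (𝓝 0))
    (hR : ∀ k ∈ R, e k ≠ 0 ∧ Tendsto (fun n => W n k) U (𝓝 (e k)))
    (hI : ∀ k ∈ I, Tendsto (fun n => ‖W n k‖) U atTop) (k : Fin g) :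
    ∃ b : ℝ, Tendsto (fun n => (1 + ‖W n k‖) / (if k ∈ I then ‖W n k‖ else 1)) U (𝓝 b) := by
  by_cases hkI : k ∈ I
  · refine ⟨0 + 1, ?_⟩
    simp only [if_pos hkI]
    refine ((hI k hkI).inv_tendsto_atTop.add_const 1).congr' ?_
    filter_upwards [(hI k hkI).eventually_gt_atTop 0] with n hn
    rw [add_div, div_self hn.ne', one_div]
    rfl
  · simp only [if_neg hkI, div_one]
    have h1 : k ∈ Z ∪ R ∪ I := by
      rw [hu]
      exact Finset.mem_univ k
    simp only [Finset.mem_union] at h1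
    rcases h1 with (h1 | h1) | h1
    · exact ⟨_, ((hZ k h1).norm).const_add 1⟩
    · exact ⟨_, ((hR k h1).2.norm).const_add 1⟩
    · exact absurd h1 hkI

/-- the limit of the normalized sum -/
private theorem Tla_lim {g : ℕ} {U : Filter ℕ} {qn : ℕ → Fin g → Fin g → ℂ}
    {q : Fin g → Fin g → ℂ} (hq : ∀ i j, i ≠ j → Tendsto (fun n => qn n i j) U (𝓝 (q i j)))
    {W : ℕ → Fin g → ℂ}
    {Z R I : Finset (Fin g)} (hZR : Disjoint Z R) (hZI : Disjoint Z I) (hRI : Disjoint R I)
    (hu : Z ∪ R ∪ I = Finset.univ) {e : Fin g → ℂ}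
    (hZ : ∀ k ∈ Z, Tendsto (fun n => W n k) U (𝓝 0))
    (hR : ∀ k ∈ R, e k ≠ 0 ∧ Tendsto (fun n => W n k) U (𝓝 (e k)))
    (hI : ∀ k ∈ I, Tendsto (fun n => ‖W n k‖) U atTop) (A : Finset (Fin g)) :
    Tendsto (fun n => Dq (qn n) A (W n) / ∏ k, (if k ∈ I then W n k else 1)) U
      (𝓝 (∑ S : Finset (Fin g), if A ⊆ S then qS q S * ∏ k, Tla_F Z R S e k else 0)) := by
  have h1 : ∀ S : Finset (Fin g), Tendsto (fun n => qS (qn n) S) U (𝓝 (qS q S)) := by
    intro S
    unfold qS
    refine tendsto_finsetProd _ fun i _ => tendsto_finsetProd _ fun j _ => ?_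
    by_cases hij : i < j
    · simp only [if_pos hij]
      exact hq i j hij.ne
    · simp only [if_neg hij]
      exact tendsto_const_nhds
  have h2 : (fun n => Dq (qn n) A (W n) / ∏ k, (if k ∈ I then W n k else 1)) =
      fun n => ∑ S : Finset (Fin g), if A ⊆ S then qS (qn n) S *
        ∏ k, ((if k ∈ S then W n k else 1) / (if k ∈ I then W n k else 1)) else 0 := by
    funext n
    unfold Dq
    rw [Finset.sum_div]
    refine Finset.sum_congr rfl fun S _ => ?_
    split_ifs with hA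
    · rw [Finset.prod_div_distrib, mul_div_assoc]
      simp only [Finset.prod_ite_mem, Finset.univ_inter]
    · rw [zero_div]
  rw [h2]
  refine tendsto_finsetSum _ fun S _ => ?_
  split_ifs with hA
  · exact (h1 S).mul (tendsto_finsetProd _ fun k _ => Tla_fac hZR hZI hRI hu hZ hR hI S k)
  · exact tendsto_const_nhds

private theorem Tla_qS {g : ℕ} {q : Fin g → Fin g → ℂ} (hs : ∀ i j, q i j = q j i)
    {I : Finset (Fin g)} (T : Finset (Fin g)) (hT : Disjoint T I) :
    qS q (T ∪ I) = qS q I * (qS q T * ∏ i ∈ T, ∏ j ∈ I, q i j) := by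
  induction T using Finset.induction_on with
  | empty => simp [qS_empty]
  | insert x T hx ih =>
    rw [Finset.disjoint_insert_left] at hT
    have h1 : x ∉ T ∪ I := by
      rw [Finset.mem_union]
      tauto
    rw [Finset.insert_union, qS_insert hs h1, ih hT.2, qS_insert hs hx,
      Finset.prod_insert hx, Finset.prod_union hT.2]
    ring

private theorem Tla_val {g : ℕ} {q : Fin g → Fin g → ℂ} (hs : ∀ i j, q i j = q j i)
    {Z R I : Finset (Fin g)} (hZR : Disjoint Z R) (hZI : Disjoint Z I) (hRI : Disjoint R I)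
    (hu : Z ∪ R ∪ I = Finset.univ) {e : Fin g → ℂ} {A : Finset (Fin g)} (hA : A ⊆ R) :
    (∑ S : Finset (Fin g), if A ⊆ S then qS q S * ∏ k, Tla_F Z R S e k else 0) =
      qS q I * Dq q A (fun i => if i ∈ R then e i * ∏ j ∈ I, q i j else 0) := by
  rw [Dq_support (T := R) (fun i hi => if_neg hi), Finset.mul_sum]
  have h1 : ∀ S : Finset (Fin g), S ∉ R.powerset.image (fun T => T ∪ I) →
      ∏ k, Tla_F Z R S e k = 0 := by
    intro S hS
    have h2 : (∃ k ∈ Z, k ∈ S) ∨ ∃ k ∈ I, k ∉ S := by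
      by_contra h3
      push Not at h3
      refine hS (Finset.mem_image.2 ⟨S ∩ R, Finset.mem_powerset.2 Finset.inter_subset_right, ?_⟩)
      ext k
      rw [Finset.mem_union, Finset.mem_inter]
      have h4 : k ∈ Z ∪ R ∪ I := by
        rw [hu]
        exact Finset.mem_univ k
      simp only [Finset.mem_union] at h4
      have h5 := h3.1 k
      have h6 := h3.2 k
      tauto
    rcases h2 with ⟨k, hk, hkS⟩ | ⟨k, hk, hkS⟩
    · refine Finset.prod_eq_zero (Finset.mem_univ k) ?_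
      unfold Tla_F
      rw [if_pos hk, if_pos hkS]
    · refine Finset.prod_eq_zero (Finset.mem_univ k) ?_
      unfold Tla_F
      rw [if_neg (Finset.disjoint_right.1 hZI hk), if_neg (Finset.disjoint_right.1 hRI hk),
        if_neg hkS]
  have h2 : (∑ S : Finset (Fin g), if A ⊆ S then qS q S * ∏ k, Tla_F Z R S e k else 0) =
      ∑ S ∈ R.powerset.image (fun T => T ∪ I),
        if A ⊆ S then qS q S * ∏ k, Tla_F Z R S e k else 0 := by
    symm
    refine Finset.sum_subset (Finset.subset_univ _) fun S _ hS => ?_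
    rw [h1 S hS, mul_zero, ite_self]
  have h3 : Set.InjOn (fun T => T ∪ I) (R.powerset : Set (Finset (Fin g))) := by
    intro T hT T' hT' h
    rw [Finset.mem_coe, Finset.mem_powerset] at hT hT'
    have h4 : T ∪ I = T' ∪ I := h
    ext k
    have h5 : k ∈ T ∪ I ↔ k ∈ T' ∪ I := by rw [h4]
    rw [Finset.mem_union, Finset.mem_union] at h5
    have h6 := @hT k
    have h7 := @hT' k
    have h9 : k ∈ R → k ∉ I := fun h => Finset.disjoint_left.1 hRI h
    tauto
  rw [h2, Finset.sum_image h3]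
  refine Finset.sum_congr rfl fun T hT => ?_
  rw [Finset.mem_powerset] at hT
  have hTI : Disjoint T I := Finset.disjoint_of_subset_left hT hRI
  have h4 : A ⊆ T ∪ I ↔ A ⊆ T := by
    refine ⟨fun h k hk => ?_, fun h => h.trans Finset.subset_union_left⟩
    rcases Finset.mem_union.1 (h hk) with h5 | h5
    · exact h5
    · exact absurd h5 (Finset.disjoint_left.1 hRI (hA hk))
  have h5 : ∏ k, Tla_F Z R (T ∪ I) e k = ∏ k ∈ T, e k := by
    have h6 : ∀ k, Tla_F Z R (T ∪ I) e k = if k ∈ T then e k else 1 := by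
      intro k
      unfold Tla_F
      have h4 : k ∈ Z ∪ R ∪ I := by
        rw [hu]
        exact Finset.mem_univ k
      simp only [Finset.mem_union] at h4
      have h7 : k ∈ Z → k ∉ R := fun h => Finset.disjoint_left.1 hZR h
      have h8 : k ∈ Z → k ∉ I := fun h => Finset.disjoint_left.1 hZI h
      have h9 : k ∈ R → k ∉ I := fun h => Finset.disjoint_left.1 hRI h
      have h10 := @hT k
      by_cases hkZ : k ∈ Z
      · have h11 : k ∉ T ∪ I := by
          rw [Finset.mem_union]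
          tauto
        rw [if_pos hkZ, if_neg h11, if_neg (by tauto)]
      · by_cases hkR : k ∈ R
        · have h11 : k ∈ T ∪ I ↔ k ∈ T := by
            rw [Finset.mem_union]
            tauto
          rw [if_neg hkZ, if_pos hkR]
          by_cases hkT : k ∈ T
          · rw [if_pos hkT, if_pos (h11.2 hkT)]
          · rw [if_neg hkT, if_neg (fun h => hkT (h11.1 h))]
        · have h11 : k ∈ T ∪ I := by
            rw [Finset.mem_union]
            tauto
          rw [if_neg hkZ, if_neg hkR, if_pos h11, if_neg (by tauto)]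
    rw [Finset.prod_congr rfl fun k _ => h6 k, Finset.prod_ite_mem, Finset.univ_inter]
  have h6 : (∏ i ∈ T, if i ∈ R then e i * ∏ j ∈ I, q i j else 0) =
      (∏ i ∈ T, e i) * ∏ i ∈ T, ∏ j ∈ I, q i j := by
    rw [← Finset.prod_mul_distrib]
    exact Finset.prod_congr rfl fun i hi => if_pos (hT hi)
  show (if A ⊆ T ∪ I then qS q (T ∪ I) * ∏ k, Tla_F Z R (T ∪ I) e k else 0) =
    qS q I * if A ⊆ T then qS q T * ∏ i ∈ T, (if i ∈ R then e i * ∏ j ∈ I, q i j else 0) else 0
  rw [h5, h6, Tla_qS hs T hTI]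
  by_cases h7 : A ⊆ T
  · rw [if_pos h7, if_pos (h4.2 h7)]
    ring
  · rw [if_neg h7, if_neg (fun h => h7 (h4.1 h)), mul_zero]

theorem limit_sing {g : ℕ} (U : Ultrafilter ℕ) {qn : ℕ → Fin g → Fin g → ℂ}
    {q : Fin g → Fin g → ℂ}
    (hq : ∀ i j, i ≠ j → Tendsto (fun n => qn n i j) (U : Filter ℕ) (𝓝 (q i j)))
    (hs : ∀ i j, q i j = q j i) (h0 : ∀ i j, i ≠ j → q i j ≠ 0)
    {W : ℕ → Fin g → ℂ}
    (hD : ∀ A : Finset (Fin g), A.card ≤ 1 → ∀ κ > 0, ∀ᶠ n in (U : Filter ℕ),
      ‖Dq (qn n) A (W n)‖ ≤ κ * ∏ k, (1 + ‖W n k‖))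
    {Z R I : Finset (Fin g)} (hZR : Disjoint Z R) (hZI : Disjoint Z I) (hRI : Disjoint R I)
    (hu : Z ∪ R ∪ I = Finset.univ) {e : Fin g → ℂ}
    (hZ : ∀ k ∈ Z, Tendsto (fun n => W n k) (U : Filter ℕ) (𝓝 0))
    (hR : ∀ k ∈ R, e k ≠ 0 ∧ Tendsto (fun n => W n k) (U : Filter ℕ) (𝓝 (e k)))
    (hI : ∀ k ∈ I, Tendsto (fun n => ‖W n k‖) (U : Filter ℕ) atTop) :
    ∃ W' : Fin g → ℂ, (∀ k ∈ R, W' k ≠ 0) ∧ (∀ k, k ∉ R → W' k = 0) ∧
      ∀ A : Finset (Fin g), A.card ≤ 1 → Dq q A W' = 0 := by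
  have hqI : qS q I ≠ 0 := by
    unfold qS
    refine Finset.prod_ne_zero_iff.2 fun i _ => Finset.prod_ne_zero_iff.2 fun j _ => ?_
    split_ifs with hij
    · exact h0 i j hij.ne
    · exact one_ne_zero
  -- the limit vanishes
  have hL : ∀ A : Finset (Fin g), A.card ≤ 1 →
      (∑ S : Finset (Fin g), if A ⊆ S then qS q S * ∏ k, Tla_F Z R S e k else 0) = 0 := by
    intro A hA
    have h1 := (Tla_lim hq hZR hZI hRI hu hZ hR hI A).norm
    choose b hb using fun k => Tla_bd hZI hRI hu hZ hR hI k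
    have h2 : Tendsto (fun n => (∏ k, (1 + ‖W n k‖)) / ‖∏ k, (if k ∈ I then W n k else 1)‖) U
        (𝓝 (∏ k, b k)) := by
      have h3 : (fun n => (∏ k, (1 + ‖W n k‖)) / ‖∏ k, (if k ∈ I then W n k else 1)‖) =
          fun n => ∏ k, ((1 + ‖W n k‖) / (if k ∈ I then ‖W n k‖ else 1)) := by
        funext n
        rw [Finset.prod_div_distrib, norm_prod]
        congr 1
        refine Finset.prod_congr rfl fun k _ => ?_
        split_ifs
        · rfl
        · exact norm_one
      rw [h3]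
      exact tendsto_finsetProd _ fun k _ => hb k
    have h4 : ∀ κ > 0, ‖∑ S : Finset (Fin g), if A ⊆ S then qS q S * ∏ k, Tla_F Z R S e k
        else 0‖ ≤ κ * ∏ k, b k := by
      intro κ hκ
      refine le_of_tendsto_of_tendsto h1 (h2.const_mul κ) ?_
      filter_upwards [hD A hA κ hκ] with n hn
      rw [norm_div, ← mul_div_assoc]
      exact div_le_div_of_nonneg_right hn (norm_nonneg _)
    have h5 : ‖∑ S : Finset (Fin g), if A ⊆ S then qS q S * ∏ k, Tla_F Z R S e k
        else 0‖ ≤ 0 := by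
      have h6 : Tendsto (fun κ : ℝ => κ * ∏ k, b k) (𝓝[>] 0) (𝓝 (0 * ∏ k, b k)) :=
        (tendsto_id.mono_left nhdsWithin_le_nhds).mul_const _
      rw [zero_mul] at h6
      refine ge_of_tendsto h6 ?_
      filter_upwards [self_mem_nhdsWithin] with κ hκ
      exact h4 κ hκ
    exact norm_le_zero_iff.1 h5
  refine ⟨fun i => if i ∈ R then e i * ∏ j ∈ I, q i j else 0, fun k hk => ?_,
    fun k hk => if_neg hk, fun A hA => ?_⟩
  · show (if k ∈ R then e k * ∏ j ∈ I, q k j else 0) ≠ 0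
    rw [if_pos hk]
    refine mul_ne_zero (hR k hk).1 (Finset.prod_ne_zero_iff.2 fun j hj => h0 k j ?_)
    rintro rfl
    exact Finset.disjoint_left.1 hRI hk hj
  · by_cases hAR : A ⊆ R
    · have h1 := hL A hA
      rw [Tla_val hs hZR hZI hRI hu hAR] at h1
      exact (mul_eq_zero.1 h1).resolve_left hqI
    · obtain ⟨i, hi, hiR⟩ := Finset.not_subset.1 hAR
      exact Dq_zero (i := i) (if_neg hiR) hi

end AMC
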