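import Pool.Agent.Lib.MP_b57e3c_ag_M.Defs

/-!
# Module Tri : trichotomy along an ultrafilter

For a sequence `w n ≠ 0` of complex numbers and an ultrafilter `U`: either `‖w n‖ → ∞` along `U`, or `w`
is bounded on a set of `U` (if it is not the case that `‖w n‖ → ∞` there is `R` with
`{n | ‖w n‖ ≤ R} ∈ U`, since `U` is an ultrafilter), and then it converges along `U` (compactness of the
closed ball: `Ultrafilter` limit, `IsCompact.ultrafilter_le_nhds`), to `0` or to `e ≠ 0`.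
-/

open Complex Filter Topology

namespace AMC

theorem trichotomy (U : Ultrafilter ℕ) (w : ℕ → ℂ) :
    Tendsto w (U : Filter ℕ) (𝓝 0) ∨ (∃ e : ℂ, e ≠ 0 ∧ Tendsto w (U : Filter ℕ) (𝓝 e)) ∨
      Tendsto (fun n => ‖w n‖) (U : Filter ℕ) atTop := by
  by_cases hinf : Tendsto (fun n => ‖w n‖) (U : Filter ℕ) atTop
  · exact Or.inr (Or.inr hinf)
  · have h1 : ∃ R : ℝ, ¬ ∀ᶠ n in (U : Filter ℕ), R ≤ ‖w n‖ := by
      by_contra h
      push Not at h
      exact hinf (tendsto_atTop.2 h)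
    obtain ⟨R, hR⟩ := h1
    have h2 : ∀ᶠ n in (U : Filter ℕ), ¬ R ≤ ‖w n‖ := Ultrafilter.eventually_not.2 hR
    have h3 : (U.map w : Filter ℂ) ≤ 𝓟 (Metric.closedBall 0 R) := by
      rw [le_principal_iff]
      show ∀ᶠ n in (U : Filter ℕ), w n ∈ Metric.closedBall 0 R
      filter_upwards [h2] with n hn
      rw [mem_closedBall_zero_iff]
      exact (not_le.1 hn).le
    obtain ⟨e, -, he⟩ := (isCompact_closedBall (0 : ℂ) R).ultrafilter_le_nhds (U.map w) h3
    have h4 : Tendsto w (U : Filter ℕ) (𝓝 e) := he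
    by_cases h0 : e = 0
    · rw [h0] at h4
      exact Or.inl h4
    · exact Or.inr (Or.inl ⟨e, h0, h4⟩)

end AMC
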