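import Pool.Agent.Lib.MP_b57e3c_ag_M.Tla
import Pool.Agent.Lib.MP_b57e3c_ag_M.Sml
import Pool.Agent.Lib.MP_b57e3c_ag_M.Tri

/-!
# Module Tlm : approximately singular points with `g - 3` coordinates going to `0`

By `trichotomy` for each index `k`: let `Z'` (⊇ `Z`), `R`, `I` be the indices with limit `0`, with finite
nonzero limit `e k`, and going to infinity (choose for each `k` one of the alternatives; they are exclusive; for
`k ∈ Z` the limit is `0`). By `limit_sing` and `card_three` (`R ∪ I ⊆ Zᶜ`, `card Zᶜ ≤ 3`),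
`card R = 3`, so `R = Zᶜ`, `card Z + 3 = g`, `I = ∅`, `Z' = Z`.
-/

open Complex Filter Topology

namespace AMC

theorem limit_seed {g : ℕ} (U : Ultrafilter ℕ) {qn : ℕ → Fin g → Fin g → ℂ}
    {q : Fin g → Fin g → ℂ}
    (hq : ∀ i j, i ≠ j → Tendsto (fun n => qn n i j) (U : Filter ℕ) (𝓝 (q i j)))
    (hs : ∀ i j, q i j = q j i) (h0 : ∀ i j, i ≠ j → q i j ≠ 0) (h1 : ∀ i j, i ≠ j → q i j ≠ 1)
    {W : ℕ → Fin g → ℂ}
    (hD : ∀ A : Finset (Fin g), A.card ≤ 1 → ∀ κ > 0, ∀ᶠ n in (U : Filter ℕ),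
      ‖Dq (qn n) A (W n)‖ ≤ κ * ∏ k, (1 + ‖W n k‖))
    {Z : Finset (Fin g)} (hc : g ≤ Z.card + 3)
    (hZ : ∀ k ∈ Z, Tendsto (fun n => W n k) (U : Filter ℕ) (𝓝 0)) :
    Zᶜ.card = 3 ∧ ∃ e : Fin g → ℂ, (∀ k ∈ Zᶜ, e k ≠ 0) ∧ (∀ k, k ∉ Zᶜ → e k = 0) ∧
      ∀ k, Tendsto (fun n => W n k) (U : Filter ℕ) (𝓝 (e k)) := by
  classical
  set R : Finset (Fin g) := Finset.univ.filter fun k =>
    ∃ e : ℂ, e ≠ 0 ∧ Tendsto (fun n => W n k) (U : Filter ℕ) (𝓝 e) with hRdef
  set Z' : Finset (Fin g) := Finset.univ.filter fun k =>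
    Tendsto (fun n => W n k) (U : Filter ℕ) (𝓝 0) with hZdef
  set I : Finset (Fin g) := Finset.univ.filter fun k =>
    Tendsto (fun n => ‖W n k‖) (U : Filter ℕ) atTop with hIdef
  have mR : ∀ k, k ∈ R ↔ ∃ e : ℂ, e ≠ 0 ∧ Tendsto (fun n => W n k) (U : Filter ℕ) (𝓝 e) := by
    intro k
    simp [hRdef]
  have mZ : ∀ k, k ∈ Z' ↔ Tendsto (fun n => W n k) (U : Filter ℕ) (𝓝 0) := by
    intro k
    simp [hZdef]
  have mI : ∀ k, k ∈ I ↔ Tendsto (fun n => ‖W n k‖) (U : Filter ℕ) atTop := by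
    intro k
    simp [hIdef]
  let e : Fin g → ℂ := fun k => if h : k ∈ R then ((mR k).1 h).choose else 0
  have he : ∀ k ∈ R, e k ≠ 0 ∧ Tendsto (fun n => W n k) (U : Filter ℕ) (𝓝 (e k)) := by
    intro k hk
    have h2 : e k = ((mR k).1 hk).choose := dif_pos hk
    rw [h2]
    exact ((mR k).1 hk).choose_spec
  have he0 : ∀ k, k ∉ R → e k = 0 := fun k hk => dif_neg hk
  have hZR : Disjoint Z' R := by
    rw [Finset.disjoint_left]
    intro k hk hk'
    exact (he k hk').1 (tendsto_nhds_unique (he k hk').2 ((mZ k).1 hk))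
  have hZI : Disjoint Z' I := by
    rw [Finset.disjoint_left]
    intro k hk hk'
    exact not_tendsto_nhds_of_tendsto_atTop ((mI k).1 hk') _ ((mZ k).1 hk).norm
  have hRI : Disjoint R I := by
    rw [Finset.disjoint_left]
    intro k hk hk'
    exact not_tendsto_nhds_of_tendsto_atTop ((mI k).1 hk') _ (he k hk).2.norm
  have hu : Z' ∪ R ∪ I = Finset.univ := by
    ext k
    simp only [Finset.mem_union, Finset.mem_univ, iff_true]
    rcases trichotomy U (fun n => W n k) with h | h | h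
    · exact Or.inl (Or.inl ((mZ k).2 h))
    · exact Or.inl (Or.inr ((mR k).2 h))
    · exact Or.inr ((mI k).2 h)
  obtain ⟨W', h2, h3, h4⟩ := limit_sing U hq hs h0 hD hZR hZI hRI hu
    (fun k hk => (mZ k).1 hk) he (fun k hk => (mI k).1 hk)
  have hsub : R ⊆ Zᶜ := by
    intro k hk
    rw [Finset.mem_compl]
    intro hk'
    exact Finset.disjoint_left.1 hZR ((mZ k).2 (hZ k hk')) hk
  have hcard : Zᶜ.card ≤ 3 := by
    rw [Finset.card_compl, Fintype.card_fin]
    omega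
  have hR3 : R.card = 3 :=
    card_three hs h0 h1 h2 h3 ((Finset.card_le_card hsub).trans hcard) h4
  have hRZ : R = Zᶜ := Finset.eq_of_subset_of_card_le hsub (by omega)
  refine ⟨by rw [← hRZ]; exact hR3, e, fun k hk => ?_, fun k hk => ?_, fun k => ?_⟩
  · rw [← hRZ] at hk
    exact (he k hk).1
  · rw [← hRZ] at hk
    exact he0 k hk
  · by_cases hk : k ∈ R
    · exact (he k hk).2
    · rw [he0 k hk]
      rw [hRZ, Finset.mem_compl, not_not] at hk
      exact hZ k hk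

end AMC
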