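import Pool.Agent.Lib.MP_b57e3c_ag_M.Exp
import Pool.Agent.Lib.MP_b57e3c_ag_M.Tri
import Pool.Agent.Lib.MP_b57e3c_ag_M.Tla
import Pool.Agent.Lib.MP_b57e3c_ag_M.Sml
import Pool.Agent.Lib.MP_b57e3c_ag_M.Tlm
import Pool.Agent.Lib.MP_b57e3c_ag_M.Sed
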