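import Pool.Agent.Lib.MP_b57e3c_ag_M.Defs

/-!
# Module Exp : the polynomials `Dq` for vectors with small support

`Dq_support`: if `W i = 0` for `i ∉ T`, only the subsets `S ⊆ T` contribute:
`Dq q A W = ∑ S ∈ T.powerset, if A ⊆ S then qS q S * ∏ i ∈ S, W i else 0`.
Then explicit formulas for three and four distinct indices (`q` symmetric: `qS q {x,y} = q x y`, whatever
the order of `x`, `y`; `qS` of a set is the product over the pairs). Hint: prove
`qS_insert : x ∉ S → qS q (insert x S) = qS q S * ∏ i ∈ S, q x i` (using the symmetry of `q`: the pairs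
`(x,i)` with `x < i` or `i < x`), and `Finset.sum_powerset_insert`.
-/

set_option linter.unusedSimpArgs false

open Complex

namespace AMC

variable {g : ℕ} {q : Fin g → Fin g → ℂ}

theorem qS_empty (q : Fin g → Fin g → ℂ) : qS q ∅ = 1 := by
  simp [qS]

theorem qS_insert (hs : ∀ i j, q i j = q j i) {x : Fin g} {S : Finset (Fin g)} (hx : x ∉ S) :
    qS q (insert x S) = qS q S * ∏ i ∈ S, q x i := by
  unfold qS
  rw [Finset.prod_insert hx, Finset.prod_insert hx, if_neg (lt_irrefl x), one_mul]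
  have h1 : (∏ i ∈ S, ∏ j ∈ insert x S, if i < j then q i j else 1) =
      (∏ i ∈ S, if i < x then q i x else 1) * ∏ i ∈ S, ∏ j ∈ S, if i < j then q i j else 1 := by
    rw [← Finset.prod_mul_distrib]
    exact Finset.prod_congr rfl fun i _ => Finset.prod_insert hx
  rw [h1, ← mul_assoc, ← Finset.prod_mul_distrib, mul_comm]
  congr 1
  refine Finset.prod_congr rfl fun i hi => ?_
  have hne : x ≠ i := fun h => hx (h ▸ hi)
  rcases lt_or_gt_of_ne hne with h2 | h2
  · rw [if_pos h2, if_neg (not_lt.2 h2.le), mul_one]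
  · rw [if_neg (not_lt.2 h2.le), if_pos h2, one_mul, hs]

theorem Dq_support {W : Fin g → ℂ} {T : Finset (Fin g)} (hW : ∀ i, i ∉ T → W i = 0)
    (A : Finset (Fin g)) :
    Dq q A W = ∑ S ∈ T.powerset, if A ⊆ S then qS q S * ∏ i ∈ S, W i else 0 := by
  unfold Dq
  symm
  refine Finset.sum_subset (Finset.subset_univ _) fun S _ hS => ?_
  rw [Finset.mem_powerset] at hS
  obtain ⟨i, hi, hiT⟩ := Finset.not_subset.1 hS
  split_ifs
  · rw [Finset.prod_eq_zero hi (hW i hiT), mul_zero]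
  · rfl

theorem Dq_zero {W : Fin g → ℂ} {i : Fin g} (hi : W i = 0) {A : Finset (Fin g)} (hA : i ∈ A) :
    Dq q A W = 0 := by
  unfold Dq
  refine Finset.sum_eq_zero fun S _ => ?_
  split_ifs with h
  · rw [Finset.prod_eq_zero (h hA) hi, mul_zero]
  · rfl

private theorem Exp_sum3 {x y z : Fin g} (hxy : x ≠ y) (hxz : x ≠ z) (hyz : y ≠ z)
    (f : Finset (Fin g) → ℂ) : ∑ S ∈ ({x, y, z} : Finset (Fin g)).powerset, f S =
      f ∅ + f {z} + (f {y} + f {y, z}) + (f {x} + f {x, z} + (f {x, y} + f {x, y, z})) := by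
  have h1 : x ∉ ({y, z} : Finset (Fin g)) := by simp [hxy, hxz]
  have h2 : y ∉ ({z} : Finset (Fin g)) := by simp [hyz]
  have h3 : ∀ F : Finset (Fin g) → ℂ, ∑ S ∈ ({z} : Finset (Fin g)).powerset, F S =
      F ∅ + F {z} := by
    intro F
    have h4 := Finset.sum_powerset_insert (Finset.notMem_empty z) F
    simpa using h4
  rw [Finset.sum_powerset_insert h1, Finset.sum_powerset_insert h2,
    Finset.sum_powerset_insert h2, h3, h3, h3, h3]
  rfl

private theorem Exp_sum4 {x y z t : Fin g} (hxy : x ≠ y) (hxz : x ≠ z) (hyz : y ≠ z)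
    (hxt : x ≠ t) (hyt : y ≠ t) (hzt : z ≠ t) (f : Finset (Fin g) → ℂ) :
    ∑ S ∈ ({x, y, z, t} : Finset (Fin g)).powerset, f S =
      f ∅ + f {t} + (f {z} + f {z, t}) + (f {y} + f {y, t} + (f {y, z} + f {y, z, t})) +
      (f {x} + f {x, t} + (f {x, z} + f {x, z, t}) +
        (f {x, y} + f {x, y, t} + (f {x, y, z} + f {x, y, z, t}))) := by
  have h1 : x ∉ ({y, z, t} : Finset (Fin g)) := by simp [hxy, hxz, hxt]
  rw [Finset.sum_powerset_insert h1, Exp_sum3 hyz hyt hzt, Exp_sum3 hyz hyt hzt]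
  rfl

private theorem Exp_s1 (q : Fin g → Fin g → ℂ) (x : Fin g) : qS q {x} = 1 := by
  simp [qS]

private theorem Exp_s2 (hs : ∀ i j, q i j = q j i) {x y : Fin g} (hxy : x ≠ y) :
    qS q {x, y} = q x y := by
  rw [qS_insert hs (by simp [hxy]), Exp_s1, Finset.prod_singleton, one_mul]

private theorem Exp_s3 (hs : ∀ i j, q i j = q j i) {x y z : Fin g} (hxy : x ≠ y) (hxz : x ≠ z)
    (hyz : y ≠ z) : qS q {x, y, z} = q y z * (q x y * q x z) := by
  rw [qS_insert hs (by simp [hxy, hxz]), Exp_s2 hs hyz, Finset.prod_pair hyz]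

private theorem Exp_s4 (hs : ∀ i j, q i j = q j i) {x y z t : Fin g} (hxy : x ≠ y) (hxz : x ≠ z)
    (hyz : y ≠ z) (hxt : x ≠ t) (hyt : y ≠ t) (hzt : z ≠ t) :
    qS q {x, y, z, t} = q z t * (q y z * q y t) * (q x y * (q x z * q x t)) := by
  rw [qS_insert hs (by simp [hxy, hxz, hxt]), Exp_s3 hs hyz hyt hzt,
    Finset.prod_insert (by simp [hyz, hyt]), Finset.prod_pair hzt]

private theorem Exp_p3 {x y z : Fin g} (hxy : x ≠ y) (hxz : x ≠ z)
    (hyz : y ≠ z) (W : Fin g → ℂ) : ∏ i ∈ ({x, y, z} : Finset (Fin g)), W i =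
      W x * (W y * W z) := by
  rw [Finset.prod_insert (by simp [hxy, hxz]), Finset.prod_pair hyz]

private theorem Exp_p4 {x y z t : Fin g} (hxy : x ≠ y) (hxz : x ≠ z)
    (hyz : y ≠ z) (hxt : x ≠ t) (hyt : y ≠ t) (hzt : z ≠ t) (W : Fin g → ℂ) :
    ∏ i ∈ ({x, y, z, t} : Finset (Fin g)), W i = W x * (W y * (W z * W t)) := by
  rw [Finset.prod_insert (by simp [hxy, hxz, hxt]), Exp_p3 hyz hyt hzt]

theorem exp3_0 (hs : ∀ i j, q i j = q j i) {x y z : Fin g} (hxy : x ≠ y) (hxz : x ≠ z)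
    (hyz : y ≠ z) {W : Fin g → ℂ} (hW : ∀ i, i ∉ ({x, y, z} : Finset (Fin g)) → W i = 0) :
    Dq q ∅ W = 1 + W x + W y + W z + q x y * W x * W y + q x z * W x * W z
      + q y z * W y * W z + q x y * q x z * q y z * W x * W y * W z := by
  rw [Dq_support hW, Exp_sum3 hxy hxz hyz]
  simp only [Finset.empty_subset, if_true, qS_empty, Exp_s1, Exp_s2 hs hxy, Exp_s2 hs hxz,
    Exp_s2 hs hyz, Exp_s3 hs hxy hxz hyz, Finset.prod_empty, Finset.prod_singleton,
    Finset.prod_pair hxy, Finset.prod_pair hxz, Finset.prod_pair hyz, Exp_p3 hxy hxz hyz]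
  ring

theorem exp3_1 (hs : ∀ i j, q i j = q j i) {x y z : Fin g} (hxy : x ≠ y) (hxz : x ≠ z)
    (hyz : y ≠ z) {W : Fin g → ℂ} (hW : ∀ i, i ∉ ({x, y, z} : Finset (Fin g)) → W i = 0) :
    Dq q {x} W = W x * (1 + q x y * W y + q x z * W z + q x y * q x z * q y z * W y * W z) := by
  rw [Dq_support hW, Exp_sum3 hxy hxz hyz]
  simp only [Finset.singleton_subset_iff, Finset.mem_insert, Finset.mem_singleton,
    Finset.notMem_empty, hxy, hxz, or_false, false_or, or_true, true_or, if_true, if_false,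
    qS_empty, Exp_s1, Exp_s2 hs hxy, Exp_s2 hs hxz,
    Exp_s2 hs hyz, Exp_s3 hs hxy hxz hyz, Finset.prod_empty, Finset.prod_singleton,
    Finset.prod_pair hxy, Finset.prod_pair hxz, Finset.prod_pair hyz, Exp_p3 hxy hxz hyz]
  ring

theorem exp3_2 (hs : ∀ i j, q i j = q j i) {x y z : Fin g} (hxy : x ≠ y) (hxz : x ≠ z)
    (hyz : y ≠ z) {W : Fin g → ℂ} (hW : ∀ i, i ∉ ({x, y, z} : Finset (Fin g)) → W i = 0) :
    Dq q {x, y} W = q x y * W x * W y * (1 + q x z * q y z * W z) := by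
  rw [Dq_support hW, Exp_sum3 hxy hxz hyz]
  simp only [Finset.insert_subset_iff, Finset.singleton_subset_iff, Finset.mem_insert,
    Finset.mem_singleton, Finset.notMem_empty, hxy, hxz, hyz, hxy.symm, or_false, false_or,
    or_true, true_or, and_true, and_false, false_and, if_true, if_false,
    qS_empty, Exp_s1, Exp_s2 hs hxy, Exp_s2 hs hxz,
    Exp_s2 hs hyz, Exp_s3 hs hxy hxz hyz, Finset.prod_empty, Finset.prod_singleton,
    Finset.prod_pair hxy, Finset.prod_pair hxz, Finset.prod_pair hyz, Exp_p3 hxy hxz hyz]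
  ring

theorem exp4_0 (hs : ∀ i j, q i j = q j i) {x y z t : Fin g} (hxy : x ≠ y) (hxz : x ≠ z)
    (hyz : y ≠ z) (hxt : x ≠ t) (hyt : y ≠ t) (hzt : z ≠ t) {W : Fin g → ℂ}
    (hW : ∀ i, i ∉ ({x, y, z, t} : Finset (Fin g)) → W i = 0) :
    Dq q ∅ W = 1 + W x + W y + W z + q x y * W x * W y + q x z * W x * W z
      + q y z * W y * W z + q x y * q x z * q y z * W x * W y * W z
      + W t * (1 + q x t * W x + q y t * W y + q z t * W z + q x y * (q x t * W x) * (q y t * W y)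
        + q x z * (q x t * W x) * (q z t * W z) + q y z * (q y t * W y) * (q z t * W z)
        + q x y * q x z * q y z * (q x t * W x) * (q y t * W y) * (q z t * W z)) := by
  rw [Dq_support hW, Exp_sum4 hxy hxz hyz hxt hyt hzt]
  simp only [Finset.empty_subset, if_true, qS_empty,
    Exp_s1, Exp_s2 hs hxy, Exp_s2 hs hxz, Exp_s2 hs hyz, Exp_s2 hs hxt, Exp_s2 hs hyt,
    Exp_s2 hs hzt, Exp_s3 hs hxy hxz hyz, Exp_s3 hs hxy hxt hyt, Exp_s3 hs hxz hxt hzt,
    Exp_s3 hs hyz hyt hzt, Exp_s4 hs hxy hxz hyz hxt hyt hzt, Finset.prod_empty,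
    Finset.prod_singleton, Finset.prod_pair hxy, Finset.prod_pair hxz, Finset.prod_pair hyz,
    Finset.prod_pair hxt, Finset.prod_pair hyt, Finset.prod_pair hzt, Exp_p3 hxy hxz hyz,
    Exp_p3 hxy hxt hyt, Exp_p3 hxz hxt hzt, Exp_p3 hyz hyt hzt, Exp_p4 hxy hxz hyz hxt hyt hzt]
  ring

theorem exp4_1 (hs : ∀ i j, q i j = q j i) {x y z t : Fin g} (hxy : x ≠ y) (hxz : x ≠ z)
    (hyz : y ≠ z) (hxt : x ≠ t) (hyt : y ≠ t) (hzt : z ≠ t) {W : Fin g → ℂ}
    (hW : ∀ i, i ∉ ({x, y, z, t} : Finset (Fin g)) → W i = 0) :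
    Dq q {x} W = W x * (1 + q x y * W y + q x z * W z + q x y * q x z * q y z * W y * W z
      + W t * q x t * (1 + q x y * (q y t * W y) + q x z * (q z t * W z)
        + q x y * q x z * q y z * (q y t * W y) * (q z t * W z))) := by
  rw [Dq_support hW, Exp_sum4 hxy hxz hyz hxt hyt hzt]
  simp only [Finset.singleton_subset_iff, Finset.mem_insert, Finset.mem_singleton,
    Finset.notMem_empty, hxy, hxz, hxt, or_false, false_or, or_true, true_or, if_true, if_false,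
    qS_empty,
    Exp_s1, Exp_s2 hs hxy, Exp_s2 hs hxz, Exp_s2 hs hyz, Exp_s2 hs hxt, Exp_s2 hs hyt,
    Exp_s2 hs hzt, Exp_s3 hs hxy hxz hyz, Exp_s3 hs hxy hxt hyt, Exp_s3 hs hxz hxt hzt,
    Exp_s3 hs hyz hyt hzt, Exp_s4 hs hxy hxz hyz hxt hyt hzt, Finset.prod_empty,
    Finset.prod_singleton, Finset.prod_pair hxy, Finset.prod_pair hxz, Finset.prod_pair hyz,
    Finset.prod_pair hxt, Finset.prod_pair hyt, Finset.prod_pair hzt, Exp_p3 hxy hxz hyz,
    Exp_p3 hxy hxt hyt, Exp_p3 hxz hxt hzt, Exp_p3 hyz hyt hzt, Exp_p4 hxy hxz hyz hxt hyt hzt]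
  ring

theorem exp4_2 (hs : ∀ i j, q i j = q j i) {x y z t : Fin g} (hxy : x ≠ y) (hxz : x ≠ z)
    (hyz : y ≠ z) (hxt : x ≠ t) (hyt : y ≠ t) (hzt : z ≠ t) {W : Fin g → ℂ}
    (hW : ∀ i, i ∉ ({x, y, z, t} : Finset (Fin g)) → W i = 0) :
    Dq q {x, y} W = q x y * W x * W y * (1 + q x z * q y z * W z + q x t * q y t * W t
      + q x z * q y z * q x t * q y t * q z t * W z * W t) := by
  rw [Dq_support hW, Exp_sum4 hxy hxz hyz hxt hyt hzt]
  simp only [Finset.insert_subset_iff, Finset.singleton_subset_iff, Finset.mem_insert,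
    Finset.mem_singleton, Finset.notMem_empty, hxy, hxz, hyz, hxt, hyt, hxy.symm, or_false,
    false_or, or_true, true_or, and_true, and_false, false_and, if_true, if_false, qS_empty,
    Exp_s1, Exp_s2 hs hxy, Exp_s2 hs hxz, Exp_s2 hs hyz, Exp_s2 hs hxt, Exp_s2 hs hyt,
    Exp_s2 hs hzt, Exp_s3 hs hxy hxz hyz, Exp_s3 hs hxy hxt hyt, Exp_s3 hs hxz hxt hzt,
    Exp_s3 hs hyz hyt hzt, Exp_s4 hs hxy hxz hyz hxt hyt hzt, Finset.prod_empty,
    Finset.prod_singleton, Finset.prod_pair hxy, Finset.prod_pair hxz, Finset.prod_pair hyz,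
    Finset.prod_pair hxt, Finset.prod_pair hyt, Finset.prod_pair hzt, Exp_p3 hxy hxz hyz,
    Exp_p3 hxy hxt hyt, Exp_p3 hxz hxt hzt, Exp_p3 hyz hyt hzt, Exp_p4 hxy hxz hyz hxt hyt hzt]
  ring

end AMC
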