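import Pool.Agent.Lib.MP_b57e3c_ag_M.Ldef
import Pool.Agent.Lib.MP_b57e3c_ag_M.Exp

/-!
# Module GamA : the curve `gam` consists of singular points

`T = {i, j, k, l}` (four distinct indices, `Finset.card_eq_succ`/`Finset.card_eq_three` applied to an
erase). For `A` with at most one element: `A = ∅`, `A = {i}` with `i ∈ T` (by symmetry take `i` first), or
`A = {i}` with `i ∉ T` (`Dq_zero`). Expand with `exp4_0`, `exp4_1` (`W = gam a T x` vanishes off `T`); with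
`q i j = ((a i - a j)/(a i + a j))²`,
`W i = (a_i+a_j)(a_i+a_k)(a_i+a_l)/((a_i-a_j)(a_i-a_k)(a_i-a_l)) (x-a_i)/(x+a_i)` both are rational function
identities in five variables (checked by computer): `field_simp; ring`.
(Explanation: `V(a) ∏ (x + a_i) F(gam x)` is the sum over the signs `ε` of
`∏ ε_i V(ε a) ∏ (x + ε_i a_i)`, `V` the Vandermonde determinant: this is the determinant with rows the
odd parts `(2a_i, 2x a_i, 2a_i³, 2x a_i³)` of `(a_i^k (x + a_i))_{k=0..3}`, which has rank `≤ 2`.)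
It may be convenient to prove scalar lemmas for complex numbers `a1 a2 a3 a4 x` first. If `ring` is slow:
clear denominators by hand in the sum over the 8 subsets; the numerators have degree `≤ 10`.
-/

open Complex

namespace AMC

private theorem GamA_id {a1 a2 a3 c x : ℂ} (h12 : a1 - a2 ≠ 0) (h13 : a1 - a3 ≠ 0)
    (h23 : a2 - a3 ≠ 0) (k1 : a1 - c ≠ 0) (k2 : a2 - c ≠ 0) (k3 : a3 - c ≠ 0)
    (x1 : x + a1 ≠ 0) (x2 : x + a2 ≠ 0) (x3 : x + a3 ≠ 0) {R1 R2 R3 u1 u2 u3 : ℂ}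
    (hR1 : R1 = (a1 + a2) * (a1 + a3) / ((a1 - a2) * (a1 - a3)))
    (hR2 : R2 = -((a1 + a2) * (a2 + a3) / ((a1 - a2) * (a2 - a3))))
    (hR3 : R3 = (a1 + a3) * (a2 + a3) / ((a1 - a3) * (a2 - a3)))
    (hu1 : u1 = (a1 + c) * (x - a1) / ((a1 - c) * (x + a1)))
    (hu2 : u2 = (a2 + c) * (x - a2) / ((a2 - c) * (x + a2)))
    (hu3 : u3 = (a3 + c) * (x - a3) / ((a3 - c) * (x + a3))) :
    1 + R1 * u1 + R2 * u2 + R3 * u3 - R3 * u1 * u2 - R2 * u1 * u3 - R1 * u2 * u3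
      - u1 * u2 * u3 = 0 := by
  rw [hR1, hR2, hR3, hu1, hu2, hu3]
  field_simp
  ring

private theorem GamA_phi {a1 a2 a3 c x q12 q13 q23 Y Z T : ℂ} (h12 : a1 - a2 ≠ 0)
    (h13 : a1 - a3 ≠ 0) (h23 : a2 - a3 ≠ 0) (p12 : a1 + a2 ≠ 0) (p13 : a1 + a3 ≠ 0)
    (p23 : a2 + a3 ≠ 0) (k1 : a1 - c ≠ 0) (k2 : a2 - c ≠ 0) (k3 : a3 - c ≠ 0)
    (x1 : x + a1 ≠ 0) (x2 : x + a2 ≠ 0) (x3 : x + a3 ≠ 0)
    (e12 : q12 = ((a1 - a2) / (a1 + a2)) ^ 2) (e13 : q13 = ((a1 - a3) / (a1 + a3)) ^ 2)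
    (e23 : q23 = ((a2 - a3) / (a2 + a3)) ^ 2)
    (hY : Y = (a1 + a2) * (a1 + a3) / ((a1 - a2) * (a1 - a3)) *
      ((a1 + c) * (x - a1) / ((a1 - c) * (x + a1))))
    (hZ : Z = -((a1 + a2) * (a2 + a3) / ((a1 - a2) * (a2 - a3))) *
      ((a2 + c) * (x - a2) / ((a2 - c) * (x + a2))))
    (hT : T = (a1 + a3) * (a2 + a3) / ((a1 - a3) * (a2 - a3)) *
      ((a3 + c) * (x - a3) / ((a3 - c) * (x + a3)))) :
    1 + Y + Z + T + q12 * Y * Z + q13 * Y * T + q23 * Z * T
      + q12 * q13 * q23 * Y * Z * T = 0 := by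
  obtain ⟨R1, hR1⟩ : ∃ R, R = (a1 + a2) * (a1 + a3) / ((a1 - a2) * (a1 - a3)) := ⟨_, rfl⟩
  obtain ⟨R2, hR2⟩ : ∃ R, R = -((a1 + a2) * (a2 + a3) / ((a1 - a2) * (a2 - a3))) := ⟨_, rfl⟩
  obtain ⟨R3, hR3⟩ : ∃ R, R = (a1 + a3) * (a2 + a3) / ((a1 - a3) * (a2 - a3)) := ⟨_, rfl⟩
  obtain ⟨u1, hu1⟩ : ∃ u, u = (a1 + c) * (x - a1) / ((a1 - c) * (x + a1)) := ⟨_, rfl⟩
  obtain ⟨u2, hu2⟩ : ∃ u, u = (a2 + c) * (x - a2) / ((a2 - c) * (x + a2)) := ⟨_, rfl⟩
  obtain ⟨u3, hu3⟩ : ∃ u, u = (a3 + c) * (x - a3) / ((a3 - c) * (x + a3)) := ⟨_, rfl⟩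
  have key := GamA_id h12 h13 h23 k1 k2 k3 x1 x2 x3 hR1 hR2 hR3 hu1 hu2 hu3
  have r12 : q12 * R1 * R2 = -R3 := by
    rw [e12, hR1, hR2, hR3]
    field_simp
  have r13 : q13 * R1 * R3 = -R2 := by
    rw [e13, hR1, hR2, hR3]
    field_simp
  have r23 : q23 * R2 * R3 = -R1 := by
    rw [e23, hR1, hR2, hR3]
    field_simp
  have r123 : q12 * q13 * q23 * R1 * R2 * R3 = -1 := by
    rw [e12, e13, e23, hR1, hR2, hR3]
    field_simp
  rw [← hR1, ← hu1] at hY
  rw [← hR2, ← hu2] at hZ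
  rw [← hR3, ← hu3] at hT
  rw [hY, hZ, hT]
  linear_combination key + u1 * u2 * r12 + u1 * u3 * r13 + u2 * u3 * r23 +
    u1 * u2 * u3 * r123

theorem gam_val {g : ℕ} {a : Fin g → ℂ} {T : Finset (Fin g)} {i j k l : Fin g} (hij : i ≠ j)
    (hik : i ≠ k) (hjk : j ≠ k) (hil : i ≠ l) (hjl : j ≠ l) (hkl : k ≠ l)
    (hT : T = {i, j, k, l}) (x : ℂ) :
    gam a T x i = (a i + a j) / (a i - a j) * ((a i + a k) / (a i - a k) *
      ((a i + a l) / (a i - a l))) * ((x - a i) / (x + a i)) := by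
  unfold gam
  have hi : i ∈ T := by
    rw [hT]
    simp
  have he : T.erase i = {j, k, l} := by
    rw [hT]
    exact Finset.erase_insert (by simp [hij, hik, hil])
  rw [if_pos hi, he, Finset.prod_insert (by simp [hjk, hjl]), Finset.prod_pair hkl]

private theorem GamA_main {g : ℕ} {q : Fin g → Fin g → ℂ} (hs : ∀ i j, q i j = q j i)
    {a : Fin g → ℂ} {T : Finset (Fin g)} {i j k l : Fin g} (hij : i ≠ j) (hik : i ≠ k)
    (hjk : j ≠ k) (hil : i ≠ l) (hjl : j ≠ l) (hkl : k ≠ l) (hT : T = {i, j, k, l})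
    (hG : Good q a T) {x : ℂ} (hx : ∀ m ∈ T, x + a m ≠ 0) :
    Dq q ∅ (gam a T x) = 0 ∧ Dq q {i} (gam a T x) = 0 := by
  have mi : i ∈ T := by rw [hT]; simp
  have mj : j ∈ T := by rw [hT]; simp
  have mk : k ∈ T := by rw [hT]; simp
  have ml : l ∈ T := by rw [hT]; simp
  have hW : ∀ m, m ∉ ({i, j, k, l} : Finset (Fin g)) → gam a T x m = 0 := by
    intro m hm
    unfold gam
    rw [if_neg (by rw [hT]; exact hm)]
  have vj := gam_val (a := a) (T := T) hij.symm hjk hik hjl hil hkl (by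
    rw [hT]
    ext m
    simp only [Finset.mem_insert, Finset.mem_singleton]
    tauto) x
  have vk := gam_val (a := a) (T := T) hik.symm hjk.symm hij hkl hil hjl (by
    rw [hT]
    ext m
    simp only [Finset.mem_insert, Finset.mem_singleton]
    tauto) x
  have vl := gam_val (a := a) (T := T) hil.symm hjl.symm hij hkl.symm hik hjk (by
    rw [hT]
    ext m
    simp only [Finset.mem_insert, Finset.mem_singleton]
    tauto) x
  obtain ⟨nij, pij, qij⟩ := hG.2 i mi j mj hij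
  obtain ⟨nik, pik, qik⟩ := hG.2 i mi k mk hik
  obtain ⟨nil, pil, qil⟩ := hG.2 i mi l ml hil
  obtain ⟨njk, pjk, qjk⟩ := hG.2 j mj k mk hjk
  obtain ⟨njl, pjl, qjl⟩ := hG.2 j mj l ml hjl
  obtain ⟨nkl, pkl, qkl⟩ := hG.2 k mk l ml hkl
  have dij : a i - a j ≠ 0 := sub_ne_zero.2 nij
  have dik : a i - a k ≠ 0 := sub_ne_zero.2 nik
  have dil : a i - a l ≠ 0 := sub_ne_zero.2 nil
  have djk : a j - a k ≠ 0 := sub_ne_zero.2 njk
  have djl : a j - a l ≠ 0 := sub_ne_zero.2 njl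
  have dkl : a k - a l ≠ 0 := sub_ne_zero.2 nkl
  have dji : a j - a i ≠ 0 := sub_ne_zero.2 nij.symm
  have dki : a k - a i ≠ 0 := sub_ne_zero.2 nik.symm
  have dli : a l - a i ≠ 0 := sub_ne_zero.2 nil.symm
  have dkj : a k - a j ≠ 0 := sub_ne_zero.2 njk.symm
  have dlj : a l - a j ≠ 0 := sub_ne_zero.2 njl.symm
  have dlk : a l - a k ≠ 0 := sub_ne_zero.2 nkl.symm
  have pji : a j + a i ≠ 0 := by rwa [add_comm]
  have pki : a k + a i ≠ 0 := by rwa [add_comm]
  have pli : a l + a i ≠ 0 := by rwa [add_comm]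
  have xj := hx j mj
  have xk := hx k mk
  have xl := hx l ml
  have sji : a j - a i = -(a i - a j) := by ring
  have ski : a k - a i = -(a i - a k) := by ring
  have sli : a l - a i = -(a i - a l) := by ring
  have skj : a k - a j = -(a j - a k) := by ring
  have slj : a l - a j = -(a j - a l) := by ring
  have slk : a l - a k = -(a k - a l) := by ring
  have E1 := GamA_phi (c := a i) (x := x) (Y := gam a T x j) (Z := gam a T x k)
    (T := gam a T x l) djk djl dkl pjk pjl pkl dji dki dli xj xk xl qjk qjl qkl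
    (by
      rw [vj]
      field_simp) (by
      rw [vk, skj]
      field_simp
      ring) (by
      rw [vl, slj, slk]
      field_simp
      ring)
  have E2 := GamA_phi (c := -a i) (x := x) (Y := q i j * gam a T x j)
    (Z := q i k * gam a T x k) (T := q i l * gam a T x l) djk djl dkl pjk pjl pkl
    (by rwa [sub_neg_eq_add]) (by rwa [sub_neg_eq_add]) (by rwa [sub_neg_eq_add])
    xj xk xl qjk qjl qkl
    (by
      rw [vj, qij, sji, add_comm (a j) (a i), sub_neg_eq_add, add_comm (a j) (a i)]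
      field_simp
      ring) (by
      rw [vk, qik, ski, skj, add_comm (a k) (a i), sub_neg_eq_add, add_comm (a k) (a i)]
      field_simp
      ring) (by
      rw [vl, qil, sli, slj, slk, add_comm (a l) (a i), sub_neg_eq_add, add_comm (a l) (a i)]
      field_simp
      ring)
  constructor
  · rw [exp4_0 hs hij hik hjk hil hjl hkl hW]
    linear_combination E1 + gam a T x i * E2
  · rw [exp4_1 hs hij hik hjk hil hjl hkl hW]
    linear_combination gam a T x i * E2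

theorem gam_sing {g : ℕ} {q : Fin g → Fin g → ℂ} (hs : ∀ i j, q i j = q j i) {a : Fin g → ℂ}
    {T : Finset (Fin g)} (hT : T.card = 4) (hG : Good q a T) {x : ℂ} (hx : ∀ i ∈ T, x + a i ≠ 0)
    {A : Finset (Fin g)} (hA : A.card ≤ 1) : Dq q A (gam a T x) = 0 := by
  have key : ∀ i ∈ T, Dq q ∅ (gam a T x) = 0 ∧ Dq q {i} (gam a T x) = 0 := by
    intro i hi
    have hc : (T.erase i).card = 3 := by
      rw [Finset.card_erase_of_mem hi, hT]
    obtain ⟨j, k, l, hjk, hjl, hkl, he⟩ := Finset.card_eq_three.1 hc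
    have hT' : T = {i, j, k, l} := by
      rw [← he, Finset.insert_erase hi]
    have hni : i ∉ ({j, k, l} : Finset (Fin g)) := by
      rw [← he]
      exact Finset.notMem_erase i T
    simp only [Finset.mem_insert, Finset.mem_singleton, not_or] at hni
    exact GamA_main hs hni.1 hni.2.1 hjk hni.2.2 hjl hkl hT' hG hx
  have hne : T.Nonempty := Finset.card_pos.1 (by omega)
  obtain ⟨i0, hi0⟩ := hne
  rcases Nat.lt_or_ge A.card 1 with h | h
  · have hA0 : A = ∅ := Finset.card_eq_zero.1 (by omega)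
    rw [hA0]
    exact (key i0 hi0).1
  · obtain ⟨i, hi⟩ := Finset.card_eq_one.1 (le_antisymm hA h)
    rw [hi]
    by_cases hiT : i ∈ T
    · exact (key i hiT).2
    · refine Dq_zero (i := i) ?_ (Finset.mem_singleton_self i)
      unfold gam
      rw [if_neg hiT]

end AMC
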