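import Pool.Agent.Lib.MP_b57e3c_ag_M.Ldef
import Pool.Agent.Lib.MP_b57e3c_ag_M.Exp

/-!
# Module GamB : the off-diagonal entries of the Hessian along `gam` and at `pt`

`T = {i, j, k, l}`; `W = gam a T x`. By `exp4_2`, `Dq q {i,j} W = q_ij W_i W_j G` with
`G = 1 + q_ik q_jk W_k + q_il q_jl W_l + q_ik q_jk q_il q_jl q_kl W_k W_l
  = 4 a_k a_l (a_i+a_j)(a_k+a_l)(x+a_i)(x+a_j) / ((a_i+a_k)(a_j+a_k)(a_i+a_l)(a_j+a_l)(x+a_k)(x+a_l))`
(rational identity, checked by computer: `field_simp; ring`), nonzero.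
For `J = {i, j, k}`, `W = pt a J`: `exp3_2` and
`1 + q_ik q_jk W_k = 1 - (a_k-a_i)(a_k-a_j)/((a_k+a_i)(a_k+a_j)) = 2 a_k (a_i + a_j)/((a_k+a_i)(a_k+a_j)) ≠ 0`.
`det_ne_zero`: `3 × 3` matrix with zero diagonal, symmetric, nonzero off-diagonal entries:
`det = 2 M_ij M_ik M_jk` (reindex `{k // k ∈ J}` by `Fin 3` (an equivalence exists since
`card = 3`: `Fintype.equivFinOfCardEq`), `Matrix.det_fin_three`, `Matrix.det_submatrix_equiv_self`).
`det_gam`, `det_pt` : combine (`Dq q {i,i} = Dq q {i}` is `0` by hypothesis `hd`).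
-/

open Complex

namespace AMC

private theorem GamB_val {g : ℕ} {a : Fin g → ℂ} {T : Finset (Fin g)} {i j k l : Fin g}
    (hij : i ≠ j) (hik : i ≠ k) (hjk : j ≠ k) (hil : i ≠ l) (hjl : j ≠ l) (hkl : k ≠ l)
    (hT : T = {i, j, k, l}) (x : ℂ) :
    gam a T x i = (a i + a j) / (a i - a j) * ((a i + a k) / (a i - a k) *
      ((a i + a l) / (a i - a l))) * ((x - a i) / (x + a i)) := by
  unfold gam
  have hi : i ∈ T := by
    rw [hT]
    simp
  have he : T.erase i = {j, k, l} := by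
    rw [hT]
    exact Finset.erase_insert (by simp [hij, hik, hil])
  rw [if_pos hi, he, Finset.prod_insert (by simp [hjk, hjl]), Finset.prod_pair hkl]

private theorem GamB_pval {g : ℕ} {a : Fin g → ℂ} {J : Finset (Fin g)} {i j k : Fin g}
    (hij : i ≠ j) (hik : i ≠ k) (hjk : j ≠ k) (hJ : J = {i, j, k}) :
    pt a J i = -((a i + a j) / (a i - a j) * ((a i + a k) / (a i - a k))) := by
  unfold pt
  have hi : i ∈ J := by
    rw [hJ]
    simp
  have he : J.erase i = {j, k} := by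
    rw [hJ]
    exact Finset.erase_insert (by simp [hij, hik])
  rw [if_pos hi, he, Finset.prod_pair hjk]

private theorem GamB_id {ai aj ak al x sk sl p hk hl : ℂ} (pki : ak + ai ≠ 0)
    (pkj : ak + aj ≠ 0) (pli : al + ai ≠ 0) (plj : al + aj ≠ 0) (dkl : ak - al ≠ 0)
    (xk : x + ak ≠ 0) (xl : x + al ≠ 0)
    (hsk : sk = (ak - ai) * (ak - aj) / ((ak + ai) * (ak + aj)))
    (hsl : sl = (al - ai) * (al - aj) / ((al + ai) * (al + aj)))
    (hp : p = (ak + al) / (ak - al)) (hhk : hk = (x - ak) / (x + ak))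
    (hhl : hl = (x - al) / (x + al)) :
    1 + sk * p * hk - sl * p * hl - sk * sl * hk * hl =
      4 * ak * al * (ai + aj) * (ak + al) * (x + ai) * (x + aj) /
        ((ak + ai) * (ak + aj) * (al + ai) * (al + aj) * (x + ak) * (x + al)) := by
  rw [hsk, hsl, hp, hhk, hhl]
  field_simp
  ring

theorem gam_offdiag {g : ℕ} {q : Fin g → Fin g → ℂ} (hs : ∀ i j, q i j = q j i)
    {a : Fin g → ℂ} {T : Finset (Fin g)} (hT : T.card = 4) (hG : Good q a T) {x : ℂ}
    (hx : ∀ i ∈ T, x + a i ≠ 0) {i j : Fin g} (hi : i ∈ T) (hj : j ∈ T) (hij : i ≠ j)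
    (hxi : x ≠ a i) (hxj : x ≠ a j) : Dq q {i, j} (gam a T x) ≠ 0 := by
  have hji : j ∈ T.erase i := Finset.mem_erase.2 ⟨hij.symm, hj⟩
  have hc : ((T.erase i).erase j).card = 2 := by
    rw [Finset.card_erase_of_mem hji, Finset.card_erase_of_mem hi, hT]
  obtain ⟨k, l, hkl, he⟩ := Finset.card_eq_two.1 hc
  have hT' : T = {i, j, k, l} := by
    rw [← he, Finset.insert_erase hji, Finset.insert_erase hi]
  have hnj : j ∉ ({k, l} : Finset (Fin g)) := by
    rw [← he]
    exact Finset.notMem_erase j _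
  have hni : i ∉ ({k, l} : Finset (Fin g)) := by
    rw [← he]
    exact fun h => Finset.notMem_erase i T (Finset.mem_of_mem_erase h)
  simp only [Finset.mem_insert, Finset.mem_singleton, not_or] at hni hnj
  have hik : i ≠ k := hni.1
  have hil : i ≠ l := hni.2
  have hjk : j ≠ k := hnj.1
  have hjl : j ≠ l := hnj.2
  have mk : k ∈ T := by rw [hT']; simp
  have ml : l ∈ T := by rw [hT']; simp
  have hW : ∀ m, m ∉ ({i, j, k, l} : Finset (Fin g)) → gam a T x m = 0 := by
    intro m hm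
    unfold gam
    rw [if_neg (by rw [hT']; exact hm)]
  have vi := GamB_val (a := a) hij hik hjk hil hjl hkl hT' x
  have vj := GamB_val (a := a) (T := T) hij.symm hjk hik hjl hil hkl (by
    rw [hT']
    ext m
    simp only [Finset.mem_insert, Finset.mem_singleton]
    tauto) x
  have vk := GamB_val (a := a) (T := T) hik.symm hjk.symm hij hkl hil hjl (by
    rw [hT']
    ext m
    simp only [Finset.mem_insert, Finset.mem_singleton]
    tauto) x
  have vl := GamB_val (a := a) (T := T) hil.symm hjl.symm hij hkl.symm hik hjk (by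
    rw [hT']
    ext m
    simp only [Finset.mem_insert, Finset.mem_singleton]
    tauto) x
  obtain ⟨nij, pij, qij⟩ := hG.2 i hi j hj hij
  obtain ⟨nik, pik, qik⟩ := hG.2 i hi k mk hik
  obtain ⟨nil, pil, qil⟩ := hG.2 i hi l ml hil
  obtain ⟨njk, pjk, qjk⟩ := hG.2 j hj k mk hjk
  obtain ⟨njl, pjl, qjl⟩ := hG.2 j hj l ml hjl
  obtain ⟨nkl, pkl, qkl⟩ := hG.2 k mk l ml hkl
  have dij : a i - a j ≠ 0 := sub_ne_zero.2 nij
  have dji : a j - a i ≠ 0 := sub_ne_zero.2 nij.symm
  have dik : a i - a k ≠ 0 := sub_ne_zero.2 nik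
  have dil : a i - a l ≠ 0 := sub_ne_zero.2 nil
  have djk : a j - a k ≠ 0 := sub_ne_zero.2 njk
  have djl : a j - a l ≠ 0 := sub_ne_zero.2 njl
  have dkl : a k - a l ≠ 0 := sub_ne_zero.2 nkl
  have dki : a k - a i ≠ 0 := sub_ne_zero.2 nik.symm
  have dli : a l - a i ≠ 0 := sub_ne_zero.2 nil.symm
  have dkj : a k - a j ≠ 0 := sub_ne_zero.2 njk.symm
  have dlj : a l - a j ≠ 0 := sub_ne_zero.2 njl.symm
  have pki : a k + a i ≠ 0 := by rwa [add_comm]
  have pli : a l + a i ≠ 0 := by rwa [add_comm]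
  have pkj : a k + a j ≠ 0 := by rwa [add_comm]
  have plj : a l + a j ≠ 0 := by rwa [add_comm]
  have pji : a j + a i ≠ 0 := by rwa [add_comm]
  have xi := hx i hi
  have xj := hx j hj
  have xk := hx k mk
  have xl := hx l ml
  obtain ⟨sk, hsk⟩ : ∃ s, s = (a k - a i) * (a k - a j) / ((a k + a i) * (a k + a j)) :=
    ⟨_, rfl⟩
  obtain ⟨sl, hsl⟩ : ∃ s, s = (a l - a i) * (a l - a j) / ((a l + a i) * (a l + a j)) :=
    ⟨_, rfl⟩
  obtain ⟨p, hp⟩ : ∃ s, s = (a k + a l) / (a k - a l) := ⟨_, rfl⟩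
  obtain ⟨hk, hhk⟩ : ∃ s, s = (x - a k) / (x + a k) := ⟨_, rfl⟩
  obtain ⟨hl, hhl⟩ : ∃ s, s = (x - a l) / (x + a l) := ⟨_, rfl⟩
  have hp0 : p ≠ 0 := by
    rw [hp]
    exact div_ne_zero pkl dkl
  have key := GamB_id (x := x) pki pkj pli plj dkl xk xl hsk hsl hp hhk hhl
  have eik : q i k * q j k = ((a k - a i) / (a k + a i)) ^ 2 * ((a k - a j) / (a k + a j)) ^ 2 := by
    rw [qik, qjk, ← neg_sub (a k) (a i), ← neg_sub (a k) (a j), add_comm (a i), add_comm (a j)]
    ring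
  have eil : q i l * q j l = ((a l - a i) / (a l + a i)) ^ 2 * ((a l - a j) / (a l + a j)) ^ 2 := by
    rw [qil, qjl, ← neg_sub (a l) (a i), ← neg_sub (a l) (a j), add_comm (a i), add_comm (a j)]
    ring
  have ek : q i k * q j k * gam a T x k = sk * p * hk := by
    rw [eik, vk, hsk, hp, hhk]
    field_simp
  have slk : a l - a k = -(a k - a l) := by ring
  have el : q i l * q j l * gam a T x l = -(sl * p * hl) := by
    rw [eil, vl, hsl, hp, hhl, slk, add_comm (a l) (a k)]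
    field_simp
  have ekl : q k l * p ^ 2 = 1 := by
    rw [qkl, hp]
    field_simp
  rw [exp4_2 hs hij hik hjk hil hjl hkl hW]
  have hGe : 1 + q i k * q j k * gam a T x k + q i l * q j l * gam a T x l +
      q i k * q j k * q i l * q j l * q k l * gam a T x k * gam a T x l =
      4 * a k * a l * (a i + a j) * (a k + a l) * (x + a i) * (x + a j) /
        ((a k + a i) * (a k + a j) * (a l + a i) * (a l + a j) * (x + a k) * (x + a l)) := by
    rw [← key]
    have h2 : q i k * q j k * q i l * q j l * q k l * gam a T x k * gam a T x l =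
        (q i k * q j k * gam a T x k) * (q i l * q j l * gam a T x l) * q k l := by ring
    rw [h2, ek, el]
    linear_combination -(sk * hk * sl * hl) * ekl
  rw [hGe]
  have ak0 := hG.1 k mk
  have al0 := hG.1 l ml
  have qij0 : q i j ≠ 0 := by
    rw [qij]
    exact pow_ne_zero 2 (div_ne_zero dij pij)
  have Wi0 : gam a T x i ≠ 0 := by
    rw [vi]
    exact mul_ne_zero (mul_ne_zero (div_ne_zero pij dij) (mul_ne_zero (div_ne_zero pik dik)
      (div_ne_zero pil dil))) (div_ne_zero (sub_ne_zero.2 hxi) xi)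
  have Wj0 : gam a T x j ≠ 0 := by
    rw [vj]
    exact mul_ne_zero (mul_ne_zero (div_ne_zero pji dji) (mul_ne_zero (div_ne_zero pjk djk)
      (div_ne_zero pjl djl))) (div_ne_zero (sub_ne_zero.2 hxj) xj)
  refine mul_ne_zero (mul_ne_zero (mul_ne_zero qij0 Wi0) Wj0) (div_ne_zero ?_ ?_)
  · exact mul_ne_zero (mul_ne_zero (mul_ne_zero (mul_ne_zero (mul_ne_zero
      (mul_ne_zero (by norm_num) ak0) al0) pij) pkl) xi) xj
  · exact mul_ne_zero (mul_ne_zero (mul_ne_zero (mul_ne_zero (mul_ne_zero pki pkj) pli) plj)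
      xk) xl

theorem pt_offdiag {g : ℕ} {q : Fin g → Fin g → ℂ} (hs : ∀ i j, q i j = q j i)
    {a : Fin g → ℂ} {J : Finset (Fin g)} (hJ : J.card = 3) (hG : Good q a J)
    {i j : Fin g} (hi : i ∈ J) (hj : j ∈ J) (hij : i ≠ j) : Dq q {i, j} (pt a J) ≠ 0 := by
  have hji : j ∈ J.erase i := Finset.mem_erase.2 ⟨hij.symm, hj⟩
  have hc : ((J.erase i).erase j).card = 1 := by
    rw [Finset.card_erase_of_mem hji, Finset.card_erase_of_mem hi, hJ]
  obtain ⟨k, he⟩ := Finset.card_eq_one.1 hc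
  have hJ' : J = {i, j, k} := by
    rw [← he, Finset.insert_erase hji, Finset.insert_erase hi]
  have hnj : j ∉ ({k} : Finset (Fin g)) := by
    rw [← he]
    exact Finset.notMem_erase j _
  have hni : i ∉ ({k} : Finset (Fin g)) := by
    rw [← he]
    exact fun h => Finset.notMem_erase i J (Finset.mem_of_mem_erase h)
  rw [Finset.mem_singleton] at hni hnj
  have mk : k ∈ J := by rw [hJ']; simp
  have hW : ∀ m, m ∉ ({i, j, k} : Finset (Fin g)) → pt a J m = 0 := by
    intro m hm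
    unfold pt
    rw [if_neg (by rw [hJ']; exact hm)]
  have vi := GamB_pval (a := a) hij hni hnj hJ'
  have vj := GamB_pval (a := a) (J := J) hij.symm hnj hni (by
    rw [hJ']
    ext m
    simp only [Finset.mem_insert, Finset.mem_singleton]
    tauto)
  have vk := GamB_pval (a := a) (J := J) (Ne.symm hni) (Ne.symm hnj) hij (by
    rw [hJ']
    ext m
    simp only [Finset.mem_insert, Finset.mem_singleton]
    tauto)
  obtain ⟨nij, pij, qij⟩ := hG.2 i hi j hj hij
  obtain ⟨nik, pik, qik⟩ := hG.2 i hi k mk hni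
  obtain ⟨njk, pjk, qjk⟩ := hG.2 j hj k mk hnj
  have dij : a i - a j ≠ 0 := sub_ne_zero.2 nij
  have dji : a j - a i ≠ 0 := sub_ne_zero.2 nij.symm
  have dik : a i - a k ≠ 0 := sub_ne_zero.2 nik
  have djk : a j - a k ≠ 0 := sub_ne_zero.2 njk
  have dki : a k - a i ≠ 0 := sub_ne_zero.2 nik.symm
  have dkj : a k - a j ≠ 0 := sub_ne_zero.2 njk.symm
  have pki : a k + a i ≠ 0 := by rwa [add_comm]
  have pkj : a k + a j ≠ 0 := by rwa [add_comm]
  have pji : a j + a i ≠ 0 := by rwa [add_comm]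
  have eik : q i k * q j k = ((a k - a i) / (a k + a i)) ^ 2 * ((a k - a j) / (a k + a j)) ^ 2 := by
    rw [qik, qjk, ← neg_sub (a k) (a i), ← neg_sub (a k) (a j), add_comm (a i), add_comm (a j)]
    ring
  have hGe : 1 + q i k * q j k * pt a J k =
      2 * a k * (a i + a j) / ((a k + a i) * (a k + a j)) := by
    rw [eik, vk]
    field_simp
    ring
  rw [exp3_2 hs hij hni hnj hW, hGe]
  have qij0 : q i j ≠ 0 := by
    rw [qij]
    exact pow_ne_zero 2 (div_ne_zero dij pij)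
  have Wi0 : pt a J i ≠ 0 := by
    rw [vi]
    exact neg_ne_zero.2 (mul_ne_zero (div_ne_zero pij dij) (div_ne_zero pik dik))
  have Wj0 : pt a J j ≠ 0 := by
    rw [vj]
    exact neg_ne_zero.2 (mul_ne_zero (div_ne_zero pji dji) (div_ne_zero pjk djk))
  exact mul_ne_zero (mul_ne_zero (mul_ne_zero qij0 Wi0) Wj0)
    (div_ne_zero (mul_ne_zero (mul_ne_zero two_ne_zero (hG.1 k mk)) pij)
      (mul_ne_zero pki pkj))

theorem det_ne_zero {g : ℕ} {q : Fin g → Fin g → ℂ} {J : Finset (Fin g)}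
    (hJ : J.card = 3) {W : Fin g → ℂ} (hd : ∀ i ∈ J, Dq q {i} W = 0)
    (ho : ∀ i ∈ J, ∀ j ∈ J, i ≠ j → Dq q {i, j} W ≠ 0) : (Hes q J W).det ≠ 0 := by
  have hc : Fintype.card {k // k ∈ J} = 3 := by
    rw [Fintype.card_coe, hJ]
  let e : Fin 3 ≃ {k // k ∈ J} := (Fintype.equivFinOfCardEq hc).symm
  rw [← Matrix.det_submatrix_equiv_self e, Matrix.det_fin_three]
  have hdiag : ∀ n : Fin 3, (Hes q J W).submatrix e e n n = 0 := by
    intro n
    show Dq q {((e n : {k // k ∈ J}) : Fin g), ((e n : {k // k ∈ J}) : Fin g)} W = 0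
    rw [Finset.pair_eq_singleton]
    exact hd _ (e n).2
  have hsym : ∀ n m : Fin 3, (Hes q J W).submatrix e e n m = (Hes q J W).submatrix e e m n := by
    intro n m
    show Dq q {((e n : {k // k ∈ J}) : Fin g), ((e m : {k // k ∈ J}) : Fin g)} W =
      Dq q {((e m : {k // k ∈ J}) : Fin g), ((e n : {k // k ∈ J}) : Fin g)} W
    rw [Finset.pair_comm]
  have hne : ∀ n m : Fin 3, n ≠ m → (Hes q J W).submatrix e e n m ≠ 0 := by
    intro n m hnm
    refine ho _ (e n).2 _ (e m).2 (fun h => hnm ?_)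
    exact e.injective (Subtype.ext h)
  rw [hdiag 0, hdiag 1, hdiag 2, hsym 1 0, hsym 2 0, hsym 2 1]
  have h1 := hne 0 1 (by decide)
  have h2 := hne 0 2 (by decide)
  have h3 := hne 1 2 (by decide)
  intro h
  have h4 : 2 * ((Hes q J W).submatrix e e 0 1 * (Hes q J W).submatrix e e 0 2 *
      (Hes q J W).submatrix e e 1 2) = 0 := by
    rw [← h]
    ring
  exact mul_ne_zero two_ne_zero (mul_ne_zero (mul_ne_zero h1 h2) h3) h4

end AMC
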