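import Pool.Agent.Lib.MP_b57e3c_ag_M.Ldef
import Pool.Agent.Lib.MP_b57e3c_ag_M.AlgA
import Pool.Agent.Lib.MP_b57e3c_ag_M.AlgB
import Pool.Agent.Lib.MP_b57e3c_ag_M.AlgC
import Pool.Agent.Lib.MP_b57e3c_ag_M.AlgD
import Pool.Agent.Lib.MP_b57e3c_ag_M.AlgE
import Pool.Agent.Lib.MP_b57e3c_ag_M.AlgF
import Pool.Agent.Lib.MP_b57e3c_ag_M.GamA
import Pool.Agent.Lib.MP_b57e3c_ag_M.GamB
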