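import Pool.Agent.Lib.MP_b57e3c_ag_M.Defs

/-!
# Module Ddm : diagonal dominance

Let `𝒥 = {J | card J = 3, o ∈ J}` (a finite set). For `J = {o, j, k} ∈ 𝒥` the numbers
`N n J' j k`, `J' ∈ 𝒥` converge to `h J' j k`, which is `0` for `J' ≠ J` (`{j, k} ⊄ J'`, as `J'`
contains `o`, and has three elements) and `≠ 0` for `J' = J`. So the determinant of the matrix of
the equations converges to the determinant of a diagonal matrix with nonzero entries.
-/

open Complex Filter Topology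

namespace AMC

private theorem Ddm_pair {g : ℕ} (o : Fin g) (J : Finset (Fin g)) (hJ : J.card = 3 ∧ o ∈ J) :
    ∃ p : Fin g × Fin g, p.1 ≠ o ∧ p.2 ≠ o ∧ p.1 ≠ p.2 ∧ J = {o, p.1, p.2} := by
  have h1 : (J.erase o).card = 2 := by
    rw [Finset.card_erase_of_mem hJ.2, hJ.1]
  obtain ⟨j, k, hjk, h2⟩ := Finset.card_eq_two.1 h1
  have hj : j ∈ J.erase o := by
    rw [h2]
    simp
  have hk : k ∈ J.erase o := by
    rw [h2]
    simp
  refine ⟨(j, k), (Finset.mem_erase.1 hj).1, (Finset.mem_erase.1 hk).1, hjk, ?_⟩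
  rw [← Finset.insert_erase hJ.2, h2]

theorem dominance {g : ℕ} (U : Ultrafilter ℕ) (o : Fin g)
    {N : ℕ → Finset (Fin g) → Fin g → Fin g → ℂ} {h : Finset (Fin g) → Fin g → Fin g → ℂ}
    (hlim : ∀ J : Finset (Fin g), J.card = 3 → o ∈ J → ∀ j k, j ≠ o → k ≠ o → j ≠ k →
      Tendsto (fun n => N n J j k) (U : Filter ℕ) (𝓝 (h J j k)))
    (h0 : ∀ J : Finset (Fin g), J.card = 3 → o ∈ J → ∀ j k, j ≠ o → k ≠ o → j ≠ k →
      ¬ (j ∈ J ∧ k ∈ J) → h J j k = 0)
    (h1 : ∀ J : Finset (Fin g), J.card = 3 → o ∈ J → ∀ j k, j ≠ o → k ≠ o → j ≠ k →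
      j ∈ J → k ∈ J → h J j k ≠ 0) :
    ∀ᶠ n in (U : Filter ℕ), ∀ l : Finset (Fin g) → ℂ,
      (∀ j k, j ≠ o → k ≠ o → j ≠ k →
        ∑ J ∈ Finset.univ.filter (fun J : Finset (Fin g) => J.card = 3 ∧ o ∈ J),
          l J * N n J j k = 0) →
      ∀ J : Finset (Fin g), J.card = 3 → o ∈ J → l J = 0 := by
  classical
  have : Nonempty (Fin g × Fin g) := ⟨(o, o)⟩
  choose! f hf using Ddm_pair o
  let ι := {J : Finset (Fin g) // J.card = 3 ∧ o ∈ J}
  let M : ℕ → Matrix ι ι ℂ := fun n => Matrix.of fun J J' =>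
    N n (J' : Finset (Fin g)) (f (J : Finset (Fin g))).1 (f (J : Finset (Fin g))).2
  let D : Matrix ι ι ℂ := Matrix.of fun J J' =>
    h (J' : Finset (Fin g)) (f (J : Finset (Fin g))).1 (f (J : Finset (Fin g))).2
  have hD : D = Matrix.diagonal fun J : ι =>
      h (J : Finset (Fin g)) (f (J : Finset (Fin g))).1 (f (J : Finset (Fin g))).2 := by
    ext J J'
    by_cases hJ : J = J'
    · subst hJ
      rw [Matrix.diagonal_apply_eq]
      rfl
    · rw [Matrix.diagonal_apply_ne _ hJ]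
      obtain ⟨a1, a2, a3, a4⟩ := hf J.1 J.2
      refine h0 J'.1 J'.2.1 J'.2.2 _ _ a1 a2 a3 ?_
      rintro ⟨b1, b2⟩
      apply hJ
      apply Subtype.ext
      refine Finset.eq_of_subset_of_card_le ?_ (by rw [J.2.1, J'.2.1])
      intro i hi
      rw [a4] at hi
      simp only [Finset.mem_insert, Finset.mem_singleton] at hi
      rcases hi with rfl | rfl | rfl
      · exact J'.2.2
      · exact b1
      · exact b2
  have hdet : D.det ≠ 0 := by
    rw [hD, Matrix.det_diagonal, Finset.prod_ne_zero_iff]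
    intro J _
    obtain ⟨a1, a2, a3, a4⟩ := hf J.1 J.2
    refine h1 J.1 J.2.1 J.2.2 _ _ a1 a2 a3 ?_ ?_
    · have h2 : (f J.1).1 ∈ ({o, (f J.1).1, (f J.1).2} : Finset (Fin g)) := by simp
      rwa [← a4] at h2
    · have h2 : (f J.1).2 ∈ ({o, (f J.1).1, (f J.1).2} : Finset (Fin g)) := by simp
      rwa [← a4] at h2
  have hM : Tendsto M (U : Filter ℕ) (𝓝 D) := by
    refine tendsto_pi_nhds.2 fun J => tendsto_pi_nhds.2 fun J' => ?_
    obtain ⟨a1, a2, a3, _⟩ := hf J.1 J.2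
    exact hlim J'.1 J'.2.1 J'.2.2 _ _ a1 a2 a3
  have hMd : Tendsto (fun n => (M n).det) (U : Filter ℕ) (𝓝 D.det) :=
    ((continuous_id.matrix_det).tendsto D).comp hM
  filter_upwards [hMd.eventually_ne hdet] with n hn
  intro l hl J hJ hoJ
  have hv := Matrix.eq_zero_of_mulVec_eq_zero hn (v := fun J : ι => l (J : Finset (Fin g))) (by
    ext J
    obtain ⟨a1, a2, a3, _⟩ := hf J.1 J.2
    have h2 := hl _ _ a1 a2 a3
    rw [Finset.sum_subtype (p := fun J : Finset (Fin g) => J.card = 3 ∧ o ∈ J) _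
      (fun J => by simp)] at h2
    rw [Pi.zero_apply, ← h2]
    change ∑ J' : ι, M n J J' * l (J' : Finset (Fin g)) = _
    refine Finset.sum_congr rfl fun J' _ => ?_
    exact mul_comm _ _)
  exact congrFun hv ⟨J, hJ, hoJ⟩

end AMC
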