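import Pool.Agent.Lib.MP_b57e3c_ag_M.Ldef
import Pool.Agent.Lib.MP_b57e3c_ag_M.Exp
import Pool.Agent.Lib.MP_b57e3c_ag.Hd

/-!
# Module Hdz : a singular point gives a vanishing hyperdeterminant

By `exp4_0`, `exp4_1` (also with `x, y, z` permuted: `Dq q {y} W`, `Dq q {z} W`) the hypotheses of
`AM.hdet_zero` hold for `T = tens (q x y) (q x z) (q y z) (q x k) (q y k) (q z k) (W k)` and the vectors
`(1, W x)`, `(1, W y)`, `(1, W z)`: e.g. `h1` with `k = true` is `Dq q {z} W / W z = 0`, and with
`k = false` it is `Dq q ∅ W - Dq q {z} W = 0`; `h2` is the same for `y`, `h3` for `x`.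
-/

open Complex Filter Topology

namespace AMC

theorem hdet_of_sing {g : ℕ} {q : Fin g → Fin g → ℂ} (hs : ∀ i j, q i j = q j i)
    {x y z k : Fin g} (hxy : x ≠ y) (hxz : x ≠ z) (hyz : y ≠ z) (hxk : x ≠ k) (hyk : y ≠ k)
    (hzk : z ≠ k) {W : Fin g → ℂ} (hW : ∀ i, i ∉ ({x, y, z, k} : Finset (Fin g)) → W i = 0)
    (hx : W x ≠ 0) (hy : W y ≠ 0) (hz : W z ≠ 0) (h0 : Dq q ∅ W = 0)
    (h1 : Dq q {x} W = 0) (h2 : Dq q {y} W = 0) (h3 : Dq q {z} W = 0) :
    AM.hdet (tens (q x y) (q x z) (q y z) (q x k) (q y k) (q z k) (W k)) = 0 := by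
  have hWy : ∀ i, i ∉ ({y, x, z, k} : Finset (Fin g)) → W i = 0 := fun i hi => hW i (by
    simp only [Finset.mem_insert, Finset.mem_singleton] at hi ⊢
    tauto)
  have hWz : ∀ i, i ∉ ({z, x, y, k} : Finset (Fin g)) → W i = 0 := fun i hi => hW i (by
    simp only [Finset.mem_insert, Finset.mem_singleton] at hi ⊢
    tauto)
  rw [exp4_0 hs hxy hxz hyz hxk hyk hzk hW] at h0
  rw [exp4_1 hs hxy hxz hyz hxk hyk hzk hW] at h1
  rw [exp4_1 hs hxy.symm hyz hxz hyk hxk hzk hWy, hs y x] at h2
  rw [exp4_1 hs hxz.symm hyz.symm hxy hzk hxk hyk hWz, hs z x, hs z y] at h3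
  have g1 := (mul_eq_zero.1 h1).resolve_left hx
  have g2 := (mul_eq_zero.1 h2).resolve_left hy
  have g3 := (mul_eq_zero.1 h3).resolve_left hz
  have hne : ∀ w : ℂ, ((1, w) : ℂ × ℂ) ≠ 0 := by
    intro w h
    have := congrArg Prod.fst h
    simp at this
  refine AM.hdet_zero _ (1, W x) (1, W y) (1, W z) (hne _) (hne _) (hne _) ?_ ?_ ?_
  · intro b
    cases b
    · simp only [tens, Bool.and_true, Bool.and_false, Bool.false_eq_true, if_true, if_false,
        one_mul, mul_one, Bool.and_self]
      linear_combination h0 - W z * g3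
    · simp only [tens, Bool.and_true, Bool.and_false, Bool.false_eq_true, if_true, if_false,
        one_mul, mul_one, Bool.and_self]
      linear_combination g3
  · intro b
    cases b
    · simp only [tens, Bool.and_true, Bool.and_false, Bool.false_eq_true, if_true, if_false,
        one_mul, mul_one, Bool.and_self]
      linear_combination h0 - W y * g2
    · simp only [tens, Bool.and_true, Bool.and_false, Bool.false_eq_true, if_true, if_false,
        one_mul, mul_one, Bool.and_self]
      linear_combination g2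
  · intro b
    cases b
    · simp only [tens, Bool.and_true, Bool.and_false, Bool.false_eq_true, if_true, if_false,
        one_mul, mul_one, Bool.and_self]
      linear_combination h0 - W x * g1
    · simp only [tens, Bool.and_true, Bool.and_false, Bool.false_eq_true, if_true, if_false,
        one_mul, mul_one, Bool.and_self]
      linear_combination g1

end AMC
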