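import Pool.Agent.Lib.MP_b57e3c_ag_M.AlgA
import Pool.Agent.Lib.MP_b57e3c_ag_M.AlgB
import Pool.Agent.Lib.MP_b57e3c_ag_M.Exp

/-!
# Module LmA : a point with support of three indices has the form `pt a J`

`J = {x, y, z}` (`Finset.card_eq_three`). `D.sing` for `A = ∅, {x}, {y}, {z}` and `exp3_0`, `exp3_1` (divide by
`e x ≠ 0` etc.; for `y`, `z` use `exp3_1` with permuted indices) give the equations of `alg3` with
`q12 = q x y`, `q13 = q x z`, `q23 = q y z`, `e1 = e x`, …. `param3` gives `a1 a2 a3`; put `a x = a1`,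
`a y = a2`, `a z = a3` (anything elsewhere). `q x y = e3/(e1 e2) = ((a1-a2)/(a1+a2))²` etc., and
`pt a J x = - ∏_{l ∈ {y,z}} (a x + a l)/(a x - a l) = e x`, etc.
-/

open Complex

namespace AMC

theorem LimData.param {g : ℕ} (D : LimData g) {J : Finset (Fin g)} (hJ : J.card = 3)
    {e : Fin g → ℂ} (he : e ∈ D.L) (hJ0 : ∀ j ∈ J, e j ≠ 0) (hK : ∀ k, k ∉ J → e k = 0) :
    ∃ a : Fin g → ℂ, Good D.q a J ∧ e = pt a J := by
  obtain ⟨x, y, z, hxy, hxz, hyz, rfl⟩ := Finset.card_eq_three.1 hJ
  have hs := D.sym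
  have ex : e x ≠ 0 := hJ0 x (by simp)
  have ey : e y ≠ 0 := hJ0 y (by simp)
  have ez : e z ≠ 0 := hJ0 z (by simp)
  have hKy : ∀ i, i ∉ ({y, x, z} : Finset (Fin g)) → e i = 0 := fun i hi => hK i (by
    simp only [Finset.mem_insert, Finset.mem_singleton] at hi ⊢
    tauto)
  have hKz : ∀ i, i ∉ ({z, x, y} : Finset (Fin g)) → e i = 0 := fun i hi => hK i (by
    simp only [Finset.mem_insert, Finset.mem_singleton] at hi ⊢
    tauto)
  have h0 := D.sing e he ∅ (by simp)
  have h1 := D.sing e he {x} (by simp)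
  have h2 := D.sing e he {y} (by simp)
  have h3 := D.sing e he {z} (by simp)
  rw [exp3_0 hs hxy hxz hyz hK] at h0
  rw [exp3_1 hs hxy hxz hyz hK] at h1
  rw [exp3_1 hs hxy.symm hyz hxz hKy, hs y x] at h2
  rw [exp3_1 hs hxz.symm hyz.symm hxy hKz, hs z x, hs z y] at h3
  have g1 := (mul_eq_zero.1 h1).resolve_left ex
  have g2 := (mul_eq_zero.1 h2).resolve_left ey
  have g3 := (mul_eq_zero.1 h3).resolve_left ez
  obtain ⟨r12, r13, r23, hsum, k1, k2, k3⟩ := alg3 (D.ne0 x y hxy) (D.ne0 x z hxz)
    (D.ne0 y z hyz) (D.ne1 x y hxy) (D.ne1 x z hxz) (D.ne1 y z hyz) ex ey ez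
    (by linear_combination h0) (by linear_combination g1) (by linear_combination g2)
    (by linear_combination g3)
  obtain ⟨a1, a2, a3, z1, z2, z3, n12, n13, n23, p12, p13, p23, E1, E2, E3, Q12, Q13, Q23⟩ :=
    param3 ex ey ez k1 k2 k3 hsum
  have q12 : D.q x y = ((a1 - a2) / (a1 + a2)) ^ 2 := by
    rw [← Q12]
    field_simp
    linear_combination r12
  have q13 : D.q x z = ((a1 - a3) / (a1 + a3)) ^ 2 := by
    rw [← Q13]
    field_simp
    linear_combination r13
  have q23 : D.q y z = ((a2 - a3) / (a2 + a3)) ^ 2 := by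
    rw [← Q23]
    field_simp
    linear_combination r23
  obtain ⟨a, ha⟩ : ∃ a : Fin g → ℂ, a = fun i => if i = x then a1 else if i = y then a2 else a3 :=
    ⟨_, rfl⟩
  have ax : a x = a1 := by
    rw [ha]
    exact if_pos rfl
  have ay : a y = a2 := by
    rw [ha]
    show (if y = x then a1 else if y = y then a2 else a3) = a2
    rw [if_neg hxy.symm, if_pos rfl]
  have az : a z = a3 := by
    rw [ha]
    show (if z = x then a1 else if z = y then a2 else a3) = a3
    rw [if_neg hxz.symm, if_neg hyz.symm]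
  have sq21 : ((a2 - a1) / (a2 + a1)) ^ 2 = ((a1 - a2) / (a1 + a2)) ^ 2 := by
    rw [← neg_sub a1 a2, add_comm a2 a1]
    ring
  have sq31 : ((a3 - a1) / (a3 + a1)) ^ 2 = ((a1 - a3) / (a1 + a3)) ^ 2 := by
    rw [← neg_sub a1 a3, add_comm a3 a1]
    ring
  have sq32 : ((a3 - a2) / (a3 + a2)) ^ 2 = ((a2 - a3) / (a2 + a3)) ^ 2 := by
    rw [← neg_sub a2 a3, add_comm a3 a2]
    ring
  refine ⟨a, ⟨?_, ?_⟩, ?_⟩
  · intro i hi
    simp only [Finset.mem_insert, Finset.mem_singleton] at hi
    rcases hi with rfl | rfl | rfl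
    · rwa [ax]
    · rwa [ay]
    · rwa [az]
  · intro i hi j hj hij
    simp only [Finset.mem_insert, Finset.mem_singleton] at hi hj
    rcases hi with rfl | rfl | rfl
    · rcases hj with rfl | rfl | rfl
      · exact absurd rfl hij
      · rw [ax, ay]
        exact ⟨n12, p12, q12⟩
      · rw [ax, az]
        exact ⟨n13, p13, q13⟩
    · rcases hj with rfl | rfl | rfl
      · rw [ax, ay, hs, sq21]
        exact ⟨n12.symm, by rwa [add_comm], q12⟩
      · exact absurd rfl hij
      · rw [ay, az]
        exact ⟨n23, p23, q23⟩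
    · rcases hj with rfl | rfl | rfl
      · rw [ax, az, hs, sq31]
        exact ⟨n13.symm, by rwa [add_comm], q13⟩
      · rw [ay, az, hs, sq32]
        exact ⟨n23.symm, by rwa [add_comm], q23⟩
      · exact absurd rfl hij
  · funext i
    unfold pt
    by_cases hi : i ∈ ({x, y, z} : Finset (Fin g))
    · rw [if_pos hi]
      simp only [Finset.mem_insert, Finset.mem_singleton] at hi
      rcases hi with rfl | rfl | rfl
      · have he' : ({i, y, z} : Finset (Fin g)).erase i = {y, z} :=
          Finset.erase_insert (by simp [hxy, hxz])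
        rw [he', Finset.prod_pair hyz, ax, ay, az, E1]
      · have he' : ({x, i, z} : Finset (Fin g)).erase i = {x, z} := by
          ext m
          simp only [Finset.mem_erase, Finset.mem_insert, Finset.mem_singleton]
          constructor
          · rintro ⟨h, h'⟩
            tauto
          · rintro (rfl | rfl)
            · exact ⟨hxy, Or.inl rfl⟩
            · exact ⟨hyz.symm, Or.inr (Or.inr rfl)⟩
        rw [he', Finset.prod_pair hxz, ax, ay, az, E2]
      · have he' : ({x, y, i} : Finset (Fin g)).erase i = {x, y} := by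
          ext m
          simp only [Finset.mem_erase, Finset.mem_insert, Finset.mem_singleton]
          constructor
          · rintro ⟨h, h'⟩
            tauto
          · rintro (rfl | rfl)
            · exact ⟨hxz, Or.inl rfl⟩
            · exact ⟨hyz, Or.inr (Or.inl rfl)⟩
        rw [he', Finset.prod_pair hxy, ax, ay, az, E3]
    · rw [if_neg hi, hK i hi]

end AMC
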