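import Pool.Agent.Lib.MP_b57e3c_ag_M.Ldef
import Pool.Agent.Lib.MP_b57e3c_ag_M.Exp

/-!
# Module Ifp : implicit functions for the limit polynomial

`e` is supported on `{x, y, z}`, with `Dq q {j} e = 0` for `j = x, y, z`, and the `3 × 3` Hessian
block is invertible. For `X ∈ ℂ⁴` let `W` be the vector with the coordinates `X 0, X 1, X 2, X 3`
at `x, y, z, k` and `0` elsewhere. By `exp4_1`, `Dq q {x} (W) = X_x G_x(X)` with a polynomial `G_x`,
etc. The map `(G_x, G_y, G_z, X 3)` vanishes at `(e, 0)` and its derivative there is surjective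
(`Ifp_solve`), so `HasStrictFDerivAt.map_nhds_eq_of_surj` gives the zeros of `G` for all small
values of `X 3`.
-/

open Complex Filter Topology

namespace AMC

/-- the derivative of the polynomials `G` at a point with `W e0 = 0` -/
private theorem Ifp_deriv {E : Type*} [NormedAddCommGroup E] [NormedSpace ℂ E]
    (U V W : E →L[ℂ] ℂ) (α β γ π α' β' γ' : ℂ) (e0 : E) (hW : W e0 = 0) :
    HasStrictFDerivAt (fun e => 1 + α * U e + β * V e + γ * U e * V e +
        W e * π * (1 + α' * U e + β' * V e + γ' * U e * V e))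
      ((α + γ * V e0) • U + (β + γ * U e0) • V +
        (π * (1 + α' * U e0 + β' * V e0 + γ' * U e0 * V e0)) • W) e0 := by
  have hU : HasStrictFDerivAt (fun e => U e) U e0 := U.hasStrictFDerivAt
  have hV : HasStrictFDerivAt (fun e => V e) V e0 := V.hasStrictFDerivAt
  have hW' : HasStrictFDerivAt (fun e => W e) W e0 := W.hasStrictFDerivAt
  have h1 : HasStrictFDerivAt (fun e => 1 + α * U e + β * V e + γ * U e * V e) _ e0 :=
    (((hasStrictFDerivAt_const (1 : ℂ) e0).add (hU.const_mul α)).add (hV.const_mul β)).add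
      ((hU.const_mul γ).mul hV)
  have h2 : HasStrictFDerivAt (fun e => 1 + α' * U e + β' * V e + γ' * U e * V e) _ e0 :=
    (((hasStrictFDerivAt_const (1 : ℂ) e0).add (hU.const_mul α')).add (hV.const_mul β')).add
      ((hU.const_mul γ').mul hV)
  have h3 := h1.add ((hW'.mul_const π).mul h2)
  refine h3.congr_fderiv ?_
  ext v
  simp only [add_apply, smul_apply, smul_eq_mul, hW, zero_apply]
  ring

/-- the linear system -/
private theorem Ifp_solve {A B C : ℂ} (hA : A ≠ 0) (hB : B ≠ 0) (hC : C ≠ 0) (s1 s2 s3 : ℂ) :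
    ∃ X Y Z : ℂ, A * Y + B * Z = s1 ∧ A * X + C * Z = s2 ∧ B * X + C * Y = s3 := by
  refine ⟨(B * s2 + A * s3 - C * s1) / (2 * A * B), (C * s1 + A * s3 - B * s2) / (2 * A * C),
    (C * s1 + B * s2 - A * s3) / (2 * B * C), ?_, ?_, ?_⟩
  · field_simp
    ring
  · field_simp
    ring
  · field_simp
    ring

/-- zeros of the three polynomials near a nondegenerate zero -/
private theorem Ifp_near (a b c p r s : ℂ) (e0 : Fin 4 → ℂ) (h3 : e0 3 = 0)
    (g1 : 1 + a * e0 1 + b * e0 2 + a * b * c * e0 1 * e0 2 = 0)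
    (g2 : 1 + a * e0 0 + c * e0 2 + a * b * c * e0 0 * e0 2 = 0)
    (g3 : 1 + b * e0 0 + c * e0 1 + a * b * c * e0 0 * e0 1 = 0)
    (hA : a + a * b * c * e0 2 ≠ 0) (hB : b + a * b * c * e0 1 ≠ 0)
    (hC : c + a * b * c * e0 0 ≠ 0) {δ : ℝ} (hδ : 0 < δ) :
    ∀ᶠ w in 𝓝 (0 : ℂ), ∃ e : Fin 4 → ℂ, e 3 = w ∧ (∀ i, ‖e i - e0 i‖ < δ) ∧
      1 + a * e 1 + b * e 2 + a * b * c * e 1 * e 2 +
        e 3 * p * (1 + a * r * e 1 + b * s * e 2 + a * b * c * r * s * e 1 * e 2) = 0 ∧
      1 + a * e 0 + c * e 2 + a * b * c * e 0 * e 2 +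
        e 3 * r * (1 + a * p * e 0 + c * s * e 2 + a * b * c * p * s * e 0 * e 2) = 0 ∧
      1 + b * e 0 + c * e 1 + a * b * c * e 0 * e 1 +
        e 3 * s * (1 + b * p * e 0 + c * r * e 1 + a * b * c * p * r * e 0 * e 1) = 0 := by
  let P : Fin 4 → ((Fin 4 → ℂ) →L[ℂ] ℂ) := fun i => ContinuousLinearMap.proj i
  have hP : ∀ i (e : Fin 4 → ℂ), P i e = e i := fun i e => rfl
  have d1 := Ifp_deriv (P 1) (P 2) (P 3) a b (a * b * c) p (a * r) (b * s)
    (a * b * c * r * s) e0 h3
  have d2 := Ifp_deriv (P 0) (P 2) (P 3) a c (a * b * c) r (a * p) (c * s)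
    (a * b * c * p * s) e0 h3
  have d3 := Ifp_deriv (P 0) (P 1) (P 3) b c (a * b * c) s (b * p) (c * r)
    (a * b * c * p * r) e0 h3
  have d4 : HasStrictFDerivAt (fun e => P 3 e) (P 3) e0 := (P 3).hasStrictFDerivAt
  have hd := d1.prodMk (d2.prodMk (d3.prodMk d4))
  have hsurj := hd.map_nhds_eq_of_surj (by
    rw [LinearMap.range_eq_top]
    rintro ⟨t1, t2, t3, t4⟩
    obtain ⟨X, Y, Z, e1, e2, e3⟩ := Ifp_solve hA hB hC
      (t1 - (p * (1 + a * r * e0 1 + b * s * e0 2 + a * b * c * r * s * e0 1 * e0 2)) * t4)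
      (t2 - (r * (1 + a * p * e0 0 + c * s * e0 2 + a * b * c * p * s * e0 0 * e0 2)) * t4)
      (t3 - (s * (1 + b * p * e0 0 + c * r * e0 1 + a * b * c * p * r * e0 0 * e0 1)) * t4)
    refine ⟨![X, Y, Z, t4], ?_⟩
    have hX : P 0 ![X, Y, Z, t4] = X := rfl
    have hY : P 1 ![X, Y, Z, t4] = Y := rfl
    have hZ : P 2 ![X, Y, Z, t4] = Z := rfl
    have hT : P 3 ![X, Y, Z, t4] = t4 := rfl
    refine Prod.ext ?_ (Prod.ext ?_ (Prod.ext ?_ ?_))
    · change (a + a * b * c * P 2 e0) * P 1 ![X, Y, Z, t4] +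
        (b + a * b * c * P 1 e0) * P 2 ![X, Y, Z, t4] + _ * P 3 ![X, Y, Z, t4] = t1
      rw [hY, hZ, hT]
      simp only [hP]
      linear_combination e1
    · change (a + a * b * c * P 2 e0) * P 0 ![X, Y, Z, t4] +
        (c + a * b * c * P 0 e0) * P 2 ![X, Y, Z, t4] + _ * P 3 ![X, Y, Z, t4] = t2
      rw [hX, hZ, hT]
      simp only [hP]
      linear_combination e2
    · change (b + a * b * c * P 1 e0) * P 0 ![X, Y, Z, t4] +
        (c + a * b * c * P 0 e0) * P 1 ![X, Y, Z, t4] + _ * P 3 ![X, Y, Z, t4] = t3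
      rw [hX, hY, hT]
      simp only [hP]
      linear_combination e3
    · exact hT)
  have hN : {e : Fin 4 → ℂ | ∀ i, ‖e i - e0 i‖ < δ} ∈ 𝓝 e0 := by
    have h := Filter.eventually_all.2 fun i : Fin 4 =>
      ((continuous_apply i).tendsto e0).eventually (Metric.ball_mem_nhds (e0 i) hδ)
    filter_upwards [h] with e he i
    have h1 := he i
    rwa [dist_eq_norm] at h1
  have him := Filter.image_mem_map hN
    (m := fun e => (1 + a * P 1 e + b * P 2 e + a * b * c * P 1 e * P 2 e +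
        P 3 e * p * (1 + a * r * P 1 e + b * s * P 2 e + a * b * c * r * s * P 1 e * P 2 e),
      1 + a * P 0 e + c * P 2 e + a * b * c * P 0 e * P 2 e +
        P 3 e * r * (1 + a * p * P 0 e + c * s * P 2 e + a * b * c * p * s * P 0 e * P 2 e),
      1 + b * P 0 e + c * P 1 e + a * b * c * P 0 e * P 1 e +
        P 3 e * s * (1 + b * p * P 0 e + c * r * P 1 e + a * b * c * p * r * P 0 e * P 1 e),
      P 3 e))
  rw [hsurj] at him
  simp only [hP, h3, g1, g2, g3, zero_mul, add_zero] at him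
  have hcont : Tendsto (fun w : ℂ => ((0 : ℂ), (0 : ℂ), (0 : ℂ), w)) (𝓝 0) (𝓝 (0, 0, 0, 0)) := by
    have h : Continuous (fun w : ℂ => ((0 : ℂ), (0 : ℂ), (0 : ℂ), w)) := by fun_prop
    exact h.tendsto 0
  filter_upwards [hcont.eventually him] with w hw
  obtain ⟨e, heN, he⟩ := hw
  simp only [Prod.mk.injEq] at he
  obtain ⟨q1, q2, q3, q4⟩ := he
  exact ⟨e, q4, heN, q1, q2, q3⟩

theorem exists_near {g : ℕ} {q : Fin g → Fin g → ℂ} (hs : ∀ i j, q i j = q j i)
    {x y z k : Fin g} (hxy : x ≠ y) (hxz : x ≠ z) (hyz : y ≠ z) (hxk : x ≠ k) (hyk : y ≠ k)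
    (hzk : z ≠ k) {e : Fin g → ℂ} (he : ∀ i, i ∉ ({x, y, z} : Finset (Fin g)) → e i = 0)
    (he0 : e x ≠ 0 ∧ e y ≠ 0 ∧ e z ≠ 0)
    (hD : Dq q {x} e = 0 ∧ Dq q {y} e = 0 ∧ Dq q {z} e = 0)
    (hH : Dq q {x, y} e ≠ 0 ∧ Dq q {x, z} e ≠ 0 ∧ Dq q {y, z} e ≠ 0) {δ : ℝ} (hδ : 0 < δ) :
    ∀ᶠ w in 𝓝 (0 : ℂ), ∃ W : Fin g → ℂ,
      (∀ i, i ∉ ({x, y, z, k} : Finset (Fin g)) → W i = 0) ∧ W k = w ∧
      (∀ i, ‖W i - e i‖ < δ) ∧ Dq q {x} W = 0 ∧ Dq q {y} W = 0 ∧ Dq q {z} W = 0 := by
  have hy3 : ∀ i, i ∉ ({y, x, z} : Finset (Fin g)) → e i = 0 := fun i hi => he i (by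
    simp only [Finset.mem_insert, Finset.mem_singleton] at hi ⊢
    tauto)
  have hz3 : ∀ i, i ∉ ({z, x, y} : Finset (Fin g)) → e i = 0 := fun i hi => he i (by
    simp only [Finset.mem_insert, Finset.mem_singleton] at hi ⊢
    tauto)
  have hxz3 : ∀ i, i ∉ ({x, z, y} : Finset (Fin g)) → e i = 0 := fun i hi => he i (by
    simp only [Finset.mem_insert, Finset.mem_singleton] at hi ⊢
    tauto)
  have hyz3 : ∀ i, i ∉ ({y, z, x} : Finset (Fin g)) → e i = 0 := fun i hi => he i (by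
    simp only [Finset.mem_insert, Finset.mem_singleton] at hi ⊢
    tauto)
  have hk0 : e k = 0 := he k (by
    simp only [Finset.mem_insert, Finset.mem_singleton]
    rintro (h | h | h)
    · exact hxk h.symm
    · exact hyk h.symm
    · exact hzk h.symm)
  obtain ⟨D1, D2, D3⟩ := hD
  obtain ⟨H1, H2, H3⟩ := hH
  rw [exp3_1 hs hxy hxz hyz he] at D1
  rw [exp3_1 hs hxy.symm hyz hxz hy3] at D2
  rw [exp3_1 hs hxz.symm hyz.symm hxy hz3] at D3
  rw [exp3_2 hs hxy hxz hyz he] at H1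
  rw [exp3_2 hs hxz hxy hyz.symm hxz3] at H2
  rw [exp3_2 hs hyz hxy.symm hxz.symm hyz3] at H3
  rw [hs y x] at D2 H3
  rw [hs z x, hs z y] at D3
  rw [hs z y] at H2
  rw [hs z x] at H3
  have G1 := (mul_eq_zero.1 D1).resolve_left he0.1
  have G2 := (mul_eq_zero.1 D2).resolve_left he0.2.1
  have G3 := (mul_eq_zero.1 D3).resolve_left he0.2.2
  have hnear := Ifp_near (q x y) (q x z) (q y z) (q x k) (q y k) (q z k) ![e x, e y, e z, 0]
    rfl (by
      change 1 + q x y * e y + q x z * e z + q x y * q x z * q y z * e y * e z = 0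
      exact G1) (by
      change 1 + q x y * e x + q y z * e z + q x y * q x z * q y z * e x * e z = 0
      linear_combination G2) (by
      change 1 + q x z * e x + q y z * e y + q x y * q x z * q y z * e x * e y = 0
      linear_combination G3) (by
      change q x y + q x y * q x z * q y z * e z ≠ 0
      intro h
      apply H1
      linear_combination (e x * e y) * h) (by
      change q x z + q x y * q x z * q y z * e y ≠ 0
      intro h
      apply H2
      linear_combination (e x * e z) * h) (by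
      change q y z + q x y * q x z * q y z * e x ≠ 0
      intro h
      apply H3
      linear_combination (e y * e z) * h) hδ
  filter_upwards [hnear] with w hw
  obtain ⟨v, hv3, hvn, E1, E2, E3⟩ := hw
  let W : Fin g → ℂ := fun i => if i = x then v 0 else if i = y then v 1 else
    if i = z then v 2 else if i = k then v 3 else 0
  have Wx : W x = v 0 := if_pos rfl
  have Wy : W y = v 1 := by
    change (if y = x then v 0 else if y = y then v 1 else _) = v 1
    rw [if_neg hxy.symm, if_pos rfl]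
  have Wz : W z = v 2 := by
    change (if z = x then v 0 else if z = y then v 1 else if z = z then v 2 else _) = v 2
    rw [if_neg hxz.symm, if_neg hyz.symm, if_pos rfl]
  have Wk : W k = v 3 := by
    change (if k = x then v 0 else if k = y then v 1 else if k = z then v 2 else
      if k = k then v 3 else 0) = v 3
    rw [if_neg hxk.symm, if_neg hyk.symm, if_neg hzk.symm, if_pos rfl]
  have Wo : ∀ i, i ∉ ({x, y, z, k} : Finset (Fin g)) → W i = 0 := by
    intro i hi
    simp only [Finset.mem_insert, Finset.mem_singleton, not_or] at hi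
    change (if i = x then v 0 else if i = y then v 1 else if i = z then v 2 else
      if i = k then v 3 else 0) = 0
    rw [if_neg hi.1, if_neg hi.2.1, if_neg hi.2.2.1, if_neg hi.2.2.2]
  have Wo2 : ∀ i, i ∉ ({y, x, z, k} : Finset (Fin g)) → W i = 0 := fun i hi => Wo i (by
    simp only [Finset.mem_insert, Finset.mem_singleton] at hi ⊢
    tauto)
  have Wo3 : ∀ i, i ∉ ({z, x, y, k} : Finset (Fin g)) → W i = 0 := fun i hi => Wo i (by
    simp only [Finset.mem_insert, Finset.mem_singleton] at hi ⊢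
    tauto)
  refine ⟨W, Wo, Wk.trans hv3, ?_, ?_, ?_, ?_⟩
  · intro i
    by_cases hi : i ∈ ({x, y, z, k} : Finset (Fin g))
    · simp only [Finset.mem_insert, Finset.mem_singleton] at hi
      rcases hi with rfl | rfl | rfl | rfl
      · rw [Wx]
        exact hvn 0
      · rw [Wy]
        exact hvn 1
      · rw [Wz]
        exact hvn 2
      · rw [Wk, hk0]
        exact hvn 3
    · rw [Wo i hi, he i (fun h => hi (by
        simp only [Finset.mem_insert, Finset.mem_singleton] at h ⊢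
        tauto)), sub_zero, norm_zero]
      exact hδ
  · rw [exp4_1 hs hxy hxz hyz hxk hyk hzk Wo, Wx, Wy, Wz, Wk]
    rw [mul_eq_zero]
    right
    linear_combination E1
  · rw [exp4_1 hs hxy.symm hyz hxz hyk hxk hzk Wo2, Wx, Wy, Wz, Wk, hs y x]
    rw [mul_eq_zero]
    right
    linear_combination E2
  · rw [exp4_1 hs hxz.symm hyz.symm hxy hzk hxk hyk Wo3, Wx, Wy, Wz, Wk, hs z x, hs z y]
    rw [mul_eq_zero]
    right
    linear_combination E3

end AMC
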