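import Pool.Agent.Lib.MP_b57e3c_ag_M.AlgA
import Pool.Agent.Lib.MP_b57e3c_ag_M.AlgC
import Pool.Agent.Lib.MP_b57e3c_ag_M.AlgF
import Pool.Agent.Lib.MP_b57e3c_ag_M.GamB
import Pool.Agent.Lib.MP_b57e3c_ag_M.Ifp
import Pool.Agent.Lib.MP_b57e3c_ag_M.Hdz

/-!
# Module LmB : adding a fourth index

`J = {x, y, z}`, `e = pt a J ∈ D.L`, `k ∉ J`. `D.sing` gives `Dq {j} e = 0`; `pt_offdiag` and `det_ne_zero`:
the Hessian block is invertible, and `D.kp` gives `δ`. By `exists_near` for all small `w` there is `W` with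
`W k = w`, `δ`-close to `e` (also close enough that `W x, W y, W z ≠ 0`) and `Dq q {j} W = 0` for `j ∈ J`; so
`W ∈ D.L`, `Dq q ∅ W = 0` (`D.sing`), and `hdet_of_sing` gives `hdet (tens … w) = 0`. The
relations `q12 e1 e2 = e3`, … , `e1 + e2 + e3 = -1`, `1 + e_i ≠ 0` for `e = pt a J` follow from `alg3` and
`exp3_0`, `exp3_1` (or directly from the formulas). `hdet_coeff` and `four` (with `a1 = a x`, …; `pt a J x` is
the product over `{y, z}`) give `b`. `Good (update a k b) (insert k J)`: the formulas are symmetric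
(`((a k - a i)/(a k + a i))² = ((a i - a k)/(a i + a k))²`, `D.sym`).
-/

open Complex Filter Topology

namespace AMC

theorem LimData.four {g : ℕ} (D : LimData g) {J : Finset (Fin g)} (hJ : J.card = 3)
    {a : Fin g → ℂ} (hG : Good D.q a J) (hp : pt a J ∈ D.L) {k : Fin g} (hk : k ∉ J) :
    ∃ b : ℂ, Good D.q (Function.update a k b) (insert k J) := by
  obtain ⟨x, y, z, hxy, hxz, hyz, rfl⟩ := Finset.card_eq_three.1 hJ
  have hs := D.sym
  obtain ⟨e, he⟩ : ∃ e, e = pt a {x, y, z} := ⟨_, rfl⟩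
  rw [← he] at hp
  have mx : x ∈ ({x, y, z} : Finset (Fin g)) := by simp
  have my : y ∈ ({x, y, z} : Finset (Fin g)) := by simp
  have mz : z ∈ ({x, y, z} : Finset (Fin g)) := by simp
  simp only [Finset.mem_insert, Finset.mem_singleton, not_or] at hk
  have hxk : x ≠ k := fun h => hk.1 h.symm
  have hyk : y ≠ k := fun h => hk.2.1 h.symm
  have hzk : z ≠ k := fun h => hk.2.2 h.symm
  have hK : ∀ i, i ∉ ({x, y, z} : Finset (Fin g)) → e i = 0 := by
    intro i hi
    rw [he]
    unfold pt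
    rw [if_neg hi]
  obtain ⟨nxy, pxy, qxy⟩ := hG.2 x mx y my hxy
  obtain ⟨nxz, pxz, qxz⟩ := hG.2 x mx z mz hxz
  obtain ⟨nyz, pyz, qyz⟩ := hG.2 y my z mz hyz
  have dxy : a x - a y ≠ 0 := sub_ne_zero.2 nxy
  have dxz : a x - a z ≠ 0 := sub_ne_zero.2 nxz
  have dyz : a y - a z ≠ 0 := sub_ne_zero.2 nyz
  have dyx : a y - a x ≠ 0 := sub_ne_zero.2 nxy.symm
  have dzx : a z - a x ≠ 0 := sub_ne_zero.2 nxz.symm
  have dzy : a z - a y ≠ 0 := sub_ne_zero.2 nyz.symm
  have pyx : a y + a x ≠ 0 := by rwa [add_comm]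
  have pzx : a z + a x ≠ 0 := by rwa [add_comm]
  have pzy : a z + a y ≠ 0 := by rwa [add_comm]
  have ex : e x = -((a x + a y) / (a x - a y) * ((a x + a z) / (a x - a z))) := by
    rw [he]
    unfold pt
    have he' : ({x, y, z} : Finset (Fin g)).erase x = {y, z} :=
      Finset.erase_insert (by simp [hxy, hxz])
    rw [if_pos mx, he', Finset.prod_pair hyz]
  have ey : e y = -((a y + a x) / (a y - a x) * ((a y + a z) / (a y - a z))) := by
    rw [he]
    unfold pt
    have he' : ({x, y, z} : Finset (Fin g)).erase y = {x, z} := by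
      ext m
      simp only [Finset.mem_erase, Finset.mem_insert, Finset.mem_singleton]
      constructor
      · rintro ⟨h, h'⟩
        tauto
      · rintro (rfl | rfl)
        · exact ⟨hxy, Or.inl rfl⟩
        · exact ⟨hyz.symm, Or.inr (Or.inr rfl)⟩
    rw [if_pos my, he', Finset.prod_pair hxz]
  have ez : e z = -((a z + a x) / (a z - a x) * ((a z + a y) / (a z - a y))) := by
    rw [he]
    unfold pt
    have he' : ({x, y, z} : Finset (Fin g)).erase z = {x, y} := by
      ext m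
      simp only [Finset.mem_erase, Finset.mem_insert, Finset.mem_singleton]
      constructor
      · rintro ⟨h, h'⟩
        tauto
      · rintro (rfl | rfl)
        · exact ⟨hxz, Or.inl rfl⟩
        · exact ⟨hyz, Or.inr (Or.inl rfl)⟩
    rw [if_pos mz, he', Finset.prod_pair hxy]
  have ex0 : e x ≠ 0 := by
    rw [ex]
    exact neg_ne_zero.2 (mul_ne_zero (div_ne_zero pxy dxy) (div_ne_zero pxz dxz))
  have ey0 : e y ≠ 0 := by
    rw [ey]
    exact neg_ne_zero.2 (mul_ne_zero (div_ne_zero pyx dyx) (div_ne_zero pyz dyz))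
  have ez0 : e z ≠ 0 := by
    rw [ez]
    exact neg_ne_zero.2 (mul_ne_zero (div_ne_zero pzx dzx) (div_ne_zero pzy dzy))
  have hKy : ∀ i, i ∉ ({y, x, z} : Finset (Fin g)) → e i = 0 := fun i hi => hK i (by
    simp only [Finset.mem_insert, Finset.mem_singleton] at hi ⊢
    tauto)
  have hKz : ∀ i, i ∉ ({z, x, y} : Finset (Fin g)) → e i = 0 := fun i hi => hK i (by
    simp only [Finset.mem_insert, Finset.mem_singleton] at hi ⊢
    tauto)
  have h0 := D.sing e hp ∅ (by simp)
  have h1 := D.sing e hp {x} (by simp)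
  have h2 := D.sing e hp {y} (by simp)
  have h3 := D.sing e hp {z} (by simp)
  have f0 := h0
  have f1 := h1
  have f2 := h2
  have f3 := h3
  rw [exp3_0 hs hxy hxz hyz hK] at f0
  rw [exp3_1 hs hxy hxz hyz hK] at f1
  rw [exp3_1 hs hxy.symm hyz hxz hKy, hs y x] at f2
  rw [exp3_1 hs hxz.symm hyz.symm hxy hKz, hs z x, hs z y] at f3
  have g1 := (mul_eq_zero.1 f1).resolve_left ex0
  have g2 := (mul_eq_zero.1 f2).resolve_left ey0
  have g3 := (mul_eq_zero.1 f3).resolve_left ez0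
  obtain ⟨r12, r13, r23, hsum, k1, k2, k3⟩ := alg3 (D.ne0 x y hxy) (D.ne0 x z hxz)
    (D.ne0 y z hyz) (D.ne1 x y hxy) (D.ne1 x z hxz) (D.ne1 y z hyz) ex0 ey0 ez0
    (by linear_combination f0) (by linear_combination g1) (by linear_combination g2)
    (by linear_combination g3)
  have o12 : Dq D.q {x, y} e ≠ 0 := by
    rw [he]
    exact pt_offdiag hs hJ hG mx my hxy
  have o13 : Dq D.q {x, z} e ≠ 0 := by
    rw [he]
    exact pt_offdiag hs hJ hG mx mz hxz
  have o23 : Dq D.q {y, z} e ≠ 0 := by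
    rw [he]
    exact pt_offdiag hs hJ hG my mz hyz
  have hdet : (Hes D.q {x, y, z} e).det ≠ 0 := by
    refine det_ne_zero hJ ?_ ?_
    · intro i hi
      simp only [Finset.mem_insert, Finset.mem_singleton] at hi
      rcases hi with rfl | rfl | rfl
      · exact h1
      · exact h2
      · exact h3
    · intro i hi j hj hij
      rw [he]
      exact pt_offdiag hs hJ hG hi hj hij
  obtain ⟨δ, hδ, hkp⟩ := D.kp e hp {x, y, z} hJ (by
    intro j hj
    simp only [Finset.mem_insert, Finset.mem_singleton] at hj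
    rcases hj with rfl | rfl | rfl
    · exact ex0
    · exact ey0
    · exact ez0) hdet
  obtain ⟨δ', hδ'⟩ : ∃ δ', δ' = min δ (min ‖e x‖ (min ‖e y‖ ‖e z‖)) := ⟨_, rfl⟩
  have hδ0 : 0 < δ' := by
    rw [hδ']
    exact lt_min hδ (lt_min (norm_pos_iff.2 ex0) (lt_min (norm_pos_iff.2 ey0)
      (norm_pos_iff.2 ez0)))
  have b0 : δ' ≤ δ := by
    rw [hδ']
    exact min_le_left _ _
  have b1 : δ' ≤ ‖e x‖ := by
    rw [hδ']
    exact (min_le_right _ _).trans (min_le_left _ _)
  have b2 : δ' ≤ ‖e y‖ := by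
    rw [hδ']
    exact (min_le_right _ _).trans ((min_le_right _ _).trans (min_le_left _ _))
  have b3 : δ' ≤ ‖e z‖ := by
    rw [hδ']
    exact (min_le_right _ _).trans ((min_le_right _ _).trans (min_le_right _ _))
  have hne : ∀ v w : ℂ, ‖v - w‖ < δ' → δ' ≤ ‖w‖ → v ≠ 0 := by
    intro v w h h' hv
    rw [hv, zero_sub, norm_neg] at h
    exact absurd h (not_lt.2 h')
  have hev := exists_near hs hxy hxz hyz hxk hyk hzk hK ⟨ex0, ey0, ez0⟩ ⟨h1, h2, h3⟩
    ⟨o12, o13, o23⟩ hδ0
  have hhd : ∀ᶠ w in 𝓝 (0 : ℂ), AM.hdet (tens (D.q x y) (D.q x z) (D.q y z) (D.q x k)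
      (D.q y k) (D.q z k) w) = 0 := by
    filter_upwards [hev] with w hw
    obtain ⟨W, hW, hWk, hWn, d1, d2, d3⟩ := hw
    have hWL : W ∈ D.L := hkp W (fun i => (hWn i).trans_le b0) (by
      intro j hj
      simp only [Finset.mem_insert, Finset.mem_singleton] at hj
      rcases hj with rfl | rfl | rfl
      · exact d1
      · exact d2
      · exact d3)
    rw [← hWk]
    exact hdet_of_sing hs hxy hxz hyz hxk hyk hzk hW (hne _ _ (hWn x) b1) (hne _ _ (hWn y) b2)
      (hne _ _ (hWn z) b3) (D.sing W hWL ∅ (by simp)) d1 d2 d3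
  obtain ⟨hP, hL⟩ := hdet_coeff ex0 ey0 ez0 k1 k2 k3 hsum r12 r13 r23 hhd
  obtain ⟨b, b0', nx, ny, nz, px, py, pz, Q1, Q2, Q3⟩ := AMC.four (hG.1 x mx) (hG.1 y my)
    (hG.1 z mz) nxy nxz nyz pxy pxz pyz ex ey ez (D.ne0 x k hxk) (D.ne0 y k hyk)
    (D.ne0 z k hzk) (D.ne1 x k hxk) (D.ne1 y k hyk) hP hL
  refine ⟨b, ?_⟩
  obtain ⟨a', ha'⟩ : ∃ a', a' = Function.update a k b := ⟨_, rfl⟩
  rw [← ha']
  have a'k : a' k = b := by
    rw [ha']
    exact Function.update_self k b a
  have a'n : ∀ i, i ∈ ({x, y, z} : Finset (Fin g)) → a' i = a i := by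
    intro i hi
    rw [ha']
    refine Function.update_of_ne ?_ b a
    simp only [Finset.mem_insert, Finset.mem_singleton] at hi
    rcases hi with rfl | rfl | rfl
    · exact hxk
    · exact hyk
    · exact hzk
  have hnew : ∀ i, i ∈ ({x, y, z} : Finset (Fin g)) → a i ≠ b ∧ a i + b ≠ 0 ∧
      D.q i k = ((a i - b) / (a i + b)) ^ 2 := by
    intro i hi
    simp only [Finset.mem_insert, Finset.mem_singleton] at hi
    rcases hi with rfl | rfl | rfl
    · exact ⟨nx, px, Q1⟩
    · exact ⟨ny, py, Q2⟩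
    · exact ⟨nz, pz, Q3⟩
  refine ⟨?_, ?_⟩
  · intro i hi
    rcases Finset.mem_insert.1 hi with rfl | hi
    · rwa [a'k]
    · rw [a'n i hi]
      exact hG.1 i hi
  · intro i hi j hj hij
    rcases Finset.mem_insert.1 hi with rfl | hi'
    · rcases Finset.mem_insert.1 hj with rfl | hj'
      · exact absurd rfl hij
      · obtain ⟨c1, c2, c3⟩ := hnew j hj'
        rw [a'k, a'n j hj']
        refine ⟨c1.symm, by rwa [add_comm], ?_⟩
        rw [hs, c3, ← neg_sub b (a j), add_comm b (a j)]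
        ring
    · rcases Finset.mem_insert.1 hj with rfl | hj'
      · rw [a'k, a'n i hi']
        exact hnew i hi'
      · rw [a'n i hi', a'n j hj']
        exact hG.2 i hi' j hj' hij

end AMC
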