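import Pool.Agent.Lib.MP_b57e3c_ag_M.GamA
import Pool.Agent.Lib.MP_b57e3c_ag_M.GamB

/-!
# Module LmC : exchange of an index along the curve `gam`

Let `T = insert k J` (`card = 4`), `Ω = {x : ℂ | ∀ i ∈ T, x + a i ≠ 0}` (open; preconnected, the complement of
a finite set in `ℂ`: `Set.Countable.isPathConnected_compl_of_one_lt_rank` or
`Set.Finite.isPreconnected_compl…`), `γ = gam a T`, continuous on `Ω`, and
`X = {x ∈ Ω | γ x ∈ D.L}`.
* `gam_pt`: for `i ∈ T`, `γ (a i) = pt a (T.erase i)`: coordinate `i` is `0` (factor `x - a i`); for `l ≠ i`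
the factor `(x - a_l)/(x + a_l) = -(a_l - a_i)/(a_l + a_i)` cancels the factor of `i` in the product.
* `X` is relatively closed in `Ω` (`D.closed`, continuity).
* `X` is open: let `x₀ ∈ X`. Let `J' = T.erase i` if `x₀ = a i` for some `i ∈ T`, else `J' = J`
(so `x₀ ≠ a l` for `l ∈ J'`: the `a l`, `l ∈ T`, are distinct). Then `γ x₀ j ≠ 0` for `j ∈ J'`, and
`det (Hes q J' (γ x₀)) ≠ 0` by `gam_sing`, `gam_offdiag`, `det_ne_zero`. `D.kp` gives `δ`; for `x` near `x₀`,
`γ x` is `δ`-close to `γ x₀` and `Dq {j} (γ x) = 0` by `gam_sing`, so `γ x ∈ D.L`.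
* `a k ∈ X` since `γ (a k) = pt a (T.erase k) = pt a J ∈ D.L` (`a k + a i ≠ 0`; for `i = k`: `2 a k ≠ 0`).
So `X = Ω ∋ a j`, and `γ (a j) = pt a (T.erase j) = pt a (insert k (J.erase j))`.
-/

open Complex Filter Topology

namespace AMC

theorem gam_pt {g : ℕ} {q : Fin g → Fin g → ℂ} {a : Fin g → ℂ} {T : Finset (Fin g)}
    (hG : Good q a T) {i : Fin g} (hi : i ∈ T) : gam a T (a i) = pt a (T.erase i) := by
  funext l
  unfold gam pt
  by_cases hlT : l ∈ T
  · rw [if_pos hlT]
    by_cases hli : l = i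
    · subst hli
      rw [sub_self, zero_div, mul_zero, if_neg (by simp)]
    · rw [if_pos (Finset.mem_erase.2 ⟨hli, hlT⟩)]
      have h1 : i ∈ T.erase l := Finset.mem_erase.2 ⟨Ne.symm hli, hi⟩
      rw [← Finset.mul_prod_erase (T.erase l) _ h1, Finset.erase_right_comm]
      obtain ⟨h2, h3, _⟩ := hG.2 l hlT i hi hli
      have h4 : a l - a i ≠ 0 := sub_ne_zero.2 h2
      have h5 : a i + a l ≠ 0 := by rwa [add_comm]
      have h6 : (a l + a i) / (a l - a i) * ((a i - a l) / (a i + a l)) = -1 := by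
        field_simp
        ring
      calc (a l + a i) / (a l - a i) * (∏ x ∈ (T.erase i).erase l, (a l + a x) / (a l - a x)) *
            ((a i - a l) / (a i + a l))
          = (a l + a i) / (a l - a i) * ((a i - a l) / (a i + a l)) *
            ∏ x ∈ (T.erase i).erase l, (a l + a x) / (a l - a x) := by ring
        _ = _ := by rw [h6, neg_one_mul]
  · rw [if_neg hlT, if_neg (fun h => hlT (Finset.mem_of_mem_erase h))]

private theorem LmC_cont {g : ℕ} {a : Fin g → ℂ} {T : Finset (Fin g)} {x : ℂ}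
    (hx : ∀ i ∈ T, x + a i ≠ 0) : ContinuousAt (gam a T) x := by
  rw [continuousAt_pi]
  intro i
  unfold gam
  by_cases hi : i ∈ T
  · simp only [hi, if_true]
    exact continuousAt_const.mul ((continuousAt_id.sub continuousAt_const).div
      (continuousAt_id.add continuousAt_const) (hx i hi))
  · simp only [hi, if_false]
    exact continuousAt_const

private theorem LmC_open {g : ℕ} (a : Fin g → ℂ) (T : Finset (Fin g)) :
    IsOpen {x : ℂ | ∀ i ∈ T, x + a i ≠ 0} ∧ IsPreconnected {x : ℂ | ∀ i ∈ T, x + a i ≠ 0} := by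
  have h1 : {x : ℂ | ∀ i ∈ T, x + a i ≠ 0} = (((T.image fun i => -a i : Finset ℂ) : Set ℂ))ᶜ := by
    ext x
    simp only [Set.mem_ofPred_eq, Finset.coe_image, Set.mem_compl_iff, Set.mem_image,
      Finset.mem_coe, not_exists, not_and]
    refine forall_congr' fun i => forall_congr' fun _ => not_congr ?_
    constructor
    · intro h
      exact (eq_neg_of_add_eq_zero_left h).symm
    · intro h
      rw [← h]
      ring
  rw [h1]
  refine ⟨(Finset.finite_toSet _).isClosed.isOpen_compl, ?_⟩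
  refine (Set.Countable.isConnected_compl_of_one_lt_rank ?_
    (Finset.finite_toSet _).countable).isPreconnected
  rw [Complex.rank_real_complex]
  exact Cardinal.one_lt_two

theorem LimData.exchange {g : ℕ} (D : LimData g) {J : Finset (Fin g)} (hJ : J.card = 3)
    {a : Fin g → ℂ} {k : Fin g} (hk : k ∉ J) (hG : Good D.q a (insert k J))
    (hp : pt a J ∈ D.L) {j : Fin g} (hj : j ∈ J) : pt a (insert k (J.erase j)) ∈ D.L := by
  set T := insert k J with hT
  have hTc : T.card = 4 := by rw [hT, Finset.card_insert_of_notMem hk, hJ]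
  have hkT : k ∈ T := Finset.mem_insert_self _ _
  have hjT : j ∈ T := Finset.mem_insert_of_mem hj
  obtain ⟨hΩo, hΩp⟩ := LmC_open a T
  set Ω := {x : ℂ | ∀ i ∈ T, x + a i ≠ 0} with hΩ
  have hmem : ∀ i ∈ T, a i ∈ Ω := by
    intro i hi l hl
    by_cases hil : i = l
    · subst hil
      have := hG.1 i hi
      rw [← two_mul]
      exact mul_ne_zero two_ne_zero this
    · exact (hG.2 i hi l hl hil).2.1
  set X := {x : ℂ | x ∈ Ω ∧ gam a T x ∈ D.L} with hX
  have hXo : IsOpen X := by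
    rw [isOpen_iff_mem_nhds]
    rintro x₀ ⟨hx₀, hL⟩
    obtain ⟨J', hJ'c, hJ'T, hJ'a⟩ : ∃ J' : Finset (Fin g), J'.card = 3 ∧ J' ⊆ T ∧
        ∀ i ∈ J', x₀ ≠ a i := by
      by_cases hex : ∃ i ∈ T, x₀ = a i
      · obtain ⟨i, hi, hxi⟩ := hex
        refine ⟨T.erase i, by rw [Finset.card_erase_of_mem hi, hTc], Finset.erase_subset _ _,
          fun l hl => ?_⟩
        obtain ⟨h1, h2⟩ := Finset.mem_erase.1 hl
        rw [hxi]
        exact (hG.2 i hi l h2 (Ne.symm h1)).1
      · push Not at hex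
        exact ⟨J, hJ, Finset.subset_insert _ _, fun i hi => hex i (Finset.mem_insert_of_mem hi)⟩
    have hne : ∀ i ∈ J', gam a T x₀ i ≠ 0 := by
      intro i hi
      have hiT := hJ'T hi
      unfold gam
      rw [if_pos hiT]
      refine mul_ne_zero (Finset.prod_ne_zero_iff.2 fun l hl => ?_)
        (div_ne_zero (sub_ne_zero.2 (hJ'a i hi)) (hx₀ i hiT))
      obtain ⟨h1, h2⟩ := Finset.mem_erase.1 hl
      obtain ⟨h3, h4, _⟩ := hG.2 i hiT l h2 (Ne.symm h1)
      exact div_ne_zero h4 (sub_ne_zero.2 h3)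
    have hdet : (Hes D.q J' (gam a T x₀)).det ≠ 0 :=
      det_ne_zero hJ'c (fun i _ => gam_sing D.sym hTc hG hx₀ (by simp))
        (fun i hi l hl hil => gam_offdiag D.sym hTc hG hx₀ (hJ'T hi) (hJ'T hl) hil
          (hJ'a i hi) (hJ'a l hl))
    obtain ⟨δ, hδ, hkp⟩ := D.kp _ hL J' hJ'c hne hdet
    have hc := LmC_cont (a := a) (T := T) hx₀
    have hev : ∀ᶠ x in 𝓝 x₀, ∀ l, ‖gam a T x l - gam a T x₀ l‖ < δ := by
      rw [Filter.eventually_all]
      intro l
      have h1 := (continuousAt_pi.1 hc l).eventually (Metric.ball_mem_nhds _ hδ)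
      filter_upwards [h1] with x hx
      rwa [← dist_eq_norm]
    filter_upwards [hev, hΩo.mem_nhds hx₀] with x h1 h2
    exact ⟨h2, hkp _ h1 fun i _ => gam_sing D.sym hTc hG h2 (by simp)⟩
  have hcl : closure X ∩ Ω ⊆ X := by
    rintro x ⟨hx1, hx2⟩
    refine ⟨hx2, ?_⟩
    have h1 : gam a T x ∈ closure D.L :=
      (LmC_cont (a := a) (T := T) hx2).continuousWithinAt.mem_closure hx1 fun y hy => hy.2
    rwa [D.closed.closure_eq] at h1
  have herase : T.erase k = J := Finset.erase_insert hk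
  have hsub : Ω ⊆ X := hΩp.subset_of_closure_inter_subset hXo
    ⟨a k, hmem k hkT, hmem k hkT, by rw [gam_pt hG hkT, herase]; exact hp⟩ hcl
  have h2 := (hsub (hmem j hjT)).2
  rw [gam_pt hG hjT] at h2
  have hkj : k ≠ j := by
    rintro rfl
    exact hk hj
  rwa [hT, Finset.erase_insert_of_ne hkj] at h2

end AMC
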