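import Pool.Agent.Lib.MP_b57e3c_ag_M.LmA
import Pool.Agent.Lib.MP_b57e3c_ag_M.LmB
import Pool.Agent.Lib.MP_b57e3c_ag_M.LmC

/-!
# Module LmD : solution of the limit problem

`hseed` and `D.param`: `J₀`, `a₀` with `Good q a₀ J₀`, `pt a₀ J₀ ∈ L`. For `k ∉ J₀`, `D.four` gives `b_k`. Let
`a i = a₀ i` on `J₀`, `a k = b_k` off `J₀`. Then `Good q a (insert k J₀)` for all `k ∉ J₀`, and
`pt a J₀ = pt a₀ J₀` (both depend only on the values of `a` on the set). Let `k ≠ l` be outside `J₀`; pick
`j ∈ J₀`, `J' = insert k (J₀.erase j)`: `pt a J' ∈ L` by `D.exchange`, `Good q a J'`, so `D.four` (with `l ∉ J'`)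
gives `b'` with `Good q (update a l b') (insert l J')`. For the two elements `i` of `J₀.erase j`:
`((a i - b')/(a i + b'))² = q i l = ((a i - a l)/(a i + a l))²`, i.e. `b' = a l` or `b' * a l = (a i)²`
(`uniq`); since `(a i)² ≠ (a i')²` for the two elements, `b' = a l`. So the formula for `q k l` holds, with
`a k ≠ ± a l`: `Good q a univ`.
All triples: by induction on `card (J \ J₀)`. If it is `0`, `J = J₀`. Otherwise pick `k ∈ J \ J₀` and
`j ∈ J₀ \ J`; `J₁ = insert j (J.erase k)` has `pt a J₁ ∈ L` by induction, and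
`J = insert k (J₁.erase j)`: `D.exchange`.
-/

open Complex Filter Topology

namespace AMC

theorem uniq {a b c : ℂ} (ha : a ≠ 0) (hb : a + b ≠ 0) (hc : a + c ≠ 0)
    (h : ((a - b) / (a + b)) ^ 2 = ((a - c) / (a + c)) ^ 2) : b = c ∨ b * c = a ^ 2 := by
  rw [sq_eq_sq_iff_eq_or_eq_neg] at h
  rcases h with h | h
  · left
    rw [div_eq_div_iff hb hc] at h
    have : a * (c - b) * 2 = 0 := by linear_combination h
    have h2 : a * (c - b) = 0 := by simpa using this
    rcases mul_eq_zero.1 h2 with h3 | h3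
    · exact absurd h3 ha
    · exact (sub_eq_zero.1 h3).symm
  · right
    rw [← neg_div, div_eq_div_iff hb hc] at h
    have : (b * c - a ^ 2) * 2 = 0 := by linear_combination -h
    have h2 : b * c - a ^ 2 = 0 := by simpa using this
    exact sub_eq_zero.1 h2

theorem Good.mono {g : ℕ} {q : Fin g → Fin g → ℂ} {a : Fin g → ℂ} {S T : Finset (Fin g)}
    (h : Good q a T) (hST : S ⊆ T) : Good q a S :=
  ⟨fun i hi => h.1 i (hST hi), fun i hi j hj => h.2 i (hST hi) j (hST hj)⟩

theorem Good.congr {g : ℕ} {q : Fin g → Fin g → ℂ} {a b : Fin g → ℂ} {T : Finset (Fin g)}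
    (h : Good q a T) (hab : ∀ i ∈ T, a i = b i) : Good q b T := by
  refine ⟨fun i hi => ?_, fun i hi j hj hij => ?_⟩
  · rw [← hab i hi]; exact h.1 i hi
  · rw [← hab i hi, ← hab j hj]; exact h.2 i hi j hj hij

theorem pt_congr {g : ℕ} {a b : Fin g → ℂ} {J : Finset (Fin g)} (hab : ∀ i ∈ J, a i = b i) :
    pt a J = pt b J := by
  funext i
  unfold pt
  by_cases hi : i ∈ J
  · rw [if_pos hi, if_pos hi]
    congr 1
    refine Finset.prod_congr rfl fun l hl => ?_
    rw [hab i hi, hab l (Finset.mem_of_mem_erase hl)]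
  · rw [if_neg hi, if_neg hi]

theorem LimData.main {g : ℕ} (D : LimData g)
    (hseed : ∃ J : Finset (Fin g), J.card = 3 ∧ ∃ e ∈ D.L, (∀ j ∈ J, e j ≠ 0) ∧
      ∀ k, k ∉ J → e k = 0) :
    ∃ a : Fin g → ℂ, Good D.q a Finset.univ ∧
      ∀ J : Finset (Fin g), J.card = 3 → pt a J ∈ D.L := by
  classical
  obtain ⟨J₀, hJ₀, e, he, hJ0, hK⟩ := hseed
  obtain ⟨a₀, hG₀, hpt⟩ := D.param hJ₀ he hJ0 hK
  rw [hpt] at he
  have h4 : ∀ k, ∃ b : ℂ, k ∉ J₀ → Good D.q (Function.update a₀ k b) (insert k J₀) := by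
    intro k
    by_cases hk : k ∈ J₀
    · exact ⟨0, fun h => absurd hk h⟩
    · obtain ⟨b, hb⟩ := D.four hJ₀ hG₀ he hk
      exact ⟨b, fun _ => hb⟩
  choose b hb using h4
  set a : Fin g → ℂ := fun i => if i ∈ J₀ then a₀ i else b i with ha
  have haJ : ∀ i ∈ J₀, a i = a₀ i := fun i hi => by simp [ha, hi]
  have haK : ∀ i, i ∉ J₀ → a i = b i := fun i hi => by simp [ha, hi]
  have hGk : ∀ k, k ∉ J₀ → Good D.q a (insert k J₀) := by
    intro k hk
    refine (hb k hk).congr fun i hi => ?_
    rcases Finset.mem_insert.1 hi with h | h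
    · subst h
      rw [Function.update_self, haK i hk]
    · have hne : i ≠ k := fun h' => hk (h' ▸ h)
      rw [Function.update_of_ne hne, haJ i h]
  have hp₀ : pt a J₀ ∈ D.L := by
    rw [pt_congr haJ]
    exact he
  have hG0 : Good D.q a J₀ := hG₀.congr fun i hi => (haJ i hi).symm
  -- the key relation
  have key : ∀ k l, k ∉ J₀ → l ∉ J₀ → k ≠ l →
      a k ≠ a l ∧ a k + a l ≠ 0 ∧ D.q k l = ((a k - a l) / (a k + a l)) ^ 2 := by
    intro k l hk hl hkl
    obtain ⟨x, y, z, hxy, hxz, hyz, hJe⟩ := Finset.card_eq_three.1 hJ₀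
    have hx : x ∈ J₀ := by rw [hJe]; simp
    have hy : y ∈ J₀ := by rw [hJe]; simp
    have hz : z ∈ J₀ := by rw [hJe]; simp
    have hp' := D.exchange hJ₀ hk (hGk k hk) hp₀ hx
    have hyE : y ∈ J₀.erase x := Finset.mem_erase.2 ⟨hxy.symm, hy⟩
    have hzE : z ∈ J₀.erase x := Finset.mem_erase.2 ⟨hxz.symm, hz⟩
    have hkE : k ∉ J₀.erase x := fun h => hk (Finset.mem_of_mem_erase h)
    have hcard : (insert k (J₀.erase x)).card = 3 := by
      rw [Finset.card_insert_of_notMem hkE, Finset.card_erase_of_mem hx, hJ₀]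
    have hGJ' : Good D.q a (insert k (J₀.erase x)) :=
      (hGk k hk).mono (Finset.insert_subset_insert k (Finset.erase_subset x J₀))
    have hlJ' : l ∉ insert k (J₀.erase x) := by
      rw [Finset.mem_insert, not_or]
      exact ⟨hkl.symm, fun h => hl (Finset.mem_of_mem_erase h)⟩
    obtain ⟨b', hb'⟩ := D.four hcard hGJ' hp' hlJ'
    have hyl : y ≠ l := fun h => hl (h ▸ hy)
    have hzl : z ≠ l := fun h => hl (h ▸ hz)
    have memy : y ∈ insert l (insert k (J₀.erase x)) := by simp [hyE, hy]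
    have memz : z ∈ insert l (insert k (J₀.erase x)) := by simp [hzE, hz]
    have meml : l ∈ insert l (insert k (J₀.erase x)) := by simp
    have memk : k ∈ insert l (insert k (J₀.erase x)) := by simp
    have r1 := hb'.2 y memy l meml hyl
    have r2 := hb'.2 z memz l meml hzl
    have r3 := hb'.2 k memk l meml hkl
    rw [Function.update_self, Function.update_of_ne hyl] at r1
    rw [Function.update_self, Function.update_of_ne hzl] at r2
    rw [Function.update_self, Function.update_of_ne hkl] at r3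
    have s1 := (hGk l hl).2 y (Finset.mem_insert_of_mem hy) l (Finset.mem_insert_self l J₀) hyl
    have s2 := (hGk l hl).2 z (Finset.mem_insert_of_mem hz) l (Finset.mem_insert_self l J₀) hzl
    have t1 := uniq (hG0.1 y hy) r1.2.1 s1.2.1 (r1.2.2.symm.trans s1.2.2)
    have t2 := uniq (hG0.1 z hz) r2.2.1 s2.2.1 (r2.2.2.symm.trans s2.2.2)
    have hyz' := hG0.2 y hy z hz hyz
    have hbl : b' = a l := by
      rcases t1 with t1 | t1
      · exact t1
      rcases t2 with t2 | t2
      · exact t2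
      exfalso
      have hsq : a y ^ 2 = a z ^ 2 := t1.symm.trans t2
      rcases sq_eq_sq_iff_eq_or_eq_neg.1 hsq with h | h
      · exact hyz'.1 h
      · exact hyz'.2.1 (by rw [h]; ring)
    rw [hbl] at r3
    exact r3
  have hGood : Good D.q a Finset.univ := by
    refine ⟨fun i _ => ?_, fun i _ j _ hij => ?_⟩
    · by_cases hi : i ∈ J₀
      · exact hG0.1 i hi
      · exact (hGk i hi).1 i (Finset.mem_insert_self i J₀)
    · by_cases hi : i ∈ J₀
      · by_cases hj : j ∈ J₀
        · exact hG0.2 i hi j hj hij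
        · exact (hGk j hj).2 i (Finset.mem_insert_of_mem hi) j (Finset.mem_insert_self j J₀) hij
      · by_cases hj : j ∈ J₀
        · exact (hGk i hi).2 i (Finset.mem_insert_self i J₀) j (Finset.mem_insert_of_mem hj) hij
        · exact key i j hi hj hij
  refine ⟨a, hGood, ?_⟩
  -- all triples
  have hall : ∀ n : ℕ, ∀ J : Finset (Fin g), J.card = 3 → (J \ J₀).card = n → pt a J ∈ D.L := by
    intro n
    induction n with
    | zero =>
      intro J hJ hn
      have hsub : J ⊆ J₀ := Finset.sdiff_eq_empty_iff_subset.1 (Finset.card_eq_zero.1 hn)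
      have : J = J₀ := Finset.eq_of_subset_of_card_le hsub (by rw [hJ, hJ₀])
      rw [this]
      exact hp₀
    | succ n ih =>
      intro J hJ hn
      obtain ⟨k, hk⟩ : (J \ J₀).Nonempty := Finset.card_pos.1 (by omega)
      rw [Finset.mem_sdiff] at hk
      have hJJ : (J₀ \ J).card = (J \ J₀).card := by
        have h1 := Finset.card_sdiff_add_card_inter J J₀
        have h2 := Finset.card_sdiff_add_card_inter J₀ J
        rw [Finset.inter_comm] at h2
        omega
      obtain ⟨j, hj⟩ : (J₀ \ J).Nonempty := Finset.card_pos.1 (by omega)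
      rw [Finset.mem_sdiff] at hj
      have hjk : j ≠ k := fun h => hj.2 (h ▸ hk.1)
      have hjE : j ∉ J.erase k := fun h => hj.2 (Finset.mem_of_mem_erase h)
      have hJ₁ : (insert j (J.erase k)).card = 3 := by
        rw [Finset.card_insert_of_notMem hjE, Finset.card_erase_of_mem hk.1, hJ]
      have hsd : insert j (J.erase k) \ J₀ = (J \ J₀).erase k := by
        ext i
        simp only [Finset.mem_sdiff, Finset.mem_insert, Finset.mem_erase]
        constructor
        · rintro ⟨h | h, h'⟩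
          · exact absurd (h ▸ hj.1) h'
          · exact ⟨h.1, h.2, h'⟩
        · rintro ⟨h, h', h''⟩
          exact ⟨Or.inr ⟨h, h'⟩, h''⟩
      have hcn : (insert j (J.erase k) \ J₀).card = n := by
        rw [hsd, Finset.card_erase_of_mem (Finset.mem_sdiff.2 hk), hn]
        rfl
      have hp₁ := ih _ hJ₁ hcn
      have hkJ₁ : k ∉ insert j (J.erase k) := by
        rw [Finset.mem_insert, not_or]
        exact ⟨hjk.symm, Finset.notMem_erase k J⟩
      have hex := D.exchange hJ₁ hkJ₁ (hGood.mono (Finset.subset_univ _)) hp₁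
        (Finset.mem_insert_self j _)
      have hfin : insert k ((insert j (J.erase k)).erase j) = J := by
        rw [Finset.erase_insert hjE, Finset.insert_erase hk.1]
      rwa [hfin] at hex
  exact fun J hJ => hall _ J hJ rfl

end AMC
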