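import Pool.Agent.Lib.MP_b57e3c_ag_M.Mex

/-!
# Module Mkc : construction of a `Cusp` from a sequence

Let `X n = off (τ n) ∈ 𝒦`. Take `U = hyperfilter ℕ` (`Filter.hyperfilter`, `≤ atTop`/cofinite). `𝒦` is compact,
so `X n` converges along `U` to some `X ∈ 𝒦` (`IsCompact.ultrafilter_le_nhds` for the
ultrafilter `U.map X`). `q i j = exp (2 π i X i j)` if `i ≠ j` (and e.g. `1` on the diagonal):
`qq (τ n) i j = exp (2 π i (X n) i j) → q i j` for `i ≠ j`; symmetric (`X` is a limit of symmetric
matrices); nonzero; `q i j ≠ 1` for `i ≠ j` since `X i j` is not an integer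
(`Complex.exp_eq_one_iff`). `B` = a bound of the entries of the elements of `𝒦` (compact: bounded).
`Im (τ n)_ii ≥ n → ∞`. `M n` from `exists_M` (`d = g - 3`).
-/

open Complex Filter Topology

namespace AMC

theorem exists_cusp {g : ℕ} {K : Set (Matrix (Fin g) (Fin g) ℂ)} (hK : IsCompact K)
    (hint : ∀ X ∈ K, ∀ i j, i ≠ j → ∀ k : ℤ, X i j ≠ k)
    (τ : ℕ → Matrix (Fin g) (Fin g) ℂ) (hτ : ∀ n, AM.Siegel (τ n)) (hoff : ∀ n, off (τ n) ∈ K)
    (hT : ∀ (n : ℕ) i, (n : ℝ) ≤ (τ n i i).im) (hd : ∀ n, AM.DimGE (g - 3) (AM.singTheta (τ n))) :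
    ∃ C : Cusp g, C.τ = τ := by
  choose M hMc hMne hMmp hMs hM1 hM2 using fun n => exists_M (hτ n) (hd n)
  obtain ⟨X, hXK, hX⟩ := hK.ultrafilter_le_nhds
    ((Filter.hyperfilter ℕ).map fun n => off (τ n)) (by
      rw [Filter.le_principal_iff, Ultrafilter.mem_coe, Ultrafilter.mem_map]
      exact Filter.univ_mem' hoff)
  have hX' : Tendsto (fun n => off (τ n)) (Filter.hyperfilter ℕ : Filter ℕ) (𝓝 X) := hX
  have hent : ∀ i j, i ≠ j →
      Tendsto (fun n => τ n i j) (Filter.hyperfilter ℕ : Filter ℕ) (𝓝 (X i j)) := by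
    intro i j hij
    have h1 := ((continuous_id.matrix_elem i j).tendsto X).comp hX'
    refine h1.congr fun n => ?_
    show off (τ n) i j = τ n i j
    unfold off
    rw [if_neg hij]
  have hsymX : ∀ i j, i ≠ j → X i j = X j i := by
    intro i j hij
    refine tendsto_nhds_unique (hent i j hij) ((hent j i hij.symm).congr fun n => ?_)
    exact (hτ n).1.apply i j
  have hcont : Continuous fun Y : Matrix (Fin g) (Fin g) ℂ => ∑ i, ∑ j, |(Y i j).im| :=
    continuous_finsetSum _ fun i _ => continuous_finsetSum _ fun j _ =>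
      (Complex.continuous_im.comp (continuous_id.matrix_elem i j)).abs
  obtain ⟨B, hB⟩ := hK.exists_bound_of_continuousOn hcont.continuousOn
  refine ⟨{
    U := Filter.hyperfilter ℕ
    τ := τ
    M := M
    q := fun i j => if i = j then 2 else cexp (2 * Real.pi * I * X i j)
    B := B
    siegel := hτ
    bd := ?_
    lim := ?_
    diag := ?_
    sym := ?_
    ne0 := ?_
    ne1 := ?_
    closed := hMc
    mp := hMmp
    sub := hMs
    ne := hMne
    inv1 := hM1
    inv2 := hM2 }, rfl⟩
  · intro n i j hij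
    refine le_trans ?_ ((le_abs_self _).trans (hB _ (hoff n)))
    have h1 : |(τ n i j).im| = |(off (τ n) i j).im| := by
      unfold off
      rw [if_neg hij]
    rw [h1]
    refine le_trans ?_ (Finset.single_le_sum (f := fun i => ∑ j, |(off (τ n) i j).im|)
      (fun i _ => Finset.sum_nonneg fun j _ => abs_nonneg _) (Finset.mem_univ i))
    exact Finset.single_le_sum (f := fun j => |(off (τ n) i j).im|)
      (fun j _ => abs_nonneg _) (Finset.mem_univ j)
  · intro i j hij
    rw [if_neg hij]
    exact (Complex.continuous_exp.tendsto _).comp ((hent i j hij).const_mul _)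
  · intro i
    exact tendsto_atTop_mono (fun n => hT n i)
      (tendsto_natCast_atTop_atTop.mono_left Nat.hyperfilter_le_atTop)
  · intro i j
    by_cases hij : i = j
    · rw [if_pos hij, if_pos hij.symm]
    · rw [if_neg hij, if_neg (Ne.symm hij), hsymX i j hij]
  · intro i j hij
    rw [if_neg hij]
    exact Complex.exp_ne_zero _
  · intro i j hij
    rw [if_neg hij]
    intro h1
    obtain ⟨k, hk⟩ := Complex.exp_eq_one_iff.1 h1
    refine hint X hXK i j hij k ?_
    have h2 : (2 * Real.pi * I : ℂ) ≠ 0 := Complex.two_pi_I_ne_zero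
    apply mul_left_cancel₀ h2
    rw [hk]
    ring

end AMC
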