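import Pool.Agent.Lib.MP_b57e3c_ag_M.Dn
import Pool.Agent.Lib.MP_b57e3c_ag_M.Ldef

/-!
# Module Sgn : the points of order two converging to `pt a J`

Let `ε = ind J`, and for `δ : Fin g → Fin 2` let `c = cen τ (ind J) δ`: `c i = (∑_{l ∈ J} τ_il + δ_i)/2`.
* `i ∈ J`: `W_i(c) = exp (π i τ_ii - π i ∑_{l ∈ J} τ_il - π i δ_i) = (-1)^{δ_i} exp (-π i ∑_{l ∈ J, l ≠ i} τ_il)`,
so `W_i(c)² = ∏_{l ∈ J.erase i} (qq τ i l)⁻¹`, which converges to
`∏_{l ∈ J.erase i} ((a_i + a_l)/(a_i - a_l))² = (pt a J i)² ≠ 0`. Choose `δ n i` such that `W_i(c)` is the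
nearer to `pt a J i` of the two values (`exists_sign`); then `W_i(c) → pt a J i`.
(`exists_sign`: if `w_n² → e² ≠ 0`, and `s_n ∈ {±1}` is such that `‖s_n w_n - e‖ ≤ ‖s_n w_n + e‖`, then
`s_n w_n → e`: `‖s_n w_n - e‖ ‖s_n w_n + e‖ → 0` so the smaller factor tends to `0`.)
* `i ∉ J`: `‖W_i(c)‖ = ‖exp (π i τ_ii - π i ∑_{l ∈ J} τ_il)‖ → 0` (bounded off-diagonal part),
whatever `δ_i`.
* `W⁻_i(c) = exp (2 π i τ_ii) / W_i(c) → 0` for `i ∈ J`; for `i ∉ J` directly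
`‖W⁻_i(c)‖ = ‖exp (π i τ_ii + π i ∑_{l ∈ J} τ_il)‖ → 0`.
* parity: for `J = {x,y,z}`, `∏_{i ∈ J} W_i(c) = (-1)^{∑ δ_i} exp (- 2 π i (τ_xy + τ_xz + τ_yz))` converges to
`∏ pt a J i` `= 1/(q_xy q_xz q_yz)` (formula for `pt`: the product over `i ∈ J` is
`∏_{pairs} -(a_i+a_l)²/(a_i-a_l)² · (-1)³ = ∏_{pairs} ((a_i+a_l)/(a_i-a_l))²`), and
`exp (-2 π i (…)) → 1/(q_xy q_xz q_yz)` too; so `(-1)^{∑ δ_i} → 1`: `∑ δ_i` is even for most `n`.
The choice of `δ n` on `J` is made first; the statement is then for all `δ'` which agree with `δ n` on `J`.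
-/

open Complex Filter Topology

namespace AMC

private theorem Sgn_cen {g : ℕ} (τ : Matrix (Fin g) (Fin g) ℂ) (J : Finset (Fin g))
    (δ : Fin g → Fin 2) (i : Fin g) :
    cen τ (ind J) δ i = ((∑ l ∈ J, τ i l) + ((δ i : ℕ) : ℂ)) / 2 := by
  unfold cen
  have h1 : ∑ j, τ i j * (((ind J j : Fin 2) : ℕ) : ℂ) = ∑ l ∈ J, τ i l := by
    have h2 : ∀ j, τ i j * (((ind J j : Fin 2) : ℕ) : ℂ) = if j ∈ J then τ i j else 0 := by
      intro j
      unfold ind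
      split_ifs with h
      · simp
      · simp
    rw [Finset.sum_congr rfl fun j _ => h2 j, Finset.sum_ite_mem, Finset.univ_inter]
  rw [h1]

private theorem Sgn_Wv {g : ℕ} (τ : Matrix (Fin g) (Fin g) ℂ) (J : Finset (Fin g))
    (δ : Fin g → Fin 2) (i : Fin g) :
    Wv τ i (cen τ (ind J) δ) =
      (-1) ^ (δ i : ℕ) * cexp (Real.pi * I * (τ i i - ∑ l ∈ J, τ i l)) := by
  unfold Wv
  rw [Sgn_cen]
  have h1 : (-1 : ℂ) ^ (δ i : ℕ) = cexp (((δ i : ℕ) : ℂ) * (-(Real.pi * I))) := by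
    rw [Complex.exp_nat_mul, Complex.exp_neg, Complex.exp_pi_mul_I]
    norm_num
  rw [h1, ← Complex.exp_add]
  congr 1
  ring

private theorem Sgn_Wm {g : ℕ} (τ : Matrix (Fin g) (Fin g) ℂ) (J : Finset (Fin g))
    (δ : Fin g → Fin 2) (i : Fin g) :
    Wm τ i (cen τ (ind J) δ) =
      (-1) ^ (δ i : ℕ) * cexp (Real.pi * I * (τ i i + ∑ l ∈ J, τ i l)) := by
  unfold Wm
  rw [Sgn_cen]
  have h1 : (-1 : ℂ) ^ (δ i : ℕ) = cexp (((δ i : ℕ) : ℂ) * (Real.pi * I)) := by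
    rw [Complex.exp_nat_mul, Complex.exp_pi_mul_I]
  rw [h1, ← Complex.exp_add]
  congr 1
  ring

private theorem Sgn_norm (d : ℕ) (z : ℂ) :
    ‖(-1 : ℂ) ^ d * cexp (Real.pi * I * z)‖ = Real.exp (-(Real.pi * z.im)) := by
  rw [norm_mul, norm_pow, norm_neg, norm_one, one_pow, one_mul, Complex.norm_exp]
  congr 1
  simp

/-- the numbers go to zero -/
private theorem Sgn_zero {g : ℕ} (C : Cusp g) (k : Fin g) (c : ℝ) (w : ℕ → ℂ)
    (h : ∀ᶠ n in (C.U : Filter ℕ), ‖w n‖ ≤ Real.exp (-(Real.pi * ((C.τ n k k).im - c)))) :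
    Tendsto w (C.U : Filter ℕ) (𝓝 0) := by
  refine squeeze_zero_norm' h ?_
  have h1 : Tendsto (fun n => Real.pi * ((C.τ n k k).im - c)) (C.U : Filter ℕ) atTop :=
    Tendsto.const_mul_atTop Real.pi_pos (tendsto_atTop_add_const_right _ (-c) (C.diag k))
  exact Real.tendsto_exp_neg_atTop_nhds_zero.comp h1

private theorem Sgn_Wm_tend {g : ℕ} (C : Cusp g) (J : Finset (Fin g)) (k : Fin g)
    (δ : ℕ → Fin g → Fin 2) :
    Tendsto (fun n => Wm (C.τ n) k (cen (C.τ n) (ind J) (δ n))) (C.U : Filter ℕ) (𝓝 0) := by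
  refine Sgn_zero C k (J.card • |C.B|) _ ?_
  filter_upwards [(C.diag k).eventually_ge_atTop 0] with n hn
  rw [Sgn_Wm, Sgn_norm, Real.exp_le_exp, neg_le_neg_iff]
  refine mul_le_mul_of_nonneg_left ?_ Real.pi_pos.le
  rw [Complex.add_im, Complex.im_sum]
  have h1 : ∑ l ∈ J, (-|C.B|) ≤ ∑ l ∈ J, (C.τ n k l).im := by
    refine Finset.sum_le_sum fun l _ => ?_
    by_cases hl : k = l
    · subst hl
      have := abs_nonneg C.B
      linarith
    · have h2 := C.bd n k l hl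
      have h3 := le_abs_self C.B
      have h4 := neg_abs_le (C.τ n k l).im
      linarith
  rw [Finset.sum_const, smul_neg] at h1
  linarith

private theorem Sgn_Wv_tend {g : ℕ} (C : Cusp g) (J : Finset (Fin g)) {k : Fin g} (hk : k ∉ J)
    (δ : ℕ → Fin g → Fin 2) :
    Tendsto (fun n => Wv (C.τ n) k (cen (C.τ n) (ind J) (δ n))) (C.U : Filter ℕ) (𝓝 0) := by
  refine Sgn_zero C k (J.card • |C.B|) _ ?_
  refine Eventually.of_forall fun n => ?_
  rw [Sgn_Wv, Sgn_norm, Real.exp_le_exp, neg_le_neg_iff]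
  refine mul_le_mul_of_nonneg_left ?_ Real.pi_pos.le
  rw [Complex.sub_im, Complex.im_sum]
  have h1 : ∑ l ∈ J, (C.τ n k l).im ≤ ∑ l ∈ J, |C.B| := by
    refine Finset.sum_le_sum fun l hl' => ?_
    have hl : k ≠ l := by
      rintro rfl
      exact hk hl'
    have h2 := C.bd n k l hl
    have h3 := le_abs_self C.B
    have h4 := le_abs_self (C.τ n k l).im
    linarith
  rw [Finset.sum_const] at h1
  linarith

/-- the choice of the sign -/
private theorem Sgn_sign {U : Filter ℕ} {w : ℕ → ℂ} {e : ℂ}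
    (h : Tendsto (fun n => w n ^ 2) U (𝓝 (e ^ 2))) {s : ℕ → Fin 2}
    (hs : ∀ n, s n = if ‖w n - e‖ ≤ ‖w n + e‖ then 0 else 1) :
    Tendsto (fun n => (-1) ^ (s n : ℕ) * w n) U (𝓝 e) := by
  have h1 : ∀ n, ‖(-1) ^ (s n : ℕ) * w n - e‖ ^ 2 ≤ ‖w n ^ 2 - e ^ 2‖ := by
    intro n
    have h2 : ‖(-1) ^ (s n : ℕ) * w n - e‖ ≤ ‖(-1) ^ (s n : ℕ) * w n + e‖ := by
      rw [hs n]
      split_ifs with h3
      · simpa using h3
      · have h4 : ((-1 : ℂ) ^ ((1 : Fin 2) : ℕ) * w n - e) = -(w n + e) := by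
          simp
          ring
        have h5 : ((-1 : ℂ) ^ ((1 : Fin 2) : ℕ) * w n + e) = -(w n - e) := by
          simp
          ring
        rw [h4, h5, norm_neg, norm_neg]
        exact (not_le.1 h3).le
    have h6 : w n ^ 2 - e ^ 2 =
        ((-1) ^ (s n : ℕ) * w n - e) * ((-1) ^ (s n : ℕ) * w n + e) := by
      have h7 : ((-1 : ℂ) ^ (s n : ℕ)) ^ 2 = 1 := by
        rw [← pow_mul, mul_comm, pow_mul]
        norm_num
      generalize ((-1 : ℂ) ^ (s n : ℕ)) = t at h7 ⊢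
      linear_combination (-(w n) ^ 2) * h7
    rw [h6, norm_mul, sq]
    exact mul_le_mul_of_nonneg_left h2 (norm_nonneg _)
  rw [tendsto_iff_norm_sub_tendsto_zero] at h ⊢
  have h8 : Tendsto (fun n => ‖(-1) ^ (s n : ℕ) * w n - e‖ ^ 2) U (𝓝 0) :=
    squeeze_zero (fun n => sq_nonneg _) h1 h
  have h9 := h8.sqrt
  rw [Real.sqrt_zero] at h9
  refine h9.congr fun n => ?_
  exact Real.sqrt_sq (norm_nonneg _)

private theorem Sgn_qq_inv {g : ℕ} (C : Cusp g) {i l : Fin g} (h : i ≠ l) :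
    Tendsto (fun n => (qq (C.τ n) i l)⁻¹) (C.U : Filter ℕ) (𝓝 (C.q i l)⁻¹) :=
  (C.lim i l h).inv₀ (C.ne0 i l h)

private theorem Sgn_sq {g : ℕ} (C : Cusp g) {a : Fin g → ℂ} {J : Finset (Fin g)}
    (hG : Good C.q a J) {i : Fin g} (hi : i ∈ J) :
    Tendsto (fun n => cexp (Real.pi * I * (C.τ n i i - ∑ l ∈ J, C.τ n i l)) ^ 2)
      (C.U : Filter ℕ) (𝓝 (pt a J i ^ 2)) := by
  have h1 : ∀ n, cexp (Real.pi * I * (C.τ n i i - ∑ l ∈ J, C.τ n i l)) ^ 2 =
      ∏ l ∈ J.erase i, (qq (C.τ n) i l)⁻¹ := by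
    intro n
    rw [← Finset.add_sum_erase J (fun l => C.τ n i l) hi, ← Complex.exp_nat_mul]
    unfold qq
    simp_rw [← Complex.exp_neg]
    rw [← Complex.exp_sum]
    congr 1
    rw [Finset.sum_neg_distrib, ← Finset.mul_sum]
    push_cast
    ring
  have h2 : pt a J i ^ 2 = ∏ l ∈ J.erase i, (C.q i l)⁻¹ := by
    unfold pt
    rw [if_pos hi, neg_sq, ← Finset.prod_pow]
    refine Finset.prod_congr rfl fun l hl => ?_
    obtain ⟨hl1, hl2⟩ := Finset.mem_erase.1 hl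
    rw [(hG.2 i hi l hl2 (Ne.symm hl1)).2.2, ← inv_pow, inv_div]
  rw [h2]
  simp_rw [h1]
  refine tendsto_finsetProd _ fun l hl => ?_
  exact Sgn_qq_inv C (Ne.symm (Finset.mem_erase.1 hl).1)

/-- the product over `J` -/
private theorem Sgn_prod {g : ℕ} (C : Cusp g) {a : Fin g → ℂ} {J : Finset (Fin g)}
    (hJ : J.card = 3) (hG : Good C.q a J) :
    Tendsto (fun n => ∏ i ∈ J, cexp (Real.pi * I * (C.τ n i i - ∑ l ∈ J, C.τ n i l)))
      (C.U : Filter ℕ) (𝓝 (∏ i ∈ J, pt a J i)) ∧ ∏ i ∈ J, pt a J i ≠ 0 := by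
  obtain ⟨x, y, z, hxy, hxz, hyz, rfl⟩ := Finset.card_eq_three.1 hJ
  have hx : x ∈ ({x, y, z} : Finset (Fin g)) := by simp
  have hy : y ∈ ({x, y, z} : Finset (Fin g)) := by simp
  have hz : z ∈ ({x, y, z} : Finset (Fin g)) := by simp
  have ex : ({x, y, z} : Finset (Fin g)).erase x = {y, z} := by
    ext w
    simp only [Finset.mem_erase, Finset.mem_insert, Finset.mem_singleton]
    grind
  have ey : ({x, y, z} : Finset (Fin g)).erase y = {x, z} := by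
    ext w
    simp only [Finset.mem_erase, Finset.mem_insert, Finset.mem_singleton]
    grind
  have ez : ({x, y, z} : Finset (Fin g)).erase z = {x, y} := by
    ext w
    simp only [Finset.mem_erase, Finset.mem_insert, Finset.mem_singleton]
    grind
  have hp : ∀ f : Fin g → ℂ, ∏ i ∈ ({x, y, z} : Finset (Fin g)), f i = f x * f y * f z := by
    intro f
    rw [Finset.prod_insert (by simp [hxy, hxz]), Finset.prod_pair hyz, mul_assoc]
  have hsum : ∀ f : Fin g → ℂ, ∑ i ∈ ({x, y, z} : Finset (Fin g)), f i = f x + f y + f z := by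
    intro f
    rw [Finset.sum_insert (by simp [hxy, hxz]), Finset.sum_pair hyz, add_assoc]
  have px : pt a {x, y, z} x = -((a x + a y) / (a x - a y) * ((a x + a z) / (a x - a z))) := by
    unfold pt
    rw [if_pos hx, ex, Finset.prod_pair hyz]
  have py : pt a {x, y, z} y = -((a y + a x) / (a y - a x) * ((a y + a z) / (a y - a z))) := by
    unfold pt
    rw [if_pos hy, ey, Finset.prod_pair hxz]
  have pz : pt a {x, y, z} z = -((a z + a x) / (a z - a x) * ((a z + a y) / (a z - a y))) := by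
    unfold pt
    rw [if_pos hz, ez, Finset.prod_pair hxy]
  obtain ⟨nxy, sxy, qxy⟩ := hG.2 x hx y hy hxy
  obtain ⟨nxz, sxz, qxz⟩ := hG.2 x hx z hz hxz
  obtain ⟨nyz, syz, qyz⟩ := hG.2 y hy z hz hyz
  have d1 := sub_ne_zero.2 nxy
  have d2 := sub_ne_zero.2 nxz
  have d3 := sub_ne_zero.2 nyz
  have d1' := sub_ne_zero.2 (Ne.symm nxy)
  have d2' := sub_ne_zero.2 (Ne.symm nxz)
  have d3' := sub_ne_zero.2 (Ne.symm nyz)
  have hE : ∏ i ∈ ({x, y, z} : Finset (Fin g)), pt a {x, y, z} i =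
      (C.q x y)⁻¹ * (C.q x z)⁻¹ * (C.q y z)⁻¹ := by
    rw [hp, px, py, pz, qxy, qxz, qyz, ← inv_pow, ← inv_pow, ← inv_pow, inv_div, inv_div,
      inv_div]
    have e1 : (a y + a x) / (a y - a x) = -((a x + a y) / (a x - a y)) := by
      rw [← neg_sub (a x) (a y), div_neg, add_comm]
    have e2 : (a z + a x) / (a z - a x) = -((a x + a z) / (a x - a z)) := by
      rw [← neg_sub (a x) (a z), div_neg, add_comm]
    have e3 : (a z + a y) / (a z - a y) = -((a y + a z) / (a y - a z)) := by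
      rw [← neg_sub (a y) (a z), div_neg, add_comm]
    rw [e1, e2, e3]
    ring
  constructor
  · rw [hE]
    refine (((Sgn_qq_inv C hxy).mul (Sgn_qq_inv C hxz)).mul (Sgn_qq_inv C hyz)).congr
      fun n => ?_
    have hs : ∀ i j, C.τ n i j = C.τ n j i := fun i j => (C.siegel n).1.apply j i
    rw [hp, hsum, hsum, hsum]
    unfold qq
    rw [← Complex.exp_neg, ← Complex.exp_neg, ← Complex.exp_neg, ← Complex.exp_add,
      ← Complex.exp_add, ← Complex.exp_add, ← Complex.exp_add]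
    congr 1
    rw [hs y x, hs z x, hs z y]
    ring
  · rw [hE]
    exact mul_ne_zero (mul_ne_zero (inv_ne_zero (C.ne0 x y hxy)) (inv_ne_zero (C.ne0 x z hxz)))
      (inv_ne_zero (C.ne0 y z hyz))

theorem Cusp.signs {g : ℕ} (C : Cusp g) {a : Fin g → ℂ} {J : Finset (Fin g)} (hJ : J.card = 3)
    (hG : Good C.q a J) :
    ∃ δ : ℕ → Fin g → Fin 2, (∀ᶠ n in (C.U : Filter ℕ), Even (∑ i ∈ J, (δ n i : ℕ))) ∧
      ∀ δ' : ℕ → Fin g → Fin 2, (∀ n, ∀ i ∈ J, δ' n i = δ n i) →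
        (∀ k, Tendsto (fun n => Wv (C.τ n) k (cen (C.τ n) (ind J) (δ' n))) (C.U : Filter ℕ)
          (𝓝 (pt a J k))) ∧
        (∀ k, Tendsto (fun n => Wm (C.τ n) k (cen (C.τ n) (ind J) (δ' n))) (C.U : Filter ℕ)
          (𝓝 0)) := by
  classical
  set u : ℕ → Fin g → ℂ :=
    fun n i => cexp (Real.pi * I * (C.τ n i i - ∑ l ∈ J, C.τ n i l)) with hu
  set δ : ℕ → Fin g → Fin 2 :=
    fun n i => if ‖u n i - pt a J i‖ ≤ ‖u n i + pt a J i‖ then 0 else 1 with hδ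
  have hlim : ∀ i ∈ J, Tendsto (fun n => (-1) ^ (δ n i : ℕ) * u n i) (C.U : Filter ℕ)
      (𝓝 (pt a J i)) := by
    intro i hi
    exact Sgn_sign (w := fun n => u n i) (s := fun n => δ n i) (Sgn_sq C hG hi) fun n => rfl
  refine ⟨δ, ?_, ?_⟩
  · obtain ⟨hv, hE⟩ := Sgn_prod C hJ hG
    have h1 : Tendsto (fun n => ∏ i ∈ J, ((-1) ^ (δ n i : ℕ) * u n i)) (C.U : Filter ℕ)
        (𝓝 (∏ i ∈ J, pt a J i)) := tendsto_finsetProd _ hlim
    have h2 : Tendsto (fun n => ∏ i ∈ J, ((-1) ^ (δ n i : ℕ) * u n i) + ∏ i ∈ J, u n i)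
        (C.U : Filter ℕ) (𝓝 (∏ i ∈ J, pt a J i + ∏ i ∈ J, pt a J i)) := h1.add hv
    have h3 : (∏ i ∈ J, pt a J i + ∏ i ∈ J, pt a J i) ≠ 0 := by
      rw [← two_mul]
      exact mul_ne_zero two_ne_zero hE
    filter_upwards [h2.eventually_ne h3] with n hn
    by_contra h4
    apply hn
    rw [Finset.prod_mul_distrib, Finset.prod_pow_eq_pow_sum,
      (Nat.not_even_iff_odd.1 h4).neg_one_pow]
    ring
  · intro δ' hδ'
    refine ⟨fun k => ?_, fun k => Sgn_Wm_tend C J k δ'⟩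
    by_cases hk : k ∈ J
    · refine (hlim k hk).congr fun n => ?_
      rw [Sgn_Wv, hδ' n k hk]
    · have h1 : pt a J k = 0 := by
        unfold pt
        rw [if_neg hk]
      rw [h1]
      exact Sgn_Wv_tend C J hk δ'

end AMC
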