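import Pool.Agent.Lib.MP_b57e3c_ag_M.Ifp
import Pool.Agent.Lib.MP_b57e3c_ag_M.Hdz
import Pool.Agent.Lib.MP_b57e3c_ag_M.LmA
import Pool.Agent.Lib.MP_b57e3c_ag_M.LmB
import Pool.Agent.Lib.MP_b57e3c_ag_M.LmC
import Pool.Agent.Lib.MP_b57e3c_ag_M.LmD
import Pool.Agent.Lib.MP_b57e3c_ag_M.Ddm
import Pool.Agent.Lib.MP_b57e3c_ag_M.Sgn
import Pool.Agent.Lib.MP_b57e3c_ag_M.Mkc
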