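import Mathlib
import Pool.Agent.Lib.MP_b57e3c_ag.NDefs

/-!
# MP_b57e3c_ag, project M (near the maximal cusp) : definitions

* test functions and sets satisfying the maximum principle of dimension `m`;
* theta series with polynomial weights, the multiplicative coordinates `W`, `W⁻`;
* the limit polynomial `F(W) = ∑_S q_S W^S` and its logarithmic derivatives;
* sequences of period matrices going to the cusp.
-/

open Complex Filter Topology

namespace AMC

/-! ## test functions, maximum principle -/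

/-- the real quadratic form `Re (z̄ᵗ h z)` of a complex matrix `h` -/
noncomputable def HForm {g : ℕ} (h : Matrix (Fin g) (Fin g) ℂ) (z : Fin g → ℂ) : ℝ :=
  (∑ i, ∑ j, (starRingEnd ℂ) (z i) * h i j * z j).re

/-- the squared euclidean norm -/
noncomputable def nsq {g : ℕ} (z : Fin g → ℂ) : ℝ := ∑ i, ‖z i‖ ^ 2

/-- A test function for dimension `m`: real part of an entire function plus a Hermitian form which
is positive definite on some complex subspace of dimension at least `g - m + 1`. -/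
def TestFn {g : ℕ} (m : ℕ) (φ : (Fin g → ℂ) → ℝ) : Prop :=
  ∃ (P : (Fin g → ℂ) → ℂ) (h : Matrix (Fin g) (Fin g) ℂ) (V : Submodule ℂ (Fin g → ℂ)),
    Differentiable ℂ P ∧ (∀ z, φ z = (P z).re + HForm h z) ∧
    g + 1 ≤ Module.finrank ℂ V + m ∧ ∀ v ∈ V, v ≠ 0 → 0 < HForm h v

/-- `M` satisfies the maximum principle of dimension `m`: no test function for dimension `m` has a
local maximum on `M`. -/
def MP {g : ℕ} (m : ℕ) (M : Set (Fin g → ℂ)) : Prop :=
  ∀ φ : (Fin g → ℂ) → ℝ, TestFn m φ → ∀ p ∈ M, ¬ IsLocalMaxOn φ M p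

/-- Jacobian determinant of the functions `G i` with respect to the vectors `w j` -/
noncomputable def Jac {g ρ : ℕ} (G : Fin ρ → (Fin g → ℂ) → ℂ) (w : Fin ρ → Fin g → ℂ)
    (z : Fin g → ℂ) : ℂ :=
  Matrix.det (Matrix.of fun i j => fderiv ℂ (G i) z (w j))

/-- smooth (over `ℂ`) functions on `ℂ^g` -/
def Ent {g : ℕ} (H : (Fin g → ℂ) → ℂ) : Prop := ContDiff ℂ ((⊤ : ℕ∞) : WithTop ℕ∞) H

/-- the ideal of the smooth functions vanishing on the image of `f` -/
def Ideal {g d : ℕ} (f : (Fin d → ℂ) → (Fin g → ℂ)) (U : Set (Fin d → ℂ)) :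
    Set ((Fin g → ℂ) → ℂ) :=
  {H | Ent H ∧ ∀ u ∈ U, H (f u) = 0}

/-! ## gluing coordinates -/

/-- the vector with `J`-coordinates `x` and the other coordinates `s` -/
def glue {g : ℕ} (J : Finset (Fin g)) (x : {k // k ∈ J} → ℂ) (s : {k // k ∉ J} → ℂ) :
    Fin g → ℂ :=
  fun i => if h : i ∈ J then x ⟨i, h⟩ else s ⟨i, h⟩

/-! ## theta series with weights -/

/-- theta series with polynomial weight `∏_{i ∈ L} m_i` (for the opposite sign of `z`) -/
noncomputable def th {g : ℕ} (τ : Matrix (Fin g) (Fin g) ℂ) (L : List (Fin g)) (z : Fin g → ℂ) : ℂ :=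
  ∑' m : Fin g → ℤ, (L.map (fun i => (m i : ℂ))).prod *
    cexp (Real.pi * I * (∑ i, ∑ j, (m i : ℂ) * τ i j * (m j : ℂ))
      - 2 * Real.pi * I * ∑ i, (m i : ℂ) * z i)

/-- `W_k = exp (π i τ_kk - 2 π i z_k)` -/
noncomputable def Wv {g : ℕ} (τ : Matrix (Fin g) (Fin g) ℂ) (k : Fin g) (z : Fin g → ℂ) : ℂ :=
  cexp (Real.pi * I * τ k k - 2 * Real.pi * I * z k)

/-- `W⁻_k = exp (π i τ_kk + 2 π i z_k)` -/
noncomputable def Wm {g : ℕ} (τ : Matrix (Fin g) (Fin g) ℂ) (k : Fin g) (z : Fin g → ℂ) : ℂ :=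
  cexp (Real.pi * I * τ k k + 2 * Real.pi * I * z k)

/-- `q_ij = exp (2 π i τ_ij)` -/
noncomputable def qq {g : ℕ} (τ : Matrix (Fin g) (Fin g) ℂ) (i j : Fin g) : ℂ :=
  cexp (2 * Real.pi * I * τ i j)

/-- `q_S = ∏_{i < j in S} q_ij` -/
noncomputable def qS {g : ℕ} (q : Fin g → Fin g → ℂ) (S : Finset (Fin g)) : ℂ :=
  ∏ i ∈ S, ∏ j ∈ S, if i < j then q i j else 1

/-- `D_A F` for `F(W) = ∑_S q_S W^S` (multiaffine): the sum over the `S` containing `A`. -/
noncomputable def Dq {g : ℕ} (q : Fin g → Fin g → ℂ) (A : Finset (Fin g)) (W : Fin g → ℂ) : ℂ :=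
  ∑ S : Finset (Fin g), if A ⊆ S then qS q S * ∏ i ∈ S, W i else 0

/-- off-diagonal part -/
def off {g : ℕ} (τ : Matrix (Fin g) (Fin g) ℂ) : Matrix (Fin g) (Fin g) ℂ :=
  fun i j => if i = j then 0 else τ i j

/-- indicator of a set of indices, as the upper half of a characteristic -/
def ind {g : ℕ} (J : Finset (Fin g)) : Fin g → Fin 2 := fun i => if i ∈ J then 1 else 0

/-- symmetric matrix unit -/
def Esym {g : ℕ} (j k : Fin g) : Matrix (Fin g) (Fin g) ℂ :=
  Matrix.single j k 1 + Matrix.single k j 1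

/-- the point `(τ ε + δ)/2` of order two -/
noncomputable def cen {g : ℕ} (τ : Matrix (Fin g) (Fin g) ℂ) (ε δ : Fin g → Fin 2) : Fin g → ℂ :=
  fun i => ((∑ j, τ i j * ((ε j : ℕ) : ℂ)) + ((δ i : ℕ) : ℂ)) / 2

/-- the linear forms whose imaginary parts are the coordinates `y` of `z = x + τ y` -/
noncomputable def lf {g : ℕ} (τ : Matrix (Fin g) (Fin g) ℂ) (i : Fin g) :
    (Fin g → ℂ) →ₗ[ℂ] ℂ :=
  ∑ j, (((τ.map Complex.im)⁻¹ i j : ℝ) : ℂ) • LinearMap.proj j

/-- the coordinate `y_i` of `z = x + τ y` -/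
noncomputable def yc {g : ℕ} (τ : Matrix (Fin g) (Fin g) ℂ) (i : Fin g) (z : Fin g → ℂ) : ℝ :=
  (lf τ i z).im

/-! ## sequences going to the cusp -/

/-- A sequence of period matrices whose diagonal goes to `i ∞` and whose off-diagonal part
converges (along an ultrafilter), together with closed sets `M n` of singular points of the theta
divisor, invariant under the period lattice and satisfying the maximum principle of dimension
`g - 3`. -/
structure Cusp (g : ℕ) where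
  U : Ultrafilter ℕ
  τ : ℕ → Matrix (Fin g) (Fin g) ℂ
  M : ℕ → Set (Fin g → ℂ)
  q : Fin g → Fin g → ℂ
  B : ℝ
  siegel : ∀ n, AM.Siegel (τ n)
  bd : ∀ n i j, i ≠ j → |(τ n i j).im| ≤ B
  lim : ∀ i j, i ≠ j → Tendsto (fun n => qq (τ n) i j) U (𝓝 (q i j))
  diag : ∀ i, Tendsto (fun n => (τ n i i).im) U atTop
  sym : ∀ i j, q i j = q j i
  ne0 : ∀ i j, i ≠ j → q i j ≠ 0
  ne1 : ∀ i j, i ≠ j → q i j ≠ 1
  closed : ∀ n, IsClosed (M n)
  mp : ∀ n, MP (g - 3) (M n)
  sub : ∀ n, M n ⊆ AM.singTheta (τ n)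
  ne : ∀ n, (M n).Nonempty
  inv1 : ∀ n, ∀ z ∈ M n, ∀ k : Fin g → ℤ, (fun i => z i + (k i : ℂ)) ∈ M n
  inv2 : ∀ n, ∀ z ∈ M n, ∀ k : Fin g → ℤ, (fun i => z i + ∑ j, τ n i j * (k j : ℂ)) ∈ M n

/-- the limit set: `W` such that for most `n` there is a point of `M n` with coordinates `W`
close to `W` and coordinates `W⁻` close to `0` -/
def Cusp.Lim {g : ℕ} (C : Cusp g) : Set (Fin g → ℂ) :=
  {W | ∀ δ > 0, ∀ᶠ n in C.U, ∃ p ∈ C.M n, (∀ k, ‖Wv (C.τ n) k p - W k‖ < δ) ∧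
    ∀ k, ‖Wm (C.τ n) k p‖ < δ}

end AMC
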