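import Pool.Agent.Lib.MP_b57e3c_ag_M.Mkc
import Pool.Agent.Lib.MP_b57e3c_ag_M.Sed
import Pool.Agent.Lib.MP_b57e3c_ag_M.Kp
import Pool.Agent.Lib.MP_b57e3c_ag_M.Cen
import Pool.Agent.Lib.MP_b57e3c_ag_M.LmD
import Pool.Agent.Lib.MP_b57e3c_ag_M.Ddm
import Pool.Agent.Lib.MP_b57e3c_ag_M.Sgn
import Pool.Agent.Lib.MP_b57e3c_ag_M.Dtc

/-! # Main theorem (assembly) -/

open Complex Filter Topology

namespace AMC

/-- part (1): the off-diagonal part is close to hyperelliptic type -/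
def Near {g : ℕ} (η : ℝ) (τ : Matrix (Fin g) (Fin g) ℂ) : Prop :=
  ∃ a : Fin g → ℂ, (∀ i, a i ≠ 0) ∧ ∀ i j, i ≠ j → a i ≠ a j ∧ a i + a j ≠ 0 ∧
    ‖cexp (2 * Real.pi * I * τ i j) - ((a i - a j) / (a i + a j)) ^ 2‖ < η

/-- parts (2) and (3): vanishing of theta constants, independence of their differentials -/
def Vanish {g : ℕ} (τ : Matrix (Fin g) (Fin g) ℂ) : Prop :=
  ∃ δ : Finset (Fin g) → Fin g → Fin 2,
    (∀ J : Finset (Fin g), J.card = 3 → Even (∑ i ∈ J, (δ J i : ℕ)) ∧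
      ∀ δ' : Fin g → Fin 2, (∀ i ∈ J, δ' i = δ J i) → AM.thetaConst τ (ind J) δ' = 0) ∧
    ∀ o : Fin g, ∀ l : Finset (Fin g) → ℂ,
      (∀ j k, j ≠ o → k ≠ o → j ≠ k →
        ∑ J ∈ Finset.univ.filter (fun J : Finset (Fin g) => J.card = 3 ∧ o ∈ J),
          l J * deriv (fun t : ℂ => AM.thetaConst (τ + t • Esym j k) (ind J) (δ J)) 0 = 0) →
      ∀ J : Finset (Fin g), J.card = 3 → o ∈ J → l J = 0

noncomputable def Cusp.toLim {g : ℕ} (C : Cusp g) (hg : 3 ≤ g) : LimData g where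
  q := C.q
  L := C.Lim
  sym := C.sym
  ne0 := C.ne0
  ne1 := C.ne1
  closed := C.isClosed_Lim
  sing := fun W hW A hA => C.lim_sing hW A hA
  kp := fun W0 hW0 J hJ hJ0 hdet => C.kp hg hW0 hJ hJ0 hdet

theorem Cusp.near {g : ℕ} (C : Cusp g) (hg : 3 ≤ g) {η : ℝ} (hη : 0 < η) :
    ∀ᶠ n in (C.U : Filter ℕ), Near η (C.τ n) := by
  obtain ⟨a, hG, -⟩ := (C.toLim hg).main (C.exists_seed hg)
  have h : ∀ i j, i ≠ j → ∀ᶠ n in (C.U : Filter ℕ),
      ‖cexp (2 * Real.pi * I * C.τ n i j) - ((a i - a j) / (a i + a j)) ^ 2‖ < η := by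
    intro i j hij
    have h1 := C.lim i j hij
    have h2 : C.q i j = ((a i - a j) / (a i + a j)) ^ 2 :=
      (hG.2 i (Finset.mem_univ i) j (Finset.mem_univ j) hij).2.2
    rw [h2] at h1
    have h3 := (tendsto_iff_norm_sub_tendsto_zero.1 h1).eventually (gt_mem_nhds hη)
    exact h3
  have h' : ∀ᶠ n in (C.U : Filter ℕ), ∀ i j, i ≠ j →
      ‖cexp (2 * Real.pi * I * C.τ n i j) - ((a i - a j) / (a i + a j)) ^ 2‖ < η := by
    rw [eventually_all]
    intro i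
    rw [eventually_all]
    intro j
    by_cases hij : i = j
    · exact Eventually.of_forall fun n h => absurd hij h
    · filter_upwards [h i j hij] with n hn _ using hn
  filter_upwards [h'] with n hn
  refine ⟨a, fun i => hG.1 i (Finset.mem_univ i), fun i j hij => ?_⟩
  have := hG.2 i (Finset.mem_univ i) j (Finset.mem_univ j) hij
  exact ⟨this.1, this.2.1, hn i j hij⟩

theorem Cusp.cen_tendsto {g : ℕ} (C : Cusp g) (hg : 3 ≤ g) {e : Fin g → ℂ} (he : e ∈ C.Lim)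
    {J : Finset (Fin g)} (hJ : J.card = 3) (c : ℕ → Fin g → ℂ)
    (h1 : ∀ k, Tendsto (fun n => Wv (C.τ n) k (c n)) (C.U : Filter ℕ) (𝓝 (e k)))
    (h2 : ∀ k, Tendsto (fun n => Wm (C.τ n) k (c n)) (C.U : Filter ℕ) (𝓝 0))
    (L : List (Fin g)) (hL : L.length ≤ 2) :
    Tendsto (fun n => th (C.τ n) L (c n)) (C.U : Filter ℕ) (𝓝 (Dq C.q L.toFinset e)) := by
  rw [Metric.tendsto_nhds]
  intro κ hκ
  obtain ⟨δ, hδ, h⟩ := C.apx L hL e hκ
  have a1 : ∀ᶠ n in (C.U : Filter ℕ), ∀ k, ‖Wv (C.τ n) k (c n) - e k‖ < δ := by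
    rw [eventually_all]
    intro k
    exact (tendsto_iff_norm_sub_tendsto_zero.1 (h1 k)).eventually (gt_mem_nhds hδ)
  have a2 : ∀ᶠ n in (C.U : Filter ℕ), ∀ k, ‖Wm (C.τ n) k (c n)‖ < δ := by
    rw [eventually_all]
    intro k
    have := (tendsto_zero_iff_norm_tendsto_zero.1 (h2 k)).eventually (gt_mem_nhds hδ)
    exact this
  filter_upwards [h, a1, a2] with n hn b1 b2
  rw [dist_eq_norm]
  exact hn (c n) b1 b2

theorem Cusp.vanish {g : ℕ} (C : Cusp g) (hg : 3 ≤ g) :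
    ∀ᶠ n in (C.U : Filter ℕ), Vanish (C.τ n) := by
  classical
  obtain ⟨a, hG, hL⟩ := (C.toLim hg).main (C.exists_seed hg)
  have hL' : ∀ J : Finset (Fin g), J.card = 3 → pt a J ∈ C.Lim := hL
  have hGJ : ∀ J : Finset (Fin g), Good C.q a J := fun J =>
    ⟨fun i _ => hG.1 i (Finset.mem_univ i),
      fun i _ j _ => hG.2 i (Finset.mem_univ i) j (Finset.mem_univ j)⟩
  have hsg : ∀ J : Finset (Fin g), ∃ δ : ℕ → Fin g → Fin 2, J.card = 3 →
      (∀ᶠ n in (C.U : Filter ℕ), Even (∑ i ∈ J, (δ n i : ℕ))) ∧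
      ∀ δ' : ℕ → Fin g → Fin 2, (∀ n, ∀ i ∈ J, δ' n i = δ n i) →
        (∀ k, Tendsto (fun n => Wv (C.τ n) k (cen (C.τ n) (ind J) (δ' n))) (C.U : Filter ℕ)
          (𝓝 (pt a J k))) ∧
        (∀ k, Tendsto (fun n => Wm (C.τ n) k (cen (C.τ n) (ind J) (δ' n))) (C.U : Filter ℕ)
          (𝓝 0)) := by
    intro J
    by_cases hJ : J.card = 3
    · obtain ⟨δ, h⟩ := C.signs hJ (hGJ J)
      exact ⟨δ, fun _ => h⟩
    · exact ⟨fun _ _ => 0, fun h => absurd h hJ⟩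
  choose δ hδ using hsg
  -- centres are singular
  have hptne : ∀ J : Finset (Fin g), J.card = 3 → ∀ j ∈ J, pt a J j ≠ 0 := by
    intro J hJ j hj
    rw [pt, if_pos hj, neg_ne_zero, Finset.prod_ne_zero_iff]
    intro l hl
    have hlJ := Finset.mem_of_mem_erase hl
    have hne : j ≠ l := (Finset.ne_of_mem_erase hl).symm
    have h := (hGJ J).2 j hj l hlJ hne
    exact div_ne_zero h.2.1 (sub_ne_zero.2 h.1)
  have hpt0 : ∀ J : Finset (Fin g), ∀ k, k ∉ J → pt a J k = 0 := by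
    intro J k hk
    rw [pt, if_neg hk]
  have hdet : ∀ J : Finset (Fin g), J.card = 3 → (Hes C.q J (pt a J)).det ≠ 0 := by
    intro J hJ
    refine det_ne_zero hJ (fun i _ => C.lim_sing (hL' J hJ) {i} (by simp)) ?_
    intro i hi j hj hij
    exact pt_offdiag C.sym hJ (hGJ J) hi hj hij
  have hcen : ∀ J : Finset (Fin g), J.card = 3 → ∀ δ' : ℕ → Fin g → Fin 2,
      (∀ n, ∀ i ∈ J, δ' n i = δ J n i) →
      ∀ᶠ n in (C.U : Filter ℕ), cen (C.τ n) (ind J) (δ' n) ∈ AM.singTheta (C.τ n) := by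
    intro J hJ δ' hδ'
    obtain ⟨h1, h2⟩ := (hδ J hJ).2 δ' hδ'
    exact C.center hg (hL' J hJ) hJ (hptne J hJ) (hpt0 J) (hdet J hJ) _
      (fun n z hz m => sing_reflect (C.siegel n) hz (ind J) (δ' n) m) h1 h2
  have hcen' : ∀ᶠ n in (C.U : Filter ℕ), ∀ J : Finset (Fin g), J.card = 3 →
      ∀ δ' : Fin g → Fin 2, (∀ i ∈ J, δ' i = δ J n i) →
        cen (C.τ n) (ind J) δ' ∈ AM.singTheta (C.τ n) := by
    rw [eventually_all]
    intro J
    by_cases hJ : J.card = 3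
    swap
    · exact Eventually.of_forall fun n h => absurd h hJ
    have : ∀ η : Fin g → Fin 2, ∀ᶠ n in (C.U : Filter ℕ),
        cen (C.τ n) (ind J) (fun i => if i ∈ J then δ J n i else η i) ∈
          AM.singTheta (C.τ n) := by
      intro η
      exact hcen J hJ (fun n i => if i ∈ J then δ J n i else η i)
        (fun n i hi => by simp [hi])
    rw [← eventually_all] at this
    filter_upwards [this] with n hn _ δ' hδ'
    have := hn δ'
    have e : (fun i => if i ∈ J then δ J n i else δ' i) = δ' := by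
      funext i
      by_cases hi : i ∈ J
      · simp [hi, hδ' i hi]
      · simp [hi]
    rwa [e] at this
  have heven : ∀ᶠ n in (C.U : Filter ℕ), ∀ J : Finset (Fin g), J.card = 3 →
      Even (∑ i ∈ J, (δ J n i : ℕ)) := by
    rw [eventually_all]
    intro J
    by_cases hJ : J.card = 3
    · filter_upwards [(hδ J hJ).1] with n hn _ using hn
    · exact Eventually.of_forall fun n h => absurd h hJ
  -- independence
  have hind : ∀ o : Fin g, ∀ᶠ n in (C.U : Filter ℕ), ∀ l : Finset (Fin g) → ℂ,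
      (∀ j k, j ≠ o → k ≠ o → j ≠ k →
        ∑ J ∈ Finset.univ.filter (fun J : Finset (Fin g) => J.card = 3 ∧ o ∈ J),
          l J * th (C.τ n) [j, k] (cen (C.τ n) (ind J) (δ J n)) = 0) →
      ∀ J : Finset (Fin g), J.card = 3 → o ∈ J → l J = 0 := by
    intro o
    refine dominance (C.U) o
      (N := fun n J j k => th (C.τ n) [j, k] (cen (C.τ n) (ind J) (δ J n)))
      (h := fun J j k => Dq C.q {j, k} (pt a J)) ?_ ?_ ?_
    · intro J hJ ho j k hj hk hjk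
      obtain ⟨h1, h2⟩ := (hδ J hJ).2 (δ J) (fun n i _ => rfl)
      have := C.cen_tendsto hg (hL' J hJ) hJ _ h1 h2 [j, k] (by simp)
      simpa using this
    · intro J hJ ho j k hj hk hjk hn
      by_cases hjJ : j ∈ J
      · have hkJ : k ∉ J := fun h => hn ⟨hjJ, h⟩
        exact Dq_zero (hpt0 J k hkJ) (by simp)
      · exact Dq_zero (hpt0 J j hjJ) (by simp)
    · intro J hJ ho j k hj hk hjk hjJ hkJ
      exact pt_offdiag C.sym hJ (hGJ J) hjJ hkJ hjk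
  have hind' : ∀ᶠ n in (C.U : Filter ℕ), ∀ o : Fin g, ∀ l : Finset (Fin g) → ℂ,
      (∀ j k, j ≠ o → k ≠ o → j ≠ k →
        ∑ J ∈ Finset.univ.filter (fun J : Finset (Fin g) => J.card = 3 ∧ o ∈ J),
          l J * th (C.τ n) [j, k] (cen (C.τ n) (ind J) (δ J n)) = 0) →
      ∀ J : Finset (Fin g), J.card = 3 → o ∈ J → l J = 0 := by
    rw [eventually_all]
    exact hind
  filter_upwards [hcen', heven, hind'] with n hc he hi
  refine ⟨fun J => δ J n, fun J hJ => ⟨he J hJ, fun δ' hδ' => ?_⟩, fun o l hl J hJ hoJ => ?_⟩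
  · exact thetaConst_zero (C.siegel n) _ _ (hc J hJ δ' hδ')
  · set K : Finset (Fin g) → ℂ := fun J => 2 * Real.pi * I *
      cexp (Real.pi * I * (∑ i, ∑ j, ((ind J i : ℕ) : ℂ) * C.τ n i j *
      ((ind J j : ℕ) : ℂ)) / 4 + Real.pi * I * (∑ i, ((ind J i : ℕ) : ℂ) *
        ((δ J n i : ℕ) : ℂ)) / 2) with hK
    have hKne : K J ≠ 0 := by
      rw [hK]
      refine mul_ne_zero (mul_ne_zero (mul_ne_zero two_ne_zero ?_) I_ne_zero) (exp_ne_zero _)
      exact_mod_cast Real.pi_ne_zero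
    have hz : l J * K J = 0 := by
      refine hi o (fun J => l J * K J) ?_ J hJ hoJ
      intro j k hj hk hjk
      rw [← hl j k hj hk hjk]
      refine Finset.sum_congr rfl fun J' hJ' => ?_
      have hJ3 : J'.card = 3 := (Finset.mem_filter.1 hJ').2.1
      have hs := hc J' hJ3 (δ J' n) (fun i _ => rfl)
      rw [(deriv_thetaConst (C.siegel n) (ind J') (δ J' n) hjk hs).deriv, hK]
      ring
    exact (mul_eq_zero.1 hz).resolve_right hKne

theorem main (g : ℕ) (hg : 3 ≤ g) (K : Set (Matrix (Fin g) (Fin g) ℂ)) (hK : IsCompact K)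
    (hint : ∀ X ∈ K, ∀ i j, i ≠ j → ∀ k : ℤ, X i j ≠ k) (η : ℝ) (hη : 0 < η) :
    ∃ T : ℝ, ∀ τ : Matrix (Fin g) (Fin g) ℂ, AM.Siegel τ → off τ ∈ K →
      (∀ i, T ≤ (τ i i).im) → AM.DimGE (g - 3) (AM.singTheta τ) → Near η τ ∧ Vanish τ := by
  by_contra hcon
  push Not at hcon
  have h : ∀ n : ℕ, ∃ τ : Matrix (Fin g) (Fin g) ℂ, AM.Siegel τ ∧ off τ ∈ K ∧
      (∀ i, (n : ℝ) ≤ (τ i i).im) ∧ AM.DimGE (g - 3) (AM.singTheta τ) ∧
      (Near η τ → ¬ Vanish τ) := fun n => hcon n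
  choose τ h1 h2 h3 h4 h5 using h
  obtain ⟨C, hC⟩ := exists_cusp hK hint τ h1 h2 h3 h4
  obtain ⟨n, hn1, hn2⟩ := ((C.near hg hη).and (C.vanish hg)).exists
  rw [hC] at hn1 hn2
  exact h5 n hn1 hn2

end AMC
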