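import Pool.Agent.Lib.MP_b57e3c_ag_M.Reg
import Pool.Agent.Lib.MP_b57e3c_ag_M.Cls
import Pool.Agent.Lib.MP_b57e3c_ag_M.Qp

/-!
# Module Mex : the invariant set

`h` gives `U, f` with `f u ∈ singTheta τ` for `u ∈ U`; `exists_mp` gives `M₀`. The functions
`th τ []` and `th τ [i]` are `Ent` (`ent_th`) and vanish at the points `f u` (`mem_sing`), so they vanish on
`M₀`: `M₀ ⊆ singTheta τ`. For `(k, l) ∈ ℤ^g × ℤ^g` let `N (k,l) = {z | z + k + τ l ∈ M₀}`: closed,
`MP d` (`MP.add`), contained in `singTheta τ` (`sing_add_int`, `sing_add_tau` with `-k`, `-l`).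
`M = closure (⋃ N (k,l))`: `MP.closure_iUnion`; `singTheta τ` is closed (`mem_sing`, continuity); the
union is invariant under translations by the lattice, hence so is its closure (translations are
homeomorphisms / use continuity and sequences: `closure` and `image_closure_subset_closure_image`).
-/

open Complex Filter Topology

namespace AMC

/-- the period with coordinates `a` -/
noncomputable def Mex_per {g : ℕ} (τ : Matrix (Fin g) (Fin g) ℂ)
    (a : (Fin g → ℤ) × (Fin g → ℤ)) : Fin g → ℂ :=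
  fun i => (a.1 i : ℂ) + ∑ j, τ i j * (a.2 j : ℂ)

theorem Mex_sub1 {g : ℕ} (τ : Matrix (Fin g) (Fin g) ℂ) (a : (Fin g → ℤ) × (Fin g → ℤ))
    (z : Fin g → ℂ) (k : Fin g → ℤ) :
    (fun i => z i + (k i : ℂ)) + Mex_per τ (a.1 - k, a.2) = z + Mex_per τ a := by
  funext i
  simp only [Pi.add_apply, Mex_per, Pi.sub_apply, Int.cast_sub]
  ring

theorem Mex_sub2 {g : ℕ} (τ : Matrix (Fin g) (Fin g) ℂ) (a : (Fin g → ℤ) × (Fin g → ℤ))
    (z : Fin g → ℂ) (k : Fin g → ℤ) :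
    (fun i => z i + ∑ j, τ i j * (k j : ℂ)) + Mex_per τ (a.1, a.2 - k) = z + Mex_per τ a := by
  funext i
  simp only [Pi.add_apply, Mex_per, Pi.sub_apply, Int.cast_sub, mul_sub,
    Finset.sum_sub_distrib]
  ring

theorem Mex_sing {g : ℕ} {τ : Matrix (Fin g) (Fin g) ℂ} (hτ : AM.Siegel τ)
    (a : (Fin g → ℤ) × (Fin g → ℤ)) (z : Fin g → ℂ) (hz : z + Mex_per τ a ∈ AM.singTheta τ) :
    z ∈ AM.singTheta τ := by
  have h1 := sing_add_tau hτ (sing_add_int hτ hz (-a.1)) (-a.2)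
  convert h1 using 1
  funext i
  simp only [Pi.add_apply, Mex_per, Pi.neg_apply, Int.cast_neg, mul_neg,
    Finset.sum_neg_distrib]
  ring

theorem Mex_closed {g : ℕ} {τ : Matrix (Fin g) (Fin g) ℂ} (hτ : AM.Siegel τ) :
    IsClosed (AM.singTheta τ) := by
  have e : AM.singTheta τ = {z | th τ [] z = 0} ∩ ⋂ i, {z | th τ [i] z = 0} := by
    ext z
    rw [mem_sing hτ z, Set.mem_inter_iff, Set.mem_iInter]
    rfl
  rw [e]
  exact (isClosed_eq (ent_th hτ []).continuous continuous_const).inter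
    (isClosed_iInter fun i => isClosed_eq (ent_th hτ [i]).continuous continuous_const)

theorem exists_M {g d : ℕ} {τ : Matrix (Fin g) (Fin g) ℂ} (hτ : AM.Siegel τ)
    (h : AM.DimGE d (AM.singTheta τ)) :
    ∃ M : Set (Fin g → ℂ), IsClosed M ∧ M.Nonempty ∧ MP d M ∧ M ⊆ AM.singTheta τ ∧
      (∀ z ∈ M, ∀ k : Fin g → ℤ, (fun i => z i + (k i : ℂ)) ∈ M) ∧
      (∀ z ∈ M, ∀ k : Fin g → ℤ, (fun i => z i + ∑ j, τ i j * (k j : ℂ)) ∈ M) := by
  obtain ⟨U, f, hU, hne, hf, hinj, hfs⟩ := h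
  obtain ⟨M₀, hc₀, ⟨z₀, hz₀⟩, hmp₀, hv₀⟩ := exists_mp hU hne hf hinj
  have hsub : M₀ ⊆ AM.singTheta τ := fun z hz =>
    (mem_sing hτ z).2 ⟨hv₀ z hz _ (ent_th hτ []) fun u hu => ((mem_sing hτ _).1 (hfs u hu)).1,
      fun i => hv₀ z hz _ (ent_th hτ [i]) fun u hu => ((mem_sing hτ _).1 (hfs u hu)).2 i⟩
  refine ⟨closure (⋃ a, (fun z => z + Mex_per τ a) ⁻¹' M₀), isClosed_closure, ?_,
    MP.closure_iUnion (fun a => hc₀.preimage (continuous_id.add continuous_const))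
      (fun a => hmp₀.add (Mex_per τ a)), ?_, ?_, ?_⟩
  · refine ⟨z₀, subset_closure (Set.mem_iUnion.2 ⟨(0, 0), ?_⟩)⟩
    rw [Set.mem_preimage]
    convert hz₀ using 1
    funext i
    simp [Mex_per]
  · refine closure_minimal (Set.iUnion_subset fun a z hz => ?_) (Mex_closed hτ)
    exact Mex_sing hτ a z (hsub hz)
  · intro z hz k
    refine map_mem_closure (f := fun z : Fin g → ℂ => fun i => z i + (k i : ℂ)) ?_ hz ?_
    · fun_prop
    · intro w hw
      obtain ⟨a, ha⟩ := Set.mem_iUnion.1 hw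
      refine Set.mem_iUnion.2 ⟨(a.1 - k, a.2), ?_⟩
      rw [Set.mem_preimage] at ha ⊢
      rw [Mex_sub1]
      exact ha
  · intro z hz k
    refine map_mem_closure (f := fun z : Fin g → ℂ => fun i => z i + ∑ j, τ i j * (k j : ℂ))
      ?_ hz ?_
    · fun_prop
    · intro w hw
      obtain ⟨a, ha⟩ := Set.mem_iUnion.1 hw
      refine Set.mem_iUnion.2 ⟨(a.1, a.2 - k), ?_⟩
      rw [Set.mem_preimage] at ha ⊢
      rw [Mex_sub2]
      exact ha

end AMC
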