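import Pool.Agent.Lib.MP_b57e3c_ag_M.Crd

/-!
# Module Slm : the maximum of `y_i` on a periodic set is attained

`N` is closed, invariant under integer translations and under the translations by `τ k` for the integer
vectors `k` vanishing on `A`; `yc τ j = s j` on `N` for `j ∈ A`; `i ∉ A`, and `yc τ i z` is never an integer for
`z ∈ N`. `N₁ = {z ∈ N | 0 < yc τ i z < 1}` is nonempty: translate a point of `N` by `τ k`, `k = -⌊y_i⌋ e_i`
(`yc_add_tau`). Let `t = sup` of `yc τ i` on `N₁` (`≤ 1`). Take `z_n ∈ N₁` with `yc τ i z_n → t`; translating by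
`τ k` with `k` supported outside `A ∪ {i}` and then by an integer vector (this stays in `N` and does not
change `yc τ i`, nor `yc τ j` for `j ∈ A`) we may assume `|yc τ l z_n| ≤ R`, `|Re (z_n)_l| ≤ R` for all `l` with
`R = 1 + ∑ |s j|`. The box is compact (`compact_box`): a subsequence converges to `z ∈ N`, `yc τ i z = t`,
`0 ≤ t ≤ 1` (`t > 0` as a supremum of positive numbers), and `t` is not an integer, so `0 < t < 1`.
(Alternatively: maximise the continuous function `yc τ i` on the compact set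
`N ∩ box ∩ {0 ≤ yc τ i ≤ 1}`, and compare any `z ∈ N₁` with its translate in the box.)
-/

open Complex Filter Topology Metric

namespace AMC

/-- normalisation of the coordinates outside of `A ∪ {i}` -/
theorem Slm_norm {g : ℕ} {τ : Matrix (Fin g) (Fin g) ℂ} (hτ : AM.Siegel τ)
    {N : Set (Fin g → ℂ)} {A : Finset (Fin g)}
    {s : Fin g → ℝ} (hs : ∀ z ∈ N, ∀ j ∈ A, yc τ j z = s j) {i : Fin g} (hi : i ∉ A)
    (inv1 : ∀ z ∈ N, ∀ k : Fin g → ℤ, (fun i => z i + (k i : ℂ)) ∈ N)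
    (inv2 : ∀ z ∈ N, ∀ k : Fin g → ℤ, (∀ j ∈ A, k j = 0) →
      (fun i => z i + ∑ j, τ i j * (k j : ℂ)) ∈ N) {z : Fin g → ℂ} (hz : z ∈ N) (e : ℤ)
    (he0 : 0 ≤ yc τ i z + e) (he1 : yc τ i z + e ≤ 1) :
    ∃ w ∈ N, yc τ i w = yc τ i z + e ∧
      w ∈ {z : Fin g → ℂ | ∀ i, |(z i).re| ≤ 1 + ∑ j, |s j| ∧ |yc τ i z| ≤ 1 + ∑ j, |s j|} := by
  classical
  obtain ⟨k, hk⟩ : ∃ k : Fin g → ℤ, k = fun l => if l ∈ A then 0 else
    if l = i then e else -⌊yc τ l z⌋ := ⟨_, rfl⟩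
  have hkA : ∀ j ∈ A, k j = 0 := fun j hj => by
    rw [hk]
    exact if_pos hj
  have h1 := inv2 z hz k hkA
  obtain ⟨w, hw⟩ : ∃ w : Fin g → ℂ, w = fun i => z i + ∑ j, τ i j * (k j : ℂ) := ⟨_, rfl⟩
  rw [← hw] at h1
  have hwy : ∀ l, yc τ l w = yc τ l z + k l := fun l => by
    rw [hw, yc_add_tau hτ l z k]
  have h2 := inv1 w h1 (fun l => -⌊(w l).re⌋)
  obtain ⟨v, hv⟩ : ∃ v : Fin g → ℂ, v = fun l => w l + ((-⌊(w l).re⌋ : ℤ) : ℂ) := ⟨_, rfl⟩
  rw [← hv] at h2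
  have hvy : ∀ l, yc τ l v = yc τ l z + k l := fun l => by
    rw [hv, yc_add_int hτ l w (fun l => -⌊(w l).re⌋), hwy]
  have hS : 0 ≤ ∑ j, |s j| := Finset.sum_nonneg fun j _ => abs_nonneg _
  refine ⟨v, h2, ?_, fun l => ⟨?_, ?_⟩⟩
  · rw [hvy i, hk]
    simp only [if_neg hi, if_true]
  · have h3 : (v l).re = Int.fract (w l).re := by
      rw [hv]
      simp only [Complex.add_re, Complex.intCast_re, Int.cast_neg, Complex.neg_re]
      rw [Int.fract]
      ring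
    rw [h3, abs_of_nonneg (Int.fract_nonneg _)]
    have := Int.fract_lt_one (w l).re
    linarith
  · by_cases hl : l ∈ A
    · rw [hs v h2 l hl]
      have := Finset.single_le_sum (f := fun j => |s j|) (fun j _ => abs_nonneg _)
        (Finset.mem_univ l)
      linarith
    · by_cases hli : l = i
      · have h3 : yc τ l v = yc τ i z + e := by
          rw [hvy l, hli, hk]
          simp only [if_neg hi, if_true]
        rw [h3, abs_of_nonneg he0]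
        linarith
      · have h3 : yc τ l v = Int.fract (yc τ l z) := by
          rw [hvy l, hk]
          simp only [if_neg hl, if_neg hli, Int.cast_neg]
          rw [Int.fract]
          ring
        rw [h3, abs_of_nonneg (Int.fract_nonneg _)]
        have := Int.fract_lt_one (yc τ l z)
        linarith

theorem exists_max {g : ℕ} {τ : Matrix (Fin g) (Fin g) ℂ} (hτ : AM.Siegel τ)
    {N : Set (Fin g → ℂ)} (hN : IsClosed N) (hne : N.Nonempty) {A : Finset (Fin g)}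
    {s : Fin g → ℝ} (hs : ∀ z ∈ N, ∀ j ∈ A, yc τ j z = s j) {i : Fin g} (hi : i ∉ A)
    (inv1 : ∀ z ∈ N, ∀ k : Fin g → ℤ, (fun i => z i + (k i : ℂ)) ∈ N)
    (inv2 : ∀ z ∈ N, ∀ k : Fin g → ℤ, (∀ j ∈ A, k j = 0) →
      (fun i => z i + ∑ j, τ i j * (k j : ℂ)) ∈ N)
    (hint : ∀ z ∈ N, ∀ n : ℤ, yc τ i z ≠ n) :
    ∃ t : ℝ, 0 < t ∧ t < 1 ∧ (∃ z ∈ N, yc τ i z = t) ∧
      ∀ z ∈ N, 0 < yc τ i z → yc τ i z < 1 → yc τ i z ≤ t := by
  have hcont := continuous_yc τ i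
  have hcomp : IsCompact ({z : Fin g → ℂ | ∀ i, |(z i).re| ≤ 1 + ∑ j, |s j| ∧
      |yc τ i z| ≤ 1 + ∑ j, |s j|} ∩ (N ∩ {z | 0 ≤ yc τ i z ∧ yc τ i z ≤ 1})) :=
    (compact_box hτ _).inter_right (hN.inter
      ((isClosed_le continuous_const hcont).inter (isClosed_le hcont continuous_const)))
  obtain ⟨z₀, hz₀⟩ := hne
  have hf0 := Int.fract_nonneg (yc τ i z₀)
  have hf1 := Int.fract_lt_one (yc τ i z₀)
  have hfe : yc τ i z₀ + ((-⌊yc τ i z₀⌋ : ℤ) : ℝ) = Int.fract (yc τ i z₀) := by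
    rw [Int.cast_neg, Int.fract]
    ring
  obtain ⟨w₀, hw₀, hw₀y, hw₀b⟩ := Slm_norm hτ hs hi inv1 inv2 hz₀ (-⌊yc τ i z₀⌋)
    (by rw [hfe]; exact hf0) (by rw [hfe]; exact hf1.le)
  rw [hfe] at hw₀y
  obtain ⟨z₁, ⟨-, hz₁N, hz₁0, hz₁1⟩, hmax⟩ := hcomp.exists_isMaxOn
    ⟨w₀, hw₀b, hw₀, by rw [hw₀y]; exact hf0, by rw [hw₀y]; exact hf1.le⟩ hcont.continuousOn
  have hne0 : yc τ i z₁ ≠ 0 := by
    have := hint z₁ hz₁N 0
    simpa using this
  have hne1 : yc τ i z₁ ≠ 1 := by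
    have := hint z₁ hz₁N 1
    simpa using this
  refine ⟨yc τ i z₁, lt_of_le_of_ne hz₁0 (Ne.symm hne0), lt_of_le_of_ne hz₁1 hne1,
    ⟨z₁, hz₁N, rfl⟩, fun z hz h0 h1 => ?_⟩
  obtain ⟨w, hw, hwy, hwb⟩ := Slm_norm hτ hs hi inv1 inv2 hz 0 (by simpa using h0.le)
    (by simpa using h1.le)
  rw [Int.cast_zero, add_zero] at hwy
  have h2 := hmax ⟨hwb, hw, by rw [hwy]; exact h0.le, by rw [hwy]; exact h1.le⟩
  rw [Set.mem_ofPred_eq] at h2
  rw [← hwy]
  exact h2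

end AMC
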