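import Pool.Agent.Lib.MP_b57e3c_ag_M.Defs
import Pool.Agent.Lib.MP_b57e3c_ag.ThG

/-!
# Module Sum : a summable majorant of the weighted theta series

`Re (π i mᵗ τ m) = - π mᵗ (Im τ) m ≤ - π λ ∑ m_i²` with `λ > 0` the least eigenvalue (positive
definiteness and compactness of the unit sphere; homogeneous function of degree 2; `τ` symmetric is
part of `Siegel`; `(∑ ∑ m_i τ_ij m_j).im = ∑ ∑ m_i (τ_ij).im m_j`, `m` real), and
`Re (- 2 π i ∑ m_i z_i) = 2 π ∑ m_i Im z_i ≤ 2 π R ∑ |m_i|`; the weight is at most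
`∏_{i ∈ L} |m_i| ≤ ∏_i (1 + |m_i|)^(length L)` (each factor is at most `∏_i (1 + |m_i|)`).
So `b m = ∏_i β (m_i)` with `β(n) = (1 + |n|)^(length L) exp (- π λ n² + 2 π R |n|)`, a product of
summable functions on `ℤ`: summable on `Fin g → ℤ` (cf. `AM.hasSum_tuple` in
Lib/MP_b57e3c_ag/ThG.lean for sums over `Fin g → ℤ` of products; or induction on `g` with
`Fin.consEquiv`/`Summable.mul_of_nonneg`).
-/

open Complex Filter Topology

namespace AMC

private theorem Sum_low {g : ℕ} {M : Matrix (Fin g) (Fin g) ℝ} (hM : M.PosDef) :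
    ∃ lam > 0, ∀ x : Fin g → ℝ, lam * ∑ i, x i ^ 2 ≤ ∑ i, ∑ j, x i * M i j * x j := by
  rcases Nat.eq_zero_or_pos g with rfl | hg
  · exact ⟨1, one_pos, fun x => by simp⟩
  have hpos : ∀ x : Fin g → ℝ, x ≠ 0 → 0 < ∑ i, ∑ j, x i * M i j * x j := by
    intro x hx
    have h1 := hM.dotProduct_mulVec_pos hx
    have h2 : star x ⬝ᵥ (M.mulVec x) = ∑ i, ∑ j, x i * M i j * x j := by
      simp only [dotProduct, Matrix.mulVec, Pi.star_apply, star_trivial, Finset.mul_sum]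
      refine Finset.sum_congr rfl fun i _ => Finset.sum_congr rfl fun j _ => ?_
      ring
    rwa [h2] at h1
  have hc : Continuous fun x : Fin g → ℝ => ∑ i, ∑ j, x i * M i j * x j := by fun_prop
  have : Nonempty (Fin g) := ⟨⟨0, hg⟩⟩
  have hne : (Metric.sphere (0 : Fin g → ℝ) 1).Nonempty := by
    refine ⟨fun _ => 1, ?_⟩
    rw [mem_sphere_zero_iff_norm, pi_norm_const]
    simp
  obtain ⟨x₀, hx₀, hmin⟩ := (isCompact_sphere (0 : Fin g → ℝ) 1).exists_isMinOn hne hc.continuousOn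
  have hx₀' : x₀ ≠ 0 := by
    rintro rfl
    rw [mem_sphere_zero_iff_norm, norm_zero] at hx₀
    exact zero_ne_one hx₀
  set f₀ := ∑ i, ∑ j, x₀ i * M i j * x₀ j with hf₀
  have hf₀p : 0 < f₀ := hpos x₀ hx₀'
  have hgr : (0 : ℝ) < g := by exact_mod_cast hg
  refine ⟨f₀ / g, div_pos hf₀p hgr, fun x => ?_⟩
  by_cases hx : x = 0
  · subst hx
    simp
  have hnx : 0 < ‖x‖ := norm_pos_iff.2 hx
  have h1 : ‖x‖⁻¹ • x ∈ Metric.sphere (0 : Fin g → ℝ) 1 := by
    rw [mem_sphere_zero_iff_norm, norm_smul, norm_inv, norm_norm, inv_mul_cancel₀ hnx.ne']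
  have h2 : f₀ ≤ ∑ i, ∑ j, (‖x‖⁻¹ • x) i * M i j * (‖x‖⁻¹ • x) j := hmin h1
  have h3 : ∑ i, ∑ j, (‖x‖⁻¹ • x) i * M i j * (‖x‖⁻¹ • x) j =
      (‖x‖⁻¹) ^ 2 * ∑ i, ∑ j, x i * M i j * x j := by
    rw [Finset.mul_sum]
    refine Finset.sum_congr rfl fun i _ => ?_
    rw [Finset.mul_sum]
    refine Finset.sum_congr rfl fun j _ => ?_
    simp only [Pi.smul_apply, smul_eq_mul]
    ring
  rw [h3] at h2
  have h4 : f₀ * ‖x‖ ^ 2 ≤ ∑ i, ∑ j, x i * M i j * x j := by
    have h5 := mul_le_mul_of_nonneg_right h2 (sq_nonneg ‖x‖)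
    have h6 : (‖x‖⁻¹) ^ 2 * (∑ i, ∑ j, x i * M i j * x j) * ‖x‖ ^ 2 =
        ∑ i, ∑ j, x i * M i j * x j := by
      have h7 : ‖x‖⁻¹ ^ 2 * ‖x‖ ^ 2 = 1 := by
        rw [← mul_pow, inv_mul_cancel₀ hnx.ne', one_pow]
      calc (‖x‖⁻¹) ^ 2 * (∑ i, ∑ j, x i * M i j * x j) * ‖x‖ ^ 2
          = (‖x‖⁻¹ ^ 2 * ‖x‖ ^ 2) * ∑ i, ∑ j, x i * M i j * x j := by ring
        _ = _ := by rw [h7, one_mul]
    rwa [h6] at h5
  have h8 : ∑ i, x i ^ 2 ≤ g * ‖x‖ ^ 2 := by
    calc ∑ i, x i ^ 2 ≤ ∑ _i : Fin g, ‖x‖ ^ 2 := by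
          refine Finset.sum_le_sum fun i _ => ?_
          rw [← sq_abs]
          exact pow_le_pow_left₀ (abs_nonneg _) (norm_le_pi_norm x i) 2
      _ = g * ‖x‖ ^ 2 := by simp
  calc f₀ / g * ∑ i, x i ^ 2 ≤ f₀ / g * (g * ‖x‖ ^ 2) :=
        mul_le_mul_of_nonneg_left h8 (div_pos hf₀p hgr).le
    _ = f₀ * ‖x‖ ^ 2 := by field_simp
    _ ≤ _ := h4

private noncomputable def Sum_beta (k : ℕ) (lam R : ℝ) (n : ℤ) : ℝ :=
  (1 + |(n : ℝ)|) ^ k * Real.exp (-Real.pi * (lam * (n : ℝ) ^ 2 - 2 * R * |(n : ℝ)|))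

private theorem Sum_beta_summable (k : ℕ) {lam : ℝ} (hl : 0 < lam) (R : ℝ) :
    Summable (Sum_beta k lam R) := by
  have h0 := summable_pow_mul_jacobiTheta₂_term_bound R hl 0
  have hk := summable_pow_mul_jacobiTheta₂_term_bound R hl k
  refine Summable.of_nonneg_of_le (fun n => ?_) (fun n => ?_) ((h0.add hk).mul_left ((2 : ℝ) ^ k))
  · unfold Sum_beta
    positivity
  · unfold Sum_beta
    have h1 : (1 + |(n : ℝ)|) ^ k ≤ 2 ^ k * (|(n : ℝ)| ^ 0 + |(n : ℝ)| ^ k) := by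
      rw [pow_zero]
      rcases le_total |(n : ℝ)| 1 with h | h
      · calc (1 + |(n : ℝ)|) ^ k ≤ (2 : ℝ) ^ k :=
              pow_le_pow_left₀ (by positivity) (by linarith) k
          _ = 2 ^ k * 1 := by ring
          _ ≤ _ := by
            refine mul_le_mul_of_nonneg_left ?_ (by positivity)
            have : (0 : ℝ) ≤ |(n : ℝ)| ^ k := by positivity
            linarith
      · calc (1 + |(n : ℝ)|) ^ k ≤ (2 * |(n : ℝ)|) ^ k :=
              pow_le_pow_left₀ (by positivity) (by linarith) k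
          _ = 2 ^ k * |(n : ℝ)| ^ k := by rw [mul_pow]
          _ ≤ _ := by
            refine mul_le_mul_of_nonneg_left ?_ (by positivity)
            linarith
    calc (1 + |(n : ℝ)|) ^ k * Real.exp (-Real.pi * (lam * (n : ℝ) ^ 2 - 2 * R * |(n : ℝ)|))
        ≤ 2 ^ k * (|(n : ℝ)| ^ 0 + |(n : ℝ)| ^ k) *
          Real.exp (-Real.pi * (lam * (n : ℝ) ^ 2 - 2 * R * |(n : ℝ)|)) :=
          mul_le_mul_of_nonneg_right h1 (Real.exp_pos _).le
      _ = _ := by
        push_cast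
        ring

private theorem Sum_weight {g : ℕ} (L : List (Fin g)) (m : Fin g → ℤ) :
    ‖(L.map (fun i => (m i : ℂ))).prod‖ ≤ ∏ i, (1 + |(m i : ℝ)|) ^ L.length := by
  rw [Finset.prod_pow]
  have hP : ∀ i, |(m i : ℝ)| ≤ ∏ j, (1 + |(m j : ℝ)|) := by
    intro i
    have h2 : (1 : ℝ) ≤ ∏ j ∈ Finset.univ.erase i, (1 + |(m j : ℝ)|) := by
      calc (1 : ℝ) = ∏ _j ∈ Finset.univ.erase i, (1 : ℝ) := Finset.prod_const_one.symm
        _ ≤ _ := by
          refine Finset.prod_le_prod (fun j _ => zero_le_one) fun j _ => ?_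
          have := abs_nonneg (m j : ℝ)
          linarith
    rw [← Finset.mul_prod_erase Finset.univ _ (Finset.mem_univ i)]
    have h3 : (1 + |(m i : ℝ)|) * 1 ≤
        (1 + |(m i : ℝ)|) * ∏ j ∈ Finset.univ.erase i, (1 + |(m j : ℝ)|) :=
      mul_le_mul_of_nonneg_left h2 (by positivity)
    linarith
  induction L with
  | nil => simp
  | cons i L ih =>
    rw [List.map_cons, List.prod_cons, norm_mul, List.length_cons, pow_succ, mul_comm]
    refine mul_le_mul ih ?_ (norm_nonneg _) (by positivity)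
    rw [Complex.norm_intCast]
    exact hP i

theorem summable_majorant {g : ℕ} {τ : Matrix (Fin g) (Fin g) ℂ} (hτ : AM.Siegel τ)
    (L : List (Fin g)) (R : ℝ) :
    ∃ b : (Fin g → ℤ) → ℝ, Summable b ∧ ∀ (m : Fin g → ℤ) (z : Fin g → ℂ),
      (∀ i, |(z i).im| ≤ R) →
      ‖(L.map (fun i => (m i : ℂ))).prod *
        cexp (Real.pi * I * (∑ i, ∑ j, (m i : ℂ) * τ i j * (m j : ℂ))
          - 2 * Real.pi * I * ∑ i, (m i : ℂ) * z i)‖ ≤ b m := by
  obtain ⟨lam, hl, hlow⟩ := Sum_low hτ.2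
  refine ⟨fun m => ∏ i, Sum_beta L.length lam R (m i), ?_, fun m z hz => ?_⟩
  · have h1 : Summable fun n : ℤ => ((Sum_beta L.length lam R n : ℝ) : ℂ) :=
      Complex.summable_ofReal.2 (Sum_beta_summable L.length hl R)
    have h2 := (AM.hasSum_tuple g (fun _ n => ((Sum_beta L.length lam R n : ℝ) : ℂ)) _
      (fun _ => h1.hasSum)).summable
    rw [← Complex.summable_ofReal]
    refine h2.congr fun m => ?_
    push_cast
    rfl
  · rw [norm_mul, Complex.norm_exp]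
    have h1 : (Real.pi * I * (∑ i, ∑ j, (m i : ℂ) * τ i j * (m j : ℂ))
        - 2 * Real.pi * I * ∑ i, (m i : ℂ) * z i).re =
        -Real.pi * (∑ i, ∑ j, (m i : ℝ) * (τ.map Complex.im) i j * (m j : ℝ)) +
          2 * Real.pi * ∑ i, (m i : ℝ) * (z i).im := by
      have e1 : ∀ w : ℂ, (Real.pi * I * w).re = -Real.pi * w.im := by
        intro w
        simp [Complex.mul_re]
      have e2 : ∀ w : ℂ, (2 * Real.pi * I * w).re = -(2 * Real.pi * w.im) := by
        intro w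
        simp [Complex.mul_re]
      have e3 : (∑ i, ∑ j, (m i : ℂ) * τ i j * (m j : ℂ)).im =
          ∑ i, ∑ j, (m i : ℝ) * (τ.map Complex.im) i j * (m j : ℝ) := by
        rw [Complex.im_sum]
        refine Finset.sum_congr rfl fun i _ => ?_
        rw [Complex.im_sum]
        refine Finset.sum_congr rfl fun j _ => ?_
        simp [Complex.mul_im, Complex.mul_re]
      have e4 : (∑ i, (m i : ℂ) * z i).im = ∑ i, (m i : ℝ) * (z i).im := by
        rw [Complex.im_sum]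
        refine Finset.sum_congr rfl fun i _ => ?_
        simp [Complex.mul_im]
      rw [Complex.sub_re, e1, e2, e3, e4]
      ring
    rw [h1]
    have h2 := hlow fun i => (m i : ℝ)
    have h3 : ∑ i, (m i : ℝ) * (z i).im ≤ ∑ i, R * |(m i : ℝ)| := by
      refine Finset.sum_le_sum fun i _ => ?_
      calc (m i : ℝ) * (z i).im ≤ |(m i : ℝ) * (z i).im| := le_abs_self _
        _ = |(m i : ℝ)| * |(z i).im| := abs_mul _ _
        _ ≤ |(m i : ℝ)| * R := mul_le_mul_of_nonneg_left (hz i) (abs_nonneg _)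
        _ = R * |(m i : ℝ)| := mul_comm _ _
    have h4 : -Real.pi * (∑ i, ∑ j, (m i : ℝ) * (τ.map Complex.im) i j * (m j : ℝ)) +
        2 * Real.pi * ∑ i, (m i : ℝ) * (z i).im ≤
        ∑ i, -Real.pi * (lam * (m i : ℝ) ^ 2 - 2 * R * |(m i : ℝ)|) := by
      have h5 : ∑ i, -Real.pi * (lam * (m i : ℝ) ^ 2 - 2 * R * |(m i : ℝ)|) =
          -Real.pi * (lam * ∑ i, (m i : ℝ) ^ 2) + 2 * Real.pi * ∑ i, R * |(m i : ℝ)| := by
        simp only [Finset.mul_sum]
        rw [← Finset.sum_add_distrib]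
        refine Finset.sum_congr rfl fun i _ => ?_
        ring
      rw [h5]
      have h6 := mul_le_mul_of_nonneg_left h2 Real.pi_pos.le
      have h7 := mul_le_mul_of_nonneg_left h3 (mul_pos two_pos Real.pi_pos).le
      linarith
    have h8 : ∏ i, Sum_beta L.length lam R (m i) = (∏ i, (1 + |(m i : ℝ)|) ^ L.length) *
        Real.exp (∑ i, -Real.pi * (lam * (m i : ℝ) ^ 2 - 2 * R * |(m i : ℝ)|)) := by
      rw [Real.exp_sum, ← Finset.prod_mul_distrib]
      rfl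
    refine le_of_le_of_eq ?_ h8.symm
    exact mul_le_mul (Sum_weight L m) (Real.exp_le_exp.2 h4) (Real.exp_pos _).le
      (Finset.prod_nonneg fun i _ => by positivity)

end AMC
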